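import Mathlib

/-!
# MP_2f3286_ag, campaign II, module GENPT: a point over a bigger field, with a derivation
-/

open scoped TensorProduct

namespace Pool.Agent.Lib.MP_2f3286_ag.Pt

namespace GenPt

open scoped IntermediateField.algebraAdjoinAdjoin in
/-- a transcendental element is not killed by some derivation (characteristic zero) -/
lemma exists_der {C E : Type*} [Field C] [CharZero C] [Field E] [Algebra C E] (x : E)
    (hx : Transcendental C x) : ∃ δ : Derivation C E E, δ x ≠ 0 := by
  classical
  have hs : AlgebraicIndepOn C id ({x} : Set E) := by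
    rw [AlgebraicIndepOn, algebraicIndependent_unique_type_iff]
    exact hx
  obtain ⟨t, hxt, ht⟩ := exists_isTranscendenceBasis_superset hs
  let i : t := ⟨x, hxt rfl⟩
  let v : t → E := (↑)
  let e : MvPolynomial t C ≃ₐ[C] Algebra.adjoin C (Set.range v) := ht.1.aevalEquiv
  have h1 : Algebra.FormallyEtale (Algebra.adjoin C (Set.range v))
      (IntermediateField.adjoin C (Set.range v)) :=
    Algebra.FormallyEtale.of_isLocalization (nonZeroDivisors _)
  have h2 : Algebra.IsAlgebraic (IntermediateField.adjoin C (Set.range v)) E :=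
    ht.isAlgebraic_field
  have h3 : Algebra.FormallyEtale (IntermediateField.adjoin C (Set.range v)) E :=
    Algebra.FormallyEtale.of_isSeparable _ _
  have h4 : Algebra.FormallyEtale (Algebra.adjoin C (Set.range v)) E :=
    Algebra.FormallyEtale.comp _ (IntermediateField.adjoin C (Set.range v)) _
  -- the derivation on the polynomial ring
  let d1 : Derivation C (Algebra.adjoin C (Set.range v)) (Algebra.adjoin C (Set.range v)) :=
    Derivation.mk' (e.toLinearMap ∘ₗ (MvPolynomial.pderiv i).toLinearMap ∘ₗ
      e.symm.toLinearMap) (by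
        intro a b
        change e (MvPolynomial.pderiv i (e.symm (a * b))) =
          a * e (MvPolynomial.pderiv i (e.symm b)) + b * e (MvPolynomial.pderiv i (e.symm a))
        rw [map_mul, Derivation.leibniz, smul_eq_mul, smul_eq_mul, map_add, map_mul, map_mul,
          AlgEquiv.apply_symm_apply, AlgEquiv.apply_symm_apply])
  let d2 : Derivation C (Algebra.adjoin C (Set.range v)) E :=
    (Algebra.linearMap (Algebra.adjoin C (Set.range v)) E).compDer d1
  have hxA : x ∈ Algebra.adjoin C (Set.range v) := Algebra.subset_adjoin ⟨i, rfl⟩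
  have hex : e (MvPolynomial.X i) = ⟨x, hxA⟩ := by
    apply Subtype.ext
    change ((ht.1.aevalEquiv (MvPolynomial.X i) : Algebra.adjoin C (Set.range v)) : E) = x
    have := ht.1.algebraMap_aevalEquiv (MvPolynomial.X i)
    rw [MvPolynomial.aeval_X] at this
    exact this
  have hd2 : d2 ⟨x, hxA⟩ = 1 := by
    change algebraMap _ E (e (MvPolynomial.pderiv i (e.symm ⟨x, hxA⟩))) = 1
    rw [← hex, AlgEquiv.symm_apply_apply, MvPolynomial.pderiv_X_self, map_one, map_one]
  let l : (E ⊗[Algebra.adjoin C (Set.range v)] Ω[Algebra.adjoin C (Set.range v)⁄C]) →ₗ[E] E :=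
    LinearMap.liftBaseChange E d2.liftKaehlerDifferential
  let q := KaehlerDifferential.tensorKaehlerEquivOfFormallyEtale C
    (Algebra.adjoin C (Set.range v)) E
  let δ : Derivation C E E := (l ∘ₗ q.symm.toLinearMap).compDer (KaehlerDifferential.D C E)
  refine ⟨δ, ?_⟩
  have h5 : δ x = 1 := by
    change l (q.symm (KaehlerDifferential.D C E x)) = 1
    have h6 := KaehlerDifferential.tensorKaehlerEquivOfFormallyEtale_symm_D_algebraMap C
      (Algebra.adjoin C (Set.range v)) E ⟨x, hxA⟩
    change q.symm (KaehlerDifferential.D C E x) = _ at h6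
    rw [h6]
    change LinearMap.liftBaseChange E d2.liftKaehlerDifferential _ = 1
    rw [LinearMap.liftBaseChange_tmul, Derivation.liftKaehlerDifferential_comp_D, hd2, one_smul]
  rw [h5]
  exact one_ne_zero

/-- elements algebraic over an algebraically closed field are constants -/
lemma mem_range {C E : Type*} [Field C] [IsAlgClosed C] [Field E] [Algebra C E] (x : E)
    (hx : ¬ Transcendental C x) : ∃ c, algebraMap C E c = x := by
  rw [Transcendental, not_not] at hx
  have h1 : IsIntegral C x := hx.isIntegral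
  exact minpoly.mem_range_of_degree_eq_one C x
    (IsAlgClosed.degree_eq_one_of_irreducible C (minpoly.irreducible h1))

end GenPt

open GenPt in
universe u in
theorem exists_generic {C : Type u} [Field C] [IsAlgClosed C] [CharZero C] {σ : Type} [Finite σ]
    (I : Set (MvPolynomial σ C)) (h : MvPolynomial σ C) (j : σ)
    (hinf : Set.Infinite {c : C | ∃ z : σ → C, (∀ p ∈ I, MvPolynomial.eval z p = 0) ∧
      MvPolynomial.eval z h ≠ 0 ∧ z j = c}) :
    ∃ (E : Type u) (_ : Field E) (_ : Algebra C E) (z : σ → E) (δ : Derivation C E E),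
      (∀ p ∈ I, MvPolynomial.aeval z p = 0) ∧ MvPolynomial.aeval z h ≠ 0 ∧ δ (z j) ≠ 0 := by
  classical
  let W : Ideal (MvPolynomial σ C) → Set C := fun P =>
    {c : C | ∃ z : σ → C, P ≤ RingHom.ker (MvPolynomial.eval z) ∧
      MvPolynomial.eval z h ≠ 0 ∧ z j = c}
  have hfin : (Ideal.span I).minimalPrimes.Finite :=
    Ideal.finite_minimalPrimes_of_isNoetherianRing _ _
  obtain ⟨P, hP, hPinf⟩ : ∃ P ∈ (Ideal.span I).minimalPrimes, (W P).Infinite := by
    by_contra hcon
    push Not at hcon
    apply hinf
    refine (hfin.biUnion fun P hP => ?_ : (⋃ P ∈ (Ideal.span I).minimalPrimes, W P).Finite).subset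
      ?_
    · exact hcon P hP
    · rintro c ⟨z, hz, hzh, hzj⟩
      have h1 : Ideal.span I ≤ RingHom.ker (MvPolynomial.eval z) := by
        rw [Ideal.span_le]
        intro p hp
        exact hz p hp
      have hprime : (RingHom.ker (MvPolynomial.eval z)).IsPrime := RingHom.ker_isPrime _
      obtain ⟨P, hP, hPz⟩ := Ideal.exists_minimalPrimes_le h1
      exact Set.mem_biUnion hP ⟨z, hPz, hzh, hzj⟩
  have hPprime : P.IsPrime := hP.1.1
  have hIP : Ideal.span I ≤ P := hP.1.2
  let R := MvPolynomial σ C ⧸ P
  have hdom : IsDomain R := Ideal.Quotient.isDomain P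
  let E := FractionRing R
  let ρ : MvPolynomial σ C →ₐ[C] E :=
    (IsScalarTower.toAlgHom C R E).comp (Ideal.Quotient.mkₐ C P)
  have hρ0 : ∀ p, ρ p = 0 ↔ p ∈ P := by
    intro p
    change algebraMap R E (Ideal.Quotient.mk P p) = 0 ↔ p ∈ P
    rw [map_eq_zero_iff _ (IsFractionRing.injective R E), Ideal.Quotient.eq_zero_iff_mem]
  let z : σ → E := fun s => ρ (MvPolynomial.X s)
  have hz : ∀ p, MvPolynomial.aeval z p = ρ p := by
    intro p
    have : MvPolynomial.aeval z = ρ := by
      ext s
      simp [z]
    rw [this]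
  obtain ⟨c₁, z₁, hz₁, hz₁h, -⟩ := hPinf.nonempty
  have htr : Transcendental C (z j) := by
    by_contra hcon
    obtain ⟨c, hc⟩ := mem_range _ hcon
    apply hPinf
    refine (Set.finite_singleton c).subset ?_
    rintro c' ⟨z', hz', -, hz'j⟩
    have h1 : (MvPolynomial.X j - MvPolynomial.C c : MvPolynomial σ C) ∈ P := by
      rw [← hρ0, map_sub]
      have h2 : ρ (MvPolynomial.C c) = algebraMap C E c := by
        have := ρ.commutes c
        rwa [MvPolynomial.algebraMap_eq] at this
      rw [h2, hc, sub_self]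
    have h3 := hz' h1
    rw [RingHom.mem_ker, map_sub, MvPolynomial.eval_X, MvPolynomial.eval_C, sub_eq_zero] at h3
    rw [Set.mem_singleton_iff, ← hz'j, h3]
  obtain ⟨δ, hδ⟩ := exists_der (z j) htr
  refine ⟨E, inferInstance, inferInstance, z, δ, ?_, ?_, hδ⟩
  · intro p hp
    rw [hz, hρ0]
    exact hIP (Ideal.subset_span hp)
  · rw [hz, Ne, hρ0]
    intro hh
    exact hz₁h (hz₁ hh)

end Pool.Agent.Lib.MP_2f3286_ag.Pt
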