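import Mathlib

/-!
# Shared definitions: affine curves with one point at infinity, points and places
-/

open Polynomial IntermediateField IsDedekindDomain
open scoped TensorProduct

namespace Pool.Agent.Lib.MP_2f3286_ag.Pt

/-- `d` is the pole order at the missing point of an affine curve `Spec B` over `C` with exactly one
point at infinity. -/
structure IsPoleDeg (C : Type*) {B : Type*} [Field C] [CommRing B] [Algebra C B] (d : B → ℕ) :
    Prop where
  zero : d 0 = 0
  mul : ∀ x y, x ≠ 0 → y ≠ 0 → d (x * y) = d x + d y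
  add : ∀ x y, d (x + y) ≤ max (d x) (d y)
  const : ∀ x, d x = 0 ↔ ∃ c : C, x = algebraMap C B c
  lead : ∀ x y, y ≠ 0 → d x ≤ d y → ∃ c : C, x - c • y = 0 ∨ d (x - c • y) < d y
  large : ∃ n₀, ∀ n, n₀ ≤ n → ∃ x, x ≠ 0 ∧ d x = n

/-- The elements of pole order at most `m`. -/
def W {C B : Type*} [Field C] [CommRing B] [Algebra C B] {d : B → ℕ} (hd : IsPoleDeg C d) (m : ℕ) :
    Submodule C B where
  carrier := {x | d x ≤ m}
  zero_mem' := by
    change d 0 ≤ m
    rw [hd.zero]
    exact Nat.zero_le m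
  add_mem' {x y} hx hy := (hd.add x y).trans (max_le hx hy)
  smul_mem' c x hx := by
    change d (c • x) ≤ m
    by_cases hc : c = 0
    · rw [hc, zero_smul, hd.zero]; exact Nat.zero_le m
    by_cases hx0 : x = 0
    · rw [hx0, smul_zero, hd.zero]; exact Nat.zero_le m
    rw [Algebra.smul_def]
    by_cases hc1 : algebraMap C B c = 0
    · rw [hc1, zero_mul, hd.zero]; exact Nat.zero_le m
    rw [hd.mul _ _ hc1 hx0, (hd.const _).2 ⟨c, rfl⟩, zero_add]
    exact hx

/-- An element of the fraction field has pole order at most `m`. -/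
def DLe {B : Type*} [CommRing B] (d : B → ℕ) {L : Type*} [Field L] [Algebra B L] (m : ℕ) (x : L) :
    Prop := ∃ a b : B, b ≠ 0 ∧ x * algebraMap B L b = algebraMap B L a ∧ d a ≤ d b + m

/-- The map `C[[s]] ⊗ B → B[[s]]`. -/
noncomputable def conv (C B : Type*) [Field C] [CommRing B] [Algebra C B] :
    PowerSeries C ⊗[C] B →ₐ[C] PowerSeries B :=
  Algebra.TensorProduct.lift (PowerSeries.mapAlgHom (Algebra.ofId C B))
    (IsScalarTower.toAlgHom C B (PowerSeries B)) (fun _ _ => Commute.all _ _)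

/-- Evaluation `C[[s]] ⊗ B → C[[s]]`. -/
noncomputable def evS {C B : Type*} [Field C] [CommRing B] [Algebra C B]
    (ev : B →ₐ[C] PowerSeries C) : PowerSeries C ⊗[C] B →ₐ[C] PowerSeries C :=
  Algebra.TensorProduct.lift (AlgHom.id C _) ev (fun _ _ => Commute.all _ _)

/-- `n` divides the valuation of `ρ` at `Q`. -/
def DivAt {L : Type*} [Field L] (n : ℕ) (ρ : L) (Q : ValuationSubring L) : Prop :=
  ∃ c : L, c ≠ 0 ∧ Q.valuation (ρ * (c ^ n)⁻¹) = 1

/-- `Ψ` is a `kb`-point of the integral closure of `R` in `M`. -/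
def IsPt (R M kb : Type*) [CommRing R] [Field M] [Field kb] [Algebra R M] [Algebra kb M]
    (Ψ : integralClosure R M →+* kb) : Prop :=
  ∀ (a : kb) (b : integralClosure R M), (b : M) = algebraMap kb M a → Ψ b = a

/-- `Q` is the valuation ring of the point `Ψ` on the subfield `E`. -/
def IsPlaceOfPt {R M kb : Type*} [CommRing R] [Field M] [Field kb] [Algebra R M]
    (Ψ : integralClosure R M →+* kb) {K : Type*} [Field K] [Algebra K M]
    (E : IntermediateField K M) (Q : ValuationSubring E) : Prop :=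
  ∀ x : E, x ∈ Q ↔ ∃ a b : integralClosure R M, (a : M) ∈ E ∧ (b : M) ∈ E ∧ Ψ b ≠ 0 ∧
    (x : M) * b = a

/-- `M` is closed under unramified radicals: every element that is at each point of the integral
closure of `R` in `M` a unit times an `n`-th power has an `n`-th root in `M`. -/
def IsRadClosed (R M kb : Type*) [CommRing R] [Field M] [Field kb] [Algebra R M]
    [Algebra kb M] : Prop :=
  ∀ (n : ℕ) (ρ : M), 1 ≤ n → ρ ≠ 0 → (∀ Ψ : integralClosure R M →+* kb, IsPt R M kb Ψ →
    ∃ (c : M) (x y : integralClosure R M), Ψ x ≠ 0 ∧ Ψ y ≠ 0 ∧ ρ * x = c ^ n * y) →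
    ∃ β : M, β ^ n = ρ

end Pool.Agent.Lib.MP_2f3286_ag.Pt
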