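import Mathlib
import Pool.Agent.Lib.MP_2f3286_ag.Pt.Defs

/-!
# Extensions unramified over a proper curve
-/

open Polynomial IntermediateField

namespace Pool.Agent.Lib.MP_2f3286_ag.Pt

/-- `g` is in the inertia group of the valuation ring `V`. -/
def IsInertAt {K M : Type*} [Field K] [Field M] [Algebra K M] (V : ValuationSubring M)
    (g : Gal(M/K)) : Prop :=
  ∀ x ∈ V, g x ∈ V ∧ V.valuation (g x - x) < 1

/-- `V` is a place of `M` over `kb`. -/
def IsPlc (kb : Type*) {M : Type*} [Field kb] [Field M] [Algebra kb M]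
    (V : ValuationSubring M) : Prop :=
  (∀ a : kb, algebraMap kb M a ∈ V) ∧ V ≠ ⊤

/-- `M/K` is unramified at every place over `kb`. -/
def IsUnramEv (K M kb : Type*) [Field K] [Field M] [Field kb] [Algebra K M] [Algebra kb M] : Prop :=
  ∀ V : ValuationSubring M, IsPlc kb V → ∀ g : Gal(M/K), IsInertAt V g → g = 1

/-- `M` is closed under everywhere unramified radicals. -/
def IsRadClosedEv (M kb : Type*) [Field M] [Field kb] [Algebra kb M] : Prop :=
  ∀ (n : ℕ) (ρ : M), 1 ≤ n → ρ ≠ 0 → (∀ V : ValuationSubring M, IsPlc kb V → DivAt n ρ V) →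
    ∃ β : M, β ^ n = ρ

/-- `M` is the maximal extension of `K` that is unramified at every place over `kb`: the field of all
elements of an algebraic closure fixed by all inertia groups. -/
def IsMaxUnramEv (K M kb : Type*) [Field K] [Field M] [Field kb] [Algebra K M] [Algebra kb M] :
    Prop :=
  ∀ x : AlgebraicClosure M, (∃ m : M, algebraMap M (AlgebraicClosure M) m = x) ↔
    ∀ V : ValuationSubring (AlgebraicClosure M), IsPlc kb V →
      ∀ g : Gal(AlgebraicClosure M/K), IsInertAt V g → g x = x

end Pool.Agent.Lib.MP_2f3286_ag.Pt
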