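import Mathlib
import Pool.Agent.Lib.MP_2f3286_ag.Pt.PropDefs

/-!
# Extensions unramified over a curve, proper or not

`R` is a ring of functions; the curve is the set of the places which contain `R`. For `R = k` it is
the proper curve, for the ring of functions of an affine curve it is that curve.
-/

open Polynomial IntermediateField

namespace Pool.Agent.Lib.MP_2f3286_ag.Pt

/-- `V` is a place of `M` over `kb` at which the elements of `R` are finite. -/
def IsPlcOver (R kb : Type*) {M : Type*} [CommRing R] [Field kb] [Field M] [Algebra R M]
    [Algebra kb M] (V : ValuationSubring M) : Prop :=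
  IsPlc kb V ∧ ∀ r : R, algebraMap R M r ∈ V

/-- `M/K` is unramified at every place over `kb` at which the elements of `R` are finite. -/
def IsUnramOver (R K M kb : Type*) [CommRing R] [Field K] [Field M] [Field kb] [Algebra R M]
    [Algebra K M] [Algebra kb M] : Prop :=
  ∀ V : ValuationSubring M, IsPlcOver R kb V → ∀ g : Gal(M/K), IsInertAt V g → g = 1

/-- `M` is closed under radicals unramified at all places at which `R` is finite. -/
def IsRadClosedOver (R M kb : Type*) [CommRing R] [Field M] [Field kb] [Algebra R M]
    [Algebra kb M] : Prop :=
  ∀ (n : ℕ) (ρ : M), 1 ≤ n → ρ ≠ 0 →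
    (∀ V : ValuationSubring M, IsPlcOver R kb V → DivAt n ρ V) → ∃ β : M, β ^ n = ρ

/-- `M` is the maximal extension of `K` that is unramified at every place over `kb` at which the
elements of `R` are finite: the field of all elements of an algebraic closure fixed by all inertia
groups. -/
def IsMaxUnramOver (R K M kb : Type*) [CommRing R] [Field K] [Field M] [Field kb] [Algebra R M]
    [Algebra K M] [Algebra kb M] : Prop :=
  ∀ x : AlgebraicClosure M, (∃ m : M, algebraMap M (AlgebraicClosure M) m = x) ↔
    ∀ V : ValuationSubring (AlgebraicClosure M), IsPlcOver R kb V →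
      ∀ g : Gal(AlgebraicClosure M/K), IsInertAt V g → g x = x

end Pool.Agent.Lib.MP_2f3286_ag.Pt
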