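import Pool.Agent.Lib.MP_2f3286_ag.Top.Sec
import Pool.Agent.Lib.MP_2f3286_ag.Pt.OverDefs

/-!
# Division points of an elliptic curve over the maximal unramified extension
-/

open WeierstrassCurve WeierstrassCurve.Affine WeierstrassCurve.Affine.Point

namespace Pool.Agent.Lib.MP_2f3286_ag.Pt

namespace Div

open Pool.Agent.Lib.MP_2f3286_ag.Ell Pool.Agent.Lib.MP_2f3286_ag.Top

section closed

variable {F : Type*} [Field F] [IsAlgClosed F] {A : Affine F} [A.IsElliptic]

/-- every `x` is the abscissa of a point -/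
theorem exists_pt (x : F) : ∃ (y : F), A.Nonsingular x y := by
  obtain ⟨y, hy⟩ := IsAlgClosed.exists_root (Polynomial.X ^ 2 +
    Polynomial.C (A.a₁ * x + A.a₃) * Polynomial.X +
    Polynomial.C (-(x ^ 3 + A.a₂ * x ^ 2 + A.a₄ * x + A.a₆))) (by
      have : (Polynomial.X ^ 2 +
        Polynomial.C (A.a₁ * x + A.a₃) * Polynomial.X +
        Polynomial.C (-(x ^ 3 + A.a₂ * x ^ 2 + A.a₄ * x + A.a₆))).degree = 2 := by
        compute_degree!
      rw [this]
      norm_num)
  refine ⟨y, equation_iff_nonsingular.mp ?_⟩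
  rw [A.equation_iff]
  rw [Polynomial.IsRoot] at hy
  simp only [Polynomial.eval_add, Polynomial.eval_pow, Polynomial.eval_X, Polynomial.eval_mul,
    Polynomial.eval_C] at hy
  linear_combination hy

variable [DecidableEq F]

omit [IsAlgClosed F] in
/-- values of the duplication polynomials -/
theorem dbl (P : A.Point) {x y : F} (h : A.Nonsingular x y) (hP : P = some x y h) :
    (2 • P = 0 ∧ 4 * x ^ 3 + A.b₂ * x ^ 2 + 2 * A.b₄ * x + A.b₆ = 0 ∧
      x ^ 4 - A.b₄ * x ^ 2 - 2 * A.b₆ * x - A.b₈ ≠ 0) ∨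
    ∃ (X Y : F) (h' : A.Nonsingular X Y), 2 • P = some X Y h' ∧
      4 * x ^ 3 + A.b₂ * x ^ 2 + 2 * A.b₄ * x + A.b₆ ≠ 0 ∧
      x ^ 4 - A.b₄ * x ^ 2 - 2 * A.b₆ * x - A.b₈ =
        X * (4 * x ^ 3 + A.b₂ * x ^ 2 + 2 * A.b₄ * x + A.b₆) := by
  obtain ⟨c, hc, h1⟩ := addSub A P P
  rw [sub_self, ← two_smul ℕ P] at h1
  have e0 := congrFun h1 0
  have e1 := congrFun h1 1
  subst hP
  rw [sym2x_some_some] at e0 e1
  simp only [asv, Matrix.cons_val_zero, Matrix.cons_val_one, Matrix.cons_val, Pi.smul_apply,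
    smul_eq_mul] at e0 e1
  rcases h2 : 2 • some x y h with _ | ⟨X, Y, h'⟩
  · left
    rw [h2] at e0 e1
    change _ = c * sym2x 0 0 0 at e0
    change _ = c * sym2x 0 0 1 at e1
    rw [sym2x_zero_zero] at e0 e1
    simp at e0 e1
    refine ⟨rfl, ?_, ?_⟩
    · linear_combination e1
    · intro h3
      apply hc
      rw [← e0]
      linear_combination h3
  · right
    rw [h2] at e0 e1
    rw [sym2x_some_zero] at e0 e1
    simp at e0 e1
    refine ⟨X, Y, h', rfl, ?_, ?_⟩
    · intro h3
      apply hc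
      rw [← e1]
      linear_combination h3
    · have e2 : 4 * x ^ 3 + A.b₂ * x ^ 2 + 2 * A.b₄ * x + A.b₆ = c := by
        rw [← e1]; ring
      rw [e2]
      linear_combination e0

/-- the group is 2-divisible -/
theorem two_div (Q : A.Point) : ∃ P : A.Point, 2 • P = Q := by
  rcases Q with _ | ⟨X0, Y0, h0⟩
  · exact ⟨0, smul_zero _⟩
  obtain ⟨x, hx⟩ := IsAlgClosed.exists_root (Polynomial.X ^ 4 +
    Polynomial.C (-4 * X0) * Polynomial.X ^ 3 +
    Polynomial.C (- A.b₄ - X0 * A.b₂) * Polynomial.X ^ 2 +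
    Polynomial.C (- 2 * A.b₆ - 2 * X0 * A.b₄) * Polynomial.X +
    Polynomial.C (- A.b₈ - X0 * A.b₆)) (by
      have : (Polynomial.X ^ 4 +
        Polynomial.C (-4 * X0) * Polynomial.X ^ 3 +
        Polynomial.C (- A.b₄ - X0 * A.b₂) * Polynomial.X ^ 2 +
        Polynomial.C (- 2 * A.b₆ - 2 * X0 * A.b₄) * Polynomial.X +
        Polynomial.C (- A.b₈ - X0 * A.b₆)).degree = 4 := by
        compute_degree!
      rw [this]
      norm_num)
  rw [Polynomial.IsRoot] at hx
  simp only [Polynomial.eval_add, Polynomial.eval_pow, Polynomial.eval_X, Polynomial.eval_mul,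
    Polynomial.eval_C] at hx
  obtain ⟨y, hy⟩ := exists_pt (A := A) x
  rcases dbl (some x y hy) hy rfl with ⟨h1, h2, h3⟩ | ⟨X, Y, h', h1, h2, h3⟩
  · exfalso
    apply h3
    linear_combination hx + X0 * h2
  · have hX : X = X0 := by
      apply mul_right_cancel₀ h2
      linear_combination hx - h3
    subst hX
    have h4 : 2 • some x y hy = some X Y0 h0 ∨ 2 • some x y hy = -some X Y0 h0 := by
      rw [h1]
      exact X_eq_iff.mp rfl
    rcases h4 with h4 | h4
    · exact ⟨_, h4⟩
    · exact ⟨-some x y hy, by rw [smul_neg, h4, _root_.neg_neg]⟩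

/-- a point of order 2 -/
theorem exists_two_torsion [CharZero F] : ∃ T : A.Point, T ≠ 0 ∧ 2 • T = 0 := by
  obtain ⟨x, hx⟩ := IsAlgClosed.exists_root (Polynomial.C 4 * Polynomial.X ^ 3 +
    Polynomial.C A.b₂ * Polynomial.X ^ 2 +
    Polynomial.C (2 * A.b₄) * Polynomial.X + Polynomial.C A.b₆) (by
      have : (Polynomial.C 4 * Polynomial.X ^ 3 +
        Polynomial.C A.b₂ * Polynomial.X ^ 2 +
        Polynomial.C (2 * A.b₄) * Polynomial.X + Polynomial.C A.b₆).degree = 3 := by
        compute_degree!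
      rw [this]
      norm_num)
  rw [Polynomial.IsRoot] at hx
  simp only [Polynomial.eval_add, Polynomial.eval_pow, Polynomial.eval_X, Polynomial.eval_mul,
    Polynomial.eval_C] at hx
  obtain ⟨y, hy⟩ := exists_pt (A := A) x
  refine ⟨some x y hy, some_ne_zero _, ?_⟩
  rcases dbl (some x y hy) hy rfl with ⟨h1, h2, h3⟩ | ⟨X, Y, h', h1, h2, h3⟩
  · exact h1
  · exact absurd hx h2

/-- two points with different multiples -/
theorem exists_pair [CharZero F] (n : ℕ) (hn : 1 ≤ n) : ∃ Q₁ Q₂ : A.Point, Q₁ ≠ 0 ∧ Q₂ ≠ 0 ∧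
    2 • (n • Q₁) = 0 ∧ 2 • (n • Q₂) ≠ 0 := by
  obtain ⟨a, m, hm, rfl⟩ := Nat.exists_eq_two_pow_mul_odd (n := n) (by omega)
  obtain ⟨T, hT0, hT⟩ := exists_two_torsion (A := A)
  have hpow : ∀ j : ℕ, ∃ P : A.Point, 2 ^ j • P = T := by
    intro j
    induction j with
    | zero => exact ⟨T, by simp⟩
    | succ j ih =>
      obtain ⟨P, hP⟩ := ih
      obtain ⟨P', hP'⟩ := two_div P
      exact ⟨P', by rw [pow_succ, mul_smul, hP', hP]⟩
  have hmT : m • T = T := by
    obtain ⟨k, rfl⟩ := hm
    rw [add_smul, one_smul, mul_comm, mul_smul, hT, smul_zero, zero_add]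
  obtain ⟨Q₁, h1⟩ := hpow a
  obtain ⟨Q₂, h2⟩ := hpow (a + 1)
  refine ⟨Q₁, Q₂, ?_, ?_, ?_, ?_⟩
  · rintro rfl
    rw [smul_zero] at h1
    exact hT0 h1.symm
  · rintro rfl
    rw [smul_zero] at h2
    exact hT0 h2.symm
  · rw [mul_comm, mul_smul, h1, hmT, hT]
  · rw [← mul_smul, show 2 * (2 ^ a * m) = m * 2 ^ (a + 1) by ring, mul_smul, h2, hmT]
    exact hT0

end closed

section descend

variable {k : Type*} [Field k] {W : Affine k}
variable {kb : Type*} [Field kb] [IsAlgClosed kb] [CharZero kb]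
variable [Algebra k kb] {M : Type*} [Field M] [Algebra kb M] [Algebra k M] [IsScalarTower k kb M]
  [W.IsElliptic] [DecidableEq kb] [DecidableEq M]

omit [CharZero kb] in
/-- Specialisation of a nonconstant point: a relation `n ξ = R` holds up to sign at all points. -/
theorem key {n : ℕ} {x y : M} (hxy : (W⁄M).Nonsingular x y) (hx : ∀ a, algebraMap kb M a ≠ x)
    (R : (W⁄kb).Point) (h : n • some x y hxy = baseChange kb M R) (Q : (W⁄kb).Point) (hQ : Q ≠ 0) :
    n • Q = R ∨ n • Q = -R := by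
  rcases Q with _ | ⟨a, b, hab⟩
  · exact absurd rfl hQ
  obtain ⟨V, hV, hV'⟩ := exists_place hx a
  let L := IsLocalRing.ResidueField V
  let φ : V →+* L := IsLocalRing.residue V
  let ι : kb →+* V := (algebraMap kb M).codRestrict V.toSubring hV
  let _ : Algebra kb L := (φ.comp ι).toAlgebra
  let _ : Algebra k L := ((φ.comp ι).comp (algebraMap k kb)).toAlgebra
  have : IsScalarTower k kb L := IsScalarTower.of_algebraMap_eq fun _ => rfl
  let _ : DecidableEq L := Classical.decEq L
  have hsp : ∀ c : kb, Sp V φ (algebraMap kb M c) (algebraMap kb L c) := fun c => ⟨hV c, rfl⟩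
  have hsp' : ∀ c : k, Sp V φ (algebraMap k M c) (algebraMap k L c) := by
    intro c
    rw [IsScalarTower.algebraMap_apply k kb M]
    exact hsp _
  have hAB : CurveSp V φ (W⁄M) (W⁄L) := curveSp hsp'
  have : IsLocalHom φ := inferInstanceAs (IsLocalHom (IsLocalRing.residue V))
  have hconst : ∀ T : (W⁄kb).Point, redHom hAB (baseChange kb M T) = baseChange kb L T :=
    redHom_baseChange hAB hsp
  have h1 := congrArg (redHom hAB) h
  rw [map_nsmul, hconst] at h1
  have hxa : Sp V φ x (algebraMap kb L a) := by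
    have h2 := sp_inv_of_notMem (φ := φ) hV'
    rw [inv_inv] at h2
    have h3 := h2.add (hsp a)
    rwa [sub_add_cancel, zero_add] at h3
  have hy : y ∈ V := mem_y hAB hxa.mem hxy.1
  have h3 := equation_iff_nonsingular.mp (hxa.equation hAB (sp_of_mem hy) hxy.1)
  have h4 : redHom hAB (some x y hxy) = some _ _ h3 := red_some hAB hxy hxa (sp_of_mem hy) h3
  have h5 : redHom hAB (some x y hxy) = baseChange kb L (some a b hab) ∨
      redHom hAB (some x y hxy) = -baseChange kb L (some a b hab) := by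
    rw [h4]
    exact X_eq_iff.mp rfl
  rcases h5 with h5 | h5
  · left
    apply map_injective (Algebra.ofId kb L)
    rw [map_nsmul, ← h1, h5]
  · right
    apply map_injective (Algebra.ofId kb L)
    rw [map_nsmul, _root_.map_neg, ← h1, h5, smul_neg, _root_.neg_neg]

/-- **Division points of constant points are constant**, for every algebraically closed field of
characteristic zero. -/
theorem descend {n : ℕ} (hn : 1 ≤ n) (ξ : (W⁄M).Point) (R : (W⁄kb).Point)
    (h : n • ξ = baseChange kb M R) : ∃ ξ', baseChange kb M ξ' = ξ := by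
  rcases hξ : ξ with _ | ⟨x, y, hxy⟩
  · exact ⟨0, rfl⟩
  by_contra hcon
  have hx : ∀ a, algebraMap kb M a ≠ x := by
    intro a ha
    obtain ⟨Q, hQ⟩ := exists_of_x hxy ha
    exact hcon ⟨Q, hQ⟩
  rw [hξ] at h
  obtain ⟨Q₁, Q₂, h1, h2, h3, h4⟩ := exists_pair (A := (W⁄kb)) n hn
  have k1 := key hxy hx R h Q₁ h1
  have k2 := key hxy hx R h Q₂ h2
  rcases k1 with k1 | k1 <;> rcases k2 with k2 | k2 <;> rw [k1] at h3 <;> rw [k2] at h4 <;>
    simp_all

end descend

section divisible

variable {k : Type*} [Field k] {W : Affine k}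
variable {kb : Type*} [Field kb] [IsAlgClosed kb] [CharZero kb] [Algebra k kb] [W.IsElliptic]
  [DecidableEq kb]

theorem divisible_aux {n : ℕ} (hn : 1 ≤ n) {M : Type*} [Field M] [Algebra kb M] [Algebra k M]
    [IsScalarTower k kb M] [DecidableEq M] [IsAlgClosed M] {x : M}
    (hx : ∀ a, algebraMap kb M a ≠ x) (R : (W⁄kb).Point) : ∃ ζ : (W⁄kb).Point, n • ζ = R := by
  rcases R with _ | ⟨a, b, hab⟩
  · exact ⟨0, smul_zero _⟩
  obtain ⟨y, hxy⟩ := exists_pt (A := (W⁄M)) x
  have hnc : ∀ R' : (W⁄kb).Point, n • some x y hxy ≠ baseChange kb M R' := by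
    intro R' hR'
    obtain ⟨ξ', hξ'⟩ := descend hn _ _ hR'
    rcases ξ' with _ | ⟨c, d, hcd⟩
    · exact some_ne_zero _ hξ'.symm
    · have h1 : some (algebraMap kb M c) (algebraMap kb M d)
          ((W.baseChange_nonsingular (Algebra.ofId kb M).injective c d).mpr hcd) =
          some x y hxy := hξ'
      rw [some.injEq] at h1
      exact hx c h1.1
  rcases hnξ : n • some x y hxy with _ | ⟨X, Y, h'⟩
  · exact absurd hnξ (hnc 0)
  have hX : ∀ c, algebraMap kb M c ≠ X := by
    intro c hc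
    obtain ⟨Q, hQ⟩ := exists_of_x h' hc
    exact hnc Q (hnξ.trans hQ.symm)
  obtain ⟨V, hV, hV'⟩ := exists_place hX a
  let L := IsLocalRing.ResidueField V
  let φ : V →+* L := IsLocalRing.residue V
  let ι : kb →+* V := (algebraMap kb M).codRestrict V.toSubring hV
  let _ : Algebra kb L := (φ.comp ι).toAlgebra
  let _ : Algebra k L := ((φ.comp ι).comp (algebraMap k kb)).toAlgebra
  have : IsScalarTower k kb L := IsScalarTower.of_algebraMap_eq fun _ => rfl
  let _ : DecidableEq L := Classical.decEq L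
  have hsp : ∀ c : kb, Sp V φ (algebraMap kb M c) (algebraMap kb L c) := fun c => ⟨hV c, rfl⟩
  have hsp' : ∀ c : k, Sp V φ (algebraMap k M c) (algebraMap k L c) := by
    intro c
    rw [IsScalarTower.algebraMap_apply k kb M]
    exact hsp _
  have hAB : CurveSp V φ (W⁄M) (W⁄L) := curveSp hsp'
  have : IsLocalHom φ := inferInstanceAs (IsLocalHom (IsLocalRing.residue V))
  have h1 := congrArg (redHom hAB) hnξ
  rw [map_nsmul] at h1
  have hXa : Sp V φ X (algebraMap kb L a) := by
    have h2 := sp_inv_of_notMem (φ := φ) hV'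
    rw [inv_inv] at h2
    have h3 := h2.add (hsp a)
    rwa [sub_add_cancel, zero_add] at h3
  have hy : Y ∈ V := mem_y hAB hXa.mem h'.1
  have h3 := equation_iff_nonsingular.mp (hXa.equation hAB (sp_of_mem hy) h'.1)
  have h4 : redHom hAB (some X Y h') = some _ _ h3 := red_some hAB h' hXa (sp_of_mem hy) h3
  have h5 : redHom hAB (some X Y h') = baseChange kb L (some a b hab) ∨
      redHom hAB (some X Y h') = -baseChange kb L (some a b hab) := by
    rw [h4]
    exact X_eq_iff.mp rfl
  rw [← h1] at h5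
  have h6 : ∃ ξ : (W⁄L).Point, n • ξ = baseChange kb L (some a b hab) := by
    rcases h5 with h5 | h5
    · exact ⟨_, h5⟩
    · exact ⟨-redHom hAB (some x y hxy), (neg_nsmul _ n).trans (by rw [h5, _root_.neg_neg])⟩
  obtain ⟨ξ, hξ⟩ := h6
  obtain ⟨ξ', hξ'⟩ := descend hn ξ _ hξ
  refine ⟨ξ', ?_⟩
  apply map_injective (Algebra.ofId kb L)
  rw [map_nsmul]
  have h7 : map (Algebra.ofId kb L) ξ' = ξ := hξ'
  rw [h7, hξ]

/-- the points over an algebraically closed field of characteristic zero form a divisible group -/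
theorem divisible {n : ℕ} (hn : 1 ≤ n) (R : (W⁄kb).Point) : ∃ ζ : (W⁄kb).Point, n • ζ = R := by
  classical
  let F := AlgebraicClosure (RatFunc kb)
  have : IsScalarTower k kb F := inferInstance
  refine divisible_aux hn (M := F) (x := algebraMap (RatFunc kb) F RatFunc.X) ?_ R
  intro a ha
  rw [IsScalarTower.algebraMap_apply kb (RatFunc kb) F] at ha
  have h1 := (algebraMap (RatFunc kb) F).injective ha
  rw [IsScalarTower.algebraMap_apply kb (Polynomial kb) (RatFunc kb),
    ← RatFunc.algebraMap_X] at h1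
  have h2 := RatFunc.algebraMap_injective kb h1
  exact Polynomial.X_ne_C a h2.symm

end divisible

section inert

variable {k K kb Ω : Type*} [Field k] [Field K] [Field kb] [Field Ω] [Algebra k kb]
  [IsAlgClosed kb] [CharZero kb] [Algebra k K] [Algebra K Ω] [Algebra kb Ω] [Algebra k Ω]
  [IsScalarTower k K Ω] [IsScalarTower k kb Ω] {W : Affine k} [W.IsElliptic]
  [DecidableEq kb] [DecidableEq K] [DecidableEq Ω]

omit [Field kb] [Algebra k kb] [IsAlgClosed kb] [CharZero kb] [Algebra kb Ω]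
  [IsScalarTower k kb Ω] [DecidableEq kb] [DecidableEq K] in
/-- specialisation along a place is invariant under the inertia group -/
theorem red_act {L : Type*} [Field L] [Algebra k L] {V : ValuationSubring Ω} {φ : V →+* L}
    [IsLocalHom φ] [DecidableEq L] (hAB : CurveSp V φ (W⁄Ω) (W⁄L)) (g : Gal(Ω/K))
    (hg : IsInertAt V g) (P : (W⁄Ω).Point) : redHom hAB (act W g P) = redHom hAB P := by
  have hsp : ∀ x (hx : x ∈ V), Sp V φ (g x) (φ ⟨x, hx⟩) := by
    intro x hx
    obtain ⟨h1, h2⟩ := hg x hx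
    refine ⟨h1, ?_⟩
    rw [← sub_eq_zero, ← map_sub]
    by_contra hne
    have hu : IsUnit (⟨g x, h1⟩ - ⟨x, hx⟩ : V) := isUnit_of_map_unit φ _ (isUnit_iff_ne_zero.mpr hne)
    rw [V.valuation_eq_one_iff] at hu
    have h3 : V.valuation (g x - x) = 1 := hu
    rw [h3] at h2
    exact lt_irrefl _ h2
  rcases P with _ | ⟨x, y, hxy⟩
  · rfl
  have hact : act W g (some x y hxy) = some (g x) (g y)
      ((W.baseChange_nonsingular (g : Ω →ₐ[K] Ω).injective x y).mpr hxy) := rfl
  by_cases hx : x ∈ V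
  · have hy : y ∈ V := mem_y hAB hx hxy.1
    rw [hact]
    have h3 := equation_iff_nonsingular.mp ((sp_of_mem (φ := φ) hx).equation hAB
      (sp_of_mem hy) hxy.1)
    have e1 : redHom hAB (some (g x) (g y)
      ((W.baseChange_nonsingular (g : Ω →ₐ[K] Ω).injective x y).mpr hxy)) =
        some (φ ⟨x, hx⟩) (φ ⟨y, hy⟩) h3 := red_some hAB
          ((W.baseChange_nonsingular (g : Ω →ₐ[K] Ω).injective x y).mpr hxy) (hsp x hx) (hsp y hy) h3
    have e2 : redHom hAB (some x y hxy) = some (φ ⟨x, hx⟩) (φ ⟨y, hy⟩) h3 :=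
      red_some hAB hxy (sp_of_mem hx) (sp_of_mem hy) h3
    rw [e1, e2]
  · have hgx : g x ∉ V := by
      intro hgx
      have hx0 : x ≠ 0 := fun h => hx (h ▸ zero_mem _)
      have h1 : x⁻¹ ∈ V := (V.mem_or_inv_mem x).resolve_left hx
      have h2 := hsp _ h1
      have h3 : φ ⟨x⁻¹, h1⟩ = 0 := by
        have := sp_inv_of_notMem (φ := φ) hx
        exact (sp_of_mem h1).unique this
      rw [h3, map_inv₀] at h2
      have h4 := h2.mul (sp_of_mem (φ := φ) hgx)
      rw [inv_mul_cancel₀ ((map_ne_zero g).mpr hx0), zero_mul] at h4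
      exact one_ne_zero (sp_one.unique h4)
    rw [hact]
    have e1 : redHom hAB (some (g x) (g y)
      ((W.baseChange_nonsingular (g : Ω →ₐ[K] Ω).injective x y).mpr hxy)) = 0 :=
      red_some_of_notMem hAB
        ((W.baseChange_nonsingular (g : Ω →ₐ[K] Ω).injective x y).mpr hxy) hgx
    have e2 : redHom hAB (some x y hxy) = 0 := red_some_of_notMem hAB hxy hx
    rw [e1, e2]

/-- **Multiplication by `n` is unramified**: an element of an inertia group fixes every point whose
`n`-th multiple is rational. -/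
theorem inert_fix (V : ValuationSubring Ω) (hV : ∀ a : kb, algebraMap kb Ω a ∈ V) (g : Gal(Ω/K))
    (hg : IsInertAt V g) {n : ℕ} (hn : 1 ≤ n) (η : (W⁄K).Point) (ζ : (W⁄Ω).Point)
    (h : n • ζ = baseChange K Ω η) : act W g ζ = ζ := by
  have h1 : n • (act W g ζ - ζ) = baseChange kb Ω 0 := by
    rw [smul_sub, ← map_nsmul, h, act_baseChange, sub_self]
    rfl
  obtain ⟨τ, hτ⟩ := descend hn _ _ h1
  let L := IsLocalRing.ResidueField V
  let φ : V →+* L := IsLocalRing.residue V
  let ι : kb →+* V := (algebraMap kb Ω).codRestrict V.toSubring hV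
  let _ : Algebra kb L := (φ.comp ι).toAlgebra
  let _ : Algebra k L := ((φ.comp ι).comp (algebraMap k kb)).toAlgebra
  have : IsScalarTower k kb L := IsScalarTower.of_algebraMap_eq fun _ => rfl
  let _ : DecidableEq L := Classical.decEq L
  have hsp : ∀ c : kb, Sp V φ (algebraMap kb Ω c) (algebraMap kb L c) := fun c => ⟨hV c, rfl⟩
  have hsp' : ∀ c : k, Sp V φ (algebraMap k Ω c) (algebraMap k L c) := by
    intro c
    rw [IsScalarTower.algebraMap_apply k kb Ω]
    exact hsp _
  have hAB : CurveSp V φ (W⁄Ω) (W⁄L) := curveSp hsp'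
  have : IsLocalHom φ := inferInstanceAs (IsLocalHom (IsLocalRing.residue V))
  have h2 : redHom hAB (act W g ζ - ζ) = 0 := by
    rw [map_sub, red_act hAB g hg, sub_self]
  rw [← hτ, redHom_baseChange hAB hsp] at h2
  have h3 : τ = 0 := by
    apply map_injective (Algebra.ofId kb L)
    exact h2.trans (_root_.map_zero _).symm
  rw [h3] at hτ
  have h4 : act W g ζ - ζ = 0 := hτ.symm.trans (_root_.map_zero _)
  exact sub_eq_zero.mp h4

end inert

end Div

open scoped Classical in
theorem Div.aux {k K M kb : Type*} [Field k] [CharZero k] [Field K] [Field M]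
    [Field kb] [Algebra k kb] [IsAlgClosed kb] [Algebra k K]
    [Algebra K M] [Algebra kb M] [Algebra k M] [IsScalarTower k K M] [IsScalarTower k kb M]
    (R₀ : Subalgebra k K) (h : IsMaxUnramOver R₀ K M kb)
    (W : Affine k) [W.IsElliptic] (η : (W⁄K).Point) (n : ℕ) (hn : 1 ≤ n) :
    ∃ T : (W⁄M).Point, n • T = Point.baseChange K M η := by
  let Ω := AlgebraicClosure M
  have hc : CharZero kb := charZero_of_injective_algebraMap (algebraMap k kb).injective
  have hc' : CharZero Ω := charZero_of_injective_algebraMap (algebraMap k Ω).injective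
  obtain ⟨ζ, hζ⟩ := Div.divisible (W := W) (kb := Ω) hn (Point.baseChange K Ω η)
  have hfix : ∀ V : ValuationSubring Ω, IsPlcOver R₀ kb V → ∀ g : Gal(Ω/K), IsInertAt V g →
      Top.act W g ζ = ζ := fun V hV g hg => Div.inert_fix V hV.1.1 g hg hn η ζ hζ
  have hbc : map (Algebra.ofId M Ω) (Point.baseChange K M η) = Point.baseChange K Ω η := by
    rcases η with _ | ⟨c, d, hcd⟩
    · rfl
    · exact Top.some_ext _ _ (IsScalarTower.algebraMap_apply K M Ω c).symm
        (IsScalarTower.algebraMap_apply K M Ω d).symm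
  have hT : ∃ T : (W⁄M).Point, map (Algebra.ofId M Ω) T = ζ := by
    rcases ζ with _ | ⟨x, y, hxy⟩
    · exact ⟨0, rfl⟩
    · have hx : ∃ m : M, algebraMap M Ω m = x := (h x).2 fun V hV g hg => by
        have h1 := hfix V hV g hg
        rw [Top.act, map_some, some.injEq] at h1
        exact h1.1
      have hy : ∃ m : M, algebraMap M Ω m = y := (h y).2 fun V hV g hg => by
        have h1 := hfix V hV g hg
        rw [Top.act, map_some, some.injEq] at h1
        exact h1.2
      obtain ⟨a, rfl⟩ := hx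
      obtain ⟨b, rfl⟩ := hy
      have hab : (W⁄M).Nonsingular a b :=
        (W.baseChange_nonsingular (Algebra.ofId M Ω).injective a b).mp hxy
      exact ⟨some a b hab, rfl⟩
  obtain ⟨T, hT⟩ := hT
  refine ⟨T, ?_⟩
  apply map_injective (Algebra.ofId M Ω)
  rw [map_nsmul, hT, hζ, hbc]

open scoped Classical in
/-- PDIV: multiplication by `n` on an elliptic curve is unramified -/
theorem division_of_maxOver {k K M kb : Type*} [Field k] [CharZero k] [Field K] [Field M]
    [Field kb] [Algebra k kb] [IsAlgClosed kb] [Algebra.IsAlgebraic k kb] [Algebra k K]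
    [Algebra K M] [Algebra kb M] [Algebra k M] [IsScalarTower k K M] [IsScalarTower k kb M]
    [IsGalois K M] (R₀ : Subalgebra k K) (h : IsMaxUnramOver R₀ K M kb)
    (W : WeierstrassCurve k) [W.IsElliptic] (η : (W⁄K).Point) (n : ℕ) (hn : 1 ≤ n) :
    ∃ T : (W⁄M).Point, n • T = Point.baseChange K M η :=
  Div.aux R₀ h W η n hn

end Pool.Agent.Lib.MP_2f3286_ag.Pt
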