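import Pool.Agent.Lib.MP_2f3286_ag.Full.WField
import Pool.Agent.Lib.MP_2f3286_ag.Pt.Defs

/-!
# Points of the integral closure and places of intermediate fields
-/

open Polynomial IntermediateField IsDedekindDomain
open scoped TensorProduct

namespace Pool.Agent.Lib.MP_2f3286_ag.Pt

namespace PTAux

open Full in
/-- **Unit coefficient lemma**, over an arbitrary base ring. -/
theorem unit_coeff {A M : Type*} [CommRing A] [Field M] [Algebra A M] {𝒲 : ValuationSubring M}
    (hA : ∀ x : M, IsIntegral A x → x ∈ 𝒲) (y : M) (n : ℕ) :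
    ∀ f : (integralClosure A M)[X], f.natDegree ≤ n → aeval y f = 0 →
      (∃ i, 𝒲.valuation (f.coeff i : M) = 1) →
      ∃ a b : M, IsIntegral A a ∧ IsIntegral A b ∧ y * b = a ∧
        (𝒲.valuation a = 1 ∨ 𝒲.valuation b = 1) := by
  have hle : ∀ c : integralClosure A M, 𝒲.valuation (c : M) ≤ 1 := by
    intro c
    rw [𝒲.valuation_le_one_iff]
    exact hA _ c.2
  have hlt : ∀ c : integralClosure A M, 𝒲.valuation (c : M) ≠ 1 → 𝒲.valuation (c : M) < 1 :=
    fun c hc => lt_of_le_of_ne (hle c) hc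
  induction n with
  | zero =>
    intro f hf hfy hu
    exfalso
    rw [Nat.le_zero, natDegree_eq_zero] at hf
    obtain ⟨a, rfl⟩ := hf
    obtain ⟨i, hi⟩ := hu
    rw [aeval_C] at hfy
    have ha : (a : M) = 0 := hfy
    rcases Nat.eq_zero_or_pos i with rfl | hi0
    · rw [coeff_C_zero, ha, map_zero] at hi
      exact zero_ne_one hi
    · rw [coeff_C_of_ne_zero (by omega)] at hi
      simp at hi
  | succ n ih =>
    intro f hf hfy hu
    by_cases hfn : f.natDegree ≤ n
    · exact ih f hfn hfy hu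
    have hdeg : f.natDegree = n + 1 := by omega
    set lc := f.leadingCoeff with hlc
    have hb : IsIntegral (integralClosure A M) ((lc : M) * y) := by
      have := RingHom.isIntegralElem_leadingCoeff_mul (f := algebraMap (integralClosure A M) M)
        (p := f) y (by rw [← aeval_def]; exact hfy)
      exact this
    have hb' : IsIntegral A ((lc : M) * y) := isIntegral_trans _ hb
    set b : integralClosure A M := ⟨(lc : M) * y, hb'⟩ with hbdef
    by_cases h1 : 𝒲.valuation (lc : M) = 1
    · exact ⟨(lc : M) * y, lc, hb', lc.2, mul_comm _ _, Or.inr h1⟩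
    by_cases h2 : 𝒲.valuation (b : M) = 1
    · exact ⟨(lc : M) * y, lc, hb', lc.2, mul_comm _ _, Or.inl h2⟩
    have hb1 := hlt b h2
    have hl1 := hlt lc h1
    set g : (integralClosure A M)[X] := f.eraseLead + C b * X ^ n with hg
    have hgdeg : g.natDegree ≤ n := by
      refine (natDegree_add_le _ _).trans (max_le ?_ ?_)
      · have := eraseLead_natDegree_le f
        omega
      · exact natDegree_C_mul_X_pow_le _ _
    have hgy : aeval y g = 0 := by
      have h3 : aeval y f = aeval y f.eraseLead + (lc : M) * y ^ (n + 1) := by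
        conv_lhs => rw [← eraseLead_add_C_mul_X_pow f]
        rw [map_add, map_mul, map_pow, aeval_X, aeval_C, hdeg]
        rfl
      rw [hg, map_add, map_mul, map_pow, aeval_X, aeval_C]
      have h4 : algebraMap (integralClosure A M) M b = (lc : M) * y := rfl
      rw [h4]
      rw [h3] at hfy
      linear_combination hfy
    refine ih g hgdeg hgy ?_
    obtain ⟨i, hi⟩ := hu
    have hi' : i ≤ n := by
      by_contra hcon
      rcases Nat.lt_or_ge (n + 1) i with h3 | h3
      · rw [coeff_eq_zero_of_natDegree_lt (by omega)] at hi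
        simp at hi
      · have : i = f.natDegree := by omega
        rw [this] at hi
        exact h1 hi
    have hcoeff : g.coeff i = f.coeff i + if i = n then b else 0 := by
      rw [hg, coeff_add, eraseLead_coeff_of_ne i (by omega), coeff_C_mul, coeff_X_pow]
      split_ifs <;> simp
    refine ⟨i, ?_⟩
    rw [hcoeff]
    by_cases hin : i = n
    · rw [if_pos hin]
      have h5 : ((f.coeff i + b : integralClosure A M) : M) = (f.coeff i : M) + (b : M) := rfl
      rw [h5, Valuation.map_add_eq_of_lt_left _ (by rw [hi]; exact hb1), hi]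
    · rw [if_neg hin, add_zero, hi]

/-- elements algebraic over `C(t)` satisfy polynomial relations over `C[t]` -/
theorem exists_rel {C L : Type*} [Field C] [Field L] [Algebra C L] (t : L)
    (ht : Transcendental C t) (x : L) (hx : IsAlgebraic (adjoin C {t}) x) :
    ∃ F : C[X][X], F ≠ 0 ∧ F.eval₂ (aeval t : C[X] →ₐ[C] L).toRingHom x = 0 := by
  let _ : Algebra C[X] L := (aeval t : C[X] →ₐ[C] L).toRingHom.toAlgebra
  let _ : Algebra C[X] (adjoin C {t}) :=
    (aeval (AdjoinSimple.gen C t) : C[X] →ₐ[C] (adjoin C {t})).toRingHom.toAlgebra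
  have hmapL : ∀ f : C[X], algebraMap C[X] L f = aeval t f := fun f => rfl
  have hmapE : ∀ f : C[X], algebraMap C[X] (adjoin C {t}) f = aeval (AdjoinSimple.gen C t) f :=
    fun f => rfl
  have : IsScalarTower C[X] (adjoin C {t}) L := IsScalarTower.of_algebraMap_eq fun f => by
    rw [hmapL, hmapE]
    have := Polynomial.aeval_algebraMap_apply L (AdjoinSimple.gen C t) f
    rw [← this]
    rfl
  have hinjL : Function.Injective (algebraMap C[X] L) := by
    intro f g hfg
    rw [hmapL, hmapL] at hfg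
    exact (transcendental_iff_injective.1 ht) hfg
  have : FaithfulSMul C[X] L := (faithfulSMul_iff_algebraMap_injective _ _).2 hinjL
  have hinjE : Function.Injective (algebraMap C[X] (adjoin C {t})) := by
    intro f g hfg
    apply hinjL
    rw [IsScalarTower.algebraMap_apply C[X] (adjoin C {t}) L, hfg,
      ← IsScalarTower.algebraMap_apply C[X] (adjoin C {t}) L]
  have : FaithfulSMul C[X] (adjoin C {t}) := (faithfulSMul_iff_algebraMap_injective _ _).2 hinjE
  have : IsFractionRing C[X] (adjoin C {t}) := by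
    apply IsFractionRing.of_field
    intro z
    obtain ⟨r, s, hrs⟩ := (mem_adjoin_simple_iff C (z : L)).1 z.2
    refine ⟨r, s, ?_⟩
    apply Subtype.ext
    rw [hmapE, hmapE]
    rw [hrs]
    have h1 : ∀ p : C[X], ((aeval (AdjoinSimple.gen C t) p : adjoin C {t}) : L) = aeval t p := by
      intro p
      have := Polynomial.aeval_algebraMap_apply L (AdjoinSimple.gen C t) p
      exact this.symm
    rw [IntermediateField.coe_div, h1, h1]
  obtain ⟨F, hF0, hF⟩ := (IsFractionRing.isAlgebraic_iff C[X] (adjoin C {t}) L).2 hx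
  exact ⟨F, hF0, hF⟩

/-- the relation can be made nonzero modulo `t - c` -/
theorem exists_rel_prim {C L : Type*} [Field C] [Field L] [Algebra C L] (t : L)
    (ht : Transcendental C t) (x : L) (hx : IsAlgebraic (adjoin C {t}) x) (c : C) :
    ∃ F : C[X][X], (∃ i, (F.coeff i).eval c ≠ 0) ∧
      F.eval₂ (aeval t : C[X] →ₐ[C] L).toRingHom x = 0 := by
  obtain ⟨F, hF0, hF⟩ := exists_rel t ht x hx
  have hirr : Irreducible (Polynomial.C (X - Polynomial.C c) : C[X][X]) :=
    (prime_C_iff.2 (prime_X_sub_C c)).irreducible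
  obtain ⟨n, G, hG, hFG⟩ := WfDvdMonoid.max_power_factor hF0 hirr
  refine ⟨G, ?_, ?_⟩
  · by_contra hcon
    push Not at hcon
    apply hG
    rw [C_dvd_iff_dvd_coeff]
    intro i
    rw [dvd_iff_isRoot]
    exact hcon i
  · rw [hFG, eval₂_mul, eval₂_pow, eval₂_C] at hF
    rcases mul_eq_zero.1 hF with h | h
    · exfalso
      have h1 := eq_zero_of_pow_eq_zero h
      have h2 : aeval t (X - Polynomial.C c) = 0 := h1
      exact X_sub_C_ne_zero c ((transcendental_iff.1 ht) _ h2)
    · exact h

/-- integral elements lie in a valuation ring containing the base -/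
theorem mem_of_isIntegral {R M : Type*} [CommRing R] [Field M] [Algebra R M]
    {𝒱 : ValuationSubring M} (hR : ∀ r : R, algebraMap R M r ∈ 𝒱) {x : M} (hx : IsIntegral R x) :
    x ∈ 𝒱 := by
  obtain ⟨f, hf, hfx⟩ := hx
  let j : R →+* 𝒱 := (algebraMap R M).codRestrict 𝒱.toSubring hR
  have h1 : IsIntegral 𝒱 x := by
    refine ⟨f.map j, hf.map j, ?_⟩
    rw [eval₂_map]
    exact hfx
  obtain ⟨y, hy⟩ := (IsIntegrallyClosed.isIntegral_iff (R := 𝒱) (K := M)).mp h1
  rw [← hy]
  exact y.2

section

variable {k K M kb : Type*} [Field k] [CharZero k] [Field K] [Field M] [Field kb] [Algebra k kb]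
  [IsAlgClosed kb] [Algebra.IsAlgebraic k kb] [Algebra k K] [Algebra K M] [Algebra kb M]
  [Algebra k M] [IsScalarTower k K M] [IsScalarTower k kb M] [IsGalois K M]
  (t : K) [FiniteDimensional (adjoin k {t}) K]
  (R : Subalgebra k K)

omit [CharZero k] [IsAlgClosed kb] [IsGalois K M] [FiniteDimensional (adjoin k {t}) K] in
theorem transc (ht : Transcendental k t) : Transcendental kb (algebraMap K M t) := by
  have h1 : Transcendental k (algebraMap K M t) := by
    intro h
    exact ht ((isAlgebraic_algebraMap_iff (algebraMap K M).injective).1 h)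
  intro h
  exact h1 (IsAlgebraic.restrictScalars k h)

omit [CharZero k] [IsAlgClosed kb] [IsGalois K M] [FiniteDimensional (adjoin k {t}) K] in
theorem int_kb (a : kb) : IsIntegral R (algebraMap kb M a) := by
  have h1 : IsIntegral k (algebraMap kb M a) :=
    (Algebra.IsIntegral.isIntegral (R := k) a).map (IsScalarTower.toAlgHom k kb M)
  have : IsScalarTower k R M := IsScalarTower.of_algebraMap_eq fun x => by
    rw [IsScalarTower.algebraMap_apply k K M]
    rfl
  exact h1.tower_top

omit [CharZero k] [IsAlgClosed kb] [Algebra.IsAlgebraic k kb] [Algebra k kb] [Field kb]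
  [Algebra kb M] [IsScalarTower k kb M] [IsGalois K M] [IsScalarTower k K M] [Algebra k M]
  [FiniteDimensional (adjoin k {t}) K] in
theorem int_t (htR : t ∈ R) : IsIntegral R (algebraMap K M t) :=
  isIntegral_algebraMap (x := (⟨t, htR⟩ : R))

omit [CharZero k] [IsAlgClosed kb] [IsGalois K M] [FiniteDimensional (adjoin k {t}) K] in
theorem int_poly (htR : t ∈ R) (p : kb[X]) : IsIntegral R (aeval (algebraMap K M t) p) := by
  rw [aeval_eq_sum_range]
  refine IsIntegral.sum _ fun i _ => ?_
  rw [Algebra.smul_def]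
  exact (int_kb R _).mul ((int_t t R htR).pow i)

omit [CharZero k] [IsAlgClosed kb] [IsGalois K M] [FiniteDimensional (adjoin k {t}) K] in
/-- a point evaluates polynomials in `t` -/
theorem pt_poly (htR : t ∈ R) (Ψ : integralClosure R M →+* kb) (hΨ : IsPt R M kb Ψ) (p : kb[X]) :
    Ψ ⟨aeval (algebraMap K M t) p, int_poly t R htR p⟩ =
      p.eval (Ψ ⟨algebraMap K M t, int_t t R htR⟩) := by
  induction p using Polynomial.induction_on' with
  | add p q hp hq =>
    rw [eval_add, ← hp, ← hq, ← map_add]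
    congr 1
    apply Subtype.ext
    exact map_add _ _ _
  | monomial n a =>
    rw [eval_monomial]
    have h1 : (⟨aeval (algebraMap K M t) (monomial n a), int_poly t R htR _⟩ :
        integralClosure R M) = ⟨algebraMap kb M a, int_kb R a⟩ *
          ⟨algebraMap K M t, int_t t R htR⟩ ^ n := by
      apply Subtype.ext
      exact aeval_monomial _
    rw [h1, map_mul, map_pow, hΨ a _ rfl]

omit [CharZero k] [IsAlgClosed kb] in
/-- **Key lemma**: the valuation ring of a point. -/
theorem key (ht : Transcendental k t) (htR : t ∈ R) (E : IntermediateField K M)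
    (hE : ∀ a : kb, algebraMap kb M a ∈ E) (Ψ : integralClosure R M →+* kb)
    (hΨ : IsPt R M kb Ψ) (𝒱 : ValuationSubring M)
    (hmem : ∀ b : integralClosure R M, (b : M) ∈ 𝒱)
    (hval : ∀ b : integralClosure R M, Ψ b = 0 ↔ 𝒱.valuation (b : M) < 1) :
    IsPlaceOfPt Ψ E (𝒱.comap (algebraMap E M)) := by
  have hle : ∀ b : integralClosure R M, 𝒱.valuation (b : M) ≤ 1 := fun b =>
    (𝒱.valuation_le_one_iff _).2 (hmem b)
  have hone : ∀ b : integralClosure R M, Ψ b ≠ 0 → 𝒱.valuation (b : M) = 1 := by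
    intro b hb
    by_contra hcon
    exact hb ((hval b).2 (lt_of_le_of_ne (hle b) hcon))
  intro x
  rw [ValuationSubring.mem_comap]
  constructor
  swap
  · rintro ⟨a, b, haE, hbE, hb, hx⟩
    have h1 := hone b hb
    have h2 := hle a
    rw [← hx, map_mul, h1, mul_one, 𝒱.valuation_le_one_iff] at h2
    exact h2
  intro hx
  have hx' : 𝒱.valuation (x : M) ≤ 1 := (𝒱.valuation_le_one_iff _).2 hx
  set τ : M := algebraMap K M t with hτ
  have htr : Transcendental kb τ := transc (k := k) t ht
  set c : kb := Ψ ⟨τ, int_t t R htR⟩ with hc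
  obtain ⟨F, ⟨i, hi⟩, hF⟩ := exists_rel_prim τ htr (x : M) (Full.isAlgebraic_M (k := k) t _) c
  let φ0 : kb →+* E := (algebraMap kb M).codRestrict E hE
  let φ1 : kb[X] →+* E := eval₂RingHom φ0 (algebraMap K E t)
  have hφ1 : ∀ p, ((φ1 p : E) : M) = aeval τ p := by
    intro p
    have h1 : (algebraMap E M) (φ1 p) = eval₂ ((algebraMap E M).comp φ0)
        (algebraMap E M (algebraMap K E t)) p := hom_eval₂ _ _ _ _
    exact h1
  have hint : ∀ p, IsIntegral R (φ1 p) := by
    intro p
    have h1 : IsIntegral R (algebraMap E M (φ1 p)) := by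
      have := int_poly (M := M) t R htR p
      rw [← hφ1] at this
      exact this
    exact (isIntegral_algebraMap_iff (algebraMap E M).injective).1 h1
  let φ : kb[X] →+* integralClosure R E := φ1.codRestrict (integralClosure R E) hint
  have hφ : ∀ p, ((φ p : E) : M) = aeval τ p := hφ1
  have hA : ∀ y : E, IsIntegral R y → y ∈ 𝒱.comap (algebraMap E M) := by
    intro y hy
    rw [ValuationSubring.mem_comap]
    exact hmem ⟨algebraMap E M y, hy.algebraMap⟩
  have hcomp : ∀ y : E, (𝒱.comap (algebraMap E M)).valuation y = 1 ↔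
      𝒱.valuation (y : M) = 1 := by
    intro y
    have h1 : ∀ z : E, (𝒱.comap (algebraMap E M)).valuation z ≤ 1 ↔ 𝒱.valuation (z : M) ≤ 1 := by
      intro z
      rw [ValuationSubring.valuation_le_one_iff, ValuationSubring.mem_comap,
        𝒱.valuation_le_one_iff]
      rfl
    by_cases hy0 : y = 0
    · rw [hy0]
      simp
    have h3 := h1 y⁻¹
    have h4 : ((y⁻¹ : E) : M) = (y : M)⁻¹ := rfl
    rw [h4, map_inv₀, map_inv₀] at h3
    have hv : (𝒱.comap (algebraMap E M)).valuation y ≠ 0 := by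
      rw [Ne, map_eq_zero]; exact hy0
    have hv' : 𝒱.valuation (y : M) ≠ 0 := by
      rw [Ne, map_eq_zero]
      intro h
      exact hy0 (Subtype.ext h)
    rw [inv_le_one₀ (zero_lt_iff.2 hv), inv_le_one₀ (zero_lt_iff.2 hv')] at h3
    rw [le_antisymm_iff, le_antisymm_iff, h1 y, h3]
  obtain ⟨a, b, ha, hb, hab, hor⟩ := unit_coeff (A := R) (M := E)
    (𝒲 := 𝒱.comap (algebraMap E M)) hA x (F.map φ).natDegree (F.map φ) le_rfl
    (by
      rw [aeval_def, eval₂_map]
      apply Subtype.ext
      have h1 : (algebraMap E M) (eval₂ ((algebraMap (integralClosure R E) E).comp φ) x F) =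
        eval₂ ((algebraMap E M).comp ((algebraMap (integralClosure R E) E).comp φ))
          (algebraMap E M x) F := hom_eval₂ _ _ _ _
      have h2 : (algebraMap E M).comp ((algebraMap (integralClosure R E) E).comp φ) =
          (aeval τ : kb[X] →ₐ[kb] M).toRingHom := RingHom.ext hφ
      rw [h2] at h1
      exact h1.trans hF)
    ⟨i, by
      rw [coeff_map, hcomp, hφ]
      apply hone ⟨aeval τ (F.coeff i), int_poly t R htR _⟩
      rw [pt_poly t R htR Ψ hΨ]
      exact hi⟩
  rw [hcomp, hcomp] at hor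
  have hb1 : 𝒱.valuation (b : M) = 1 := by
    rcases hor with h | h
    · have h1 : (x : M) * b = a := by
        rw [← hab]; rfl
      have h2 : 𝒱.valuation (b : M) ≤ 1 := hle ⟨(b : M), hb.algebraMap⟩
      rw [← h1, map_mul] at h
      refine le_antisymm h2 ?_
      calc (1 : _) = 𝒱.valuation (x : M) * 𝒱.valuation (b : M) := h.symm
        _ ≤ 1 * 𝒱.valuation (b : M) := mul_le_mul_left hx' _
        _ = _ := one_mul _
    · exact h
  refine ⟨⟨(a : M), ha.algebraMap⟩, ⟨(b : M), hb.algebraMap⟩, a.2, b.2, ?_, ?_⟩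
  · rw [Ne, hval]
    change ¬ 𝒱.valuation (b : M) < 1
    rw [hb1]
    exact lt_irrefl _
  · change (x : M) * b = a
    rw [← hab]; rfl

omit [CharZero k] [IsGalois K M] [FiniteDimensional (adjoin k {t}) K] in
/-- a nontrivial valuation ring containing `kb` and `t` has a center on the `t`-line -/
theorem center [Algebra.IsAlgebraic K M] [FiniteDimensional (adjoin k {t}) K]
    (ht : Transcendental k t) (𝒱 : ValuationSubring M)
    (hk : ∀ a : kb, algebraMap kb M a ∈ 𝒱) (htV : algebraMap K M t ∈ 𝒱) (h𝒱 : 𝒱 ≠ ⊤) :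
    ∃ c : kb, 𝒱.valuation (algebraMap K M t - algebraMap kb M c) < 1 := by
  by_contra hcon
  push Not at hcon
  set τ : M := algebraMap K M t with hτ
  have htr : Transcendental kb τ := transc (k := k) t ht
  have hconst : ∀ a : kb, a ≠ 0 → 𝒱.valuation (algebraMap kb M a) = 1 := by
    intro a ha
    have h1 := (𝒱.valuation_le_one_iff _).2 (hk a)
    have h2 := (𝒱.valuation_le_one_iff _).2 (hk a⁻¹)
    have h3 : 𝒱.valuation (algebraMap kb M a) * 𝒱.valuation (algebraMap kb M a⁻¹) = 1 := by
      rw [← map_mul, ← map_mul, mul_inv_cancel₀ ha, map_one, map_one]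
    refine le_antisymm h1 ?_
    calc (1 : _) = 𝒱.valuation (algebraMap kb M a) * 𝒱.valuation (algebraMap kb M a⁻¹) := h3.symm
      _ ≤ 𝒱.valuation (algebraMap kb M a) * 1 := mul_le_mul_right h2 _
      _ = _ := mul_one _
  have hlin : ∀ c : kb, 𝒱.valuation (τ - algebraMap kb M c) = 1 := by
    intro c
    refine le_antisymm ?_ (hcon c)
    rw [𝒱.valuation_le_one_iff]
    exact 𝒱.sub_mem htV (hk c)
  have hpoly : ∀ p : kb[X], p ≠ 0 → 𝒱.valuation (aeval τ p) = 1 := by
    intro p hp
    have h1 := (IsAlgClosed.splits p).eq_prod_roots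
    rw [h1, map_mul, aeval_C, map_mul, hconst _ (leadingCoeff_ne_zero.2 hp), one_mul,
      map_multiset_prod, map_multiset_prod, Multiset.map_map, Multiset.map_map]
    apply Multiset.prod_eq_one
    intro z hz
    obtain ⟨c, _, rfl⟩ := Multiset.mem_map.1 hz
    simp only [Function.comp_apply, map_sub, aeval_X, aeval_C]
    exact hlin c
  apply h𝒱
  rw [eq_top_iff]
  intro x _
  obtain ⟨F, hF0, hF⟩ := exists_rel τ htr x (Full.isAlgebraic_M (k := k) t _)
  have hpmem : ∀ p : kb[X], aeval τ p ∈ 𝒱 := by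
    intro p
    by_cases hp : p = 0
    · rw [hp, map_zero]; exact 𝒱.zero_mem
    · rw [← 𝒱.valuation_le_one_iff, hpoly p hp]
  let j : kb[X] →+* 𝒱 := ((aeval τ : kb[X] →ₐ[kb] M).toRingHom).codRestrict 𝒱.toSubring hpmem
  have hlc : IsUnit (j F.leadingCoeff) := by
    rw [𝒱.valuation_eq_one_iff]
    exact hpoly _ (leadingCoeff_ne_zero.2 hF0)
  obtain ⟨u, hu⟩ := hlc
  have hjinj : Function.Injective j := by
    intro p q hpq
    have h1 : aeval τ p = aeval τ q := congrArg Subtype.val hpq
    exact (transcendental_iff_injective.1 htr) h1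
  have hdeg : (F.map j).leadingCoeff = j F.leadingCoeff :=
    leadingCoeff_map_of_injective hjinj _
  have h2 : IsIntegral 𝒱 x := by
    refine ⟨Polynomial.C (↑u⁻¹ : 𝒱) * F.map j, ?_, ?_⟩
    · unfold Monic
      rw [leadingCoeff_mul, leadingCoeff_C, hdeg, ← hu, Units.inv_mul]
    · rw [eval₂_mul, eval₂_map]
      have h3 : (algebraMap 𝒱 M).comp j = (aeval τ : kb[X] →ₐ[kb] M).toRingHom :=
        RingHom.ext fun p => rfl
      rw [h3, hF, mul_zero]
  obtain ⟨y, hy⟩ := (IsIntegrallyClosed.isIntegral_iff (R := 𝒱) (K := M)).mp h2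
  rw [← hy]
  exact y.2

end

end PTAux

section

variable {k K M kb : Type*} [Field k] [CharZero k] [Field K] [Field M] [Field kb] [Algebra k kb]
  [IsAlgClosed kb] [Algebra.IsAlgebraic k kb] [Algebra k K] [Algebra K M] [Algebra kb M]
  [Algebra k M] [IsScalarTower k K M] [IsScalarTower k kb M] [IsGalois K M]
  (t : K) [FiniteDimensional (adjoin k {t}) K]
  (R : Subalgebra k K)

open PTAux

set_option linter.unusedSectionVars false
set_option linter.unusedVariables false

theorem exists_place_of_pt (ht : Transcendental k t) (htR : t ∈ R) (E : IntermediateField K M)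
    (hE : ∀ a : kb, algebraMap kb M a ∈ E)
    (hEf : ∃ s : Finset E, ∀ x : E, (x : M) ∈ Submodule.span (adjoin kb {algebraMap K M t})
      ((fun y : E => (y : M)) '' s)) (Ψ : integralClosure R M →+* kb) (hΨ : IsPt R M kb Ψ) :
    ∃ Q : ValuationSubring E, IsPlaceOfPt Ψ E Q ∧ (∀ a : kb, ⟨algebraMap kb M a, hE a⟩ ∈ Q) ∧
      Q ≠ ⊤ ∧ ∀ r : R, (⟨algebraMap R M r, E.algebraMap_mem (r : K)⟩ : E) ∈ Q := by
  have hprime : (RingHom.ker Ψ).IsPrime := RingHom.ker_isPrime Ψ
  obtain ⟨𝒱, h1, h2, h3⟩ := Full.exists_dominating (algebraMap (integralClosure R M) M)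
    (RingHom.ker Ψ) (fun a ha => by
      have : a = 0 := Subtype.ext ha
      rw [this]
      exact Ideal.zero_mem _)
  have hval : ∀ b : integralClosure R M, Ψ b = 0 ↔ 𝒱.valuation (b : M) < 1 := by
    intro b
    constructor
    · intro hb
      exact h2 b hb
    · intro hb
      by_contra hcon
      have := h3 b hcon
      have h4 : 𝒱.valuation (b : M) = 1 := this
      rw [h4] at hb
      exact lt_irrefl _ hb
  refine ⟨𝒱.comap (algebraMap E M), key t R ht htR E hE Ψ hΨ 𝒱 h1 hval, ?_, ?_, ?_⟩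
  · intro a
    exact h1 ⟨algebraMap kb M a, int_kb R a⟩
  · intro htop
    set τ : M := algebraMap K M t with hτ
    set c : kb := Ψ ⟨τ, int_t t R htR⟩ with hc
    have hint : IsIntegral R (τ - algebraMap kb M c) := (int_t t R htR).sub (int_kb R c)
    have h4 : Ψ ⟨τ - algebraMap kb M c, hint⟩ = 0 := by
      have h5 : (⟨τ - algebraMap kb M c, hint⟩ : integralClosure R M) =
        ⟨τ, int_t t R htR⟩ - ⟨algebraMap kb M c, int_kb R c⟩ := rfl
      rw [h5, map_sub, hΨ c ⟨algebraMap kb M c, int_kb R c⟩ rfl, ← hc, sub_self]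
    have h6 : 𝒱.valuation (τ - algebraMap kb M c) < 1 := (hval _).1 h4
    have h7 : τ - algebraMap kb M c ≠ 0 := by
      intro h0
      have htr : Transcendental kb τ := transc (k := k) t ht
      apply X_sub_C_ne_zero c
      apply (transcendental_iff.1 htr)
      rw [map_sub, aeval_X, aeval_C, h0]
    have hmemE : (τ - algebraMap kb M c)⁻¹ ∈ E :=
      E.inv_mem (E.sub_mem (E.algebraMap_mem t) (hE c))
    have h8 : (⟨(τ - algebraMap kb M c)⁻¹, hmemE⟩ : E) ∈ 𝒱.comap (algebraMap E M) := by
      rw [htop]; exact ValuationSubring.mem_top _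
    rw [ValuationSubring.mem_comap] at h8
    have h9 : 𝒱.valuation (τ - algebraMap kb M c)⁻¹ ≤ 1 := (𝒱.valuation_le_one_iff _).2 h8
    rw [map_inv₀, inv_le_one₀ (by rw [zero_lt_iff, Ne, map_eq_zero]; exact h7)] at h9
    exact absurd (lt_of_lt_of_le h6 h9) (lt_irrefl _)
  · intro r
    exact h1 (algebraMap R (integralClosure R M) r)

theorem exists_pt_of_place (ht : Transcendental k t) (htR : t ∈ R) (E : IntermediateField K M)
    (hE : ∀ a : kb, algebraMap kb M a ∈ E)
    (hEf : ∃ s : Finset E, ∀ x : E, (x : M) ∈ Submodule.span (adjoin kb {algebraMap K M t})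
      ((fun y : E => (y : M)) '' s)) (Q : ValuationSubring E)
    (hQk : ∀ a : kb, ⟨algebraMap kb M a, hE a⟩ ∈ Q) (hQ : Q ≠ ⊤)
    (hQR : ∀ r : R, (⟨algebraMap R M r, E.algebraMap_mem (r : K)⟩ : E) ∈ Q) :
    ∃ Ψ : integralClosure R M →+* kb, IsPt R M kb Ψ ∧ IsPlaceOfPt Ψ E Q := by
  obtain ⟨𝒱, h1, h2, h3⟩ := Full.exists_dominating ((algebraMap E M).comp (algebraMap Q E))
    (IsLocalRing.maximalIdeal Q) (fun a ha => by
      have h4 : algebraMap Q E a = 0 := (map_eq_zero (algebraMap E M)).1 ha
      have : a = 0 := Subtype.ext h4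
      rw [this]
      exact Ideal.zero_mem _)
  have hcomap : 𝒱.comap (algebraMap E M) = Q := by
    ext x
    rw [ValuationSubring.mem_comap]
    constructor
    · intro hx
      by_contra hxQ
      have hx0 : x ≠ 0 := fun h => hxQ (h ▸ Q.zero_mem)
      have h4 : x⁻¹ ∈ Q := (Q.mem_or_inv_mem x).resolve_left hxQ
      have h5 : (⟨x⁻¹, h4⟩ : Q) ∈ IsLocalRing.maximalIdeal Q := by
        rw [Q.valuation_lt_one_iff]
        change Q.valuation x⁻¹ < 1
        rw [map_inv₀]
        have h6 : 1 < Q.valuation x := by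
          rw [← not_le, Q.valuation_le_one_iff]; exact hxQ
        exact inv_lt_one_of_one_lt₀ h6
      have h6 : 𝒱.valuation (algebraMap E M x⁻¹) < 1 := h2 ⟨x⁻¹, h4⟩ h5
      have h7 : 𝒱.valuation (algebraMap E M x) ≤ 1 := (𝒱.valuation_le_one_iff _).2 hx
      have h8 : 𝒱.valuation (algebraMap E M x⁻¹) * 𝒱.valuation (algebraMap E M x) = 1 := by
        rw [← map_mul, ← map_mul, inv_mul_cancel₀ hx0, map_one, map_one]
      have h9 : (1 : 𝒱.ValueGroup) ≤ 𝒱.valuation (algebraMap E M x⁻¹) := by
        calc (1 : 𝒱.ValueGroup) =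
            𝒱.valuation (algebraMap E M x⁻¹) * 𝒱.valuation (algebraMap E M x) := h8.symm
          _ ≤ 𝒱.valuation (algebraMap E M x⁻¹) * 1 := mul_le_mul_right h7 _
          _ = _ := mul_one _
      exact absurd (lt_of_lt_of_le h6 h9) (lt_irrefl _)
    · intro hx
      exact h1 ⟨x, hx⟩
  have hk : ∀ a : kb, algebraMap kb M a ∈ 𝒱 := fun a => h1 ⟨_, hQk a⟩
  have hR : ∀ r : R, algebraMap R M r ∈ 𝒱 := fun r => h1 ⟨_, hQR r⟩
  have hint : ∀ b : integralClosure R M, (b : M) ∈ 𝒱 := fun b => mem_of_isIntegral hR b.2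
  have h𝒱 : 𝒱 ≠ ⊤ := by
    intro htop
    apply hQ
    rw [← hcomap, htop, eq_top_iff]
    intro x _
    exact ValuationSubring.mem_top _
  have htV : algebraMap K M t ∈ 𝒱 := hR ⟨t, htR⟩
  obtain ⟨c, hc⟩ := center t ht 𝒱 hk htV h𝒱
  set τ : M := algebraMap K M t with hτ
  have htr : Transcendental kb τ := transc (k := k) t ht
  let i0 : kb →+* 𝒱 := (algebraMap kb M).codRestrict 𝒱.toSubring hk
  let ρ : 𝒱 →+* IsLocalRing.ResidueField 𝒱 := IsLocalRing.residue 𝒱
  let i1 : kb →+* IsLocalRing.ResidueField 𝒱 := ρ.comp i0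
  have hpmem : ∀ p : kb[X], aeval τ p ∈ 𝒱 := by
    intro p
    rw [aeval_eq_sum_range]
    refine sum_mem fun i _ => ?_
    rw [Algebra.smul_def]
    exact 𝒱.mul_mem _ _ (hk _) (pow_mem htV _)
  let j : kb[X] →+* 𝒱 := ((aeval τ : kb[X] →ₐ[kb] M).toRingHom).codRestrict 𝒱.toSubring hpmem
  have hj : ρ.comp j = i1.comp (evalRingHom c) := by
    apply Polynomial.ringHom_ext
    · intro a
      rw [RingHom.comp_apply, RingHom.comp_apply, coe_evalRingHom, eval_C]
      change ρ (j (Polynomial.C a)) = ρ (i0 a)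
      congr 1
      apply Subtype.ext
      exact aeval_C τ a
    · rw [RingHom.comp_apply, RingHom.comp_apply, coe_evalRingHom, eval_X]
      change ρ (j X) = ρ (i0 c)
      rw [← sub_eq_zero, ← map_sub, IsLocalRing.residue_eq_zero_iff, 𝒱.valuation_lt_one_iff]
      have h4 : ((j X - i0 c : 𝒱) : M) = τ - algebraMap kb M c := by
        change aeval τ X - algebraMap kb M c = _
        rw [aeval_X]
      rw [h4]
      exact hc
  let _ : Algebra kb (IsLocalRing.ResidueField 𝒱) := i1.toAlgebra
  have hint1 : Algebra.IsIntegral kb (IsLocalRing.ResidueField 𝒱) := by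
    have : Algebra.IsAlgebraic kb (IsLocalRing.ResidueField 𝒱) := by
      refine ⟨fun z => ?_⟩
      obtain ⟨x, rfl⟩ := IsLocalRing.residue_surjective z
      obtain ⟨F, ⟨i, hi⟩, hF⟩ := exists_rel_prim τ htr (x : M)
        (Full.isAlgebraic_M (k := k) t _) c
      refine ⟨F.map (evalRingHom c), ?_, ?_⟩
      · intro h0
        apply hi
        have h4 := congrArg (fun g => g.coeff i) h0
        simpa [coeff_map] using h4
      · have h4 : eval₂ j x F = 0 := by
          apply Subtype.ext
          have h5 : (algebraMap 𝒱 M) (eval₂ j x F) = eval₂ ((algebraMap 𝒱 M).comp j)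
            (algebraMap 𝒱 M x) F := hom_eval₂ _ _ _ _
          exact h5.trans hF
        rw [aeval_def, eval₂_map]
        have h6 : (algebraMap kb (IsLocalRing.ResidueField 𝒱)).comp (evalRingHom c) = ρ.comp j :=
          hj.symm
        rw [h6]
        have h7 : ρ (eval₂ j x F) = eval₂ (ρ.comp j) (ρ x) F := hom_eval₂ _ _ _ _
        rw [h4, map_zero] at h7
        exact h7.symm
    exact Algebra.isAlgebraic_iff_isIntegral.1 this
  have hbij : Function.Bijective (algebraMap kb (IsLocalRing.ResidueField 𝒱)) :=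
    IsAlgClosed.algebraMap_bijective_of_isIntegral
  let e : kb ≃+* IsLocalRing.ResidueField 𝒱 := RingEquiv.ofBijective i1 hbij
  let inc : integralClosure R M →+* 𝒱 :=
    (algebraMap (integralClosure R M) M).codRestrict 𝒱.toSubring hint
  let Ψ : integralClosure R M →+* kb := (e.symm : IsLocalRing.ResidueField 𝒱 →+* kb).comp
    (ρ.comp inc)
  have hΨ : IsPt R M kb Ψ := by
    intro a b hab
    change e.symm (ρ (inc b)) = a
    rw [RingEquiv.symm_apply_eq]
    change ρ (inc b) = ρ (i0 a)
    congr 1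
    apply Subtype.ext
    exact hab
  refine ⟨Ψ, hΨ, ?_⟩
  have hkey := key t R ht htR E hE Ψ hΨ 𝒱 hint (by
    intro b
    change e.symm (ρ (inc b)) = 0 ↔ _
    rw [map_eq_zero_iff _ e.symm.injective, IsLocalRing.residue_eq_zero_iff,
      𝒱.valuation_lt_one_iff]
    rfl)
  rw [hcomap] at hkey
  exact hkey

end

end Pool.Agent.Lib.MP_2f3286_ag.Pt
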