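import Mathlib
import Pool.Agent.Lib.MP_2f3286_ag.Full.PointsTwo
import Pool.Agent.Lib.MP_2f3286_ag.Full.ValExt
import Pool.Agent.Lib.MP_2f3286_ag.Full.WVal
import Pool.Agent.Lib.MP_2f3286_ag.Full.Gauss
import Pool.Agent.Lib.MP_2f3286_ag.Pt.Places
import Pool.Agent.Lib.MP_2f3286_ag.Pt.OverDefs

/-!
# The maximal extension unramified over a curve, proper or not
-/

open Polynomial IntermediateField

namespace Pool.Agent.Lib.MP_2f3286_ag.Pt

namespace MaxOver

section res

variable {C L : Type*} [Field C] [Field L] [Algebra C L]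

/-- nonzero constants have valuation one -/
theorem val_const (V : ValuationSubring L) (hC : ∀ a : C, algebraMap C L a ∈ V) {a : C}
    (ha : a ≠ 0) : V.valuation (algebraMap C L a) = 1 := by
  rw [Full.val_eq_one_iff_mem]
  refine ⟨(_root_.map_ne_zero _).mpr ha, hC a, ?_⟩
  rw [← map_inv₀]
  exact hC _

/-- a constant of valuation less than one is zero -/
theorem const_eq_zero (V : ValuationSubring L) (hC : ∀ a : C, algebraMap C L a ∈ V) {a : C}
    (ha : V.valuation (algebraMap C L a) < 1) : a = 0 := by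
  by_contra h
  rw [val_const V hC h] at ha
  exact lt_irrefl _ ha

/-- the residue field of a place is the field of constants -/
theorem residue_const [IsAlgClosed C] (t : L)
    (ht : Transcendental C t) (halg : ∀ z : L, IsAlgebraic (adjoin C {t}) z)
    (V : ValuationSubring L) (hC : ∀ a : C, algebraMap C L a ∈ V) (hV : V ≠ ⊤) (x : L)
    (hx : x ∈ V) : ∃ a : C, V.valuation (x - algebraMap C L a) < 1 := by
  by_contra hcon
  push Not at hcon
  have hx1 : ∀ a : C, V.valuation (x - algebraMap C L a) = 1 := fun a =>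
    le_antisymm ((V.valuation_le_one_iff _).mpr (sub_mem hx (hC a))) (hcon a)
  have h1 : ∀ p : C[X], p ≠ 0 → V.valuation (aeval x p) = 1 := by
    intro p hp
    have hs := (IsAlgClosed.splits p).eq_prod_roots
    rw [hs, map_mul, map_mul, aeval_C, val_const V hC (leadingCoeff_ne_zero.mpr hp), one_mul,
      map_multiset_prod, map_multiset_prod]
    apply Multiset.prod_eq_one
    intro y hy
    simp only [Multiset.mem_map] at hy
    obtain ⟨_, ⟨_, ⟨a, -, rfl⟩, rfl⟩, rfl⟩ := hy
    rw [map_sub, aeval_X, aeval_C]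
    exact hx1 a
  have htx : Transcendental C x := by
    rintro ⟨p, hp, hpx⟩
    have := h1 p hp
    rw [hpx, map_zero] at this
    exact zero_ne_one this
  have hxV : ∀ r : adjoin C {x}, algebraMap (adjoin C {x}) L r ∈ V := by
    rintro ⟨r, hr⟩
    change r ∈ V
    rw [mem_adjoin_simple_iff] at hr
    obtain ⟨p, q, rfl⟩ := hr
    rw [← V.valuation_le_one_iff, map_div₀]
    by_cases hq : q = 0
    · rw [hq, map_zero, map_zero, div_zero]; exact zero_le_one
    by_cases hp : p = 0
    · rw [hp, map_zero, map_zero, zero_div]; exact zero_le_one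
    rw [h1 p hp, h1 q hq, div_one]
  have h2 : IsAlgebraic (adjoin C {x}) t := isAlgebraic_adjoin_iff.mpr (.adjoin_singleton ht htx
    (isAlgebraic_adjoin_iff.mp (halg x)))
  have h3 : adjoin C {t} ≤ (algebraicClosure (adjoin C {x}) L).restrictScalars C := by
    rw [adjoin_le_iff, Set.singleton_subset_iff]
    exact mem_algebraicClosure_iff.mpr h2
  have h4 : ∀ r : adjoin C {t}, algebraMap (adjoin C {t}) L r ∈ V := by
    rintro ⟨r, hr⟩
    have h5 : IsAlgebraic (adjoin C {x}) r := mem_algebraicClosure_iff.mp (h3 hr)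
    exact PTAux.mem_of_isIntegral hxV h5.isIntegral
  apply hV
  rw [eq_top_iff]
  intro z _
  exact PTAux.mem_of_isIntegral h4 (halg z).isIntegral

/-- algebraicity over `C(t)` passes to algebraic extensions -/
theorem alg_tower {L' : Type*} [Field L'] [Algebra C L'] [Algebra L L'] [IsScalarTower C L L']
    [Algebra.IsAlgebraic L L'] (t : L) (halg : ∀ z : L, IsAlgebraic (adjoin C {t}) z) (z : L') :
    IsAlgebraic (adjoin C {algebraMap L L' t}) z := by
  set F₀ := adjoin C {algebraMap L L' t} with hF₀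
  have hmem : ∀ x ∈ adjoin C {t}, algebraMap L L' x ∈ F₀ := by
    intro x hx
    obtain ⟨r, s, rfl⟩ := (IntermediateField.mem_adjoin_simple_iff C x).mp hx
    rw [map_div₀, ← aeval_algebraMap_apply, ← aeval_algebraMap_apply]
    exact (IntermediateField.mem_adjoin_simple_iff C _).mpr ⟨_, _, rfl⟩
  let f₀ : adjoin C {t} →+* F₀ :=
    { toFun := fun y => ⟨algebraMap L L' y, hmem y y.2⟩
      map_one' := Subtype.ext (by simp)
      map_mul' := fun a b => Subtype.ext (by simp)
      map_zero' := Subtype.ext (by simp)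
      map_add' := fun a b => Subtype.ext (by simp) }
  let A := algebraicClosure F₀ L'
  have hK : ∀ y : L, algebraMap L L' y ∈ A := by
    intro y
    refine mem_algebraicClosure_iff.mpr ?_
    obtain ⟨p, hp0, hp⟩ := halg y
    refine ⟨p.map f₀, (Polynomial.map_ne_zero_iff f₀.injective).mpr hp0, ?_⟩
    rw [aeval_def, eval₂_map]
    have h2 : (algebraMap F₀ L').comp f₀ =
        (algebraMap L L').comp (algebraMap (adjoin C {t}) L) := RingHom.ext fun y => rfl
    rw [h2, ← hom_eval₂, ← aeval_def, hp, map_zero]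
  let f : L →+* A :=
    { toFun := fun y => ⟨algebraMap L L' y, hK y⟩
      map_one' := Subtype.ext (by simp)
      map_mul' := fun a b => Subtype.ext (by simp)
      map_zero' := Subtype.ext (by simp)
      map_add' := fun a b => Subtype.ext (by simp) }
  have h1 : IsAlgebraic A z := by
    obtain ⟨p, hp0, hp⟩ := Algebra.IsAlgebraic.isAlgebraic (R := L) z
    refine ⟨p.map f, (Polynomial.map_ne_zero_iff f.injective).mpr hp0, ?_⟩
    rw [aeval_def, eval₂_map]
    have h2 : (algebraMap A L').comp f = algebraMap L L' := RingHom.ext fun y => rfl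
    rw [h2, ← aeval_def, hp]
  exact IsAlgebraic.restrictScalars F₀ h1

/-- elements of a group of automorphisms that are inert preserve the ring -/
theorem inert_mem_iff {K : Type*} [Field K] [Algebra K L] {V : ValuationSubring L} {g : Gal(L/K)}
    (hg : IsInertAt V g) (x : L) : x ∈ V ↔ g x ∈ V := by
  refine ⟨fun h => (hg x h).1, fun h => ?_⟩
  by_contra hx
  have hx0 : x ≠ 0 := by
    rintro rfl
    exact hx V.zero_mem
  have h1 : x⁻¹ ∈ V := (V.mem_or_inv_mem x).resolve_left hx
  have h2 : V.valuation x⁻¹ < 1 := by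
    rw [Full.val_lt_one_iff, inv_inv]
    exact Or.inr hx
  have h3 : V.valuation (g x⁻¹) < 1 := by
    have h4 : g x⁻¹ = (g x⁻¹ - x⁻¹) + x⁻¹ := by ring
    rw [h4]
    exact V.valuation.map_add_lt (hg _ h1).2 h2
  rw [Full.val_lt_one_iff, ← map_inv₀, inv_inv] at h3
  rcases h3 with h3 | h3
  · rw [map_eq_zero] at h3
    exact inv_ne_zero hx0 h3
  · exact h3 h

end res

section ext

variable {M Ω : Type*} [Field M] [Field Ω] [Algebra M Ω]

/-- a valuation ring extends -/
theorem exists_ext_val (V : ValuationSubring M) :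
    ∃ V₁ : ValuationSubring Ω, V₁.comap (algebraMap M Ω) = V := by
  obtain ⟨V₁, h1, h2, h3⟩ := Full.exists_dominating ((algebraMap M Ω).comp V.subtype)
    (IsLocalRing.maximalIdeal V) (fun a ha => by
      have : a = 0 := by
        apply Subtype.ext
        apply (algebraMap M Ω).injective
        exact ha.trans (map_zero _).symm
      rw [this]
      exact Ideal.zero_mem _)
  refine ⟨V₁, ?_⟩
  ext x
  rw [ValuationSubring.mem_comap]
  refine ⟨fun h => ?_, fun h => h1 ⟨x, h⟩⟩
  by_contra hx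
  have hx1 : x⁻¹ ∈ V := (V.mem_or_inv_mem x).resolve_left hx
  have h4 : (⟨x⁻¹, hx1⟩ : V) ∈ IsLocalRing.maximalIdeal V := by
    rw [V.valuation_lt_one_iff]
    rw [Full.val_lt_one_iff, inv_inv]
    exact Or.inr hx
  have h5 : V₁.valuation (algebraMap M Ω x⁻¹) < 1 := h2 _ h4
  rw [Full.val_lt_one_iff, ← map_inv₀, inv_inv] at h5
  rcases h5 with h5 | h5
  · rw [map_eq_zero, inv_eq_zero] at h5
    rw [h5] at hx
    exact hx V.zero_mem
  · exact h5 h

/-- a proper valuation ring restricts to a proper one -/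
theorem comap_ne_top [Algebra.IsAlgebraic M Ω] (V₁ : ValuationSubring Ω) (h : V₁ ≠ ⊤) :
    V₁.comap (algebraMap M Ω) ≠ ⊤ := by
  intro h1
  apply h
  rw [eq_top_iff]
  intro z _
  refine PTAux.mem_of_isIntegral (R := M) (fun r => ?_)
    (Algebra.IsAlgebraic.isAlgebraic (R := M) z).isIntegral
  have : r ∈ V₁.comap (algebraMap M Ω) := by rw [h1]; exact ValuationSubring.mem_top _
  exact this

end ext

section

variable {R k K M Ω kb : Type*} [CommRing R] [Field k] [CharZero k] [Field K] [Field M] [Field kb]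
  [Algebra k kb] [IsAlgClosed kb] [Algebra.IsAlgebraic k kb] [Algebra k K] [Algebra K M]
  [Algebra kb M] [Algebra k M] [IsScalarTower k K M] [IsScalarTower k kb M] [IsGalois K M]
  [Algebra R M]
  [Field Ω] [IsAlgClosed Ω] [Algebra M Ω] [Algebra.IsAlgebraic M Ω] [Algebra K Ω] [Algebra R Ω]
  [Algebra kb Ω] [IsScalarTower K M Ω] [IsScalarTower R M Ω]
  [IsScalarTower kb M Ω]

include k in
theorem unram_aux (t : M) (ht : Transcendental kb t)
    (halg : ∀ z : M, IsAlgebraic (adjoin kb {t}) z)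
    (h : ∀ x : Ω, (∃ m : M, algebraMap M Ω m = x) → ∀ V : ValuationSubring Ω, IsPlcOver R kb V →
      ∀ g : Gal(Ω/K), IsInertAt V g → g x = x) :
    IsUnramOver R K M kb := by
  classical
  intro V hV g hg
  have hK0 : CharZero K := charZero_of_injective_algebraMap (algebraMap k K).injective
  have hM0 : CharZero M := charZero_of_injective_algebraMap (algebraMap K M).injective
  have halgK : Algebra.IsAlgebraic K Ω := Algebra.IsAlgebraic.trans K M Ω
  have hcl : IsAlgClosure K Ω := ⟨inferInstance, halgK⟩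
  have hnorm : Normal K Ω := IsAlgClosure.normal K Ω
  have hΩg : IsGalois K Ω := ⟨⟩
  have hΩM : IsGalois M Ω := IsGalois.tower_top_of_isGalois K M Ω
  -- `g` is the identity on the constants
  have hgk : ∀ a : kb, g (algebraMap kb M a) = algebraMap kb M a := by
    intro a
    obtain ⟨a', ha'⟩ := Full.exists_apply_alg k g a
    have h1 := (hg _ (hV.1.1 a)).2
    rw [ha', ← map_sub] at h1
    have h2 := const_eq_zero V hV.1.1 h1
    rw [ha', sub_eq_zero.mp h2]
  -- extension of the place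
  obtain ⟨V₁, hV₁⟩ := exists_ext_val (Ω := Ω) V
  have hV₁mem : ∀ m : M, algebraMap M Ω m ∈ V₁ ↔ m ∈ V := by
    intro m
    rw [← ValuationSubring.mem_comap, hV₁]
  have hV₁k : ∀ a : kb, algebraMap kb Ω a ∈ V₁ := by
    intro a
    rw [IsScalarTower.algebraMap_apply kb M Ω, hV₁mem]
    exact hV.1.1 a
  have hV₁R : ∀ r : R, algebraMap R Ω r ∈ V₁ := by
    intro r
    rw [IsScalarTower.algebraMap_apply R M Ω, hV₁mem]
    exact hV.2 r
  have hV₁top : V₁ ≠ ⊤ := by
    rintro rfl
    apply hV.1.2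
    rw [← hV₁, eq_top_iff]
    intro z _
    exact ValuationSubring.mem_top _
  have hplc : IsPlcOver R kb V₁ := ⟨⟨hV₁k, hV₁top⟩, hV₁R⟩
  -- lift of `g`
  obtain ⟨g', hg'⟩ := AlgEquiv.restrictNormalHom_surjective (F := K) (K₁ := M) (E := Ω) g
  have hg'M : ∀ m : M, g' (algebraMap M Ω m) = algebraMap M Ω (g m) := by
    intro m
    rw [← hg']
    exact (AlgEquiv.restrictNormal_commutes g' M m).symm
  -- transitivity
  obtain ⟨h', hh'⟩ := Full.val_trans (E := M) (M := Ω) (G := Gal(Ω/M))
    (fun x => Full.isOpen_stab x) (fun σ x => σ.commutes x)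
    (fun x hx => (InfiniteGalois.mem_range_algebraMap_iff_fixed x).mpr hx)
    V₁ (V₁.comap (g' : Ω →+* Ω)) (by
      ext m
      rw [ValuationSubring.mem_comap, ValuationSubring.mem_comap, ValuationSubring.mem_comap]
      change _ ↔ g' (algebraMap M Ω m) ∈ V₁
      rw [hg'M, hV₁mem, hV₁mem]
      exact inert_mem_iff hg m)
  have hh1 : ∀ x, g' x ∈ V₁ ↔ h' x ∈ V₁ := fun x => hh' x
  let hK : Gal(Ω/K) := h'.restrictScalars K
  have hhK : ∀ x, hK x = h' x := fun x => rfl
  have hinv : ∀ x, hK (hK⁻¹ x) = x := fun x => hK.apply_symm_apply x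
  have hg1 : ∀ x, (g' * hK⁻¹) x ∈ V₁ ↔ x ∈ V₁ := by
    intro x
    rw [AlgEquiv.mul_apply, hh1, ← hhK, hinv]
  have hinvM : ∀ m : M, hK⁻¹ (algebraMap M Ω m) = algebraMap M Ω m := by
    intro m
    have h3 : hK (algebraMap M Ω m) = algebraMap M Ω m := h'.commutes m
    have h4 := congrArg (hK⁻¹ : Gal(Ω/K)) h3
    rw [← h4]
    exact hK.symm_apply_apply _
  have hg1M : ∀ m : M, (g' * hK⁻¹) (algebraMap M Ω m) = algebraMap M Ω (g m) := by
    intro m
    rw [AlgEquiv.mul_apply, hinvM, hg'M]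
  have hg1lt : ∀ x, V₁.valuation x < 1 → V₁.valuation ((g' * hK⁻¹) x) < 1 := by
    intro x hx
    rw [Full.val_lt_one_iff] at hx ⊢
    rcases hx with hx | hx
    · exact Or.inl (by rw [hx, map_zero])
    · refine Or.inr ?_
      rw [← map_inv₀, hg1]
      exact hx
  -- the residue field
  have htΩ : Transcendental kb (algebraMap M Ω t) := by
    intro h0
    exact ht ((isAlgebraic_algebraMap_iff (algebraMap M Ω).injective).mp h0)
  have halgΩ : ∀ z : Ω, IsAlgebraic (adjoin kb {algebraMap M Ω t}) z := alg_tower t halg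
  have hinert : IsInertAt V₁ (g' * hK⁻¹) := by
    intro x hx
    refine ⟨(hg1 x).mpr hx, ?_⟩
    obtain ⟨a, ha⟩ := residue_const (algebraMap M Ω t) htΩ halgΩ V₁ hV₁k hV₁top x hx
    have h1 : (g' * hK⁻¹) (algebraMap kb Ω a) = algebraMap kb Ω a := by
      rw [IsScalarTower.algebraMap_apply kb M Ω, hg1M, hgk]
    have h2 : (g' * hK⁻¹) x - x = (g' * hK⁻¹) (x - algebraMap kb Ω a) -
        (x - algebraMap kb Ω a) := by
      rw [map_sub, h1]; ring
    rw [h2]
    exact V₁.valuation.map_sub_lt (hg1lt _ ha) ha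
  apply AlgEquiv.ext
  intro m
  apply (algebraMap M Ω).injective
  rw [← hg1M]
  exact h _ ⟨m, rfl⟩ V₁ hplc _ hinert

omit [CharZero k] [Algebra.IsAlgebraic k kb] [IsGalois K M] [Algebra K M] [IsScalarTower K M Ω] in
theorem radClosed_aux
    (h : ∀ x : Ω, (∃ m : M, algebraMap M Ω m = x) ↔ ∀ V : ValuationSubring Ω, IsPlcOver R kb V →
      ∀ g : Gal(Ω/K), IsInertAt V g → g x = x) :
    IsRadClosedOver R M kb := by
  classical
  intro n ρ hn hρ hloc
  obtain ⟨β, hβ⟩ := IsAlgClosed.exists_pow_nat_eq (algebraMap M Ω ρ) hn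
  suffices hm : ∃ m : M, algebraMap M Ω m = β by
    obtain ⟨m, hm⟩ := hm
    refine ⟨m, (algebraMap M Ω).injective ?_⟩
    rw [map_pow, hm, hβ]
  refine (h β).mpr fun V₁ hV₁ g hg => ?_
  have hgM : ∀ m : M, g (algebraMap M Ω m) = algebraMap M Ω m := fun m =>
    (h _).mp ⟨m, rfl⟩ V₁ hV₁ g hg
  obtain ⟨c, hc0, hc⟩ := hloc (V₁.comap (algebraMap M Ω)) ⟨⟨fun a => by
      rw [ValuationSubring.mem_comap, ← IsScalarTower.algebraMap_apply]
      exact hV₁.1.1 a, comap_ne_top V₁ hV₁.1.2⟩, fun r => by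
      rw [ValuationSubring.mem_comap, ← IsScalarTower.algebraMap_apply]
      exact hV₁.2 r⟩
  rw [Full.val_comap_eq_one] at hc
  have hcΩ : algebraMap M Ω c ≠ 0 := (_root_.map_ne_zero _).mpr hc0
  set ξ : Ω := β / algebraMap M Ω c with hξ
  have hβξ : β = algebraMap M Ω c * ξ := by
    rw [hξ, mul_div_cancel₀ _ hcΩ]
  have hξn : ξ ^ n = algebraMap M Ω (ρ * (c ^ n)⁻¹) := by
    rw [hξ, div_pow, hβ, map_mul, map_inv₀, map_pow, div_eq_mul_inv]
  have hξ1 : V₁.valuation ξ = 1 := by
    have h1 : V₁.valuation ξ ^ n = 1 := by rw [← map_pow, hξn, hc]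
    rcases pow_eq_one_iff.mp h1 with h2 | h2
    · exact h2
    · omega
  have hξV : ξ ∈ V₁ := by rw [← V₁.valuation_le_one_iff, hξ1]
  have hξ0 : ξ ≠ 0 := by
    intro h0
    rw [h0, map_zero] at hξ1
    exact zero_ne_one hξ1
  have h1 : (g ξ / ξ) ^ n = 1 := by
    rw [div_pow, ← map_pow, hξn, hgM]
    refine div_self ?_
    rw [← hξn]; exact pow_ne_zero n hξ0
  obtain ⟨ζ, hζ⟩ : ∃ ζ : kb, algebraMap kb Ω ζ = g ξ / ξ := by
    have h2 : IsIntegral kb (g ξ / ξ) := ⟨Polynomial.X ^ n - 1,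
      Polynomial.monic_X_pow_sub_C 1 (by omega), by simp [h1]⟩
    have h3 : (minpoly kb (g ξ / ξ)).degree = 1 :=
      IsAlgClosed.degree_eq_one_of_irreducible kb (minpoly.irreducible h2)
    exact minpoly.mem_range_of_degree_eq_one kb _ h3
  have h2 : g ξ = algebraMap kb Ω ζ * ξ := by
    rw [hζ, div_mul_cancel₀ _ hξ0]
  have h3 : V₁.valuation (g ξ - ξ) < 1 := (hg ξ hξV).2
  have h4 : g ξ - ξ = algebraMap kb Ω (ζ - 1) * ξ := by
    rw [h2, map_sub, map_one]; ring
  rw [h4, map_mul, hξ1, mul_one] at h3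
  have h5 : ζ = 1 := sub_eq_zero.mp (const_eq_zero V₁ hV₁.1.1 h3)
  rw [hβξ, map_mul, hgM, h2, h5, map_one, one_mul]

end

end MaxOver

/-- PMAX -/
theorem unramOver_of_max {k K M kb : Type*} [Field k] [CharZero k] [Field K] [Field M] [Field kb]
    [Algebra k kb] [IsAlgClosed kb] [Algebra.IsAlgebraic k kb] [Algebra k K] [Algebra K M]
    [Algebra kb M] [Algebra k M] [IsScalarTower k K M] [IsScalarTower k kb M] [IsGalois K M]
    (t : K) (ht : Transcendental k t) [FiniteDimensional (adjoin k {t}) K] (R₀ : Subalgebra k K)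
    (h : IsMaxUnramOver R₀ K M kb) : IsUnramOver R₀ K M kb :=
  MaxOver.unram_aux (k := k) (Ω := AlgebraicClosure M) (algebraMap K M t)
    (PTAux.transc (k := k) t ht) (Full.isAlgebraic_M (k := k) t) (fun x => (h x).mp)

theorem radClosedOver_of_max {k K M kb : Type*} [Field k] [CharZero k] [Field K] [Field M]
    [Field kb] [Algebra k kb] [IsAlgClosed kb] [Algebra.IsAlgebraic k kb] [Algebra k K]
    [Algebra K M] [Algebra kb M] [Algebra k M] [IsScalarTower k K M] [IsScalarTower k kb M]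
    [IsGalois K M] (R₀ : Subalgebra k K)
    (h : IsMaxUnramOver R₀ K M kb) : IsRadClosedOver R₀ M kb :=
  MaxOver.radClosed_aux (Ω := AlgebraicClosure M) h

end Pool.Agent.Lib.MP_2f3286_ag.Pt
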