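import Mathlib
import Pool.Agent.Lib.MP_2f3286_ag.Full.Sep
import Pool.Agent.Lib.MP_2f3286_ag.Pt.Defs

/-!
# EX1: a function with a single pole (function fields in characteristic zero)
-/

open Polynomial IntermediateField
open scoped IntermediateField.algebraAdjoinAdjoin

namespace Pool.Agent.Lib.MP_2f3286_ag.Pt

open Pool.Agent.Lib.MP_2f3286_ag.Full

namespace Ex1

section Vals

variable {F A : Type*} [Field F] [Field A] [Algebra F A]

theorem val_C (Q : ValuationSubring A) (hQ : ∀ a : F, algebraMap F A a ∈ Q) (a : F) (ha : a ≠ 0) :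
    Q.valuation (algebraMap F A a) = 1 := by
  have hA : algebraMap F A a ≠ 0 := by
    rwa [Ne, map_eq_zero]
  refine le_antisymm ((Q.valuation_le_one_iff _).2 (hQ a)) ?_
  have h1 := (Q.valuation_le_one_iff _).2 (hQ a⁻¹)
  rw [map_inv₀, map_inv₀] at h1
  exact (inv_le_one₀ (zero_lt_iff.2 ((Valuation.ne_zero_iff _).2 hA))).1 h1

theorem aeval_mem (Q : ValuationSubring A) (hQ : ∀ a : F, algebraMap F A a ∈ Q) (u : A)
    (hu : u ∈ Q) (p : F[X]) : aeval u p ∈ Q := by
  rw [aeval_eq_sum_range]
  refine sum_mem fun i _ => ?_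
  rw [Algebra.smul_def]
  exact Q.mul_mem _ _ (hQ _) (pow_mem hu i)

theorem val_unit (Q : ValuationSubring A) (hQ : ∀ a : F, algebraMap F A a ∈ Q) (u : A)
    (hu : Q.valuation u < 1) (h : F[X]) (h0 : h.coeff 0 ≠ 0) : Q.valuation (aeval u h) = 1 := by
  have e : aeval u h = algebraMap F A (h.coeff 0) + u * aeval u h.divX := by
    conv_lhs => rw [← divX_mul_X_add h]
    simp
    ring
  have h1 : Q.valuation (u * aeval u h.divX) < 1 := by
    rw [map_mul, mul_comm]
    exact lt_of_le_of_lt (mul_le_of_le_one_left (zero_le) ((Q.valuation_le_one_iff _).2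
      (aeval_mem Q hQ u ((Q.valuation_le_one_iff _).1 hu.le) _))) hu
  rw [e, Valuation.map_add_eq_of_lt_left]
  · exact val_C Q hQ _ h0
  · rw [val_C Q hQ _ h0]
    exact h1

theorem int_mem (Q : ValuationSubring A) (hQ : ∀ a : F, algebraMap F A a ∈ Q) (u : A) (hu : u ∈ Q)
    (z : A) (hz : IsIntegral (Algebra.adjoin F {u}) z) : z ∈ Q := by
  have hS : ∀ x : Algebra.adjoin F {u}, (x : A) ∈ Q := by
    rintro ⟨x, hx⟩
    obtain ⟨p, rfl⟩ := (Pole.mem_adj u x).1 hx
    exact aeval_mem Q hQ u hu p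
  let f : Algebra.adjoin F {u} →+* Q :=
    { toFun := fun x => ⟨x, hS x⟩
      map_one' := rfl
      map_mul' := fun _ _ => rfl
      map_zero' := rfl
      map_add' := fun _ _ => rfl }
  obtain ⟨p, hp, hpz⟩ := hz
  have : IsIntegral Q z := by
    refine ⟨p.map f, hp.map f, ?_⟩
    rw [eval₂_map]
    exact hpz
  obtain ⟨y, hy⟩ := IsIntegrallyClosedIn.isIntegral_iff.1 this
  rw [← hy]
  exact y.2

end Vals

/-- the counting step, for an abstract Dedekind domain `O` -/
theorem core {F A O : Type*} [Field F] [Field A] [Algebra F A] [CommRing O]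
    [IsDedekindDomain O] [Algebra F O] [Algebra O A] [IsScalarTower F O A] [IsFractionRing O A]
    (t u : A) (hut : u * t = 1) (r : ℕ) {κ : Type*} [Fintype κ]
    (hκ : Fintype.card κ = r) (u' : O) (hu' : algebraMap O A u' = u) (b : κ → O)
    (hb : ∀ z : O, ∃ p : κ → F[X], z = ∑ i, aeval u' (p i) * b i)
    (hC : ∀ c : integralClosure F A, ∃ o : O, algebraMap O A o = c)
    (P : ValuationSubring A) (hPF : ∀ a : F, algebraMap F A a ∈ P) (hPu : P.valuation u < 1)
    (hO : ∀ Q : ValuationSubring A, (∀ a : F, algebraMap F A a ∈ Q) → Q.valuation u < 1 → ∀ z : O, algebraMap O A z ∈ Q)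
    {s : Type*} [Fintype s] (hs : Fintype.card s = r) (w : s → A)
    (hw : ∀ (i : s) (Q : ValuationSubring A), (∀ a : F, algebraMap F A a ∈ Q) → t ∈ Q → w i ∈ Q)
    (hwli : ∀ d : ℕ, LinearIndependent F (fun ij : s × Fin (d + 1) => t ^ (ij.2 : ℕ) * w ij.1))
    (c : ℕ) (h : F[X]) (h0 : h.coeff 0 ≠ 0)
    (hmul : ∀ i, ∃ o : O, algebraMap O A o = u ^ c * aeval u h * w i) :
    ∃ y : A, y ∉ P ∧ (∀ Q : ValuationSubring A, (∀ a : F, algebraMap F A a ∈ Q) → Q ≠ ⊤ →
      Q ≠ P → y ∈ Q) := by
  classical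
  have hinj := IsFractionRing.injective O A
  have hu0 : u ≠ 0 := left_ne_zero_of_mul_eq_one hut
  have hu'0 : u' ≠ 0 := by
    rintro rfl
    rw [map_zero] at hu'
    exact hu0 hu'.symm
  let 𝔭 : Ideal O := Pole.cenI P (hO P hPF hPu)
  have hp𝔭 : 𝔭.IsPrime := Pole.cenI_prime P (hO P hPF hPu)
  have hu𝔭 : u' ∈ 𝔭 := by
    rw [Pole.mem_cenI, hu']
    exact hPu
  have h𝔭0 : 𝔭 ≠ ⊥ := by
    intro hbot
    rw [hbot, Ideal.mem_bot] at hu𝔭
    exact hu'0 hu𝔭
  obtain ⟨I, hI0, hI1, hI2, hI3⟩ := Pole.exists_compl 𝔭 h𝔭0 u' hu'0 hu𝔭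
  have hH0 : aeval u h ≠ 0 := by
    intro h3
    have := val_unit P hPF u hPu h h0
    rw [h3, map_zero] at this
    exact zero_ne_one this
  -- the constants
  obtain ⟨f1, f2⟩ := Pole.quot_bound (F := F) u' b hb 1
  rw [hκ, mul_one, pow_one] at f2
  rw [pow_one] at f1
  have hnu : ¬ IsUnit u' := fun hun => hp𝔭.ne_top (Ideal.eq_top_of_isUnit_mem _ hu𝔭 hun)
  obtain ⟨f3, f4⟩ := Pole.const_le hinj hC u' hnu
  have f5 : Module.finrank F (integralClosure F A) ≤ r := f4.trans f2
  -- the maps
  obtain ⟨d, hd⟩ : ∃ d, d = r * c + 1 := ⟨_, rfl⟩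
  obtain ⟨m, hm⟩ : ∃ m, m = c + d := ⟨_, rfl⟩
  let xm : (s × Fin (d + 1) → F) →ₗ[F] A :=
    Fintype.linearCombination F (fun ij : s × Fin (d + 1) => t ^ (ij.2 : ℕ) * w ij.1)
  have hxm : ∀ a, xm a = ∑ ij : s × Fin (d + 1), a ij • (t ^ (ij.2 : ℕ) * w ij.1) := fun a =>
    Fintype.linearCombination_apply _ _ _
  have hxinj : Function.Injective xm := by
    have := hwli d
    rw [Fintype.linearIndependent_iff] at this
    rw [← LinearMap.ker_eq_bot, LinearMap.ker_eq_bot']
    intro a ha
    rw [hxm] at ha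
    exact funext (this a ha)
  choose o ho using hmul
  let T : (s × Fin (d + 1) → F) →ₗ[F] O :=
    Fintype.linearCombination F (fun ij : s × Fin (d + 1) => u' ^ (d - (ij.2 : ℕ)) * o ij.1)
  have hT : ∀ a, algebraMap O A (T a) = u ^ m * aeval u h * xm a := by
    intro a
    rw [hxm, Finset.mul_sum]
    simp only [T, Fintype.linearCombination_apply]
    rw [map_sum]
    refine Finset.sum_congr rfl fun ij _ => ?_
    have h1 : u ^ (d - (ij.2 : ℕ)) * u ^ c = u ^ m * t ^ (ij.2 : ℕ) := by
      have h2 : (ij.2 : ℕ) ≤ d := Nat.lt_succ_iff.1 ij.2.2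
      have h3 : m = (d - (ij.2 : ℕ)) + c + ij.2 := by omega
      rw [h3, pow_add, pow_add, mul_assoc _ (u ^ (ij.2 : ℕ)), ← mul_pow, hut, one_pow, mul_one]
    rw [Algebra.smul_def, Algebra.smul_def, map_mul, map_mul, map_pow, hu', ho,
      ← IsScalarTower.algebraMap_apply]
    linear_combination (algebraMap F A (a ij) * aeval u h * w ij.1) * h1
  obtain ⟨g1, g2⟩ := Pole.quot_bound (F := F) u' b hb m
  rw [hκ] at g2
  obtain ⟨g3, g4⟩ := Pole.quot_I (F := F) 𝔭 I u' m (hI1 m) (hI2 m) (fun j => hI3 m j)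
  let π : O →ₗ[F] (O ⧸ I ^ m) := (Ideal.Quotient.mkₐ F (I ^ m)).toLinearMap
  let N := LinearMap.ker (π.comp T)
  have hN : r < Module.finrank F N := by
    have e1 := LinearMap.finrank_range_add_finrank_ker (π.comp T)
    have e2 := Submodule.finrank_le (LinearMap.range (π.comp T))
    rw [Module.finrank_fintype_fun_eq_card, Fintype.card_prod, Fintype.card_fin, hs] at e1
    have e3 : r * (d + 1) + m ≤ Module.finrank F N + r * m := by
      have : Module.finrank F N = Module.finrank F (LinearMap.ker (π.comp T)) := rfl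
      omega
    subst hm
    subst hd
    nlinarith
  -- a nonconstant element
  obtain ⟨a, haN, hax⟩ : ∃ a ∈ N, ¬ IsIntegral F (xm a) := by
    by_contra hcon
    push Not at hcon
    let g : N →ₗ[F] Subalgebra.toSubmodule (integralClosure F A) :=
      LinearMap.codRestrict _ (xm.comp N.subtype) (fun a => hcon a a.2)
    have hg : Function.Injective g := by
      intro a a' haa
      apply Subtype.ext
      apply hxinj
      exact congrArg Subtype.val haa
    have : Module.Finite F (Subalgebra.toSubmodule (integralClosure F A)) := f3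
    have h5 := LinearMap.finrank_le_finrank_of_injective hg
    have h6 : Module.finrank F (Subalgebra.toSubmodule (integralClosure F A)) =
      Module.finrank F (integralClosure F A) := rfl
    omega
  have hTI : T a ∈ I ^ m := by
    have : π (T a) = 0 := haN
    exact Ideal.Quotient.eq_zero_iff_mem.1 this
  have key : ∀ Q : ValuationSubring A, (∀ a : F, algebraMap F A a ∈ Q) → Q ≠ ⊤ → Q ≠ P →
      xm a ∈ Q := by
    intro Q hQF hQ hQP
    by_cases htQ : t ∈ Q
    · rw [hxm]
      refine sum_mem fun ij _ => ?_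
      rw [Algebra.smul_def]
      exact Q.mul_mem _ _ (hQF _) (Q.mul_mem _ _ (pow_mem htQ _) (hw _ Q hQF htQ))
    · have hQu : Q.valuation u < 1 := by
        rw [eq_inv_of_mul_eq_one_left hut, map_inv₀]
        rw [← Q.valuation_le_one_iff, not_le] at htQ
        exact inv_lt_one_of_one_lt₀ htQ
      let 𝔮 : Ideal O := Pole.cenI Q (hO Q hQF hQu)
      have hp𝔮 : 𝔮.IsPrime := Pole.cenI_prime Q (hO Q hQF hQu)
      obtain ⟨g, hg1, hg2⟩ : ∃ g, g ∈ 𝔭 ∧ g ∉ 𝔮 := by
        by_contra hcon
        push Not at hcon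
        have hle : 𝔭 ≤ 𝔮 := hcon
        have hmax : 𝔭.IsMaximal := hp𝔭.isMaximal h𝔭0
        have heq : 𝔭 = 𝔮 := hmax.eq_of_le hp𝔮.ne_top hle
        refine hQP (Pole.eq_of_cen Q P (hO Q hQF hQu) (hO P hPF hPu) 𝔭 h𝔭0 (fun z => ?_) (fun z => ?_))
        · rw [heq]
          exact Pole.mem_cenI _ _ _
        · exact Pole.mem_cenI _ _ _
      have h7 : g ^ m * T a ∈ Ideal.span {u' ^ m} := by
        rw [← hI1 m]
        exact Ideal.mul_mem_mul (Ideal.pow_mem_pow hg1 m) hTI
      rw [Ideal.mem_span_singleton] at h7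
      obtain ⟨z, hz⟩ := h7
      have h8 : algebraMap O A g ^ m * (aeval u h * xm a) = algebraMap O A z := by
        have := congrArg (algebraMap O A) hz
        rw [map_mul, map_pow, hT, map_mul, map_pow, hu'] at this
        refine mul_left_cancel₀ (pow_ne_zero m hu0) ?_
        linear_combination this
      have h9 : Q.valuation (algebraMap O A g) = 1 := by
        refine le_antisymm ((Q.valuation_le_one_iff _).2 (hO Q hQF hQu g)) ?_
        rw [Pole.mem_cenI, not_lt] at hg2
        exact hg2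
      have h10 := congrArg Q.valuation h8
      rw [map_mul, map_mul, map_pow, h9, one_pow, one_mul, val_unit Q hQF u hQu h h0,
        one_mul] at h10
      rw [← Q.valuation_le_one_iff, h10, Q.valuation_le_one_iff]
      exact hO Q hQF hQu z
  refine ⟨xm a, ?_, key⟩
  have hx : xm a ∉ (integralClosure F A).toSubring := hax
  obtain ⟨V, hV1, hV2⟩ := Subring.exists_le_valuationSubring_of_isIntegrallyClosedIn hx
  have hVt : V ≠ ⊤ := by
    rintro rfl
    exact hV2 (ValuationSubring.mem_top _)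
  have hVF : ∀ a : F, algebraMap F A a ∈ V := fun a => hV1 (algebraMap_mem (integralClosure F A) a)
  by_contra hxP
  by_cases hVP : V = P
  · exact hV2 (hVP ▸ hxP)
  · exact hV2 (key V hVF hVt hVP)

theorem single_pole_aux {F A : Type*} [Field F] [Field A] [Algebra F A] (t : A)
    (ht : Transcendental F t) [FiniteDimensional (adjoin F {t}) A]
    [Algebra.IsSeparable (adjoin F {t}) A] (P : ValuationSubring A)
    (hPF : ∀ a : F, algebraMap F A a ∈ P) (hP : t ∉ P) :
    ∃ y : A, y ∉ P ∧ (∀ Q : ValuationSubring A, (∀ a : F, algebraMap F A a ∈ Q) → Q ≠ ⊤ →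
      Q ≠ P → y ∈ Q) := by
  classical
  have ht0 : t ≠ 0 := fun h => hP (h ▸ P.zero_mem)
  obtain ⟨u, hu⟩ : ∃ u, u = t⁻¹ := ⟨_, rfl⟩
  have hu0 : u ≠ 0 := by rw [hu]; exact inv_ne_zero ht0
  have hut : u * t = 1 := by rw [hu]; exact inv_mul_cancel₀ ht0
  have hK : F⟮u⟯ = F⟮t⟯ := by
    apply le_antisymm
    · rw [IntermediateField.adjoin_simple_le_iff, hu]
      exact IntermediateField.inv_mem _ (mem_adjoin_simple_self F t)
    · rw [IntermediateField.adjoin_simple_le_iff]
      have : t = u⁻¹ := by rw [hu, inv_inv]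
      rw [this]
      exact IntermediateField.inv_mem _ (mem_adjoin_simple_self F u)
  have : FiniteDimensional F⟮u⟯ A := by rw [hK]; infer_instance
  have : Algebra.IsSeparable F⟮u⟯ A := by rw [hK]; infer_instance
  have hr : Module.finrank F⟮u⟯ A = Module.finrank F⟮t⟯ A := by rw [hK]
  obtain ⟨i1, i2, i3, i4, i5⟩ := Pole.facts (F := F) u
  rw [hr] at i5
  set r := Module.finrank F⟮t⟯ A with hrdef
  have hPu : P.valuation u < 1 := by
    rw [hu, map_inv₀]
    rw [← P.valuation_le_one_iff, not_le] at hP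
    exact inv_lt_one_of_one_lt₀ hP
  have hO : ∀ (Q : ValuationSubring A), (∀ a : F, algebraMap F A a ∈ Q) → Q.valuation u < 1 →
      ∀ z : integralClosure (Algebra.adjoin F {u}) A, algebraMap _ A z ∈ Q := fun Q hQF hQ z =>
    int_mem Q hQF u ((Q.valuation_le_one_iff _).1 hQ.le) z z.2
  let uR : Algebra.adjoin F {u} := ⟨u, Algebra.self_mem_adjoin_singleton F u⟩
  let B := Module.Free.chooseBasis (Algebra.adjoin F {u})
    (integralClosure (Algebra.adjoin F {u}) A)
  have hBcard : Fintype.card (Module.Free.ChooseBasisIndex (Algebra.adjoin F {u})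
      (integralClosure (Algebra.adjoin F {u}) A)) = r := by
    rw [← i5, Module.finrank_eq_card_basis B]
  have hb : ∀ z : integralClosure (Algebra.adjoin F {u}) A,
      ∃ p : Module.Free.ChooseBasisIndex (Algebra.adjoin F {u})
        (integralClosure (Algebra.adjoin F {u}) A) → F[X],
        z = ∑ i, aeval (algebraMap (Algebra.adjoin F {u})
          (integralClosure (Algebra.adjoin F {u}) A) uR) (p i) * B i := by
    intro z
    have h1 : ∀ i, ∃ p : F[X], aeval u p = (B.repr z i : A) := fun i =>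
      (Pole.mem_adj u _).1 (B.repr z i).2
    choose p hp using h1
    refine ⟨p, ?_⟩
    conv_lhs => rw [← B.sum_repr z]
    refine Finset.sum_congr rfl fun i _ => ?_
    rw [Algebra.smul_def]
    congr 1
    apply Subtype.ext
    change (B.repr z i : A) = _
    rw [← hp]
    exact aeval_algebraMap_apply A (algebraMap (Algebra.adjoin F {u})
          (integralClosure (Algebra.adjoin F {u}) A) uR) (p i)
  obtain ⟨s, w, hw⟩ := FiniteDimensional.exists_is_basis_integral (Algebra.adjoin F {t}) F⟮t⟯ A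
  obtain ⟨y, hy0, hy⟩ := exists_integral_multiples (Algebra.adjoin F {u}) F⟮u⟯
    (Finset.univ.image w)
  obtain ⟨g, hg⟩ := (Pole.mem_adj u _).1 y.2
  have hg0 : g ≠ 0 := by
    rintro rfl
    rw [map_zero] at hg
    exact hy0 (Subtype.ext hg.symm)
  obtain ⟨h, hgh, hh⟩ := exists_eq_pow_rootMultiplicity_mul_and_not_dvd g hg0 0
  rw [map_zero, sub_zero] at hgh hh
  rw [X_dvd_iff] at hh
  refine core (O := integralClosure (Algebra.adjoin F {u}) A) t u hut r hBcard
    (algebraMap _ _ uR) rfl B hb (fun c => ⟨⟨c, IsIntegral.tower_top c.2⟩, rfl⟩) P hPF hPu hO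
    (s := s) ?_ w ?_ ?_ (rootMultiplicity 0 g) h hh ?_
  · rw [hrdef, Module.finrank_eq_card_basis w]
  · exact fun i Q hQF hQ => int_mem Q hQF t hQ _ (hw i)
  · intro d
    have h1 : LinearIndependent F (fun j : Fin (d + 1) => (AdjoinSimple.gen F t) ^ (j : ℕ)) := by
      rw [Fintype.linearIndependent_iff]
      intro a ha j
      have h2 : aeval t (∑ j : Fin (d + 1), monomial (j : ℕ) (a j)) = 0 := by
        have := congrArg (algebraMap F⟮t⟯ A) ha
        rw [map_sum, map_zero] at this
        rw [map_sum, ← this]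
        refine Finset.sum_congr rfl fun i _ => ?_
        rw [aeval_monomial, Algebra.smul_def, map_mul, map_pow, ← IsScalarTower.algebraMap_apply,
          AdjoinSimple.algebraMap_gen]
      have h3 := (transcendental_iff.1 ht) _ h2
      have h4 := congrArg (fun q => coeff q (j : ℕ)) h3
      simp only [finsetSum_coeff, coeff_monomial, coeff_zero] at h4
      rw [Finset.sum_eq_single j] at h4
      · simpa using h4
      · intro i _ hij
        rw [if_neg (fun h => hij (Fin.ext h))]
      · simp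
    have h5 := linearIndependent_smul h1 w.linearIndependent
    have h6 := h5.comp (Prod.swap : s × Fin (d + 1) → Fin (d + 1) × s) Prod.swap_injective
    convert h6 using 1
    funext ij
    simp only [Function.comp_apply, Prod.fst_swap, Prod.snd_swap]
    rw [Algebra.smul_def, map_pow, AdjoinSimple.algebraMap_gen]
  · intro i
    have h7 := hy (w i) (Finset.mem_image_of_mem _ (Finset.mem_univ i))
    refine ⟨⟨_, h7⟩, ?_⟩
    change y • w i = _
    rw [Algebra.smul_def]
    congr 1
    change (y : A) = _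
    rw [← hg]
    conv_lhs => rw [hgh, map_mul, map_pow, aeval_X]


/-- elements algebraic over the constants lie in every valuation ring containing the constants -/
theorem alg_mem {C L : Type*} [Field C] [Field L] [Algebra C L] (Q : ValuationSubring L)
    (hQ : ∀ a : C, algebraMap C L a ∈ Q) (z : L) (hz : IsAlgebraic C z) : z ∈ Q :=
  int_mem Q hQ 0 Q.zero_mem z (IsIntegral.tower_top hz.isIntegral)

/-- elements outside a valuation ring containing the constants are transcendental -/
theorem transcendental_of_notMem {C L : Type*} [Field C] [Field L] [Algebra C L]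
    (Q : ValuationSubring L) (hQ : ∀ a : C, algebraMap C L a ∈ Q) (z : L) (hz : z ∉ Q) :
    Transcendental C z := fun h => hz (alg_mem Q hQ z h)

end Ex1

theorem single_pole' {C L : Type*} [Field C] [CharZero C] [Field L] [Algebra C L] (t : L)
    (ht : Transcendental C t) [FiniteDimensional (adjoin C {t}) L] (P : ValuationSubring L)
    (hPC : ∀ a : C, algebraMap C L a ∈ P) (hP : P ≠ ⊤) :
    ∃ y : L, y ∉ P ∧ ∀ Q : ValuationSubring L, (∀ a : C, algebraMap C L a ∈ Q) → Q ≠ ⊤ → Q ≠ P →
      y ∈ Q := by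
  obtain ⟨x, hx⟩ : ∃ x, x ∉ P := by
    by_contra hcon
    push Not at hcon
    exact hP (eq_top_iff.2 fun x _ => hcon x)
  have hxt : Transcendental C x := Ex1.transcendental_of_notMem P hPC x hx
  have : FiniteDimensional (adjoin C {x}) L := fin_adjoin t x ht hxt
  exact Ex1.single_pole_aux x hxt P hPC hx

end Pool.Agent.Lib.MP_2f3286_ag.Pt
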