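import Mathlib
import Pool.Agent.Lib.MP_2f3286_ag.Full.ValExt
import Pool.Agent.Lib.MP_2f3286_ag.Full.Sep
import Pool.Agent.Lib.MP_2f3286_ag.Pt.Defs
import Pool.Agent.Lib.MP_2f3286_ag.Pt.Ex1

/-!
# COF: finitely many places outside an affine curve
-/

set_option linter.unusedSectionVars false

open Polynomial IntermediateField

namespace Pool.Agent.Lib.MP_2f3286_ag.Pt

open Pool.Agent.Lib.MP_2f3286_ag.Full

namespace Cof

section Abstract

variable {C L : Type*} [Field C] [Field L] [Algebra C L]

/-- the valuation of a polynomial in an element with a pole -/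
theorem val_aeval (Q : ValuationSubring L) (hQ : ∀ a : C, algebraMap C L a ∈ Q) (r : L)
    (hr : r ∉ Q) (p : C[X]) (hp : p ≠ 0) :
    Q.valuation (aeval r p) = Q.valuation r ^ p.natDegree := by
  have hr0 : r ≠ 0 := by
    rintro rfl
    exact hr Q.zero_mem
  have hu : Q.valuation r⁻¹ < 1 := by
    rw [map_inv₀]
    have h1 : 1 < Q.valuation r := by
      rw [← not_le, Q.valuation_le_one_iff]
      exact hr
    exact inv_lt_one_of_one_lt₀ h1
  have h1 : Q.valuation (aeval r⁻¹ p.reverse) = 1 := by
    refine Ex1.val_unit Q hQ _ hu _ ?_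
    rw [coeff_zero_reverse]
    exact leadingCoeff_ne_zero.2 hp
  have h2 : aeval r⁻¹ p.reverse * r ^ p.natDegree = aeval r p := by
    let _ : Invertible r := invertibleOfNonzero hr0
    have h3 := eval₂_reverse_mul_pow (algebraMap C L) r p
    rw [invOf_eq_inv] at h3
    exact h3
  rw [← h2, map_mul, h1, one_mul, map_pow]

theorem mem_iff (Q : ValuationSubring L) (hQ : ∀ a : C, algebraMap C L a ∈ Q) (r : L)
    (hr : r ∉ Q) (p q : C[X]) :
    aeval r p / aeval r q ∈ Q ↔ p = 0 ∨ q = 0 ∨ p.natDegree ≤ q.natDegree := by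
  by_cases hp : p = 0
  · simp [hp, Q.zero_mem]
  by_cases hq : q = 0
  · simp [hq, Q.zero_mem]
  have hrt := Ex1.transcendental_of_notMem Q hQ r hr
  have h1 : 1 < Q.valuation r := by
    rw [← not_le, Q.valuation_le_one_iff]
    exact hr
  have hq0 : 0 < Q.valuation r ^ q.natDegree := pow_pos (zero_lt_one.trans h1) _
  rw [← Q.valuation_le_one_iff, map_div₀, val_aeval Q hQ r hr p hp, val_aeval Q hQ r hr q hq,
    div_le_one₀ hq0, pow_le_pow_iff_right₀ h1]
  simp [hp, hq]

/-- only finitely many valuation rings of a function field do not contain a given element -/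
theorem finite_notMem (t : L) (ht : Transcendental C t) [FiniteDimensional (adjoin C {t}) L]
    (r : L) : {Q : ValuationSubring L | (∀ a : C, algebraMap C L a ∈ Q) ∧ r ∉ Q}.Finite := by
  by_cases hne : ∃ Q₀ : ValuationSubring L, (∀ a : C, algebraMap C L a ∈ Q₀) ∧ r ∉ Q₀
  swap
  · have : {Q : ValuationSubring L | (∀ a : C, algebraMap C L a ∈ Q) ∧ r ∉ Q} = ∅ := by
      ext Q
      simp only [Set.mem_ofPred_eq, Set.mem_empty_iff_false, iff_false]
      exact fun h => hne ⟨Q, h⟩
    rw [this]
    exact Set.finite_empty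
  obtain ⟨Q₀, h0, hr0⟩ := hne
  have hrt : Transcendental C r := Ex1.transcendental_of_notMem Q₀ h0 r hr0
  have : FiniteDimensional (adjoin C {r}) L := fin_adjoin t r ht hrt
  refine (val_finite (E := adjoin C {r}) (Q₀.comap (algebraMap (adjoin C {r}) L))).subset ?_
  rintro Q ⟨hQ, hr⟩
  ext x
  rw [ValuationSubring.mem_comap, ValuationSubring.mem_comap]
  obtain ⟨p, q, hpq⟩ := (IntermediateField.mem_adjoin_simple_iff C _).mp x.2
  change (x : L) ∈ Q ↔ (x : L) ∈ Q₀
  rw [hpq, mem_iff Q hQ r hr, mem_iff Q₀ h0 r hr0]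

end Abstract

section Concrete

variable {K M kb : Type*} [Field K] [Field M] [Field kb] [Algebra K M] [Algebra kb M]
  (E : IntermediateField K M)

/-- an intermediate field containing the constants is an algebra over the constants -/
abbrev algE (hE : ∀ a : kb, algebraMap kb M a ∈ E) : Algebra kb E :=
  RingHom.toAlgebra
    { toFun := fun a => ⟨algebraMap kb M a, hE a⟩
      map_one' := Subtype.ext (by simp)
      map_mul' := fun a b => Subtype.ext (by simp)
      map_zero' := Subtype.ext (by simp)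
      map_add' := fun a b => Subtype.ext (by simp) }

theorem tower (hE : ∀ a : kb, algebraMap kb M a ∈ E) :
    @IsScalarTower kb E M (algE E hE).toSMul _ _ :=
  @IsScalarTower.of_algebraMap_eq kb E M _ _ _ (algE E hE) _ _ fun _ => rfl

theorem finDim (hE : ∀ a : kb, algebraMap kb M a ∈ E) (t : E)
    (hEf : ∃ s : Finset E, ∀ x : E, (x : M) ∈ Submodule.span (adjoin kb {(t : M)})
      ((fun y : E => (y : M)) '' s)) :
    letI := algE E hE
    FiniteDimensional (adjoin kb {t}) E := by
  let _ := algE E hE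
  have := tower E hE
  obtain ⟨s, hs⟩ := hEf
  have hco : ∀ p : kb[X], ((aeval t p : E) : M) = aeval (t : M) p := fun p =>
    (aeval_algebraMap_apply M t p).symm
  have hlift : ∀ a ∈ adjoin kb {(t : M)}, ∃ a' ∈ adjoin kb {t}, (a' : M) = a := by
    intro a ha
    obtain ⟨r, q, rfl⟩ := (IntermediateField.mem_adjoin_simple_iff kb a).mp ha
    refine ⟨aeval t r / aeval t q, (IntermediateField.mem_adjoin_simple_iff kb _).mpr
      ⟨r, q, rfl⟩, ?_⟩
    rw [← hco, ← hco]
    rfl
  have h2 : ∀ y : M, y ∈ Submodule.span (adjoin kb {(t : M)}) ((fun y : E => (y : M)) '' s) →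
      ∃ x' ∈ Submodule.span (adjoin kb {t}) (s : Set E), (x' : M) = y := by
    intro y hy
    induction hy using Submodule.span_induction with
    | mem y hy =>
      obtain ⟨x, hx, rfl⟩ := hy
      exact ⟨x, Submodule.subset_span hx, rfl⟩
    | zero => exact ⟨0, Submodule.zero_mem _, rfl⟩
    | add a b _ _ ha hb =>
      obtain ⟨x, hx, hxa⟩ := ha
      obtain ⟨y, hy, hyb⟩ := hb
      exact ⟨x + y, Submodule.add_mem _ hx hy, by push_cast; rw [hxa, hyb]⟩
    | smul c a _ ha =>
      obtain ⟨x, hx, hxa⟩ := ha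
      obtain ⟨c', hc', hcc⟩ := hlift c c.2
      refine ⟨(⟨c', hc'⟩ : adjoin kb {t}) • x, Submodule.smul_mem _ _ hx, ?_⟩
      rw [Algebra.smul_def]
      push_cast
      rw [hxa, Algebra.smul_def]
      change (c' : M) * _ = (c : M) * _
      rw [hcc]
  refine ⟨s, ?_⟩
  rw [eq_top_iff]
  intro x _
  obtain ⟨x', hx', hxx⟩ := h2 x (hs x)
  have h3 : x' = x := Subtype.ext hxx
  rwa [← h3]

theorem trans_coe (hE : ∀ a : kb, algebraMap kb M a ∈ E) (t : E)
    (h : Transcendental kb (t : M)) :
    letI := algE E hE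
    Transcendental kb t := by
  let _ := algE E hE
  have := tower E hE
  intro h1
  exact h (h1.algebraMap (A := M))

end Concrete

end Cof

section

variable {k K M kb : Type*} [Field k] [CharZero k] [Field K] [Field M] [Field kb] [Algebra k kb]
  [IsAlgClosed kb] [Algebra.IsAlgebraic k kb] [Algebra k K] [Algebra K M] [Algebra kb M]
  [Algebra k M] [IsScalarTower k K M] [IsScalarTower k kb M] [IsGalois K M]
  (t : K) [FiniteDimensional (adjoin k {t}) K]
  (R : Subalgebra k K)

omit [CharZero k] [IsAlgClosed kb] [IsGalois K M] [FiniteDimensional (adjoin k {t}) K] in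
theorem Cof.trans_kb (ht : Transcendental k t) : Transcendental kb (algebraMap K M t) := by
  intro h
  have h1 : IsAlgebraic k (algebraMap K M t) := IsAlgebraic.restrictScalars k h
  exact ht ((isAlgebraic_algebraMap_iff (algebraMap K M).injective).1 h1)

theorem cofinite_places (ht : Transcendental k t) (hfg : R.FG) (E : IntermediateField K M)
    (hE : ∀ a : kb, algebraMap kb M a ∈ E)
    (hEf : ∃ s : Finset E, ∀ x : E, (x : M) ∈ Submodule.span (adjoin kb {algebraMap K M t})
      ((fun y : E => (y : M)) '' s)) :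
    {Q : ValuationSubring E | (∀ a : kb, ⟨algebraMap kb M a, hE a⟩ ∈ Q) ∧ Q ≠ ⊤ ∧
      ¬ ∀ r : R, (⟨algebraMap R M r, E.algebraMap_mem (r : K)⟩ : E) ∈ Q}.Finite := by
  let _ := Cof.algE E hE
  have := Cof.tower E hE
  let tE : E := algebraMap K E t
  have htE : Transcendental kb tE := Cof.trans_coe E hE tE (Cof.trans_kb t ht)
  have : FiniteDimensional (adjoin kb {tE}) E := Cof.finDim E hE tE hEf
  obtain ⟨s, hs⟩ := hfg
  refine (Set.Finite.biUnion s.finite_toSet fun r _ =>
    Cof.finite_notMem tE htE (algebraMap K E r)).subset ?_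
  rintro Q ⟨hQ, -, hR⟩
  by_contra hcon
  apply hR
  have h1 : ∀ r ∈ s, algebraMap K E r ∈ Q := by
    intro r hr
    by_contra h2
    exact hcon (Set.mem_biUnion hr ⟨hQ, h2⟩)
  rintro ⟨r, hr⟩
  change algebraMap K E r ∈ Q
  rw [← hs] at hr
  induction hr using Algebra.adjoin_induction with
  | mem x hx => exact h1 x hx
  | algebraMap a =>
    have h3 : algebraMap K E (algebraMap k K a) = ⟨algebraMap kb M (algebraMap k kb a), hE _⟩ := by
      apply Subtype.ext
      change algebraMap K M (algebraMap k K a) = algebraMap kb M (algebraMap k kb a)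
      rw [← IsScalarTower.algebraMap_apply, ← IsScalarTower.algebraMap_apply]
    rw [h3]
    exact hQ _
  | add x y _ _ hx hy => rw [map_add]; exact Q.add_mem _ _ hx hy
  | mul x y _ _ hx hy => rw [map_mul]; exact Q.mul_mem _ _ hx hy

end

end Pool.Agent.Lib.MP_2f3286_ag.Pt
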