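import Mathlib

/-!
# Kummer theory over an infinite Galois extension
-/

open Polynomial IntermediateField IsDedekindDomain
open scoped TensorProduct

namespace Pool.Agent.Lib.MP_2f3286_ag.Pt

namespace KG

/-- Compatible roots of unity of `ℓ`-power order. -/
theorem exists_roots (C : Type*) [Field C] [IsAlgClosed C] [CharZero C] (ℓ : ℕ)
    [hℓ : Fact ℓ.Prime] :
    ∃ z : ℕ → C, (∀ n, IsPrimitiveRoot (z n) (ℓ ^ (n + 1))) ∧ ∀ n, z (n + 1) ^ ℓ = z n := by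
  have h0 : ∃ ζ : C, IsPrimitiveRoot ζ ℓ := by
    have : NeZero (ℓ : C) := ⟨Nat.cast_ne_zero.2 hℓ.out.ne_zero⟩
    exact HasEnoughRootsOfUnity.exists_primitiveRoot C ℓ
  have step : ∀ x : C, ∃ y : C, y ^ ℓ = x := fun x => IsAlgClosed.exists_pow_nat_eq x hℓ.out.pos
  choose r hr using step
  obtain ⟨ζ, hζ⟩ := h0
  refine ⟨fun n => Nat.rec ζ (fun _ x => r x) n, ?_, fun n => hr _⟩
  intro n
  induction n with
  | zero => simpa using hζ
  | succ n ih =>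
    rw [IsPrimitiveRoot.iff_orderOf]
    apply orderOf_eq_prime_pow
    · change ¬ r _ ^ ℓ ^ (n + 1) = 1
      rw [pow_succ', pow_mul, hr]
      apply ih.pow_ne_one_of_pos_of_lt (pow_ne_zero _ hℓ.out.ne_zero)
      exact Nat.pow_lt_pow_right hℓ.out.one_lt (Nat.lt_succ_self n)
    · change r _ ^ ℓ ^ (n + 1 + 1) = 1
      rw [pow_succ', pow_mul, hr]
      exact ih.pow_eq_one

theorem pow_val_add {R : Type*} [Monoid R] {z : R} {n : ℕ} [NeZero n] (hz : z ^ n = 1)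
    (a b : ZMod n) : z ^ (a + b).val = z ^ a.val * z ^ b.val := by
  rw [ZMod.val_add, ← pow_eq_pow_mod _ hz, pow_add]

/-- Hilbert 90 for a continuous character of an infinite Galois group. -/
theorem exists_resolvent {L M : Type*} [Field L] [Field M] [Algebra L M] [IsGalois L M] (n : ℕ)
    [NeZero n] (z : L) (hz : z ^ n = 1) (f : Gal(M/L) →ₜ* Multiplicative (ZMod n)) :
    ∃ β : M, β ≠ 0 ∧ ∀ g : Gal(M/L), g β = algebraMap L M (z ^ ((f g).toAdd.val)) * β := by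
  have hopen : {g : Gal(M/L) | f g = 1} ∈ nhds (1 : Gal(M/L)) := by
    have h1 : f ⁻¹' {1} ∈ nhds (1 : Gal(M/L)) := by
      apply f.continuous_toFun.continuousAt.preimage_mem_nhds
      have h2 : IsOpen ({1} : Set (Multiplicative (ZMod n))) := isOpen_discrete _
      apply h2.mem_nhds
      exact map_one f
    exact h1
  rw [krullTopology_mem_nhds_one_iff_of_normal] at hopen
  obtain ⟨E, hE1, hE2, hE⟩ := hopen
  have hz0 : z ≠ 0 := by
    rintro rfl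
    rw [zero_pow (NeZero.ne n)] at hz
    exact zero_ne_one hz
  have hsurj : Function.Surjective (AlgEquiv.restrictNormalHom E : Gal(M/L) → Gal(E/L)) :=
    AlgEquiv.restrictNormalHom_surjective M
  choose s hs using hsurj
  have hwd : ∀ g h : Gal(M/L), AlgEquiv.restrictNormalHom E g = AlgEquiv.restrictNormalHom E h →
      f g = f h := by
    intro g h hgh
    have h1 : g⁻¹ * h ∈ (AlgEquiv.restrictNormalHom E : Gal(M/L) →* Gal(E/L)).ker := by
      rw [MonoidHom.mem_ker, map_mul, map_inv, hgh, inv_mul_cancel]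
    rw [IntermediateField.restrictNormalHom_ker] at h1
    have h2 : f (g⁻¹ * h) = 1 := hE h1
    rw [map_mul, map_inv, inv_mul_eq_one] at h2
    exact h2
  let Z : Eˣ := Units.mk0 (algebraMap L E z)
    (by rw [Ne, map_eq_zero_iff _ (algebraMap L E).injective]; exact hz0)
  have hZ : Z ^ n = 1 := by
    ext
    change (((algebraMap L E z) ^ n : E) : M) = _
    rw [← map_pow, hz, map_one]
    rfl
  have hZfix : ∀ σ : Gal(E/L), σ • Z = Z := by
    intro σ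
    ext
    change ((σ (algebraMap L E z) : E) : M) = _
    rw [AlgEquiv.commutes]
    rfl
  let u : Gal(E/L) → Eˣ := fun σ => Z ^ ((f (s σ)).toAdd.val)
  have hu : groupCohomology.IsMulCocycle₁ u := by
    intro σ τ
    have h1 : f (s (σ * τ)) = f (s σ) * f (s τ) := by
      rw [← map_mul]
      apply hwd
      rw [hs, map_mul, hs, hs]
    change Z ^ ((f (s (σ * τ))).toAdd.val) = σ • (Z ^ ((f (s τ)).toAdd.val)) *
      Z ^ ((f (s σ)).toAdd.val)
    rw [h1, toAdd_mul, pow_val_add hZ, smul_pow', hZfix, mul_comm]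
  obtain ⟨β, hβ⟩ := groupCohomology.isMulCoboundary₁_of_isMulCocycle₁_of_aut_to_units u hu
  refine ⟨((β : E) : M), ?_, ?_⟩
  · intro h0
    apply β.ne_zero
    exact_mod_cast h0
  · intro g
    have h1 := hβ (AlgEquiv.restrictNormalHom E g)
    have h2 : u (AlgEquiv.restrictNormalHom E g) = Z ^ ((f g).toAdd.val) := by
      change Z ^ ((f (s _)).toAdd.val) = _
      rw [hwd _ g (hs _)]
    rw [h2, div_eq_iff_eq_mul] at h1
    have h3 : ((AlgEquiv.restrictNormalHom E g) (β : E) : M) = g ((β : E) : M) :=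
      AlgEquiv.restrictNormalHom_apply E g _
    rw [← h3]
    have h4 : (AlgEquiv.restrictNormalHom E g) (β : E) =
        (algebraMap L E z) ^ ((f g).toAdd.val) * (β : E) := by
      have := congrArg (fun x : Eˣ => (x : E)) h1
      exact this
    rw [h4, ← map_pow]
    rfl

/-- Limits of compatible sequences of integers. -/
theorem exists_limit (ℓ : ℕ) [hℓ : Fact ℓ.Prime] (s : ℕ → ℤ)
    (hs : ∀ n, (ℓ : ℤ) ^ (n + 1) ∣ s (n + 1) - s n) :
    ∃ x : ℤ_[ℓ], ∀ n, (ℓ : ℤ_[ℓ]) ^ (n + 1) ∣ x - (s n : ℤ_[ℓ]) := by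
  have hcau : ∀ {m n : ℕ}, m ≤ n → (ℓ : ℤ) ^ (m + 1) ∣ s n - s m := by
    intro m n hmn
    induction n, hmn using Nat.le_induction with
    | base => simp
    | succ n hmn ih =>
      have h1 : s (n + 1) - s m = (s (n + 1) - s n) + (s n - s m) := by ring
      rw [h1]
      exact dvd_add ((pow_dvd_pow _ (by omega)).trans (hs n)) ih
  have hcau' : ∀ {m n : ℕ}, m ≤ n → (ℓ : ℤ_[ℓ]) ^ (m + 1) ∣ (s n : ℤ_[ℓ]) - (s m : ℤ_[ℓ]) := by
    intro m n hmn
    obtain ⟨k, hk⟩ := hcau hmn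
    refine ⟨(k : ℤ_[ℓ]), ?_⟩
    rw [← Int.cast_sub, hk]
    push_cast
    ring
  obtain ⟨x, hx⟩ := IsPrecomplete.prec' (I := IsLocalRing.maximalIdeal ℤ_[ℓ]) (M := ℤ_[ℓ])
    (fun n => (s n : ℤ_[ℓ])) (by
      intro m n hmn
      rw [SModEq.sub_mem, PadicInt.maximalIdeal_eq_span_p, Ideal.span_singleton_pow, smul_eq_mul,
        Ideal.mul_top, Ideal.mem_span_singleton]
      have h1 := (pow_dvd_pow (ℓ : ℤ_[ℓ]) (Nat.le_succ m)).trans (hcau' hmn)
      rw [← dvd_neg, neg_sub]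
      exact h1)
  refine ⟨x, fun n => ?_⟩
  have h2 := hx (n + 1)
  rw [SModEq.sub_mem, PadicInt.maximalIdeal_eq_span_p, Ideal.span_singleton_pow, smul_eq_mul,
    Ideal.mul_top, Ideal.mem_span_singleton] at h2
  have h3 := hcau' (Nat.le_succ n)
  have h4 : x - (s n : ℤ_[ℓ]) = -((s (n + 1) : ℤ_[ℓ]) - x) +
      ((s (n + 1) : ℤ_[ℓ]) - (s n : ℤ_[ℓ])) := by ring
  rw [h4]
  exact dvd_add ((dvd_neg).2 h2) h3

theorem eq_of_dvd (ℓ : ℕ) [hℓ : Fact ℓ.Prime] (x y : ℤ_[ℓ])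
    (h : ∀ n : ℕ, (ℓ : ℤ_[ℓ]) ^ (n + 1) ∣ x - y) : x = y := by
  rw [← sub_eq_zero]
  by_contra h0
  have h1 := FiniteMultiplicity.of_prime_left (α := ℤ_[ℓ]) (a := (ℓ : ℤ_[ℓ])) (b := x - y)
    PadicInt.prime_p h0
  obtain ⟨n, hn⟩ := h1
  exact hn (h n)

/-- Roots of unity of `M` come from `L`. -/
theorem exists_of_pow_eq_one {L M : Type*} [Field L] [Field M] [Algebra L M] (N : ℕ) [NeZero N]
    (z : L) (hz : IsPrimitiveRoot z N) (x : M) (hx : x ^ N = 1) :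
    ∃ y : L, y ≠ 0 ∧ algebraMap L M y = x := by
  have hz' : IsPrimitiveRoot (algebraMap L M z) N :=
    hz.map_of_injective (algebraMap L M).injective
  obtain ⟨i, -, hi⟩ := hz'.eq_pow_of_pow_eq_one hx
  refine ⟨z ^ i, pow_ne_zero _ (hz.ne_zero (NeZero.ne N)), ?_⟩
  rw [map_pow, hi]

/-- The finiteness part. -/
theorem finite_of {L M : Type*} [Field L] [Field M] [Algebra L M] [IsGalois L M] (ℓ : ℕ)
    [hℓ : Fact ℓ.Prime] (z : L) (hz : IsPrimitiveRoot z ℓ)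
    (hfin : ∃ T : Finset L, ∀ (ρ : L) (β : M), ρ ≠ 0 → β ^ ℓ = algebraMap L M ρ →
      ∃ r ∈ T, ∃ c : L, c ≠ 0 ∧ ρ = r * c ^ ℓ) :
    Finite (Gal(M/L) →ₜ* Multiplicative (ZMod ℓ)) := by
  obtain ⟨T, hT⟩ := hfin
  have key : ∀ f : Gal(M/L) →ₜ* Multiplicative (ZMod ℓ), ∃ (r : T) (β : M) (c : L), β ≠ 0 ∧
      c ≠ 0 ∧ (r : L) ≠ 0 ∧
      (∀ g : Gal(M/L), g β = algebraMap L M (z ^ ((f g).toAdd.val)) * β) ∧
      β ^ ℓ = algebraMap L M (r * c ^ ℓ) := by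
    intro f
    obtain ⟨β, hβ0, hβ⟩ := exists_resolvent ℓ z hz.pow_eq_one f
    have h1 : β ^ ℓ ∈ Set.range (algebraMap L M) := by
      rw [InfiniteGalois.mem_range_algebraMap_iff_fixed]
      intro g
      rw [map_pow, hβ g, mul_pow, ← map_pow, ← pow_mul, mul_comm _ ℓ, pow_mul, hz.pow_eq_one,
        one_pow, map_one, one_mul]
    obtain ⟨ρ, hρ⟩ := h1
    have hρ0 : ρ ≠ 0 := by
      rintro rfl
      rw [map_zero] at hρ
      exact pow_ne_zero _ hβ0 hρ.symm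
    obtain ⟨r, hr, c, hc, hrc⟩ := hT ρ β hρ0 hρ.symm
    refine ⟨⟨r, hr⟩, β, c, hβ0, hc, ?_, hβ, ?_⟩
    · rintro h0
      change r = 0 at h0
      rw [h0, zero_mul] at hrc
      exact hρ0 hrc
    · rw [← hρ, hrc]
  choose r β c hβ0 hc0 hr0 hβ hβc using key
  refine Finite.of_injective r ?_
  intro f g hfg
  have h1 : (β f / (β g * algebraMap L M (c f / c g))) ^ ℓ = 1 := by
    have hcg : algebraMap L M (c g) ≠ 0 := by simpa using hc0 g
    have hcf : algebraMap L M (c f) ≠ 0 := by simpa using hc0 f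
    have hrg : algebraMap L M (r g : L) ≠ 0 := by simpa using hr0 g
    rw [div_pow, mul_pow, hβc, hβc, hfg, map_div₀, div_pow, map_mul, map_mul, map_pow, map_pow]
    field_simp
  have : NeZero ℓ := ⟨hℓ.out.ne_zero⟩
  obtain ⟨y, hy0, hy⟩ := exists_of_pow_eq_one ℓ z hz _ h1
  have hc2 : algebraMap L M (c f / c g) ≠ 0 := by
    simpa using And.intro (hc0 f) (hc0 g)
  have h2 : β f = algebraMap L M (y * (c f / c g)) * β g := by
    rw [map_mul, hy]
    have := hβ0 g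
    field_simp
  have hz' : IsPrimitiveRoot (algebraMap L M z) ℓ :=
    hz.map_of_injective (algebraMap L M).injective
  ext a
  have h3 := hβ f a
  rw [h2, map_mul, AlgEquiv.commutes, hβ g a] at h3
  have h4 : algebraMap L M (z ^ ((g a).toAdd.val)) = algebraMap L M (z ^ ((f a).toAdd.val)) := by
    have h5 : algebraMap L M (y * (c f / c g)) ≠ 0 := by
      rw [map_mul]
      exact mul_ne_zero (by simpa using hy0) hc2
    have h6 : (algebraMap L M (y * (c f / c g)) * β g) ≠ 0 := mul_ne_zero h5 (hβ0 g)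
    apply mul_right_cancel₀ h6
    rw [← h3]
    ring
  have h7 := hz.pow_inj (ZMod.val_lt _) (ZMod.val_lt _) ((algebraMap L M).injective h4)
  have h8 := ZMod.val_injective ℓ h7
  have h9 : g a = f a := by
    apply Multiplicative.toAdd.injective
    exact h8
  exact h9.symm

/-- The compatible sequence of roots. -/
theorem exists_seq {L M : Type*} [Field L] [Field M] [Algebra L M] (ℓ : ℕ)
    [hℓ : Fact ℓ.Prime] (z : ℕ → L) (hz : ∀ n, IsPrimitiveRoot (z n) (ℓ ^ (n + 1)))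
    (hstep : ∀ (N : ℕ) (ρ : L) (β : M), 1 ≤ N → ρ ≠ 0 → β ^ N = algebraMap L M ρ →
      ∃ (c : L) (β' : M), c ≠ 0 ∧ β' ^ (N * ℓ) = algebraMap L M (ρ * c ^ N))
    (β : M) (hβ0 : β ≠ 0) (hβ : ∃ ρ : L, β ^ ℓ = algebraMap L M ρ) :
    ∃ b : ℕ → M, b 0 = β ∧ (∀ n, b n ≠ 0) ∧
      (∀ n, ∃ ρ : L, b n ^ ℓ ^ (n + 1) = algebraMap L M ρ) ∧
      ∀ n, ∃ d : L, d ≠ 0 ∧ b (n + 1) ^ ℓ = algebraMap L M d * b n := by
  have step : ∀ (n : ℕ) (x : M), (x ≠ 0 ∧ ∃ ρ : L, x ^ ℓ ^ (n + 1) = algebraMap L M ρ) →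
      ∃ y : M, (y ≠ 0 ∧ ∃ ρ : L, y ^ ℓ ^ (n + 1 + 1) = algebraMap L M ρ) ∧
        ∃ d : L, d ≠ 0 ∧ y ^ ℓ = algebraMap L M d * x := by
    rintro n x ⟨hx0, ρ, hρ⟩
    have hN : 1 ≤ ℓ ^ (n + 1) := Nat.one_le_pow _ _ hℓ.out.pos
    have hρ0 : ρ ≠ 0 := by
      rintro rfl
      rw [map_zero] at hρ
      exact pow_ne_zero _ hx0 hρ
    obtain ⟨c, y, hc, hy⟩ := hstep _ ρ x hN hρ0 hρ
    have hc' : algebraMap L M c ≠ 0 := by simpa using hc
    have hy0 : y ≠ 0 := by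
      rintro rfl
      rw [zero_pow (Nat.mul_ne_zero (by omega) hℓ.out.ne_zero)] at hy
      have h1 : ρ * c ^ ℓ ^ (n + 1) ≠ 0 := mul_ne_zero hρ0 (pow_ne_zero _ hc)
      apply h1
      apply (algebraMap L M).injective
      rw [map_zero, hy]
    have h1 : (y ^ ℓ / (x * algebraMap L M c)) ^ ℓ ^ (n + 1) = 1 := by
      rw [div_pow, ← pow_mul, mul_comm ℓ, hy, mul_pow, hρ, map_mul, map_pow]
      apply div_self
      apply mul_ne_zero _ (pow_ne_zero _ hc')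
      simpa using hρ0
    have : NeZero (ℓ ^ (n + 1)) := ⟨by omega⟩
    obtain ⟨r, hr0, hr⟩ := exists_of_pow_eq_one (ℓ ^ (n + 1)) (z n) (hz n) _ h1
    refine ⟨y, ⟨hy0, ρ * c ^ ℓ ^ (n + 1), ?_⟩, r * c, mul_ne_zero hr0 hc, ?_⟩
    · rw [← hy]
      congr 1
    · rw [map_mul, hr]
      field_simp
  choose! nxt h1 h2 using step
  let b : ℕ → M := fun n => Nat.rec β (fun n x => nxt n x) n
  have hb : ∀ n, b n ≠ 0 ∧ ∃ ρ : L, b n ^ ℓ ^ (n + 1) = algebraMap L M ρ := by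
    intro n
    induction n with
    | zero =>
      refine ⟨hβ0, ?_⟩
      obtain ⟨ρ, hρ⟩ := hβ
      refine ⟨ρ, ?_⟩
      change β ^ ℓ ^ (0 + 1) = _
      rw [zero_add, pow_one, hρ]
    | succ n ih => exact h1 n _ ih
  exact ⟨b, rfl, fun n => (hb n).1, fun n => (hb n).2, fun n => h2 n _ (hb n)⟩

/-- The exponents of one element. -/
theorem exists_exponents {L M : Type*} [Field L] [Field M] [Algebra L M] (ℓ : ℕ)
    [hℓ : Fact ℓ.Prime] (z : ℕ → L) (hz : ∀ n, IsPrimitiveRoot (z n) (ℓ ^ (n + 1)))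
    (hzz : ∀ n, z (n + 1) ^ ℓ = z n) (b : ℕ → M) (hb0 : ∀ n, b n ≠ 0)
    (hb : ∀ n, ∃ ρ : L, b n ^ ℓ ^ (n + 1) = algebraMap L M ρ)
    (hbb : ∀ n, ∃ d : L, d ≠ 0 ∧ b (n + 1) ^ ℓ = algebraMap L M d * b n) (g : Gal(M/L)) :
    ∃ x : ℤ_[ℓ], ∀ n, ∃ k : ℤ, (ℓ : ℤ_[ℓ]) ^ (n + 1) ∣ x - (k : ℤ_[ℓ]) ∧
      g (b n) = algebraMap L M (z n ^ k) * b n := by
  have hz0 : ∀ n, z n ≠ 0 := fun n => (hz n).ne_zero (pow_ne_zero _ hℓ.out.ne_zero)
  have hk : ∀ n, ∃ k : ℤ, g (b n) = algebraMap L M (z n ^ k) * b n := by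
    intro n
    obtain ⟨ρ, hρ⟩ := hb n
    have h1 : (g (b n) / b n) ^ ℓ ^ (n + 1) = 1 := by
      rw [div_pow, ← map_pow, hρ, AlgEquiv.commutes]
      apply div_self
      rw [← hρ]
      exact pow_ne_zero _ (hb0 n)
    have hz' : IsPrimitiveRoot (algebraMap L M (z n)) (ℓ ^ (n + 1)) :=
      (hz n).map_of_injective (algebraMap L M).injective
    have : NeZero (ℓ ^ (n + 1)) := ⟨pow_ne_zero _ hℓ.out.ne_zero⟩
    obtain ⟨i, -, hi⟩ := hz'.eq_pow_of_pow_eq_one h1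
    refine ⟨i, ?_⟩
    rw [zpow_natCast, map_pow, hi]
    have := hb0 n
    field_simp
  choose k hk using hk
  obtain ⟨x, hx⟩ := exists_limit ℓ k (by
    intro n
    obtain ⟨d, hd0, hd⟩ := hbb n
    have h1 : (g (b (n + 1))) ^ ℓ = algebraMap L M d * g (b n) := by
      rw [← map_pow, hd, map_mul, AlgEquiv.commutes]
    rw [hk, hk, mul_pow, hd, ← map_pow] at h1
    have h2 : (z (n + 1) ^ k (n + 1)) ^ ℓ = z n ^ k (n + 1) := by
      rw [← hzz n, ← zpow_natCast, ← zpow_natCast, ← zpow_mul, ← zpow_mul, mul_comm]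
    rw [h2] at h1
    have hd' : algebraMap L M d ≠ 0 := by simpa using hd0
    have h3 : algebraMap L M (z n ^ k (n + 1)) = algebraMap L M (z n ^ k n) := by
      have h4 : algebraMap L M d * b n ≠ 0 := mul_ne_zero hd' (hb0 n)
      apply mul_right_cancel₀ h4
      rw [h1]
      ring
    have h4 := (algebraMap L M).injective h3
    have h5 : z n ^ (k (n + 1) - k n) = 1 := by
      rw [zpow_sub₀ (hz0 n), h4]
      exact div_self (zpow_ne_zero _ (hz0 n))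
    have h6 := ((hz n).zpow_eq_one_iff_dvd _).1 h5
    exact_mod_cast h6)
  exact ⟨x, fun n => ⟨k n, hx n, hk n⟩⟩

/-- The lifting part. -/
theorem lift_of {L M : Type*} [Field L] [Field M] [Algebra L M] [IsGalois L M] (ℓ : ℕ)
    [hℓ : Fact ℓ.Prime] (z : ℕ → L) (hz : ∀ n, IsPrimitiveRoot (z n) (ℓ ^ (n + 1)))
    (hzz : ∀ n, z (n + 1) ^ ℓ = z n)
    (hstep : ∀ (N : ℕ) (ρ : L) (β : M), 1 ≤ N → ρ ≠ 0 → β ^ N = algebraMap L M ρ →
      ∃ (c : L) (β' : M), c ≠ 0 ∧ β' ^ (N * ℓ) = algebraMap L M (ρ * c ^ N))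
    (f : Gal(M/L) →ₜ* Multiplicative (ZMod ℓ)) :
    ∃ F : Gal(M/L) →ₜ* Multiplicative ℤ_[ℓ],
      ∀ a, PadicInt.toZMod (F a).toAdd = (f a).toAdd := by
  have hz0 : ∀ n, z n ≠ 0 := fun n => (hz n).ne_zero (pow_ne_zero _ hℓ.out.ne_zero)
  have hz1 : IsPrimitiveRoot (z 0) ℓ := by simpa using hz 0
  obtain ⟨β, hβ0, hβ⟩ := exists_resolvent ℓ (z 0) hz1.pow_eq_one f
  have hβρ : ∃ ρ : L, β ^ ℓ = algebraMap L M ρ := by
    have h1 : β ^ ℓ ∈ Set.range (algebraMap L M) := by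
      rw [InfiniteGalois.mem_range_algebraMap_iff_fixed]
      intro g
      rw [map_pow, hβ g, mul_pow, ← map_pow, ← pow_mul, mul_comm _ ℓ, pow_mul, hz1.pow_eq_one,
        one_pow, map_one, one_mul]
    obtain ⟨ρ, hρ⟩ := h1
    exact ⟨ρ, hρ.symm⟩
  obtain ⟨b, hb1, hb0, hb, hbb⟩ := exists_seq ℓ z hz hstep β hβ0 hβρ
  have huniq0 : ∀ (g : Gal(M/L)) (n : ℕ) (k k' : ℤ),
      g (b n) = algebraMap L M (z n ^ k) * b n → g (b n) = algebraMap L M (z n ^ k') * b n →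
      (ℓ : ℤ_[ℓ]) ^ (n + 1) ∣ (k : ℤ_[ℓ]) - (k' : ℤ_[ℓ]) := by
    intro g n k k' h h'
    rw [h] at h'
    have h4 := (algebraMap L M).injective (mul_right_cancel₀ (hb0 n) h')
    have h5 : z n ^ (k - k') = 1 := by
      rw [zpow_sub₀ (hz0 n), h4]
      exact div_self (zpow_ne_zero _ (hz0 n))
    have h6 := ((hz n).zpow_eq_one_iff_dvd _).1 h5
    obtain ⟨j, hj⟩ := h6
    refine ⟨(j : ℤ_[ℓ]), ?_⟩
    rw [← Int.cast_sub, hj]
    push_cast
    ring
  have hex := fun g => exists_exponents ℓ z hz hzz b hb0 hb hbb g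
  choose F hF using hex
  have huniq : ∀ (g : Gal(M/L)) (x : ℤ_[ℓ]), (∀ n, ∃ k : ℤ, (ℓ : ℤ_[ℓ]) ^ (n + 1) ∣
      x - (k : ℤ_[ℓ]) ∧ g (b n) = algebraMap L M (z n ^ k) * b n) → F g = x := by
    intro g x hx
    apply eq_of_dvd ℓ
    intro n
    obtain ⟨k, h1, h2⟩ := hx n
    obtain ⟨k', h1', h2'⟩ := hF g n
    have h3 := huniq0 g n k' k h2' h2
    have h4 : F g - x = (F g - (k' : ℤ_[ℓ])) + ((k' : ℤ_[ℓ]) - k) - (x - k) := by ring
    rw [h4]
    exact dvd_sub (dvd_add h1' h3) h1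
  have hmul : ∀ g h, F (g * h) = F g + F h := by
    intro g h
    apply huniq
    intro n
    obtain ⟨k, h1, h2⟩ := hF g n
    obtain ⟨k', h1', h2'⟩ := hF h n
    refine ⟨k + k', ?_, ?_⟩
    · have h4 : F g + F h - ((k + k' : ℤ) : ℤ_[ℓ]) = (F g - k) + (F h - k') := by
        push_cast
        ring
      rw [h4]
      exact dvd_add h1 h1'
    · rw [AlgEquiv.mul_apply, h2', map_mul, AlgEquiv.commutes, h2, zpow_add₀ (hz0 n), map_mul]
      ring
  let F₁ : Gal(M/L) →* Multiplicative ℤ_[ℓ] :=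
    MonoidHom.mk' (fun g => Multiplicative.ofAdd (F g)) (by
      intro g h
      rw [hmul]
      rfl)
  have hcont : Continuous F₁ := by
    apply continuous_of_continuousAt_one
    unfold ContinuousAt
    rw [map_one]
    intro s hs
    rw [Filter.mem_map]
    have hs' : (Multiplicative.ofAdd ⁻¹' s : Set ℤ_[ℓ]) ∈ nhds (0 : ℤ_[ℓ]) := by
      exact hs
    rw [Metric.mem_nhds_iff] at hs'
    obtain ⟨ε, hε, hball⟩ := hs'
    obtain ⟨m, hm⟩ := PadicInt.exists_pow_neg_lt ℓ hε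
    have hopen : IsOpen ((IntermediateField.adjoin L {b m}).fixingSubgroup : Set Gal(M/L)) := by
      have : FiniteDimensional L (IntermediateField.adjoin L {b m}) :=
        IntermediateField.adjoin.finiteDimensional (Algebra.IsIntegral.isIntegral _)
      exact IntermediateField.fixingSubgroup_isOpen _
    refine Filter.mem_of_superset (hopen.mem_nhds (one_mem _)) ?_
    intro g hg
    have hg1 : g (b m) = b m :=
      (IntermediateField.mem_fixingSubgroup_iff _ _).1 hg _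
        (IntermediateField.subset_adjoin L _ (Set.mem_singleton _))
    obtain ⟨k, h1, h2⟩ := hF g m
    have h3 := huniq0 g m k 0 h2 (by simpa using hg1)
    have h4 : (ℓ : ℤ_[ℓ]) ^ (m + 1) ∣ F g := by
      have h5 : F g = (F g - k) + ((k : ℤ_[ℓ]) - (0 : ℤ)) := by
        push_cast
        ring
      rw [h5]
      exact dvd_add h1 h3
    apply hball
    rw [Metric.mem_ball, dist_zero_right]
    refine lt_of_le_of_lt ?_ hm
    have h6 : (ℓ : ℤ_[ℓ]) ^ m ∣ F g := (pow_dvd_pow _ (Nat.le_succ m)).trans h4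
    have h7 := (PadicInt.norm_le_pow_iff_mem_span_pow (F g) m).2
      (Ideal.mem_span_singleton.2 h6)
    exact h7
  refine ⟨⟨F₁, hcont⟩, ?_⟩
  intro a
  change PadicInt.toZMod (F a) = (f a).toAdd
  obtain ⟨k, h1, h2⟩ := hF a 0
  have h2' : a (b 0) = algebraMap L M (z 0 ^ (((f a).toAdd.val : ℕ) : ℤ)) * b 0 := by
    rw [zpow_natCast, hb1]
    exact hβ a
  have h3 := huniq0 a 0 k _ h2 h2'
  have h4 : (ℓ : ℤ_[ℓ]) ∣ F a - (((f a).toAdd.val : ℕ) : ℤ_[ℓ]) := by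
    have h5 : F a - (((f a).toAdd.val : ℕ) : ℤ_[ℓ]) = (F a - k) +
        ((k : ℤ_[ℓ]) - ((((f a).toAdd.val : ℕ) : ℤ) : ℤ_[ℓ])) := by
      push_cast
      ring
    rw [h5]
    rw [zero_add, pow_one] at h1 h3
    exact dvd_add h1 h3
  obtain ⟨y, hy⟩ := h4
  have h5 : F a = (((f a).toAdd.val : ℕ) : ℤ_[ℓ]) + (ℓ : ℤ_[ℓ]) * y := by
    rw [← hy]
    ring
  rw [h5, map_add, map_mul, map_natCast, map_natCast, ZMod.natCast_self, zero_mul, add_zero,
    ZMod.natCast_zmod_val]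

end KG

theorem kummer_tfab {C L M : Type*} [Field C] [IsAlgClosed C] [CharZero C] [Field L] [Algebra C L]
    [Field M] [Algebra L M] [IsGalois L M] (ℓ : ℕ) [Fact ℓ.Prime]
    (hfin : ∃ T : Finset L, ∀ (ρ : L) (β : M), ρ ≠ 0 → β ^ ℓ = algebraMap L M ρ →
      ∃ r ∈ T, ∃ c : L, c ≠ 0 ∧ ρ = r * c ^ ℓ)
    (hstep : ∀ (N : ℕ) (ρ : L) (β : M), 1 ≤ N → ρ ≠ 0 → β ^ N = algebraMap L M ρ →
      ∃ (c : L) (β' : M), c ≠ 0 ∧ β' ^ (N * ℓ) = algebraMap L M (ρ * c ^ N)) :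
    Finite (Gal(M/L) →ₜ* Multiplicative (ZMod ℓ)) ∧
    ∀ f : Gal(M/L) →ₜ* Multiplicative (ZMod ℓ), ∃ F : Gal(M/L) →ₜ* Multiplicative ℤ_[ℓ],
      ∀ a, PadicInt.toZMod (F a).toAdd = (f a).toAdd := by
  obtain ⟨z, hz, hzz⟩ := KG.exists_roots C ℓ
  have hz' : ∀ n, IsPrimitiveRoot (algebraMap C L (z n)) (ℓ ^ (n + 1)) := fun n =>
    (hz n).map_of_injective (algebraMap C L).injective
  refine ⟨?_, ?_⟩
  · exact KG.finite_of ℓ (algebraMap C L (z 0)) (by simpa using hz' 0) hfin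
  · intro f
    exact KG.lift_of ℓ (fun n => algebraMap C L (z n)) hz'
      (fun n => by rw [← map_pow, hzz]) hstep f

end Pool.Agent.Lib.MP_2f3286_ag.Pt
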