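import Mathlib
import Pool.Agent.Lib.MP_2f3286_ag.Pt.Ex1

/-!
# EX2: pointed affine curves exist
-/

open Polynomial IntermediateField IsDedekindDomain WithZero
open scoped IntermediateField.algebraAdjoinAdjoin

namespace Pool.Agent.Lib.MP_2f3286_ag.Pt

open Pool.Agent.Lib.MP_2f3286_ag.Full

namespace Ex2

section Ded

variable {O A : Type*} [CommRing O] [IsDedekindDomain O] [Field A] [Algebra O A]
  [IsFractionRing O A]

/-- a nontrivial valuation ring containing a Dedekind domain is the one of its centre -/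
theorem exists_spec (P : ValuationSubring A) (hP : ∀ z : O, algebraMap O A z ∈ P) (hne : P ≠ ⊤) :
    ∃ v : HeightOneSpectrum O, P = (v.valuation A).valuationSubring ∧
      ∀ z : O, z ∈ v.asIdeal ↔ P.valuation (algebraMap O A z) < 1 := by
  have hprime : (Pole.cenI P hP).IsPrime := Pole.cenI_prime P hP
  have h0 : Pole.cenI P hP ≠ ⊥ := by
    intro h0
    apply hne
    rw [eq_top_iff]
    intro x _
    obtain ⟨a, b, hb, rfl⟩ := IsFractionRing.div_surjective (A := O) x
    have hb0 : b ≠ 0 := nonZeroDivisors.ne_zero hb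
    have hb1 : b ∉ Pole.cenI P hP := by
      rw [h0, Ideal.mem_bot]
      exact hb0
    rw [Pole.mem_cenI, not_lt] at hb1
    rw [div_eq_mul_inv]
    refine P.mul_mem _ _ (hP a) ?_
    rw [← P.valuation_le_one_iff, map_inv₀]
    exact inv_le_one_of_one_le₀ hb1
  let v : HeightOneSpectrum O := ⟨Pole.cenI P hP, hprime, h0⟩
  refine ⟨v, ?_, fun z => Iff.rfl⟩
  refine Pole.eq_of_cen P (v.valuation A).valuationSubring hP (fun z => ?_) v.asIdeal h0
    (fun z => Iff.rfl) (fun z => ?_)
  · rw [Valuation.mem_valuationSubring_iff]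
    exact v.valuation_le_one z
  · rw [← (v.valuation A).isEquiv_valuation_valuationSubring.lt_one_iff_lt_one]
    exact (v.valuation_lt_one_iff_mem z).symm

/-- elements of the valuation ring of `v` are quotients with denominator outside `v` -/
theorem exists_frac (v : HeightOneSpectrum O) (x : A) (hx : v.valuation A x ≤ 1) :
    ∃ c s : O, s ∉ v.asIdeal ∧ x * algebraMap O A s = algebraMap O A c := by
  obtain ⟨a, b, hb, rfl⟩ := IsFractionRing.div_surjective (A := O) x
  have hb0 : algebraMap O A b ≠ 0 := IsFractionRing.to_map_ne_zero_of_mem_nonZeroDivisors hb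
  have hprime := v.isPrime
  obtain ⟨c, s, hs, h | h⟩ := Pole.ded_div v.asIdeal v.ne_bot a b
  · refine ⟨c, s, hs, ?_⟩
    rw [div_mul_eq_mul_div, div_eq_iff hb0, ← map_mul, ← map_mul, mul_comm a s, h, mul_comm]
  · by_cases ha : a = 0
    · refine ⟨0, 1, ?_, ?_⟩
      · exact fun h1 => v.isPrime.ne_top ((Ideal.eq_top_iff_one _).2 h1)
      · simp [ha]
    have h1 := congrArg (fun z => v.valuation A (algebraMap O A z)) h
    simp only [map_mul] at h1
    have hs1 : v.valuation A (algebraMap O A s) = 1 :=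
      HeightOneSpectrum.valuation_eq_one_iff_notMem v |>.2 hs
    rw [hs1, one_mul] at h1
    have ha0 : algebraMap O A a ≠ 0 := by
      rwa [Ne, map_eq_zero_iff _ (IsFractionRing.injective O A)]
    have hc : c ∉ v.asIdeal := by
      intro hc
      have hc1 := (v.valuation_lt_one_iff_mem (K := A) c).2 hc
      rw [map_div₀, div_le_one₀ (zero_lt_iff.2 ((Valuation.ne_zero_iff _).2 hb0)), h1] at hx
      have h2 : v.valuation A (algebraMap O A a) * v.valuation A (algebraMap O A c) <
          v.valuation A (algebraMap O A a) * 1 :=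
        (mul_lt_mul_iff_right₀ (zero_lt_iff.2 ((Valuation.ne_zero_iff _).2 ha0))).2 hc1
      rw [mul_one] at h2
      exact absurd hx (not_le.2 h2)
    refine ⟨s, c, hc, ?_⟩
    rw [div_mul_eq_mul_div, div_eq_iff hb0, ← map_mul, ← map_mul, ← h]

end Ded

section Res

variable {C L : Type*} [Field C] [IsAlgClosed C] [Field L] [Algebra C L]

/-- the residue field at a prime of the integral closure of `C[u]` containing `u` is `C` -/
theorem exists_res (u : L) [FiniteDimensional C⟮u⟯ L] [Algebra.IsSeparable C⟮u⟯ L]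
    (I : Ideal (integralClosure (Algebra.adjoin C {u}) L)) [I.IsPrime]
    (u' : integralClosure (Algebra.adjoin C {u}) L) (hu' : (u' : L) = u) (huI : u' ∈ I)
    (z : integralClosure (Algebra.adjoin C {u}) L) :
    ∃ c : C, z - algebraMap C _ c ∈ I := by
  obtain ⟨i1, i2, i3, i4, i5⟩ := Pole.facts (F := C) u
  let uR : Algebra.adjoin C {u} := ⟨u, Algebra.self_mem_adjoin_singleton C u⟩
  have huR : u' = algebraMap (Algebra.adjoin C {u})
      (integralClosure (Algebra.adjoin C {u}) L) uR := Subtype.ext hu'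
  let B := Module.Free.chooseBasis (Algebra.adjoin C {u})
    (integralClosure (Algebra.adjoin C {u}) L)
  have hb : ∀ z : integralClosure (Algebra.adjoin C {u}) L,
      ∃ p : Module.Free.ChooseBasisIndex (Algebra.adjoin C {u})
        (integralClosure (Algebra.adjoin C {u}) L) → C[X],
        z = ∑ i, aeval u' (p i) * B i := by
    intro z
    have h1 : ∀ i, ∃ p : C[X], aeval u p = (B.repr z i : L) := fun i =>
      (Pole.mem_adj u _).1 (B.repr z i).2
    choose p hp using h1
    refine ⟨p, ?_⟩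
    conv_lhs => rw [← B.sum_repr z]
    refine Finset.sum_congr rfl fun i _ => ?_
    rw [Algebra.smul_def]
    congr 1
    apply Subtype.ext
    change (B.repr z i : L) = _
    rw [← hp, huR]
    exact aeval_algebraMap_apply L (algebraMap (Algebra.adjoin C {u})
          (integralClosure (Algebra.adjoin C {u}) L) uR) (p i)
  obtain ⟨g1, -⟩ := Pole.quot_bound (F := C) u' B hb 1
  rw [pow_one] at g1
  have hle : Ideal.span {u'} ≤ I := by
    rwa [Ideal.span_singleton_le_iff_mem]
  have h2 : Module.Finite C (integralClosure (Algebra.adjoin C {u}) L ⧸ I) :=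
    Module.Finite.of_surjective (Ideal.Quotient.factorₐ C hle).toLinearMap
      (Ideal.Quotient.factor_surjective hle)
  have h3 := (IsAlgClosed.algebraMap_bijective_of_isIntegral (k := C)
    (K := integralClosure (Algebra.adjoin C {u}) L ⧸ I)).2 (Ideal.Quotient.mk I z)
  obtain ⟨c, hc⟩ := h3
  refine ⟨c, ?_⟩
  rw [← Ideal.Quotient.eq, ← hc]
  rfl

variable [CharZero C]

/-- the valuation of a place of a function field -/
theorem exists_val (t : L) (ht : Transcendental C t) [FiniteDimensional (adjoin C {t}) L]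
    (P : ValuationSubring L) (hPC : ∀ a : C, algebraMap C L a ∈ P) (hP : P ≠ ⊤) :
    ∃ v : Valuation L ℤᵐ⁰, P = v.valuationSubring ∧ (∃ ϖ : L, v ϖ = exp (-1 : ℤ)) ∧
      ∀ x : L, v x ≤ 1 → ∃ c : C, v (x - algebraMap C L c) < 1 := by
  obtain ⟨x, hx⟩ : ∃ x, x ∉ P := by
    by_contra hcon
    push Not at hcon
    exact hP (eq_top_iff.2 fun x _ => hcon x)
  have hxt : Transcendental C x := Ex1.transcendental_of_notMem P hPC x hx
  have hx0 : x ≠ 0 := fun h => hx (h ▸ P.zero_mem)
  obtain ⟨u, hu⟩ : ∃ u, u = x⁻¹ := ⟨_, rfl⟩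
  have hut : Transcendental C u := by
    rw [hu]
    exact fun h => hxt (IsAlgebraic.inv_iff.1 h)
  have : FiniteDimensional (adjoin C {u}) L := fin_adjoin t u ht hut
  have hPu : P.valuation u < 1 := by
    rw [hu, map_inv₀]
    rw [← P.valuation_le_one_iff, not_le] at hx
    exact inv_lt_one_of_one_lt₀ hx
  obtain ⟨i1, i2, i3, i4, i5⟩ := Pole.facts (F := C) u
  have hO : ∀ z : integralClosure (Algebra.adjoin C {u}) L, algebraMap _ L z ∈ P := fun z =>
    Ex1.int_mem P hPC u ((P.valuation_le_one_iff _).1 hPu.le) z z.2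
  obtain ⟨v, hv, hv1⟩ := exists_spec P hO hP
  refine ⟨v.valuation L, hv, v.valuation_exists_uniformizer L, fun x hx => ?_⟩
  let u' : integralClosure (Algebra.adjoin C {u}) L :=
    ⟨u, isIntegral_algebraMap (R := Algebra.adjoin C {u})
      (x := ⟨u, Algebra.self_mem_adjoin_singleton C u⟩)⟩
  have hu'I : u' ∈ v.asIdeal := (hv1 u').2 hPu
  have hprime := v.isPrime
  obtain ⟨c, s, hs, hcs⟩ := exists_frac v x hx
  obtain ⟨γ, hγ⟩ := exists_res u v.asIdeal u' rfl hu'I c
  obtain ⟨σ, hσ⟩ := exists_res u v.asIdeal u' rfl hu'I s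
  have hσ0 : σ ≠ 0 := by
    rintro rfl
    rw [map_zero, sub_zero] at hσ
    exact hs hσ
  refine ⟨γ / σ, ?_⟩
  have hs1 : v.valuation L (algebraMap _ L s) = 1 :=
      HeightOneSpectrum.valuation_eq_one_iff_notMem v |>.2 hs
  have hmem : c - algebraMap C _ (γ / σ) * s ∈ v.asIdeal := by
    have e : c - algebraMap C _ (γ / σ) * s = (c - algebraMap C _ γ) -
        algebraMap C _ (γ / σ) * (s - algebraMap C _ σ) := by
      rw [mul_sub, ← map_mul, div_mul_cancel₀ _ hσ0]
      ring
    rw [e]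
    exact Ideal.sub_mem _ hγ (Ideal.mul_mem_left _ _ hσ)
  have h5 : v.valuation L (algebraMap _ L (c - algebraMap C _ (γ / σ) * s)) < 1 :=
    (v.valuation_lt_one_iff_mem (K := L) _).2 hmem
  have e2 : algebraMap _ L (c - algebraMap C _ (γ / σ) * s) =
      (x - algebraMap C L (γ / σ)) * algebraMap _ L s := by
    rw [map_sub, map_mul, sub_mul, hcs]
    rfl
  rw [e2, map_mul, hs1, mul_one] at h5
  exact h5

end Res

section Deg

variable {C L : Type*} [Field C] [Field L] [Algebra C L]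

theorem val_const (v : Valuation L ℤᵐ⁰) (hvC : ∀ c : C, v (algebraMap C L c) ≤ 1) (c : C)
    (hc : c ≠ 0) : v (algebraMap C L c) = 1 := by
  refine le_antisymm (hvC c) ?_
  have h1 := hvC c⁻¹
  rw [map_inv₀, map_inv₀] at h1
  exact (inv_le_one₀ (zero_lt_iff.2 ((Valuation.ne_zero_iff _).2
    (by rwa [Ne, map_eq_zero])))).1 h1

theorem isPoleDeg_of (v : Valuation L ℤᵐ⁰) (hvC : ∀ c : C, v (algebraMap C L c) ≤ 1)
    (ϖ : L) (hϖ : v ϖ = exp (-1 : ℤ))
    (hres : ∀ x : L, v x ≤ 1 → ∃ c : C, v (x - algebraMap C L c) < 1)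
    (B : Subalgebra C L) [IsFractionRing B L]
    (hconst : ∀ x ∈ B, v x ≤ 1 → ∃ c : C, x = algebraMap C L c) :
    ∃ d : B → ℕ, IsPoleDeg C d ∧ ∀ x : B, x ≠ 0 → v (x : L) = exp (d x : ℤ) := by
  obtain ⟨d, hd⟩ : ∃ d : B → ℕ, ∀ x, d x = (log (v (x : L))).toNat := ⟨_, fun _ => rfl⟩
  have hne : ∀ x : B, x ≠ 0 → (x : L) ≠ 0 := fun x hx h => hx (Subtype.ext h)
  have h1 : ∀ x : B, x ≠ 0 → v (x : L) = exp (d x : ℤ) := by
    intro x hx
    have hv0 : v (x : L) ≠ 0 := (Valuation.ne_zero_iff _).2 (hne x hx)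
    have h2 : 1 ≤ v (x : L) := by
      by_contra hcon
      rw [not_le] at hcon
      obtain ⟨c, hc⟩ := hconst x x.2 hcon.le
      have hc0 : c ≠ 0 := by
        rintro rfl
        rw [map_zero] at hc
        exact hne x hx hc
      rw [hc, val_const v hvC c hc0] at hcon
      exact lt_irrefl _ hcon
    have h3 : 0 ≤ log (v (x : L)) := by
      rw [← log_one, log_le_log one_ne_zero hv0]
      exact h2
    rw [hd, Int.toNat_of_nonneg h3, exp_log hv0]
  have h0 : d 0 = 0 := by
    rw [hd]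
    simp
  have hle : ∀ (x : B) (m : ℕ), v (x : L) ≤ exp (m : ℤ) → d x ≤ m := by
    intro x m h
    by_cases hx : x = 0
    · rw [hx, h0]; exact Nat.zero_le m
    · rw [h1 x hx, exp_le_exp] at h
      exact_mod_cast h
  have hle' : ∀ (x : B) (m : ℕ), d x ≤ m → v (x : L) ≤ exp (m : ℤ) := by
    intro x m h
    by_cases hx : x = 0
    · rw [hx]; simp
    · rw [h1 x hx, exp_le_exp]
      exact_mod_cast h
  have hmul : ∀ x y : B, x ≠ 0 → y ≠ 0 → d (x * y) = d x + d y := by
    intro x y hx hy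
    have h2 := h1 (x * y) (mul_ne_zero hx hy)
    have h3 : ((x * y : B) : L) = (x : L) * y := rfl
    rw [h3, map_mul, h1 x hx, h1 y hy, ← exp_add, exp_inj] at h2
    exact_mod_cast h2.symm
  refine ⟨d, ⟨h0, hmul, ?_, ?_, ?_, ?_⟩, h1⟩
  · intro x y
    refine hle _ _ ?_
    refine (Valuation.map_add v _ _).trans (max_le ?_ ?_)
    · exact hle' _ _ (le_max_left _ _)
    · exact hle' _ _ (le_max_right _ _)
  · intro x
    constructor
    · intro h
      have h2 := hle' x 0 h.le
      rw [Nat.cast_zero, exp_zero] at h2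
      obtain ⟨c, hc⟩ := hconst x x.2 h2
      exact ⟨c, Subtype.ext hc⟩
    · rintro ⟨c, rfl⟩
      refine Nat.le_zero.1 (hle _ 0 ?_)
      rw [Nat.cast_zero, exp_zero]
      exact hvC c
  · intro x y hy hxy
    have hy0 := hne y hy
    have hvy : v (y : L) ≠ 0 := (Valuation.ne_zero_iff _).2 hy0
    obtain ⟨c, hc⟩ := hres ((x : L) / y) (by
      rw [map_div₀, div_le_one₀ (zero_lt_iff.2 hvy), h1 y hy]
      exact hle' _ _ hxy)
    refine ⟨c, ?_⟩
    by_cases hz : x - c • y = 0
    · exact Or.inl hz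
    · right
      have h2 : ((x - c • y : B) : L) = ((x : L) / y - algebraMap C L c) * y := by
        rw [sub_mul, div_mul_cancel₀ _ hy0, ← Algebra.smul_def]
        rfl
      have h3 : v ((x - c • y : B) : L) < v (y : L) := by
        rw [h2, map_mul]
        calc v ((x : L) / y - algebraMap C L c) * v (y : L) < 1 * v (y : L) :=
              (mul_lt_mul_iff_left₀ (zero_lt_iff.2 hvy)).2 hc
          _ = v (y : L) := one_mul _
      rw [h1 _ hz, h1 y hy, exp_lt_exp] at h3
      exact_mod_cast h3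
  · have hϖ0 : ϖ ≠ 0 := by
      rintro rfl
      rw [map_zero] at hϖ
      exact exp_ne_zero hϖ.symm
    obtain ⟨a, b, hb, hab⟩ := IsFractionRing.div_surjective (A := B) ϖ
    have hb0 : b ≠ 0 := nonZeroDivisors.ne_zero hb
    have ha0 : a ≠ 0 := by
      rintro rfl
      rw [map_zero, zero_div] at hab
      exact hϖ0 hab.symm
    have h2 : d b = d a + 1 := by
      have h3 : v (a : L) = v ϖ * v (b : L) := by
        rw [← map_mul, ← hab]
        exact congrArg v (div_mul_cancel₀ (algebraMap B L a)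
          (IsFractionRing.to_map_ne_zero_of_mem_nonZeroDivisors (K := L) hb)).symm
      rw [hϖ, h1 a ha0, h1 b hb0, ← exp_add, exp_inj] at h3
      omega
    have hpow : ∀ (x : B), x ≠ 0 → ∀ n : ℕ, d (x ^ n) = n * d x := by
      intro x hx n
      induction n with
      | zero =>
        rw [pow_zero, zero_mul]
        refine Nat.le_zero.1 (hle _ 0 ?_)
        rw [Nat.cast_zero, exp_zero]
        exact (map_one v).le
      | succ n ih =>
        rw [pow_succ, hmul _ _ (pow_ne_zero n hx) hx, ih]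
        ring
    obtain ⟨k, hk⟩ : ∃ k, k = 2 * d a + 1 := ⟨_, rfl⟩
    have hab0 : a * b ≠ 0 := mul_ne_zero ha0 hb0
    have hbb0 : b * b ≠ 0 := mul_ne_zero hb0 hb0
    have e1 : d (a * b) = k := by
      rw [hmul a b ha0 hb0, h2, hk]
      ring
    have e2 : d (b * b) = k + 1 := by
      rw [hmul b b hb0 hb0, h2, hk]
      ring
    refine ⟨k * k, fun n hn => ?_⟩
    have hk1 : 0 < k := by omega
    have hr : n % k < k := Nat.mod_lt _ hk1
    have hq : k ≤ n / k := (Nat.le_div_iff_mul_le hk1).2 hn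
    refine ⟨(a * b) ^ (n / k - n % k) * (b * b) ^ (n % k),
      mul_ne_zero (pow_ne_zero _ hab0) (pow_ne_zero _ hbb0), ?_⟩
    rw [hmul _ _ (pow_ne_zero _ hab0) (pow_ne_zero _ hbb0), hpow _ hab0, hpow _ hbb0, e1, e2]
    obtain ⟨q, hq2⟩ : ∃ q, q = n / k := ⟨_, rfl⟩
    obtain ⟨r, hr2⟩ : ∃ r, r = n % k := ⟨_, rfl⟩
    have h6 : n = k * q + r := by
      rw [hq2, hr2]
      exact (Nat.div_add_mod n k).symm
    rw [← hq2, ← hr2, h6]
    obtain ⟨j, hj⟩ : ∃ j, q = j + r := ⟨q - r, by omega⟩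
    rw [hj, Nat.add_sub_cancel]
    ring

end Deg

/-- the functions without poles at all places are the constants -/
theorem const_of_forall {C L : Type*} [Field C] [IsAlgClosed C] [Field L] [Algebra C L] (x : L)
    (hx : ∀ Q : ValuationSubring L, (∀ a : C, algebraMap C L a ∈ Q) → Q ≠ ⊤ → x ∈ Q) :
    ∃ c : C, x = algebraMap C L c := by
  have h1 : IsIntegral C x := by
    by_contra hcon
    have hx' : x ∉ (integralClosure C L).toSubring := hcon
    obtain ⟨V, hV1, hV2⟩ := Subring.exists_le_valuationSubring_of_isIntegrallyClosedIn hx'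
    refine hV2 (hx V (fun a => hV1 (algebraMap_mem (integralClosure C L) a)) ?_)
    rintro rfl
    exact hV2 (ValuationSubring.mem_top _)
  have h2 : Algebra.IsIntegral C (Algebra.adjoin C {x}) := Algebra.IsIntegral.adjoin (by
    rintro y hy
    rw [Set.mem_singleton_iff] at hy
    rw [hy]
    exact h1)
  obtain ⟨c, hc⟩ := (IsAlgClosed.algebraMap_bijective_of_isIntegral (k := C)).2
    (⟨x, Algebra.self_mem_adjoin_singleton C x⟩ : Algebra.adjoin C {x})
  exact ⟨c, (congrArg Subtype.val hc).symm⟩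

theorem mem_iff {C L : Type*} [Field C] [Field L] [Algebra C L] (P : ValuationSubring L) (y : L)
    (hy : y ∉ P) (hy' : ∀ Q : ValuationSubring L, (∀ a : C, algebraMap C L a ∈ Q) → Q ≠ ⊤ →
      Q ≠ P → y ∈ Q) (x : L) :
    IsIntegral (Algebra.adjoin C {y}) x ↔ ∀ Q : ValuationSubring L,
      (∀ a : C, algebraMap C L a ∈ Q) → Q ≠ ⊤ → Q ≠ P → x ∈ Q := by
  constructor
  · intro h Q hQ h1 h2
    exact Ex1.int_mem Q hQ y (hy' Q hQ h1 h2) x h
  · intro h
    by_contra hcon
    have hx' : x ∉ (integralClosure (Algebra.adjoin C {y}) L).toSubring := hcon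
    obtain ⟨V, hV1, hV2⟩ := Subring.exists_le_valuationSubring_of_isIntegrallyClosedIn hx'
    have hVt : V ≠ ⊤ := by
      rintro rfl
      exact hV2 (ValuationSubring.mem_top _)
    have hVC : ∀ a : C, algebraMap C L a ∈ V := fun a =>
      hV1 (algebraMap_mem (integralClosure (Algebra.adjoin C {y}) L)
        (algebraMap C (Algebra.adjoin C {y}) a))
    have hVy : y ∈ V := hV1 (algebraMap_mem (integralClosure (Algebra.adjoin C {y}) L)
      ⟨y, Algebra.self_mem_adjoin_singleton C y⟩)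
    refine hV2 (h V hVC hVt ?_)
    rintro rfl
    exact hy hVy

end Ex2

theorem exists_pointed {C L : Type*} [Field C] [IsAlgClosed C] [CharZero C] [Field L] [Algebra C L]
    (t : L) (ht : Transcendental C t) [FiniteDimensional (adjoin C {t}) L]
    (P : ValuationSubring L) (hPC : ∀ a : C, algebraMap C L a ∈ P) (hP : P ≠ ⊤) :
    ∃ B : Subalgebra C L, IsDedekindDomain B ∧ IsFractionRing B L ∧
      (∀ x : L, x ∈ B ↔ ∀ Q : ValuationSubring L, (∀ a : C, algebraMap C L a ∈ Q) → Q ≠ ⊤ →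
        Q ≠ P → x ∈ Q) ∧
      ∃ d : B → ℕ, IsPoleDeg C d ∧ ∃ ϖ : L, ϖ ≠ 0 ∧ P.valuation ϖ < 1 ∧
        ∀ x : B, x ≠ 0 → P.valuation ((x : L) * ϖ ^ d x) = 1 := by
  obtain ⟨y, hy, hy'⟩ := single_pole' t ht P hPC hP
  have hyt : Transcendental C y := Ex1.transcendental_of_notMem P hPC y hy
  have : FiniteDimensional (adjoin C {y}) L := fin_adjoin t y ht hyt
  obtain ⟨i1, i2, -⟩ := Pole.facts (F := C) y
  let B : Subalgebra C L := (integralClosure (Algebra.adjoin C {y}) L).restrictScalars C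
  have hB : ∀ x : L, x ∈ B ↔ ∀ Q : ValuationSubring L, (∀ a : C, algebraMap C L a ∈ Q) → Q ≠ ⊤ →
        Q ≠ P → x ∈ Q := fun x => Ex2.mem_iff P y hy hy' x
  have j1 : IsDedekindDomain B := i1
  have j2 : IsFractionRing B L := i2
  obtain ⟨v, hv, ⟨ϖ, hϖ⟩, hres⟩ := Ex2.exists_val t ht P hPC hP
  have hvP : ∀ x : L, x ∈ P ↔ v x ≤ 1 := fun x => by rw [hv]; rfl
  have hvC : ∀ c : C, v (algebraMap C L c) ≤ 1 := fun c => (hvP _).1 (hPC c)
  have hequiv : v.IsEquiv P.valuation := by
    rw [hv]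
    exact v.isEquiv_valuation_valuationSubring
  obtain ⟨d, hd, hd'⟩ := Ex2.isPoleDeg_of v hvC ϖ hϖ hres B (fun x hx hx1 =>
    Ex2.const_of_forall x (fun Q hQ hQt => by
      by_cases hQP : Q = P
      · rw [hQP, hvP]
        exact hx1
      · exact (hB x).1 hx Q hQ hQt hQP))
  refine ⟨B, j1, j2, hB, d, hd, ϖ, ?_, ?_, fun x hx => ?_⟩
  · rintro rfl
    rw [map_zero] at hϖ
    exact exp_ne_zero hϖ.symm
  · rw [← hequiv.lt_one_iff_lt_one, hϖ, ← exp_zero, exp_lt_exp]
    norm_num
  · rw [← hequiv.eq_one_iff_eq_one, map_mul, map_pow, hd' x hx, hϖ, ← exp_nsmul, ← exp_add]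
    simp

end Pool.Agent.Lib.MP_2f3286_ag.Pt
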