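import Mathlib
import Pool.Agent.Lib.MP_2f3286_ag.Full.Pole
import Pool.Agent.Lib.MP_2f3286_ag.Pt.Defs

/-!
# EX3: places of a function field and primes of the pointed affine curve
-/

open IsDedekindDomain

namespace Pool.Agent.Lib.MP_2f3286_ag.Pt

namespace Ex3

/-- an element of all valuation rings over an algebraically closed field is a constant -/
theorem const_of_mem_all {C L : Type*} [Field C] [IsAlgClosed C] [Field L] [Algebra C L] (x : L)
    (h : ∀ V : ValuationSubring L, (∀ a : C, algebraMap C L a ∈ V) → x ∈ V) :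
    ∃ c : C, x = algebraMap C L c := by
  have h1 : x ∈ (⨅ V : {V : ValuationSubring L // ((algebraMap C L).range : Set L) ⊆ V.toSubring},
      V.1.toSubring) := by
    rw [Subring.mem_iInf]
    rintro ⟨V, hV⟩
    exact h V (fun a => hV ⟨a, rfl⟩)
  rw [iInf_valuationSubring_superset] at h1
  have h2 : IsIntegral (Subring.closure ((algebraMap C L).range : Set L)) x := h1
  have h3 : IsIntegral C x := by
    obtain ⟨p, hp, hpx⟩ := h2
    have hcl : ∀ y ∈ Subring.closure ((algebraMap C L).range : Set L),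
        ∃ c : C, algebraMap C L c = y := by
      intro y hy
      rw [Subring.closure_eq] at hy
      exact hy
    let g : C →+* Subring.closure ((algebraMap C L).range : Set L) :=
      (algebraMap C L).codRestrict _ (fun c => Subring.subset_closure ⟨c, rfl⟩)
    have hg : Function.Surjective g := by
      rintro ⟨y, hy⟩
      obtain ⟨c, hc⟩ := hcl y hy
      exact ⟨c, Subtype.ext hc⟩
    have hl : p ∈ Polynomial.lifts g := by
      rw [Polynomial.lifts_iff_coeff_lifts]
      intro n
      exact hg _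
    obtain ⟨q, hq, -, hqm⟩ := Polynomial.lifts_and_degree_eq_and_monic hl hp
    refine ⟨q, hqm, ?_⟩
    rw [← hq, Polynomial.eval₂_map] at hpx
    exact hpx
  have h4 : (minpoly C x).degree = 1 :=
    IsAlgClosed.degree_eq_one_of_irreducible C (minpoly.irreducible h3)
  obtain ⟨c, hc⟩ := minpoly.mem_range_of_degree_eq_one C x h4
  exact ⟨c, hc.symm⟩

section

variable {B L : Type*} [CommRing B] [IsDedekindDomain B] [Field L] [Algebra B L]
  [IsFractionRing B L]

theorem mem_vs (v : HeightOneSpectrum B) (x : B) :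
    algebraMap B L x ∈ (v.valuation L).valuationSubring := by
  rw [Valuation.mem_valuationSubring_iff]
  exact v.valuation_le_one x

theorem lt_one_iff (v : HeightOneSpectrum B) (x : B) :
    (v.valuation L).valuationSubring.valuation (algebraMap B L x) < 1 ↔ x ∈ v.asIdeal := by
  rw [← (Valuation.isEquiv_valuation_valuationSubring (v.valuation L)).lt_one_iff_lt_one,
    v.valuation_lt_one_iff_mem]

theorem eq_one_iff (v : HeightOneSpectrum B) (x : L) :
    (v.valuation L).valuationSubring.valuation x = 1 ↔ v.valuation L x = 1 :=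
  ((Valuation.isEquiv_valuation_valuationSubring (v.valuation L)).eq_one_iff_eq_one).symm

open UniqueFactorizationMonoid in
open Classical in
/-- multiplicity of a prime in an ideal -/
noncomputable def cnt (v : HeightOneSpectrum B) (I : Ideal B) : ℕ :=
  Multiset.count v.asIdeal (normalizedFactors I)

theorem cnt_mul (v : HeightOneSpectrum B) {I J : Ideal B} (hI : I ≠ ⊥) (hJ : J ≠ ⊥) :
    cnt v (I * J) = cnt v I + cnt v J := by
  classical
  unfold cnt
  rw [UniqueFactorizationMonoid.normalizedFactors_mul hI hJ, Multiset.count_add]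

theorem cnt_pow (v : HeightOneSpectrum B) (I : Ideal B) (n : ℕ) :
    cnt v (I ^ n) = n * cnt v I := by
  classical
  unfold cnt
  rw [UniqueFactorizationMonoid.normalizedFactors_pow, Multiset.count_nsmul]

theorem val_algebraMap (v : HeightOneSpectrum B) (x : B) (hx : x ≠ 0) :
    v.valuation L (algebraMap B L x) = WithZero.exp (-(cnt v (Ideal.span {x}) : ℤ)) := by
  classical
  have hsr : Ideal.span {x} ≠ (0 : Ideal B) := by simpa using hx
  rw [v.valuation_of_algebraMap, v.intValuation_if_neg hx, cnt,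
    Ideal.count_associates_factors_eq hsr v.isPrime v.ne_bot]

theorem exists_pow (I : Ideal B) (hI : I ≠ ⊥) (n : ℕ) (h : ∀ v : HeightOneSpectrum B, n ∣ cnt v I) :
    ∃ J : Ideal B, J ^ n = I := by
  classical
  obtain ⟨u, hu⟩ := Multiset.exists_smul_of_dvd_count
    (UniqueFactorizationMonoid.normalizedFactors I) (k := n) (by
      intro a ha
      have hp : Prime a := UniqueFactorizationMonoid.prime_of_normalized_factor a ha
      exact h ⟨a, Ideal.isPrime_of_prime hp, hp.ne_zero⟩)
  refine ⟨u.prod, ?_⟩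
  rw [← Multiset.prod_nsmul, ← hu, Ideal.prod_normalizedFactors_eq_self hI]

end

end Ex3

open Ex3

theorem place_iff {C L : Type*} [Field C] [IsAlgClosed C] [CharZero C] [Field L] [Algebra C L]
    (P : ValuationSubring L) (hPC : ∀ a : C, algebraMap C L a ∈ P) (hP : P ≠ ⊤)
    (B : Subalgebra C L) [IsDedekindDomain B] [IsFractionRing B L]
    (hB : ∀ x : L, x ∈ B ↔ ∀ Q : ValuationSubring L, (∀ a : C, algebraMap C L a ∈ Q) → Q ≠ ⊤ →
        Q ≠ P → x ∈ Q) (d : B → ℕ) (hd : IsPoleDeg C d) (Q : ValuationSubring L) :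
    ((∀ a : C, algebraMap C L a ∈ Q) ∧ Q ≠ ⊤ ∧ Q ≠ P) ↔
      ∃ v : HeightOneSpectrum B, Q = (v.valuation L).valuationSubring := by
  constructor
  · rintro ⟨hQC, hQ, hQP⟩
    have hBQ : ∀ z : B, algebraMap B L z ∈ Q := fun z => (hB z).1 z.2 Q hQC hQ hQP
    have hne : Full.Pole.cenI Q hBQ ≠ ⊥ := by
      intro hbot
      apply hQ
      rw [eq_top_iff]
      rintro x -
      obtain ⟨a, b, hb, rfl⟩ := IsFractionRing.div_surjective (A := B) x
      have hb0 : b ≠ 0 := nonZeroDivisors.ne_zero hb
      have h1 : b ∉ Full.Pole.cenI Q hBQ := by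
        rw [hbot, Ideal.mem_bot]
        exact hb0
      rw [Full.Pole.mem_cenI, not_lt] at h1
      rw [div_eq_mul_inv]
      apply Q.mul_mem _ _ (hBQ a)
      rw [← Q.valuation_le_one_iff, map_inv₀]
      exact inv_le_one_of_one_le₀ h1
    let v : HeightOneSpectrum B := ⟨Full.Pole.cenI Q hBQ, inferInstance, hne⟩
    refine ⟨v, Full.Pole.eq_of_cen Q _ hBQ (mem_vs v) (Full.Pole.cenI Q hBQ) hne
      (fun z => Full.Pole.mem_cenI Q hBQ z) (fun z => (lt_one_iff v z).symm)⟩
  · rintro ⟨v, rfl⟩
    have hC : ∀ a : C, algebraMap C L a ∈ (v.valuation L).valuationSubring := by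
      intro a
      have := mem_vs (L := L) v (algebraMap C B a)
      rwa [← IsScalarTower.algebraMap_apply C B L] at this
    refine ⟨hC, ?_, ?_⟩
    · intro htop
      obtain ⟨x, hx, hx0⟩ := (Submodule.ne_bot_iff _).1 v.ne_bot
      have h1 := (lt_one_iff (L := L) v x).2 hx
      have hxL : algebraMap B L x ≠ 0 := by
        rwa [Ne, IsFractionRing.to_map_eq_zero_iff]
      have h2 : (algebraMap B L x)⁻¹ ∈ (v.valuation L).valuationSubring := by
        rw [htop]; trivial
      rw [← ValuationSubring.valuation_le_one_iff, map_inv₀,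
        inv_le_one₀ (zero_lt_iff.2 ((Valuation.ne_zero_iff _).2 hxL))] at h2
      exact absurd h1 (not_lt.2 h2)
    · intro hQP
      obtain ⟨n₀, hn₀⟩ := hd.large
      obtain ⟨x, hx, hdx⟩ := hn₀ (n₀ + 1) (by omega)
      obtain ⟨c, hc⟩ := const_of_mem_all (C := C) (x : L) (by
        intro V hV
        by_cases h1 : V = ⊤
        · rw [h1]; trivial
        by_cases h2 : V = P
        · rw [h2, ← hQP]
          exact mem_vs v x
        · exact (hB x).1 x.2 V hV h1 h2)
      have hc' : x = algebraMap C B c := Subtype.ext hc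
      have := (hd.const x).2 ⟨c, hc'⟩
      omega

theorem divAt_iff {B L : Type*} [CommRing B] [IsDedekindDomain B] [Field L] [Algebra B L]
    [IsFractionRing B L] (v : HeightOneSpectrum B) (n : ℕ) (hn : 1 ≤ n) (ρ : L) (hρ : ρ ≠ 0) :
    DivAt n ρ (v.valuation L).valuationSubring ↔
      ∃ m : ℤ, v.valuation L ρ = WithZero.exp ((n : ℤ) * m) := by
  constructor
  · rintro ⟨c, hc, h⟩
    rw [Ex3.eq_one_iff, map_mul, map_inv₀, map_pow] at h
    have hc' : v.valuation L c ≠ 0 := (Valuation.ne_zero_iff _).2 hc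
    refine ⟨WithZero.log (v.valuation L c), ?_⟩
    rw [mul_inv_eq_one₀ (pow_ne_zero _ hc')] at h
    rw [h, ← nsmul_eq_mul, WithZero.exp_nsmul, WithZero.exp_log hc']
  · rintro ⟨m, hm⟩
    obtain ⟨π, hπ⟩ := v.valuation_exists_uniformizer L
    have hπ0 : π ≠ 0 := by
      rintro rfl
      rw [map_zero] at hπ
      exact WithZero.exp_ne_zero hπ.symm
    refine ⟨π ^ (-m), zpow_ne_zero _ hπ0, ?_⟩
    rw [Ex3.eq_one_iff, map_mul, map_inv₀, map_pow, map_zpow₀, hm, hπ, ← WithZero.exp_zsmul,
      ← WithZero.exp_nsmul, ← WithZero.exp_neg, ← WithZero.exp_add]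
    simp

/-- everywhere divisible: the fractional ideal is an `n`-th power -/
theorem divAt_all_iff {B L : Type*} [CommRing B] [IsDedekindDomain B] [Field L] [Algebra B L]
    [IsFractionRing B L] (n : ℕ) (hn : 1 ≤ n) (ρ : L) (hρ : ρ ≠ 0) :
    (∀ v : HeightOneSpectrum B, DivAt n ρ (v.valuation L).valuationSubring) ↔
      ∃ (x y : B) (I J : Ideal B), x ≠ 0 ∧ y ≠ 0 ∧ I ≠ ⊥ ∧ J ≠ ⊥ ∧
        ρ * algebraMap B L y = algebraMap B L x ∧
        Ideal.span {x} * J ^ n = Ideal.span {y} * I ^ n := by
  have hspan : ∀ x : B, x ≠ 0 → Ideal.span {x} ≠ (⊥ : Ideal B) := by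
    intro x hx
    simpa using hx
  -- the valuation of a quotient
  have hval : ∀ (x y : B), x ≠ 0 → y ≠ 0 → ρ * algebraMap B L y = algebraMap B L x →
      ∀ v : HeightOneSpectrum B, v.valuation L ρ =
        WithZero.exp ((cnt v (Ideal.span {y}) : ℤ) - cnt v (Ideal.span {x})) := by
    intro x y hx hy h v
    have h1 := congrArg (v.valuation L) h
    rw [map_mul, val_algebraMap v x hx, val_algebraMap v y hy] at h1
    rw [eq_div_of_mul_eq WithZero.exp_ne_zero h1, ← WithZero.exp_sub]
    congr 1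
    ring
  simp only [fun v : HeightOneSpectrum B => divAt_iff (L := L) v n hn ρ hρ]
  constructor
  · intro h
    obtain ⟨x, y, hy, rfl⟩ := IsFractionRing.div_surjective (A := B) ρ
    have hy0 : y ≠ 0 := nonZeroDivisors.ne_zero hy
    have hyL : algebraMap B L y ≠ 0 := by
      rwa [Ne, IsFractionRing.to_map_eq_zero_iff]
    have hx0 : x ≠ 0 := by
      rintro rfl
      rw [map_zero, zero_div] at hρ
      exact hρ rfl
    have he : algebraMap B L x / algebraMap B L y * algebraMap B L y = algebraMap B L x :=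
      div_mul_cancel₀ _ hyL
    obtain ⟨I, hI⟩ := exists_pow (Ideal.span {x} * Ideal.span {y} ^ (n - 1))
      (mul_ne_zero (hspan x hx0) (pow_ne_zero _ (hspan y hy0))) n (by
        intro v
        obtain ⟨m, hm⟩ := h v
        rw [hval x y hx0 hy0 he v, WithZero.exp_inj] at hm
        rw [cnt_mul v (hspan x hx0) (pow_ne_zero _ (hspan y hy0)), cnt_pow]
        rw [← Int.natCast_dvd_natCast]
        refine ⟨cnt v (Ideal.span {y}) - m, ?_⟩
        push_cast [Nat.cast_sub hn]
        linear_combination -hm)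
    refine ⟨x, y, I, Ideal.span {y}, hx0, hy0, ?_, hspan y hy0, he, ?_⟩
    · rintro rfl
      rw [← Ideal.zero_eq_bot, zero_pow (by omega)] at hI
      exact mul_ne_zero (hspan x hx0) (pow_ne_zero _ (hspan y hy0)) hI.symm
    · rw [hI]
      obtain ⟨k, rfl⟩ : ∃ k, n = k + 1 := ⟨n - 1, by omega⟩
      rw [Nat.add_sub_cancel, pow_succ]
      ring
  · rintro ⟨x, y, I, J, hx, hy, hI, hJ, he, h⟩ v
    rw [hval x y hx hy he v]
    refine ⟨cnt v J - cnt v I, ?_⟩
    congr 1
    have h1 := congrArg (cnt v) h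
    rw [cnt_mul v (hspan x hx) (pow_ne_zero _ hJ), cnt_mul v (hspan y hy) (pow_ne_zero _ hI),
      cnt_pow, cnt_pow] at h1
    have h2 : (cnt v (Ideal.span {x}) : ℤ) + n * cnt v J = cnt v (Ideal.span {y}) + n * cnt v I := by
      exact_mod_cast h1
    linear_combination -h2

end Pool.Agent.Lib.MP_2f3286_ag.Pt
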