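import Mathlib
import Pool.Agent.Lib.MP_2f3286_ag.Pt.Defs
import Pool.Agent.Lib.MP_2f3286_ag.Pt.Ex3

/-!
# KLFIN, the core: finiteness of the Kummer classes, from facts about the pointed affine curve
-/

open IsDedekindDomain

namespace Pool.Agent.Lib.MP_2f3286_ag.Pt

namespace KlFin

/-- finitely many representatives for the values of a map to a finite type -/
theorem exists_reps {X F : Type*} [Finite F] (f : X → F) :
    ∃ R : Set X, R.Finite ∧ ∀ x, ∃ r ∈ R, f r = f x := by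
  classical
  let s : Set.range f → X := fun y => y.2.choose
  refine ⟨Set.range s, Set.finite_range s, fun x => ?_⟩
  exact ⟨s ⟨f x, x, rfl⟩, ⟨_, rfl⟩, (⟨x, rfl⟩ : ∃ y, f y = f x).choose_spec⟩

section

variable {B L : Type*} [CommRing B] [IsDedekindDomain B] [Field L] [Algebra B L]
  [IsFractionRing B L]

theorem vs_injective : Function.Injective
    (fun v : HeightOneSpectrum B => (v.valuation L).valuationSubring) := by
  intro v w h
  apply HeightOneSpectrum.ext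
  ext x
  rw [← Ex3.lt_one_iff (L := L) v, ← Ex3.lt_one_iff (L := L) w]
  have h' : (v.valuation L).valuationSubring = (w.valuation L).valuationSubring := h
  rw [h']

/-- everywhere divisible elements -/
theorem ideal_part (n : ℕ) (hn : 1 ≤ n) (hcl : Set.Finite {c : ClassGroup B | c ^ n = 1})
    (hunit : ∀ u : Bˣ, ∃ g : B, (u : B) = g ^ n) :
    ∃ T : Set L, T.Finite ∧ ∀ ρ : L, ρ ≠ 0 →
      (∀ v : HeightOneSpectrum B, DivAt n ρ (v.valuation L).valuationSubring) →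
      ∃ r ∈ T, r ≠ 0 ∧ ∃ c : L, c ≠ 0 ∧ ρ = r * c ^ n := by
  classical
  let X := {ρ : L // ρ ≠ 0 ∧
    ∀ v : HeightOneSpectrum B, DivAt n ρ (v.valuation L).valuationSubring}
  have hX : ∀ ρ : X, ∃ (x y : B) (I J : nonZeroDivisors (Ideal B)), x ≠ 0 ∧ y ≠ 0 ∧
      (ρ : L) * algebraMap B L y = algebraMap B L x ∧
      Ideal.span {x} * (J : Ideal B) ^ n = Ideal.span {y} * (I : Ideal B) ^ n := by
    intro ρ
    obtain ⟨x, y, I, J, hx, hy, hI, hJ, h1, h2⟩ := (divAt_all_iff n hn (ρ : L) ρ.2.1).1 ρ.2.2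
    exact ⟨x, y, ⟨I, mem_nonZeroDivisors_iff_ne_zero.2 hI⟩,
      ⟨J, mem_nonZeroDivisors_iff_ne_zero.2 hJ⟩, hx, hy, h1, h2⟩
  choose x y I J hx hy hxy hIJ using hX
  have hc : ∀ ρ : X, (ClassGroup.mk0 (I ρ) * (ClassGroup.mk0 (J ρ))⁻¹) ^ n = 1 := by
    intro ρ
    have h1 : ClassGroup.mk0 (J ρ ^ n) = ClassGroup.mk0 (I ρ ^ n) := by
      rw [ClassGroup.mk0_eq_mk0_iff]
      exact ⟨x ρ, y ρ, hx ρ, hy ρ, by simpa using hIJ ρ⟩
    rw [map_pow, map_pow] at h1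
    rw [mul_pow, inv_pow, h1, mul_inv_cancel]
  have : Finite {c : ClassGroup B // c ^ n = 1} := hcl
  let f : X → {c : ClassGroup B // c ^ n = 1} := fun ρ =>
    ⟨ClassGroup.mk0 (I ρ) * (ClassGroup.mk0 (J ρ))⁻¹, hc ρ⟩
  obtain ⟨R, hR, hrep⟩ := exists_reps f
  refine ⟨Subtype.val '' R, hR.image _, fun ρ hρ0 hρ => ?_⟩
  obtain ⟨r, hr, hfr⟩ := hrep ⟨ρ, hρ0, hρ⟩
  refine ⟨r, ⟨r, hr, rfl⟩, r.2.1, ?_⟩
  obtain ⟨ρ', hρ'⟩ : ∃ ρ' : X, ρ' = ⟨ρ, hρ0, hρ⟩ := ⟨_, rfl⟩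
  have hρ'' : (ρ' : L) = ρ := by rw [hρ']
  rw [← hρ'] at hfr
  rw [← hρ'']
  have h1 : ClassGroup.mk0 (I r) * (ClassGroup.mk0 (J r))⁻¹ =
      ClassGroup.mk0 (I ρ') * (ClassGroup.mk0 (J ρ'))⁻¹ := congrArg Subtype.val hfr
  have h2 : ClassGroup.mk0 (I r * J ρ') = ClassGroup.mk0 (I ρ' * J r) := by
    rw [map_mul, map_mul]
    rw [mul_inv_eq_iff_eq_mul] at h1
    rw [h1, mul_assoc, mul_assoc, mul_comm (ClassGroup.mk0 (J ρ'))⁻¹, mul_assoc,
      mul_inv_cancel, mul_one]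
  rw [ClassGroup.mk0_eq_mk0_iff] at h2
  obtain ⟨α, β, hα, hβ, hαβ⟩ := h2
  have hαβ' : Ideal.span {α} * ((I r : Ideal B) * J ρ') = Ideal.span {β} * ((I ρ' : Ideal B) * J r) := by
    simpa using hαβ
  -- compare
  have hI0 : ∀ ρ : X, (I ρ : Ideal B) ≠ 0 := fun ρ => nonZeroDivisors.coe_ne_zero (I ρ)
  have hJ0 : ∀ ρ : X, (J ρ : Ideal B) ≠ 0 := fun ρ => nonZeroDivisors.coe_ne_zero (J ρ)
  have h3 : Ideal.span {x ρ' * y r * β ^ n} * ((J ρ' : Ideal B) ^ n * (I r : Ideal B) ^ n) =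
      Ideal.span {x r * y ρ' * α ^ n} * ((J ρ' : Ideal B) ^ n * (I r : Ideal B) ^ n) := by
    calc Ideal.span {x ρ' * y r * β ^ n} * ((J ρ' : Ideal B) ^ n * (I r : Ideal B) ^ n)
        = (Ideal.span {x ρ'} * (J ρ' : Ideal B) ^ n) * (Ideal.span {y r} * (I r : Ideal B) ^ n) *
          Ideal.span {β} ^ n := by
          rw [← Ideal.span_singleton_mul_span_singleton, ← Ideal.span_singleton_mul_span_singleton,
            ← Ideal.span_singleton_pow]
          ring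
      _ = (Ideal.span {y ρ'} * (I ρ' : Ideal B) ^ n) * (Ideal.span {x r} * (J r : Ideal B) ^ n) *
          Ideal.span {β} ^ n := by rw [hIJ ρ', hIJ r]
      _ = Ideal.span {y ρ'} * Ideal.span {x r} *
          (Ideal.span {β} * ((I ρ' : Ideal B) * J r)) ^ n := by
          rw [mul_pow, mul_pow]; ring
      _ = Ideal.span {y ρ'} * Ideal.span {x r} *
          (Ideal.span {α} * ((I r : Ideal B) * J ρ')) ^ n := by rw [hαβ']
      _ = _ := by
          rw [← Ideal.span_singleton_mul_span_singleton, ← Ideal.span_singleton_mul_span_singleton,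
            ← Ideal.span_singleton_pow, mul_pow, mul_pow]
          ring
  have h4 := mul_right_cancel₀ (mul_ne_zero (pow_ne_zero n (hJ0 ρ')) (pow_ne_zero n (hI0 r))) h3
  rw [Ideal.span_singleton_eq_span_singleton] at h4
  obtain ⟨u, hu⟩ := h4
  obtain ⟨g, hg⟩ := hunit u
  have hg0 : g ≠ 0 := by
    rintro rfl
    rw [zero_pow (by omega)] at hg
    exact u.ne_zero hg
  have inj := IsFractionRing.injective B L
  have ne0 : ∀ b : B, b ≠ 0 → algebraMap B L b ≠ 0 := fun b hb => by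
    rwa [Ne, IsFractionRing.to_map_eq_zero_iff]
  refine ⟨algebraMap B L α / (algebraMap B L β * algebraMap B L g), ?_, ?_⟩
  · exact div_ne_zero (ne0 _ hα) (mul_ne_zero (ne0 _ hβ) (ne0 _ hg0))
  · have h5 := congrArg (algebraMap B L) hu
    rw [hg] at h5
    simp only [map_mul, map_pow] at h5
    rw [← hxy ρ', ← hxy r] at h5
    rw [div_pow, mul_pow, ← mul_div_assoc, eq_div_iff (mul_ne_zero (pow_ne_zero _ (ne0 _ hβ))
      (pow_ne_zero _ (ne0 _ hg0)))]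
    apply mul_right_cancel₀ (mul_ne_zero (ne0 _ (hy ρ')) (ne0 _ (hy r)))
    linear_combination h5

/-- elements divisible outside a finite set of primes -/
theorem core (n : ℕ) (hn : 1 ≤ n) (hcl : Set.Finite {c : ClassGroup B | c ^ n = 1})
    (hunit : ∀ u : Bˣ, ∃ g : B, (u : B) = g ^ n) (S : Set (HeightOneSpectrum B)) (hS : S.Finite) :
    ∃ T : Finset L, ∀ ρ : L, ρ ≠ 0 →
      (∀ v : HeightOneSpectrum B, v ∉ S → DivAt n ρ (v.valuation L).valuationSubring) →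
      ∃ r ∈ T, ∃ c : L, c ≠ 0 ∧ ρ = r * c ^ n := by
  classical
  obtain ⟨T₂, hT₂, h₂⟩ := ideal_part (L := L) n hn hcl hunit
  let X := {ρ : L // ρ ≠ 0 ∧
    ∀ v : HeightOneSpectrum B, v ∉ S → DivAt n ρ (v.valuation L).valuationSubring}
  have : Finite S := hS
  have : NeZero n := ⟨by omega⟩
  let f : X → (S → ZMod n) := fun ρ v => (WithZero.log ((v : HeightOneSpectrum B).valuation L ρ) : ℤ)
  obtain ⟨R, hR, hrep⟩ := exists_reps f
  refine ⟨((hR.image Subtype.val).mul hT₂).toFinset, fun ρ hρ0 hρ => ?_⟩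
  obtain ⟨r, hr, hfr⟩ := hrep ⟨ρ, hρ0, hρ⟩
  have hr0 : (r : L) ≠ 0 := r.2.1
  have hq0 : ρ / r ≠ 0 := div_ne_zero hρ0 hr0
  have h1 : ∀ v : HeightOneSpectrum B, DivAt n (ρ / r) (v.valuation L).valuationSubring := by
    intro v
    rw [divAt_iff v n hn _ hq0]
    have hvρ : v.valuation L ρ ≠ 0 := (Valuation.ne_zero_iff _).2 hρ0
    have hvr : v.valuation L (r : L) ≠ 0 := (Valuation.ne_zero_iff _).2 hr0
    by_cases hv : v ∈ S
    · have h2 : ((WithZero.log (v.valuation L (r : L)) : ℤ) : ZMod n) =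
          ((WithZero.log (v.valuation L ρ) : ℤ) : ZMod n) := congrFun hfr ⟨v, hv⟩
      rw [ZMod.intCast_eq_intCast_iff_dvd_sub] at h2
      obtain ⟨k, hk⟩ := h2
      refine ⟨k, ?_⟩
      rw [map_div₀, ← hk, WithZero.exp_sub, WithZero.exp_log hvρ, WithZero.exp_log hvr]
    · obtain ⟨m, hm⟩ := (divAt_iff v n hn _ hρ0).1 (hρ v hv)
      obtain ⟨m', hm'⟩ := (divAt_iff v n hn _ hr0).1 (r.2.2 v hv)
      refine ⟨m - m', ?_⟩
      rw [map_div₀, hm, hm', ← WithZero.exp_sub]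
      congr 1
      ring
  obtain ⟨r', hr', hr'0, c, hc, hrc⟩ := h₂ _ hq0 h1
  refine ⟨r * r', ?_, c, hc, ?_⟩
  · rw [Set.Finite.mem_toFinset]
    exact Set.mul_mem_mul ⟨r, hr, rfl⟩ hr'
  · rw [mul_assoc, ← hrc, mul_div_cancel₀ _ hr0]

end

end KlFin

end Pool.Agent.Lib.MP_2f3286_ag.Pt
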