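import Mathlib
import Pool.Agent.Lib.MP_2f3286_ag.Pt.Defs

/-!
# Elements of bounded pole order and quotients of an affine curve with one point at infinity
-/

open Polynomial IntermediateField IsDedekindDomain
open scoped TensorProduct

namespace Pool.Agent.Lib.MP_2f3286_ag.Pt

namespace PB1

section

variable {C B : Type*} [Field C] [CommRing B] [IsDomain B] [Algebra C B]
  {d : B → ℕ} (hd : IsPoleDeg C d)

include hd

theorem mem_W {m : ℕ} {x : B} : x ∈ W hd m ↔ d x ≤ m := Iff.rfl

theorem W_mono {m n : ℕ} (h : m ≤ n) : W hd m ≤ W hd n := fun _ hx => le_trans hx h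

theorem W_zero : W hd 0 = LinearMap.range (Algebra.linearMap C B) := by
  ext x
  rw [mem_W, Nat.le_zero, hd.const, LinearMap.mem_range]
  constructor
  · rintro ⟨c, rfl⟩
    exact ⟨c, rfl⟩
  · rintro ⟨c, rfl⟩
    exact ⟨c, rfl⟩

theorem W_succ_of_exists {m : ℕ} {y : B} (hy : y ≠ 0) (hy1 : d y = m + 1) :
    W hd (m + 1) = W hd m ⊔ Submodule.span C {y} := by
  apply le_antisymm
  · intro x hx
    obtain ⟨c, hc⟩ := hd.lead x y hy (by rw [hy1]; exact hx)
    have h1 : x - c • y ∈ W hd m := by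
      rw [mem_W]
      rcases hc with hc | hc
      · rw [hc, hd.zero]; exact Nat.zero_le m
      · rw [hy1] at hc
        exact Nat.lt_succ_iff.1 hc
    have h2 : x = (x - c • y) + c • y := by ring
    rw [h2]
    exact Submodule.add_mem_sup h1 (Submodule.smul_mem _ _ (Submodule.mem_span_singleton_self y))
  · refine sup_le (W_mono hd (Nat.le_succ m)) ?_
    rw [Submodule.span_singleton_le_iff_mem, mem_W, hy1]

theorem W_succ_of_not {m : ℕ} (h : ¬ ∃ y : B, y ≠ 0 ∧ d y = m + 1) : W hd (m + 1) = W hd m := by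
  apply le_antisymm _ (W_mono hd (Nat.le_succ m))
  intro x hx
  rw [mem_W] at hx ⊢
  by_contra h1
  have h2 : d x = m + 1 := by omega
  refine h ⟨x, ?_, h2⟩
  rintro rfl
  rw [hd.zero] at h2
  omega

theorem W_finite (m : ℕ) : Module.Finite C (W hd m) := by
  induction m with
  | zero =>
    rw [W_zero hd]
    infer_instance
  | succ m ih =>
    by_cases h : ∃ y : B, y ≠ 0 ∧ d y = m + 1
    · obtain ⟨y, hy, hy1⟩ := h
      rw [W_succ_of_exists hd hy hy1]
      infer_instance
    · rw [W_succ_of_not hd h]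
      exact ih

theorem finrank_W_zero : Module.finrank C (W hd 0) = 1 := by
  rw [W_zero hd, LinearMap.finrank_range_of_inj (FaithfulSMul.algebraMap_injective C B),
    Module.finrank_self]

theorem finrank_W_succ {m : ℕ} {y : B} (hy : y ≠ 0) (hy1 : d y = m + 1) :
    Module.finrank C (W hd (m + 1)) = Module.finrank C (W hd m) + 1 := by
  have := W_finite hd m
  have h1 := Submodule.finrank_sup_add_finrank_inf_eq (W hd m) (Submodule.span C {y})
  have h2 : W hd m ⊓ Submodule.span C {y} = ⊥ := by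
    rw [eq_bot_iff]
    rintro x ⟨hx1, hx2⟩
    obtain ⟨c, rfl⟩ := Submodule.mem_span_singleton.1 hx2
    rw [Submodule.mem_bot]
    by_contra h3
    have hc : c ≠ 0 := by
      rintro rfl
      exact h3 (zero_smul _ _)
    have h4 : y ∈ W hd m := by
      have := (W hd m).smul_mem c⁻¹ hx1
      rwa [smul_smul, inv_mul_cancel₀ hc, one_smul] at this
    rw [mem_W, hy1] at h4
    omega
  rw [h2, finrank_bot, add_zero, finrank_span_singleton hy, ← W_succ_of_exists hd hy hy1] at h1
  exact h1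

open Classical in
theorem finrank_W (m : ℕ) : Module.finrank C (W hd m) =
    ((Finset.range (m + 1)).filter (fun j => ∃ y : B, y ≠ 0 ∧ d y = j)).card := by
  induction m with
  | zero =>
    rw [finrank_W_zero hd, zero_add, Finset.range_one, Finset.filter_singleton, if_pos,
      Finset.card_singleton]
    exact ⟨1, one_ne_zero, (hd.const _).2 ⟨1, (map_one _).symm⟩⟩
  | succ m ih =>
    rw [Finset.range_add_one, Finset.filter_insert]
    by_cases h : ∃ y : B, y ≠ 0 ∧ d y = m + 1
    · rw [if_pos h, Finset.card_insert_of_notMem (by simp), ← ih]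
      obtain ⟨y, hy, hy1⟩ := h
      exact finrank_W_succ hd hy hy1
    · rw [if_neg h, W_succ_of_not hd h]
      exact ih

theorem W_finrank : ∃ g n₀ : ℕ, (∀ m, m + 1 ≤ Module.finrank C (W hd m) + g) ∧
    (∀ m, n₀ ≤ m → Module.finrank C (W hd m) + g = m + 1) ∧
    ∀ n, n₀ ≤ n → ∃ x, x ≠ 0 ∧ d x = n := by
  classical
  obtain ⟨n₀, hn₀⟩ := hd.large
  have h1 : ∀ m, ((Finset.range (m + 1)).filter (fun j => ∃ y : B, y ≠ 0 ∧ d y = j)).card +
      ((Finset.range (m + 1)).filter (fun j => ¬ ∃ y : B, y ≠ 0 ∧ d y = j)).card = m + 1 := by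
    intro m
    rw [Finset.card_filter_add_card_filter_not, Finset.card_range]
  refine ⟨((Finset.range n₀).filter (fun j => ¬ ∃ y : B, y ≠ 0 ∧ d y = j)).card, n₀,
    fun m => ?_, fun m hm => ?_, hn₀⟩
  · rw [finrank_W hd]
    have h2 : ((Finset.range (m + 1)).filter (fun j => ¬ ∃ y : B, y ≠ 0 ∧ d y = j)).card ≤
        ((Finset.range n₀).filter (fun j => ¬ ∃ y : B, y ≠ 0 ∧ d y = j)).card := by
      apply Finset.card_le_card
      intro j hj
      rw [Finset.mem_filter, Finset.mem_range] at hj ⊢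
      refine ⟨?_, hj.2⟩
      by_contra h
      exact hj.2 (hn₀ j (not_lt.1 h))
    have h3 := h1 m
    omega
  · rw [finrank_W hd]
    have h2 : (Finset.range (m + 1)).filter (fun j => ¬ ∃ y : B, y ≠ 0 ∧ d y = j) =
        (Finset.range n₀).filter (fun j => ¬ ∃ y : B, y ≠ 0 ∧ d y = j) := by
      ext j
      rw [Finset.mem_filter, Finset.mem_filter, Finset.mem_range, Finset.mem_range]
      constructor
      · rintro ⟨-, h'⟩
        refine ⟨?_, h'⟩
        by_contra h2
        exact h' (hn₀ j (not_lt.1 h2))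
      · rintro ⟨h, h'⟩
        exact ⟨by omega, h'⟩
    have h3 := h1 m
    rw [h2] at h3
    exact h3

/-- multiplication by `x` as a linear map from `W_k` to `W_{k + d x}` -/
noncomputable def mulW (x : B) (hx : x ≠ 0) (k : ℕ) : W hd k →ₗ[C] W hd (k + d x) where
  toFun z := ⟨x * z, by
    rw [mem_W]
    by_cases hz : (z : B) = 0
    · rw [hz, mul_zero, hd.zero]; exact Nat.zero_le _
    · rw [hd.mul _ _ hx hz, add_comm]
      exact Nat.add_le_add_right z.2 _⟩
  map_add' a b := by
    ext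
    simp [mul_add]
  map_smul' c a := by
    ext
    simp

theorem mulW_injective (x : B) (hx : x ≠ 0) (k : ℕ) :
    Function.Injective (mulW hd x hx k) := by
  intro a b hab
  have h1 : x * (a : B) = x * (b : B) := congrArg Subtype.val hab
  exact Subtype.ext (mul_left_cancel₀ hx h1)

theorem exists_rep (x : B) (hx : x ≠ 0) (n₀ : ℕ) (hn₀ : ∀ n, n₀ ≤ n → ∃ y, y ≠ 0 ∧ d y = n) :
    ∀ (N : ℕ) (b : B), d b ≤ N → ∃ w z : B, d w ≤ n₀ + d x ∧ b = w + x * z := by
  intro N
  induction N with
  | zero =>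
    intro b hb
    exact ⟨b, 0, by omega, by ring⟩
  | succ N ih =>
    intro b hb
    by_cases h : d b ≤ n₀ + d x
    · exact ⟨b, 0, h, by ring⟩
    · obtain ⟨y, hy, hy1⟩ := hn₀ (d b - d x) (by omega)
      have h2 : d (x * y) = d b := by
        rw [hd.mul _ _ hx hy, hy1]
        omega
      obtain ⟨c, hc⟩ := hd.lead b (x * y) (mul_ne_zero hx hy) h2.ge
      have h3 : d (b - c • (x * y)) ≤ N := by
        rcases hc with hc | hc
        · rw [hc, hd.zero]; exact Nat.zero_le _
        · omega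
      obtain ⟨w, z, hw, hz⟩ := ih _ h3
      refine ⟨w, z + c • y, hw, ?_⟩
      have h4 : b = (b - c • (x * y)) + c • (x * y) := by ring
      rw [h4, hz, mul_add, mul_smul_comm]
      ring

theorem quot (x : B) (hx : x ≠ 0) : Module.Finite C (B ⧸ Ideal.span {x}) ∧
    Module.finrank C (B ⧸ Ideal.span {x}) = d x := by
  obtain ⟨g, n₀, -, hg, hn₀⟩ := W_finrank hd
  let f : W hd (n₀ + d x) →ₗ[C] B ⧸ Ideal.span {x} :=
    (Ideal.Quotient.mkₐ C (Ideal.span {x})).toLinearMap ∘ₗ (W hd (n₀ + d x)).subtype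
  have hf : Function.Surjective f := by
    intro b
    obtain ⟨b, rfl⟩ := Ideal.Quotient.mk_surjective b
    obtain ⟨w, z, hw, hz⟩ := exists_rep hd x hx n₀ hn₀ (d b) b le_rfl
    refine ⟨⟨w, hw⟩, ?_⟩
    change Ideal.Quotient.mk (Ideal.span {x}) w = Ideal.Quotient.mk (Ideal.span {x}) b
    rw [Ideal.Quotient.eq, Ideal.mem_span_singleton]
    exact ⟨-z, by rw [hz]; ring⟩
  have := W_finite hd (n₀ + d x)
  have := W_finite hd n₀
  have hfin : Module.Finite C (B ⧸ Ideal.span {x}) := Module.Finite.of_surjective f hf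
  refine ⟨hfin, ?_⟩
  have hk : LinearMap.range (mulW hd x hx n₀) = LinearMap.ker f := by
    ext w
    rw [LinearMap.mem_range, LinearMap.mem_ker]
    constructor
    · rintro ⟨z, rfl⟩
      change Ideal.Quotient.mk (Ideal.span {x}) (x * (z : B)) = 0
      rw [Ideal.Quotient.eq_zero_iff_mem]
      exact Ideal.mul_mem_right _ _ (Ideal.mem_span_singleton_self x)
    · intro hw
      have h1 : (w : B) ∈ Ideal.span {x} := Ideal.Quotient.eq_zero_iff_mem.1 hw
      obtain ⟨z, hz⟩ := Ideal.mem_span_singleton.1 h1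
      refine ⟨⟨z, ?_⟩, Subtype.ext hz.symm⟩
      rw [mem_W]
      by_cases h0 : z = 0
      · rw [h0, hd.zero]; exact Nat.zero_le _
      · have h2 := w.2
        rw [mem_W, hz, hd.mul _ _ hx h0] at h2
        omega
  have h1 := LinearMap.finrank_range_add_finrank_ker f
  rw [LinearMap.range_eq_top.2 hf, finrank_top, ← hk,
    LinearMap.finrank_range_of_inj (mulW_injective hd x hx n₀)] at h1
  have h2 := hg n₀ le_rfl
  have h3 := hg (n₀ + d x) (Nat.le_add_right _ _)
  omega

end

end PB1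

section

variable {C B : Type*} [Field C] [IsAlgClosed C] [CommRing B] [IsDedekindDomain B] [Algebra C B]
  {d : B → ℕ} (hd : IsPoleDeg C d)

include hd

theorem pd_W_finite (m : ℕ) : Module.Finite C (W hd m) := PB1.W_finite hd m

theorem pd_W_finrank : ∃ g n₀ : ℕ, (∀ m, m + 1 ≤ Module.finrank C (W hd m) + g) ∧
    ∀ m, n₀ ≤ m → Module.finrank C (W hd m) + g = m + 1 := by
  obtain ⟨g, n₀, h1, h2, -⟩ := PB1.W_finrank hd
  exact ⟨g, n₀, h1, h2⟩

theorem pd_quot (x : B) (hx : x ≠ 0) : Module.Finite C (B ⧸ Ideal.span {x}) ∧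
    Module.finrank C (B ⧸ Ideal.span {x}) = d x := PB1.quot hd x hx

theorem pd_finite (I : Ideal B) (hI : I ≠ ⊥) : Module.Finite C (B ⧸ I) := by
  obtain ⟨x, hxI, hx⟩ := Submodule.exists_mem_ne_zero_of_ne_bot hI
  have := (PB1.quot hd x hx).1
  have hle : Ideal.span {x} ≤ I := (Ideal.span_singleton_le_iff_mem I).2 hxI
  exact Module.Finite.of_surjective (Ideal.Quotient.factorₐ C hle).toLinearMap
    (Ideal.Quotient.factor_surjective hle)

end

end Pool.Agent.Lib.MP_2f3286_ag.Pt
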