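import Mathlib
import Pool.Agent.Lib.MP_2f3286_ag.Pt.Defs
import Pool.Agent.Lib.MP_2f3286_ag.Pt.PB1

/-!
# Codimension of ideals of an affine curve with one point at infinity
-/

open Polynomial IntermediateField IsDedekindDomain
open scoped TensorProduct

namespace Pool.Agent.Lib.MP_2f3286_ag.Pt

namespace PB2

/-- In a Dedekind domain `I / I J` is isomorphic to `B / J` through multiplication by some `a`. -/
theorem exists_mul {B : Type*} [CommRing B] [IsDedekindDomain B] (I J : Ideal B) (hI : I ≠ ⊥)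
    (hJ : J ≠ ⊥) : ∃ a ∈ I, (∀ b, a * b ∈ I * J → b ∈ J) ∧ ∀ x ∈ I, ∃ b, x - a * b ∈ I * J := by
  have h0 : I * J ≠ 0 := mul_ne_zero hI hJ
  obtain ⟨a, ha⟩ := IsDedekindDomain.exists_sup_span_eq (Ideal.mul_le_left : I * J ≤ I) h0
  have haI : a ∈ I := by
    rw [← ha]
    exact Ideal.mem_sup_right (Ideal.mem_span_singleton_self a)
  obtain ⟨K, hK⟩ : I ∣ Ideal.span {a} := by
    rw [Ideal.dvd_iff_le, Ideal.span_singleton_le_iff_mem]
    exact haI
  have hJK : J ⊔ K = ⊤ := by
    have h1 : I * (J ⊔ K) = I * ⊤ := by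
      rw [Ideal.mul_sup, ← hK, ha, Ideal.mul_top]
    exact mul_left_cancel₀ hI h1
  refine ⟨a, haI, fun b hb => ?_, fun x hx => ?_⟩
  · have h1 : Ideal.span {b} * K ≤ J := by
      rw [← Ideal.dvd_iff_le, ← mul_dvd_mul_iff_left hI, Ideal.dvd_iff_le, mul_left_comm, ← hK,
        Ideal.span_singleton_mul_span_singleton, Ideal.span_singleton_le_iff_mem, mul_comm b a]
      exact hb
    have h2 : Ideal.span {b} ≤ J := by
      calc Ideal.span {b} = Ideal.span {b} * (J ⊔ K) := by rw [hJK, Ideal.mul_top]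
        _ = Ideal.span {b} * J ⊔ Ideal.span {b} * K := Ideal.mul_sup _ _ _
        _ ≤ J := sup_le Ideal.mul_le_right h1
    exact h2 (Ideal.mem_span_singleton_self b)
  · rw [← ha] at hx
    obtain ⟨y, hy, z, hz, hyz⟩ := Submodule.mem_sup.1 hx
    obtain ⟨b, rfl⟩ := Ideal.mem_span_singleton.1 hz
    exact ⟨b, by rw [← hyz]; simpa using hy⟩

end PB2

section

variable {C B : Type*} [Field C] [IsAlgClosed C] [CommRing B] [IsDedekindDomain B] [Algebra C B]
  {d : B → ℕ} (hd : IsPoleDeg C d)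

include hd

theorem pd_mul (I J : Ideal B) (hI : I ≠ ⊥) (hJ : J ≠ ⊥) :
    Module.finrank C (B ⧸ I * J) = Module.finrank C (B ⧸ I) + Module.finrank C (B ⧸ J) := by
  obtain ⟨a, haI, ha1, ha2⟩ := PB2.exists_mul I J hI hJ
  have hIJ : I * J ≠ ⊥ := mul_ne_zero hI hJ
  have := pd_finite hd I hI
  have := pd_finite hd J hJ
  have := pd_finite hd (I * J) hIJ
  let f : (B ⧸ J) →ₗ[C] (B ⧸ I * J) :=
    (Submodule.mapQ (J : Submodule B B) (I * J : Ideal B) (LinearMap.mulLeft B a)
      (fun b hb => Ideal.mul_mem_mul haI hb)).restrictScalars C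
  let g : (B ⧸ I * J) →ₗ[C] (B ⧸ I) :=
    (Ideal.Quotient.factorₐ C (Ideal.mul_le_left : I * J ≤ I)).toLinearMap
  have hf : Function.Injective f := by
    rw [← LinearMap.ker_eq_bot, eq_bot_iff]
    intro x hx
    obtain ⟨b, rfl⟩ := Ideal.Quotient.mk_surjective x
    have h1 : Ideal.Quotient.mk (I * J) (a * b) = 0 := hx
    rw [Submodule.mem_bot, Ideal.Quotient.eq_zero_iff_mem]
    exact ha1 b (Ideal.Quotient.eq_zero_iff_mem.1 h1)
  have hg : Function.Surjective g :=
    Ideal.Quotient.factor_surjective (Ideal.mul_le_left : I * J ≤ I)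
  have hk : LinearMap.range f = LinearMap.ker g := by
    ext x
    rw [LinearMap.mem_range, LinearMap.mem_ker]
    constructor
    · rintro ⟨y, rfl⟩
      obtain ⟨b, rfl⟩ := Ideal.Quotient.mk_surjective y
      change Ideal.Quotient.mk I (a * b) = 0
      rw [Ideal.Quotient.eq_zero_iff_mem]
      exact Ideal.mul_mem_right _ _ haI
    · intro hx
      obtain ⟨x, rfl⟩ := Ideal.Quotient.mk_surjective x
      have hx1 : x ∈ I := Ideal.Quotient.eq_zero_iff_mem.1 hx
      obtain ⟨b, hb⟩ := ha2 x hx1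
      refine ⟨Ideal.Quotient.mk J b, ?_⟩
      change Ideal.Quotient.mk (I * J) (a * b) = Ideal.Quotient.mk (I * J) x
      rw [eq_comm, Ideal.Quotient.eq]
      exact hb
  have h1 := LinearMap.finrank_range_add_finrank_ker g
  rw [LinearMap.range_eq_top.2 hg, finrank_top, ← hk, LinearMap.finrank_range_of_inj hf] at h1
  exact h1.symm

theorem pd_max (I : Ideal B) [I.IsMaximal] (hI : I ≠ ⊥) : Module.finrank C (B ⧸ I) = 1 := by
  have := pd_finite hd I hI
  let : Field (B ⧸ I) := Ideal.Quotient.field I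
  have h1 : Function.Bijective (algebraMap C (B ⧸ I)) :=
    IsAlgClosed.algebraMap_bijective_of_isIntegral
  have e : C ≃ₗ[C] (B ⧸ I) := LinearEquiv.ofBijective (Algebra.linearMap C (B ⧸ I)) h1
  rw [← e.finrank_eq, Module.finrank_self]

theorem pd_codim (I : Ideal B) (hI : I ≠ ⊥) (m : ℕ) :
    Module.finrank C (W hd m) ≤
      Module.finrank C ((W hd m) ⊓ I.restrictScalars C : Submodule C B) +
        Module.finrank C (B ⧸ I) := by
  have := pd_finite hd I hI
  have := pd_W_finite hd m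
  let g : W hd m →ₗ[C] (B ⧸ I) :=
    (Ideal.Quotient.mkₐ C I).toLinearMap ∘ₗ (W hd m).subtype
  have h1 := LinearMap.finrank_range_add_finrank_ker g
  have h2 : LinearMap.ker g = Submodule.comap (W hd m).subtype (I.restrictScalars C) := by
    ext x
    rw [LinearMap.mem_ker, Submodule.mem_comap]
    change Ideal.Quotient.mk I (x : B) = 0 ↔ (x : B) ∈ I
    exact Ideal.Quotient.eq_zero_iff_mem
  have h3 : Module.finrank C (LinearMap.ker g) =
      Module.finrank C ((W hd m) ⊓ I.restrictScalars C : Submodule C B) := by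
    rw [h2, ← Submodule.map_comap_subtype]
    exact (LinearEquiv.finrank_eq (Submodule.equivMapOfInjective _
      (Submodule.injective_subtype _) _))
  have h4 : Module.finrank C (LinearMap.range g) ≤ Module.finrank C (B ⧸ I) :=
    Submodule.finrank_le _
  omega

/-- every ideal class contains an integral ideal of small codimension -/
theorem pd_rep : ∃ g, ∀ c : ClassGroup B, ∃ (I : Ideal B) (hI : I ∈ nonZeroDivisors (Ideal B)),
    ClassGroup.mk0 ⟨I, hI⟩ = c ∧ Module.finrank C (B ⧸ I) ≤ g := by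
  obtain ⟨g, -, hg, -⟩ := pd_W_finrank hd
  refine ⟨g, fun c => ?_⟩
  obtain ⟨⟨J, hJ0⟩, hJ⟩ := ClassGroup.mk0_surjective c⁻¹
  have hJ1 : J ≠ ⊥ := nonZeroDivisors.ne_zero hJ0
  have h1 := pd_codim hd J hJ1 (g + Module.finrank C (B ⧸ J))
  have h2 := hg (g + Module.finrank C (B ⧸ J))
  have h3 : 0 < Module.finrank C
      ((W hd (g + Module.finrank C (B ⧸ J))) ⊓ J.restrictScalars C : Submodule C B) := by omega
  have h4 : ((W hd (g + Module.finrank C (B ⧸ J))) ⊓ J.restrictScalars C : Submodule C B) ≠ ⊥ := by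
    intro h
    rw [h, finrank_bot] at h3
    exact lt_irrefl _ h3
  obtain ⟨x, ⟨hx1, hx2⟩, hx⟩ := Submodule.exists_mem_ne_zero_of_ne_bot h4
  have hxJ : x ∈ J := hx2
  obtain ⟨I, hI⟩ : J ∣ Ideal.span {x} := by
    rw [Ideal.dvd_iff_le, Ideal.span_singleton_le_iff_mem]
    exact hxJ
  have hsx : Ideal.span {x} ≠ ⊥ := by
    rw [Ne, Ideal.span_singleton_eq_bot]
    exact hx
  have hI1 : I ≠ ⊥ := by
    rintro rfl
    rw [Ideal.mul_bot] at hI
    exact hsx hI
  have hI0 : I ∈ nonZeroDivisors (Ideal B) := mem_nonZeroDivisors_of_ne_zero hI1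
  refine ⟨I, hI0, ?_, ?_⟩
  · have h5 : ClassGroup.mk0 ⟨J, hJ0⟩ * ClassGroup.mk0 ⟨I, hI0⟩ = 1 := by
      rw [← map_mul, ClassGroup.mk0_eq_one_iff]
      change (J * I).IsPrincipal
      rw [← hI]
      exact ⟨⟨x, rfl⟩⟩
    rw [hJ] at h5
    rwa [inv_mul_eq_one, eq_comm] at h5
  · have h5 := pd_mul hd J I hJ1 hI1
    have h6 := (pd_quot hd x hx).2
    rw [hI] at h6
    have h7 : d x ≤ g + Module.finrank C (B ⧸ J) := hx1
    omega

end

end Pool.Agent.Lib.MP_2f3286_ag.Pt
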