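import Pool.Agent.Lib.MP_2f3286_ag.Pt.Defs

/-!
# The coordinate ring of an affine curve with one point at infinity is finitely generated
-/

set_option autoImplicit false

namespace Pool.Agent.Lib.MP_2f3286_ag.Pt

variable {C B : Type*} [Field C] [CommRing B] [IsDomain B] [Algebra C B] {d : B → ℕ}


theorem pd_ft (hd : IsPoleDeg C d) : ∃ m, Algebra.adjoin C {x : B | d x ≤ m} = ⊤ := by
  obtain ⟨n₀, hn⟩ := hd.large
  refine ⟨2 * n₀ + 1, ?_⟩
  rw [eq_top_iff]
  have key : ∀ j (x : B), d x ≤ j → x ∈ Algebra.adjoin C {x : B | d x ≤ 2 * n₀ + 1} := by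
    intro j
    induction j using Nat.strong_induction_on with
    | _ j ih =>
      intro x hx
      by_cases hj : j ≤ 2 * n₀ + 1
      · exact Algebra.subset_adjoin (hx.trans hj)
      · by_cases hlt : d x < j
        · exact ih (d x) hlt x le_rfl
        · -- j = a + b with a, b ≥ n₀ and a, b < j
          obtain ⟨a, ha, hda⟩ := hn (n₀ + 1) (by omega)
          obtain ⟨b, hb, hdb⟩ := hn (j - (n₀ + 1)) (by omega)
          have hab : a * b ≠ 0 := mul_ne_zero ha hb
          have hdab : d (a * b) = j := by
            rw [hd.mul a b ha hb, hda, hdb]; omega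
          obtain ⟨c, hc⟩ := hd.lead x (a * b) hab (by omega)
          have hA : a ∈ Algebra.adjoin C {x : B | d x ≤ 2 * n₀ + 1} :=
            ih (n₀ + 1) (by omega) a hda.le
          have hB : b ∈ Algebra.adjoin C {x : B | d x ≤ 2 * n₀ + 1} :=
            ih (j - (n₀ + 1)) (by omega) b hdb.le
          have hAB : c • (a * b) ∈ Algebra.adjoin C {x : B | d x ≤ 2 * n₀ + 1} :=
            Subalgebra.smul_mem _ (Subalgebra.mul_mem _ hA hB) c
          have hx' : x = (x - c • (a * b)) + c • (a * b) := by ring
          rw [hx']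
          refine Subalgebra.add_mem _ ?_ hAB
          rcases hc with hc | hc
          · rw [hc]; exact Subalgebra.zero_mem _
          · exact ih (d (x - c • (a * b))) (by omega) _ le_rfl
  intro x _
  exact key (d x) x le_rfl

end Pool.Agent.Lib.MP_2f3286_ag.Pt
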