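import Pool.Agent.Lib.MP_2f3286_ag.Pt.PB1
import Pool.Agent.Lib.MP_2f3286_ag.Pt.PB3

/-!
# MP_2f3286_ag, campaign II, module T1DATA: uniform presentations of ideals with principal power
-/

open Polynomial IntermediateField IsDedekindDomain
open scoped TensorProduct

namespace Pool.Agent.Lib.MP_2f3286_ag.Pt

namespace T1Data

section

variable {C B : Type*} [Field C] [CommRing B] [Algebra C B] {d : B → ℕ} (hd : IsPoleDeg C d)

include hd

lemma d_mul_le (x y : B) : d (x * y) ≤ d x + d y := by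
  by_cases hx : x = 0
  · rw [hx, zero_mul, hd.zero]; exact Nat.zero_le _
  by_cases hy : y = 0
  · rw [hy, mul_zero, hd.zero]; exact Nat.zero_le _
  exact (hd.mul x y hx hy).le

lemma d_one : d (1 : B) = 0 := (hd.const 1).2 ⟨1, by simp⟩

lemma d_pow_le (x : B) (n : ℕ) : d (x ^ n) ≤ n * d x := by
  induction n with
  | zero => rw [pow_zero, d_one hd]; simp
  | succ n ih =>
    rw [pow_succ]
    refine (d_mul_le hd _ _).trans ?_
    rw [Nat.succ_mul]
    omega

lemma d_smul_le (c : C) (x : B) : d (c • x) ≤ d x := (W hd (d x)).smul_mem c (le_refl (d x))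

lemma d_neg_le (x : B) : d (-x) ≤ d x := (W hd (d x)).neg_mem (le_refl (d x))

lemma d_sub_le (x y : B) : d (x - y) ≤ max (d x) (d y) := by
  rw [sub_eq_add_neg]
  exact (hd.add _ _).trans (max_le_max le_rfl (d_neg_le hd y))

lemma d_sum_le {ι : Type*} (s : Finset ι) (f : ι → B) (m : ℕ) (h : ∀ i ∈ s, d (f i) ≤ m) :
    d (∑ i ∈ s, f i) ≤ m := (W hd m).sum_mem h

/-- adding something of smaller degree does not change the degree -/
lemma d_sub_of_lt (x y : B) (h : d y < d x) : d (x - y) = d x := by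
  apply le_antisymm
  · exact (d_sub_le hd x y).trans (max_le le_rfl h.le)
  · by_contra hcon
    push Not at hcon
    have h1 : d x ≤ max (d (x - y)) (d y) := by
      have := hd.add (x - y) y
      rwa [sub_add_cancel] at this
    rcases le_max_iff.1 h1 with h2 | h2 <;> omega

/-- a quotient of bounded degree -/
lemma d_le_of_mul (a x : B) (ha : a ≠ 0) (m : ℕ) (h : d (a * x) ≤ m) : d x ≤ m := by
  by_cases hx : x = 0
  · rw [hx, hd.zero]; exact Nat.zero_le _
  rw [hd.mul a x ha hx] at h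
  omega

/-- the increasing chain of subspaces stops -/
lemma chain (m₁ : ℕ) (hm₁ : Algebra.adjoin C {x : B | d x ≤ m₁} = ⊤) {M : Type*} [AddCommGroup M]
    [Module B M] [Module C M] [IsScalarTower C B M] [Module.Finite C M] (U : Set M)
    (hU : Submodule.span B U = ⊤) (N : ℕ) (hN : Module.finrank C M ≤ N) :
    Submodule.span C {y : M | ∃ w u, d w ≤ N * m₁ ∧ u ∈ U ∧ y = w • u} = ⊤ := by
  let V : ℕ → Submodule C M := fun k =>
    Submodule.span C {y : M | ∃ (w : B) (u : M), d w ≤ k * m₁ ∧ u ∈ U ∧ y = w • u}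
  have hmono : ∀ k l, k ≤ l → V k ≤ V l := by
    intro k l hkl
    refine Submodule.span_mono ?_
    rintro y ⟨w, u, hw, hu, rfl⟩
    exact ⟨w, u, hw.trans (Nat.mul_le_mul_right _ hkl), hu, rfl⟩
  have hstep : ∀ k (b : B), d b ≤ m₁ → ∀ y ∈ V k, b • y ∈ V (k + 1) := by
    intro k b hb y hy
    induction hy using Submodule.span_induction with
    | mem y hy =>
      obtain ⟨w, u, hw, hu, rfl⟩ := hy
      refine Submodule.subset_span ⟨b * w, u, ?_, hu, (mul_smul b w u).symm⟩
      refine (d_mul_le hd b w).trans ?_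
      rw [Nat.succ_mul]
      omega
    | zero => rw [smul_zero]; exact Submodule.zero_mem _
    | add x y _ _ hx hy => rw [smul_add]; exact Submodule.add_mem _ hx hy
    | smul c x _ hx =>
      have : b • c • x = c • b • x := by
        rw [← algebraMap_smul B c x, ← algebraMap_smul B c (b • x), smul_smul, smul_smul, mul_comm]
      rw [this]
      exact Submodule.smul_mem _ _ hx
  have hstop : ∀ k, V k = V (k + 1) → V k = ⊤ := by
    intro k hk
    have hall : ∀ b : B, ∀ y ∈ V k, b • y ∈ V k := by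
      intro b
      have hb : b ∈ Algebra.adjoin C {x : B | d x ≤ m₁} := by rw [hm₁]; exact Algebra.mem_top
      induction hb using Algebra.adjoin_induction with
      | mem x hx =>
        intro y hy
        rw [hk]
        exact hstep k x hx y hy
      | algebraMap c =>
        intro y hy
        rw [algebraMap_smul]
        exact Submodule.smul_mem _ _ hy
      | add x y _ _ hx hy =>
        intro z hz
        rw [add_smul]
        exact Submodule.add_mem _ (hx z hz) (hy z hz)
      | mul x y _ _ hx hy =>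
        intro z hz
        rw [mul_smul]
        exact hx _ (hy z hz)
    rw [eq_top_iff]
    intro y _
    have hy : y ∈ Submodule.span B U := by rw [hU]; exact Submodule.mem_top
    induction hy using Submodule.span_induction with
    | mem y hy =>
      refine Submodule.subset_span ⟨1, y, ?_, hy, (one_smul B y).symm⟩
      rw [d_one hd]
      exact Nat.zero_le _
    | zero => exact Submodule.zero_mem _
    | add x y _ _ hx hy =>
      exact Submodule.add_mem _ (hx Submodule.mem_top) (hy Submodule.mem_top)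
    | smul b x _ hx => exact hall b x (hx Submodule.mem_top)
  by_contra hcon
  change V N ≠ ⊤ at hcon
  have hrank : ∀ k, k ≤ N → k ≤ Module.finrank C (V k) := by
    intro k
    induction k with
    | zero => intro _; exact Nat.zero_le _
    | succ k ih =>
      intro hk
      have h1 := ih (by omega)
      have hlt : V k < V (k + 1) := by
        refine lt_of_le_of_ne (hmono k (k + 1) (Nat.le_succ k)) fun h => ?_
        have h2 := hstop k h
        apply hcon
        rw [eq_top_iff, ← h2]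
        exact hmono k N (by omega)
      have h3 := Submodule.finrank_lt_finrank_of_lt hlt
      omega
  have h1 := hrank N le_rfl
  have h2 := Submodule.finrank_lt hcon
  omega

end

section

variable {C B : Type*} [Field C] [CommRing B] [IsDomain B] [Algebra C B] {d : B → ℕ}
  (hd : IsPoleDeg C d)

include hd

/-- large degrees occur in `I` -/
lemma deg_mem (I : Ideal B) (m₂ : ℕ) (hV : ∀ x : B, ∃ w, d w ≤ m₂ ∧ x - w ∈ I) (j : ℕ)
    (hj : m₂ < j) (hx : ∃ x : B, x ≠ 0 ∧ d x = j) : ∃ y ∈ I, y ≠ 0 ∧ d y = j := by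
  obtain ⟨x, _, hxj⟩ := hx
  obtain ⟨w, hw, hwI⟩ := hV x
  have h1 : d (x - w) = j := by
    rw [d_sub_of_lt hd x w (by omega), hxj]
  refine ⟨x - w, hwI, fun h0 => ?_, h1⟩
  rw [h0, hd.zero] at h1
  omega

/-- `I` is generated by its elements of bounded degree -/
lemma span_bounded (I : Ideal B) (m₂ n₀ : ℕ) (hV : ∀ x : B, ∃ w, d w ≤ m₂ ∧ x - w ∈ I)
    (hn₀ : ∀ n, n₀ ≤ n → ∃ x, x ≠ 0 ∧ d x = n) (b : B) (hb : b ≠ 0) (hb0 : 0 < d b) (m : ℕ)
    (hm : m₂ + d b ≤ m) (hm' : n₀ + d b ≤ m) :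
    ∀ y ∈ I, y ∈ Ideal.span {y : B | y ∈ I ∧ d y ≤ m} := by
  intro y
  induction hj : d y using Nat.strong_induction_on generalizing y with
  | _ j ih =>
    intro hy
    by_cases hjm : j ≤ m
    · exact Ideal.subset_span ⟨hy, by omega⟩
    push Not at hjm
    obtain ⟨y', hy', hy'0, hy'd⟩ := deg_mem hd I m₂ hV (j - d b) (by omega)
      (hn₀ _ (by omega))
    have h1 : y' ∈ Ideal.span {y : B | y ∈ I ∧ d y ≤ m} := ih (d y') (by omega) y' rfl hy'
    have h2 : b * y' ≠ 0 := mul_ne_zero hb hy'0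
    have h3 : d (b * y') = j := by
      rw [hd.mul b y' hb hy'0]
      omega
    obtain ⟨c, hc⟩ := hd.lead y (b * y') h2 (by omega)
    have h4 : c • (b * y') ∈ Ideal.span {y : B | y ∈ I ∧ d y ≤ m} := by
      rw [Algebra.smul_def]
      exact Ideal.mul_mem_left _ _ (Ideal.mul_mem_left _ _ h1)
    have h5 : c • (b * y') ∈ I := by
      rw [Algebra.smul_def]
      exact Ideal.mul_mem_left _ _ (Ideal.mul_mem_left _ _ hy')
    have h6 : y - c • (b * y') ∈ Ideal.span {y : B | y ∈ I ∧ d y ≤ m} := by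
      rcases hc with hc | hc
      · rw [hc]; exact Ideal.zero_mem _
      · exact ih _ (by omega) _ rfl (I.sub_mem hy h5)
    have h7 := Ideal.add_mem _ h6 h4
    rwa [sub_add_cancel] at h7

end

/-- a spanning family with a prescribed number of members -/
lemma exists_span {C V : Type*} [Field C] [AddCommGroup V] [Module C V] [Module.Finite C V] (r : ℕ)
    (hr : Module.finrank C V ≤ r) : ∃ v : Fin r → V, Submodule.span C (Set.range v) = ⊤ := by
  classical
  let b := Module.finBasis C V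
  refine ⟨fun i => if h : (i : ℕ) < Module.finrank C V then b ⟨i, h⟩ else 0, ?_⟩
  rw [eq_top_iff, ← b.span_eq]
  refine Submodule.span_mono ?_
  rintro _ ⟨i, rfl⟩
  refine ⟨⟨i, lt_of_lt_of_le i.2 hr⟩, ?_⟩
  have : ((⟨i, lt_of_lt_of_le i.2 hr⟩ : Fin r) : ℕ) < Module.finrank C V := i.2
  simp [this]

/-- the cofactors generate the unit ideal -/
lemma unimodular {B : Type*} [CommRing B] [IsDedekindDomain B] (n : ℕ) (hn : 1 ≤ n) (I : Ideal B)
    (ρ : B) (hI : I ≠ ⊥) (hIn : I ^ n = Ideal.span {ρ}) {r : ℕ} (a x : Fin r → B)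
    (ha : Ideal.span (Set.range a) = I) (hx : ∀ j, ρ * x j = a j ^ n) (hx0 : ∃ j, x j ≠ 0) :
    Ideal.span (Set.range x) = ⊤ := by
  by_contra hcon
  obtain ⟨𝔭, hmax, h𝔭⟩ := Ideal.exists_le_maximal _ hcon
  have hx𝔭 : ∀ j, x j ∈ 𝔭 := fun j => h𝔭 (Ideal.subset_span ⟨j, rfl⟩)
  have hne : 𝔭 ≠ ⊥ := by
    rintro rfl
    obtain ⟨j, hj⟩ := hx0
    exact hj (by simpa using hx𝔭 j)
  let v : HeightOneSpectrum B := ⟨𝔭, hmax.isPrime, hne⟩
  have hex : ∃ k, ¬ I ≤ 𝔭 ^ k := by
    by_contra hall
    push Not at hall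
    apply hI
    rw [eq_bot_iff, ← Ideal.iInf_pow_eq_bot_of_isDomain 𝔭 hmax.ne_top]
    exact le_iInf hall
  classical
  obtain ⟨k, hk⟩ : ∃ k, Nat.find hex = k + 1 := by
    refine ⟨Nat.find hex - 1, ?_⟩
    have : Nat.find hex ≠ 0 := by
      intro h0
      have := Nat.find_spec hex
      rw [h0, pow_zero, Ideal.one_eq_top] at this
      exact this le_top
    omega
  have hk1 : ¬ I ≤ 𝔭 ^ (k + 1) := by rw [← hk]; exact Nat.find_spec hex
  have hk0 : I ≤ 𝔭 ^ k := by
    by_contra h
    have := Nat.find_min' hex h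
    omega
  obtain ⟨j, hj⟩ : ∃ j, a j ∉ 𝔭 ^ (k + 1) := by
    by_contra hall
    push Not at hall
    apply hk1
    rw [← ha, Ideal.span_le]
    rintro _ ⟨j, rfl⟩
    exact hall j
  have hρ : ρ ∈ 𝔭 ^ (k * n) := by
    have h1 : ρ ∈ I ^ n := by rw [hIn]; exact Ideal.mem_span_singleton_self ρ
    rw [pow_mul]
    exact Ideal.pow_right_mono hk0 n h1
  have hmem : a j ^ n ∈ 𝔭 ^ (k * n + 1) := by
    rw [← hx j, pow_succ]
    exact Ideal.mul_mem_mul hρ (hx𝔭 j)
  have h1 := (v.intValuation_le_pow_iff_mem (a j ^ n) (k * n + 1)).2 hmem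
  have h2 := mt (v.intValuation_le_pow_iff_mem (a j) (k + 1)).1 hj
  push Not at h2
  rw [map_pow] at h1
  have hv0 : v.intValuation (a j) ≠ 0 := fun h0 => by
    rw [h0] at h2
    exact absurd h2 (not_lt.2 zero_le)
  obtain ⟨t, ht⟩ : ∃ t : ℤ, v.intValuation (a j) = WithZero.exp t :=
    ⟨WithZero.log (v.intValuation (a j)), (WithZero.exp_log hv0).symm⟩
  rw [ht] at h1 h2
  rw [WithZero.exp_lt_exp] at h2
  rw [← WithZero.exp_nsmul, WithZero.exp_le_exp] at h1
  push_cast at h1 h2
  rw [nsmul_eq_mul] at h1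
  have h3 : -(k : ℤ) ≤ t := by omega
  have hn' : (1 : ℤ) ≤ n := by exact_mod_cast hn
  nlinarith

end T1Data

open T1Data in
theorem t1_data {C B : Type*} [Field C] [IsAlgClosed C] [CommRing B] [IsDedekindDomain B]
    [Algebra C B] {d : B → ℕ} (hd : IsPoleDeg C d) (n : ℕ) (hn : 1 ≤ n) (e : ℕ) :
    ∃ m r D : ℕ, ∀ (I : Ideal B) (ρ : B), I ≠ ⊥ → Module.finrank C (B ⧸ I) = e →
      I ^ n = Ideal.span {ρ} → ∃ (a x z : Fin r → B) (q : Fin r → Fin r → B),
        (∀ i, d (a i) ≤ m) ∧ (∃ i, a i ≠ 0 ∧ d (a i) = m) ∧ Ideal.span (Set.range a) = I ∧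
        (∀ j, ρ * x j = a j ^ n) ∧ (∀ i j, ρ * q i j = a i * a j ^ (n - 1)) ∧
        ∑ j, z j * x j = 1 ∧ (∀ j, d (x j) ≤ D ∧ d (z j) ≤ D) ∧ ∀ i j, d (q i j) ≤ D := by
  classical
  obtain ⟨m₁, hm₁⟩ := pd_ft hd
  obtain ⟨n₀, hn₀⟩ := hd.large
  obtain ⟨b, hb, hbd⟩ := hn₀ (n₀ + 1) (by omega)
  set m₂ := e * m₁ with hm₂
  set m := m₂ + n₀ + (n₀ + 1) with hm
  have hWfin : Module.Finite C (W hd m) := pd_W_finite hd m
  refine ⟨m, Module.finrank C (W hd m), (n * m) * m₁ + n * m, ?_⟩
  intro I ρ hI he hIn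
  have hBI : Module.Finite C (B ⧸ I) := pd_finite hd I hI
  -- bounded representatives modulo `I`
  have hV : ∀ x : B, ∃ w, d w ≤ m₂ ∧ x - w ∈ I := by
    intro x
    have hU : Submodule.span B ({1} : Set (B ⧸ I)) = ⊤ := by
      rw [eq_top_iff]
      intro y _
      obtain ⟨y, rfl⟩ := Ideal.Quotient.mk_surjective y
      rw [Submodule.mem_span_singleton]
      exact ⟨y, by rw [Algebra.smul_def, mul_one]; rfl⟩
    have h1 := chain hd m₁ hm₁ ({1} : Set (B ⧸ I)) hU e he.le
    have h2 : (Ideal.Quotient.mk I x) ∈ Submodule.span C {y : B ⧸ I |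
        ∃ (w : B) (u : B ⧸ I), d w ≤ e * m₁ ∧ u ∈ ({1} : Set (B ⧸ I)) ∧ y = w • u} := by
      rw [h1]; exact Submodule.mem_top
    have h3 : ∀ y ∈ Submodule.span C {y : B ⧸ I |
        ∃ (w : B) (u : B ⧸ I), d w ≤ e * m₁ ∧ u ∈ ({1} : Set (B ⧸ I)) ∧ y = w • u},
        ∃ w, d w ≤ m₂ ∧ y = Ideal.Quotient.mk I w := by
      intro y hy
      induction hy using Submodule.span_induction with
      | mem y hy =>
        obtain ⟨w, u, hw, hu, rfl⟩ := hy
        rw [Set.mem_singleton_iff] at hu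
        refine ⟨w, hw, ?_⟩
        rw [hu, Algebra.smul_def, mul_one]
        rfl
      | zero => exact ⟨0, by rw [hd.zero]; exact Nat.zero_le _, (map_zero _).symm⟩
      | add y z _ _ hy hz =>
        obtain ⟨w, hw, rfl⟩ := hy
        obtain ⟨w', hw', rfl⟩ := hz
        exact ⟨w + w', (hd.add _ _).trans (max_le hw hw'), (map_add _ _ _).symm⟩
      | smul c y _ hy =>
        obtain ⟨w, hw, rfl⟩ := hy
        exact ⟨c • w, (d_smul_le hd c w).trans hw, rfl⟩
    obtain ⟨w, hw, hxw⟩ := h3 _ h2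
    exact ⟨w, hw, Ideal.Quotient.eq.1 hxw⟩
  -- the generators
  let P : Submodule C B := I.restrictScalars C ⊓ W hd m
  have hPW : P ≤ W hd m := inf_le_right
  have hPfin : Module.Finite C P := Submodule.finiteDimensional_of_le hPW
  obtain ⟨v, hv⟩ := exists_span (C := C) (V := P) (Module.finrank C (W hd m))
    (Submodule.finrank_mono hPW)
  set a : Fin (Module.finrank C (W hd m)) → B := fun i => (v i : B) with ha
  have haI : ∀ i, a i ∈ I := fun i => (v i).2.1
  have ham : ∀ i, d (a i) ≤ m := fun i => (v i).2.2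
  have hspan : ∀ y ∈ I, d y ≤ m → y ∈ Submodule.span C (Set.range a) := by
    intro y hy hym
    have h1 : (⟨y, hy, hym⟩ : P) ∈ Submodule.span C (Set.range v) := by
      rw [hv]; exact Submodule.mem_top
    have h2 := Submodule.mem_map_of_mem (f := P.subtype) h1
    rw [Submodule.map_span, ← Set.range_comp] at h2
    exact h2
  have hgen : Ideal.span (Set.range a) = I := by
    apply le_antisymm
    · rw [Ideal.span_le]
      rintro _ ⟨i, rfl⟩
      exact haI i
    · intro y hy
      have h1 := span_bounded hd I m₂ n₀ hV hn₀ b hb (by omega) m (by omega) (by omega) y hy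
      refine (Ideal.span_le.2 ?_ : Ideal.span {y : B | y ∈ I ∧ d y ≤ m} ≤
        Ideal.span (Set.range a)) h1
      rintro y ⟨hy, hym⟩
      have h2 := hspan y hy hym
      exact Submodule.span_le_restrictScalars C B _ h2
  have htop : ∃ i, a i ≠ 0 ∧ d (a i) = m := by
    by_contra hcon
    push Not at hcon
    obtain ⟨y, hy, hy0, hyd⟩ := deg_mem hd I m₂ hV m (by omega) (hn₀ m (by omega))
    have h1 : ∀ i, a i ∈ W hd (m - 1) := by
      intro i
      change d (a i) ≤ m - 1
      by_cases h0 : a i = 0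
      · rw [h0, hd.zero]; exact Nat.zero_le _
      · have h2 := hcon i h0
        have h3 := ham i
        omega
    have h2 : Submodule.span C (Set.range a) ≤ W hd (m - 1) := by
      rw [Submodule.span_le]
      rintro _ ⟨i, rfl⟩
      exact h1 i
    have h3 : d y ≤ m - 1 := h2 (hspan y hy (by omega))
    omega
  have hρ0 : ρ ≠ 0 := by
    rintro rfl
    rw [Ideal.span_singleton_eq_bot.2 rfl] at hIn
    have hn' : n ≠ 0 := Nat.one_le_iff_ne_zero.1 hn
    exact hI ((pow_eq_zero_iff hn').1 hIn)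
  have hx : ∀ j, ∃ x, ρ * x = a j ^ n := by
    intro j
    have h1 : a j ^ n ∈ I ^ n := Ideal.pow_mem_pow (haI j) n
    rw [hIn, Ideal.mem_span_singleton] at h1
    obtain ⟨x, hx⟩ := h1
    exact ⟨x, hx.symm⟩
  choose x hx using hx
  have hq : ∀ i j, ∃ q, ρ * q = a i * a j ^ (n - 1) := by
    intro i j
    have h1 : a i * a j ^ (n - 1) ∈ I ^ n := by
      have : I ^ n = I * I ^ (n - 1) := by
        rw [← pow_succ', Nat.sub_add_cancel hn]
      rw [this]
      exact Ideal.mul_mem_mul (haI i) (Ideal.pow_mem_pow (haI j) _)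
    rw [hIn, Ideal.mem_span_singleton] at h1
    obtain ⟨q, hq⟩ := h1
    exact ⟨q, hq.symm⟩
  choose q hq using hq
  have hdx : ∀ j, d (x j) ≤ n * m := by
    intro j
    refine d_le_of_mul hd ρ (x j) hρ0 _ ?_
    rw [hx j]
    exact (d_pow_le hd _ _).trans (Nat.mul_le_mul_left _ (ham j))
  have hdq : ∀ i j, d (q i j) ≤ n * m := by
    intro i j
    refine d_le_of_mul hd ρ (q i j) hρ0 _ ?_
    rw [hq i j]
    refine (d_mul_le hd _ _).trans ?_
    have h1 := (d_pow_le hd (a j) (n - 1)).trans (Nat.mul_le_mul_left _ (ham j))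
    have h2 := ham i
    have h3 : n * m = m + (n - 1) * m := by
      obtain ⟨k, rfl⟩ : ∃ k, n = k + 1 := ⟨n - 1, by omega⟩
      rw [Nat.add_sub_cancel]
      ring
    omega
  obtain ⟨i₀, hi₀, hi₀m⟩ := htop
  have hxi₀ : x i₀ ≠ 0 := by
    intro h0
    have h1 := hx i₀
    rw [h0, mul_zero] at h1
    exact hi₀ ((pow_eq_zero_iff (Nat.one_le_iff_ne_zero.1 hn)).1 h1.symm)
  have huni := unimodular n hn I ρ hI hIn a x hgen hx ⟨i₀, hxi₀⟩
  -- bounded Bezout coefficients
  obtain ⟨hfin1, hrank1⟩ := pd_quot hd (x i₀) hxi₀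
  let J : Ideal B := Ideal.span {x i₀}
  have hU : Submodule.span B (Set.range fun j => Ideal.Quotient.mk J (x j)) = ⊤ := by
    rw [eq_top_iff]
    intro y _
    obtain ⟨y, rfl⟩ := Ideal.Quotient.mk_surjective y
    have h1 : y ∈ Ideal.span (Set.range x) := by rw [huni]; exact Submodule.mem_top
    have h2 := Submodule.mem_map_of_mem (f := (Submodule.mkQ J : B →ₗ[B] B ⧸ J)) h1
    change _ ∈ Submodule.map _ (Submodule.span B (Set.range x)) at h2
    rw [Submodule.map_span, ← Set.range_comp] at h2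
    exact h2
  have hch := chain hd m₁ hm₁ (Set.range fun j => Ideal.Quotient.mk J (x j)) hU (n * m)
    (by
      change Module.finrank C (B ⧸ Ideal.span {x i₀}) ≤ n * m
      rw [hrank1]
      exact hdx i₀)
  have hz : ∀ y ∈ Submodule.span C {y : B ⧸ J | ∃ (w : B) (u : B ⧸ J), d w ≤ n * m * m₁ ∧
      u ∈ (Set.range fun j => Ideal.Quotient.mk J (x j)) ∧ y = w • u},
      ∃ z : Fin (Module.finrank C (W hd m)) → B, (∀ j, d (z j) ≤ n * m * m₁) ∧
        y = Ideal.Quotient.mk J (∑ j, z j * x j) := by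
    intro y hy
    induction hy using Submodule.span_induction with
    | mem y hy =>
      obtain ⟨w, u, hw, ⟨j, rfl⟩, rfl⟩ := hy
      refine ⟨Pi.single j w, fun i => ?_, ?_⟩
      · by_cases hij : i = j
        · subst hij
          rw [Pi.single_eq_same]
          exact hw
        · rw [Pi.single_eq_of_ne hij, hd.zero]
          exact Nat.zero_le _
      · rw [Finset.sum_eq_single j]
        · rw [Pi.single_eq_same, Algebra.smul_def, map_mul]
          rfl
        · intro i _ hij
          rw [Pi.single_eq_of_ne hij, zero_mul]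
        · intro h
          exact absurd (Finset.mem_univ j) h
    | zero => exact ⟨0, fun j => by rw [Pi.zero_apply, hd.zero]; exact Nat.zero_le _, by simp⟩
    | add y y' _ _ hy hy' =>
      obtain ⟨z, hz, rfl⟩ := hy
      obtain ⟨z', hz', rfl⟩ := hy'
      refine ⟨z + z', fun j => (hd.add _ _).trans (max_le (hz j) (hz' j)), ?_⟩
      rw [← map_add, ← Finset.sum_add_distrib]
      congr 1
      exact Finset.sum_congr rfl fun j _ => by rw [Pi.add_apply, add_mul]
    | smul c y _ hy =>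
      obtain ⟨z, hz, rfl⟩ := hy
      refine ⟨fun j => c • z j, fun j => (d_smul_le hd c _).trans (hz j), ?_⟩
      have h1 : ∑ j, c • z j * x j = c • ∑ j, z j * x j := by
        rw [Finset.smul_sum]
        exact Finset.sum_congr rfl fun j _ => smul_mul_assoc _ _ _
      rw [h1]
      rfl
  obtain ⟨z, hzd, hz1⟩ := hz (Ideal.Quotient.mk J 1) (by rw [hch]; exact Submodule.mem_top)
  have h1J : 1 - ∑ j, z j * x j ∈ J := Ideal.Quotient.eq.1 hz1
  obtain ⟨y, hy⟩ := Ideal.mem_span_singleton.1 h1J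
  have hyd : d y ≤ n * m * m₁ + n * m := by
    refine d_le_of_mul hd (x i₀) y hxi₀ _ ?_
    rw [← hy]
    refine (d_sub_le hd _ _).trans (max_le ?_ ?_)
    · rw [d_one hd]; exact Nat.zero_le _
    · refine d_sum_le hd _ _ _ fun j _ => (d_mul_le hd _ _).trans ?_
      have := hzd j
      have := hdx j
      omega
  refine ⟨a, x, fun j => z j + (if j = i₀ then y else 0), q, ham, ?_, hgen, hx, hq, ?_, ?_, ?_⟩
  · exact ⟨i₀, hi₀, hi₀m⟩
  · have h1 : ∑ j, (z j + (if j = i₀ then y else 0)) * x j =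
        ∑ j, z j * x j + x i₀ * y := by
      simp only [add_mul, Finset.sum_add_distrib, ite_mul, zero_mul, Finset.sum_ite_eq',
        Finset.mem_univ, if_true]
      rw [mul_comm y]
    rw [h1, ← hy]
    ring
  · intro j
    refine ⟨(hdx j).trans (Nat.le_add_left _ _), (hd.add _ _).trans (max_le ?_ ?_)⟩
    · exact (hzd j).trans (Nat.le_add_right _ _)
    · split_ifs
      · exact hyd
      · rw [hd.zero]; exact Nat.zero_le _
  · intro i j
    exact (hdq i j).trans (Nat.le_add_left _ _)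

end Pool.Agent.Lib.MP_2f3286_ag.Pt
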