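import Pool.Agent.Lib.MP_2f3286_ag.Pt.T1Key
import Pool.Agent.Lib.MP_2f3286_ag.Pt.PB2
import Pool.Agent.Lib.MP_2f3286_ag.Pt.T1Data

/-!
# MP_2f3286_ag, campaign II, module T1MAIN, part 3: the `n`-torsion of the class group is finite
-/

open scoped TensorProduct

namespace Pool.Agent.Lib.MP_2f3286_ag.Pt

namespace T1Main

theorem ideal_pow_inj {B : Type*} [CommRing B] [IsDedekindDomain B] {n : ℕ} (hn : 1 ≤ n)
    {I J : Ideal B} (hI : I ≠ ⊥) (hJ : J ≠ ⊥) (h : I ^ n = J ^ n) : I = J := by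
  have h1 : UniqueFactorizationMonoid.normalizedFactors I =
      UniqueFactorizationMonoid.normalizedFactors J := by
    classical
    have h2 := congrArg UniqueFactorizationMonoid.normalizedFactors h
    rw [UniqueFactorizationMonoid.normalizedFactors_pow,
      UniqueFactorizationMonoid.normalizedFactors_pow] at h2
    ext p
    have h3 := congrArg (Multiset.count p) h2
    rw [Multiset.count_nsmul, Multiset.count_nsmul] at h3
    exact Nat.eq_of_mul_eq_mul_left (by omega) h3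
  rw [← Ideal.prod_normalizedFactors_eq_self hI, h1, Ideal.prod_normalizedFactors_eq_self hJ]

theorem finrank_pow {C B : Type*} [Field C] [IsAlgClosed C] [CommRing B] [IsDedekindDomain B]
    [Algebra C B] {d : B → ℕ} (hd : IsPoleDeg C d) (I : Ideal B) (hI : I ≠ ⊥) (n : ℕ) :
    Module.finrank C (B ⧸ I ^ n) = n * Module.finrank C (B ⧸ I) := by
  induction n with
  | zero =>
    rw [pow_zero, Ideal.one_eq_top, zero_mul]
    have : Subsingleton (B ⧸ (⊤ : Ideal B)) := Ideal.Quotient.subsingleton_iff.2 rfl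
    exact Module.finrank_zero_of_subsingleton
  | succ n ih =>
    rw [pow_succ, pd_mul hd _ _ (pow_ne_zero n hI) hI, ih]
    ring

theorem min_inj {C B : Type*} [Field C] [IsAlgClosed C] [CommRing B] [IsDedekindDomain B]
    [Algebra C B] {d : B → ℕ} (hd : IsPoleDeg C d) (I : Ideal B)
    (hI : I ∈ nonZeroDivisors (Ideal B)) (e m r : ℕ) (he : Module.finrank C (B ⧸ I) = e)
    (hmin : ∀ (J : Ideal B) (hJ : J ∈ nonZeroDivisors (Ideal B)),
      ClassGroup.mk0 ⟨J, hJ⟩ = ClassGroup.mk0 ⟨I, hI⟩ → e ≤ Module.finrank C (B ⧸ J))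
    (a : Fin r → B) (ha : ∃ i, a i ≠ 0 ∧ d (a i) = m) (hspan : Ideal.span (Set.range a) = I)
    (c : Fin r → B) (hc : ∀ i, c i = 0 ∨ d (c i) < m) (hck : ∀ i k, c i * a k = c k * a i) :
    ∀ i, c i = 0 := by
  by_contra hcon
  push Not at hcon
  obtain ⟨i₁, hi₁⟩ := hcon
  obtain ⟨i₀, ha₀, hm⟩ := ha
  have hc₀ : c i₀ ≠ 0 := by
    intro h0
    have h1 := hck i₁ i₀
    rw [h0, zero_mul] at h1
    exact (mul_ne_zero hi₁ ha₀) h1
  have hI0 : I ≠ ⊥ := nonZeroDivisors.ne_zero hI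
  set J : Ideal B := Ideal.span (Set.range c) with hJ
  have hJ0 : J ≠ ⊥ := by
    intro h0
    have h1 : c i₁ ∈ J := Ideal.subset_span ⟨i₁, rfl⟩
    rw [h0] at h1
    exact hi₁ h1
  have hJn : J ∈ nonZeroDivisors (Ideal B) := mem_nonZeroDivisors_of_ne_zero hJ0
  have hmul : ∀ (x : B) (f : Fin r → B), Ideal.span {x} * Ideal.span (Set.range f) =
      Ideal.span (Set.range fun i => x * f i) := by
    intro x f
    rw [Ideal.span_mul_span', Set.singleton_mul, ← Set.range_comp]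
    rfl
  have hprod : Ideal.span {a i₀} * J = Ideal.span {c i₀} * I := by
    rw [hJ, ← hspan, hmul, hmul]
    congr 2
    funext i
    rw [mul_comm, hck]
  have h1 := hmin J hJn ((ClassGroup.mk0_eq_mk0_iff).2 ⟨a i₀, c i₀, ha₀, hc₀, hprod⟩)
  have h2 : Module.finrank C (B ⧸ Ideal.span {a i₀} * J) =
      Module.finrank C (B ⧸ Ideal.span {c i₀} * I) := by rw [hprod]
  have hsa : Ideal.span {a i₀} ≠ ⊥ := by rwa [Ne, Ideal.span_singleton_eq_bot]
  have hsc : Ideal.span {c i₀} ≠ ⊥ := by rwa [Ne, Ideal.span_singleton_eq_bot]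
  rw [pd_mul hd _ _ hsa hJ0, pd_mul hd _ _ hsc hI0, (pd_quot hd _ ha₀).2, (pd_quot hd _ hc₀).2,
    he, hm] at h2
  have h3 := (hc i₀).resolve_left hc₀
  omega

end T1Main

open T1Main in
theorem class_torsion_finite {C B : Type*} [Field C] [IsAlgClosed C] [CharZero C] [CommRing B]
    [IsDedekindDomain B] [Algebra C B] {d : B → ℕ} (hd : IsPoleDeg C d) (n : ℕ) (hn : 1 ≤ n) :
    Set.Finite {c : ClassGroup B | c ^ n = 1} := by
  classical
  by_contra hinf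
  have hinf' : Set.Infinite {c : ClassGroup B | c ^ n = 1} := hinf
  obtain ⟨g, hg⟩ := pd_rep hd
  have hex : ∀ c : ClassGroup B, ∃ e, ∃ (I : Ideal B) (hI : I ∈ nonZeroDivisors (Ideal B)),
      ClassGroup.mk0 ⟨I, hI⟩ = c ∧ Module.finrank C (B ⧸ I) = e := by
    intro c
    obtain ⟨I, hI, h1, -⟩ := hg c
    exact ⟨_, I, hI, h1, rfl⟩
  have hle : ∀ c, Nat.find (hex c) ≤ g := by
    intro c
    obtain ⟨I, hI, h1, h2⟩ := hg c
    exact (Nat.find_min' (hex c) ⟨I, hI, h1, rfl⟩).trans h2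
  obtain ⟨e, he⟩ : ∃ e, Set.Infinite {c : ClassGroup B | c ^ n = 1 ∧ Nat.find (hex c) = e} := by
    by_contra hcon
    push Not at hcon
    apply hinf'
    have h1 : (⋃ e ∈ Finset.range (g + 1),
        {c : ClassGroup B | c ^ n = 1 ∧ Nat.find (hex c) = e}).Finite :=
      (Finset.range (g + 1)).finite_toSet.biUnion fun e _ => hcon e
    refine h1.subset fun c hc => ?_
    simp only [Set.mem_iUnion]
    exact ⟨Nat.find (hex c), Finset.mem_range.2 (Nat.lt_succ_of_le (hle c)), hc, rfl⟩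
  set 𝒞 : Set (ClassGroup B) := {c | c ^ n = 1 ∧ Nat.find (hex c) = e} with h𝒞
  have hI : ∀ c : ClassGroup B, ∃ (I : Ideal B) (hI : I ∈ nonZeroDivisors (Ideal B)),
      ClassGroup.mk0 ⟨I, hI⟩ = c ∧ (c ∈ 𝒞 → Module.finrank C (B ⧸ I) = e) := by
    intro c
    obtain ⟨I, hI, h1, h2⟩ := Nat.find_spec (hex c)
    exact ⟨I, hI, h1, fun hc => h2.trans hc.2⟩
  choose I hIn hIc hIe using hI
  have hI0 : ∀ c, I c ≠ ⊥ := fun c => nonZeroDivisors.ne_zero (hIn c)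
  have hmin : ∀ c ∈ 𝒞, ∀ (J : Ideal B) (hJ : J ∈ nonZeroDivisors (Ideal B)),
      ClassGroup.mk0 ⟨J, hJ⟩ = ClassGroup.mk0 ⟨I c, hIn c⟩ → e ≤ Module.finrank C (B ⧸ J) := by
    intro c hc J hJ h1
    rw [← hc.2]
    exact Nat.find_min' (hex c) ⟨J, hJ, h1.trans (hIc c), rfl⟩
  have hρ : ∀ c ∈ 𝒞, ∃ ρ : B, ρ ≠ 0 ∧ (I c) ^ n = Ideal.span {ρ} ∧ d ρ = n * e := by
    intro c hc
    have h1 : ClassGroup.mk0 ⟨(I c) ^ n, pow_mem (hIn c) n⟩ = 1 := by
      have h2 : (⟨(I c) ^ n, pow_mem (hIn c) n⟩ : nonZeroDivisors (Ideal B)) =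
          ⟨I c, hIn c⟩ ^ n := rfl
      rw [h2, map_pow, hIc, hc.1]
    rw [ClassGroup.mk0_eq_one_iff] at h1
    obtain ⟨ρ, hρ⟩ := h1
    have hρ' : (I c) ^ n = Ideal.span {ρ} := hρ
    have hρ0 : ρ ≠ 0 := by
      rintro rfl
      rw [Ideal.span_singleton_eq_bot.2 rfl] at hρ'
      exact pow_ne_zero n (hI0 c) hρ'
    refine ⟨ρ, hρ0, hρ', ?_⟩
    rw [← (pd_quot hd ρ hρ0).2, ← hρ', finrank_pow hd _ (hI0 c), hIe c hc]
  obtain ⟨c₀, hc₀⟩ := he.nonempty
  obtain ⟨ρ₀, hρ₀0, -, hρ₀⟩ := hρ c₀ hc₀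
  have hτ : ∀ c : ClassGroup B, ∃ τ : B, c ∈ 𝒞 → (τ = 0 ∨ d τ < n * e) ∧
      (I c) ^ n = Ideal.span {ρ₀ + τ} := by
    intro c
    by_cases hc : c ∈ 𝒞
    · obtain ⟨ρ, hρ0, hρ1, hρ2⟩ := hρ c hc
      obtain ⟨s, hs⟩ := hd.lead ρ ρ₀ hρ₀0 (by omega)
      have hs0 : s ≠ 0 := by
        rintro rfl
        rw [zero_smul, sub_zero] at hs
        rcases hs with h | h
        · exact hρ0 h
        · omega
      refine ⟨s⁻¹ • (ρ - s • ρ₀), fun _ => ⟨?_, ?_⟩⟩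
      · have h1 : ρ - s • ρ₀ ∈ Wlt hd (n * e) := by
          rcases hs with h | h
          · exact Or.inl h
          · exact Or.inr (by omega)
        exact (Wlt hd (n * e)).smul_mem s⁻¹ h1
      · have h2 : ρ₀ + s⁻¹ • (ρ - s • ρ₀) = algebraMap C B s⁻¹ * ρ := by
          rw [smul_sub, smul_smul, inv_mul_cancel₀ hs0, one_smul, Algebra.smul_def]
          ring
        rw [h2, hρ1]
        have hu : IsUnit (algebraMap C B s⁻¹) := (IsUnit.mk0 s⁻¹ (inv_ne_zero hs0)).map _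
        rw [Ideal.span_singleton_mul_left_unit hu]
    · exact ⟨0, fun h => absurd h hc⟩
  choose τ hτ using hτ
  obtain ⟨m, r, D, hdat⟩ := t1_data hd n hn e
  have hinj : Set.InjOn τ 𝒞 := by
    intro c hc c' hc' h
    have h1 := (hτ c hc).2
    rw [h, ← (hτ c' hc').2] at h1
    have h2 := ideal_pow_inj hn (hI0 c) (hI0 c') h1
    rw [← hIc c, ← hIc c']
    congr 1
    exact Subtype.ext h2
  refine key hd n hn m r D (n * e) ρ₀ hρ₀ (τ '' 𝒞) (he.image hinj) ?_ ?_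
  · rintro _ ⟨c, hc, rfl⟩
    exact (hτ c hc).1
  · rintro _ ⟨c, hc, rfl⟩
    obtain ⟨a, x, z, q, h1, h2, h3, h4, h5, h6, h7, h8⟩ :=
      hdat (I c) (ρ₀ + τ c) (hI0 c) (hIe c hc) (hτ c hc).2
    exact ⟨a, x, z, q, h1, h4, h5, h6, h7, h8, fun w hw hwk =>
      min_inj hd (I c) (hIn c) e m r (hIe c hc) (hmin c hc) a h2 h3 w hw hwk⟩

end Pool.Agent.Lib.MP_2f3286_ag.Pt
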