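import Mathlib
import Pool.Agent.Lib.MP_2f3286_ag.Pt.Defs
import Pool.Agent.Lib.MP_2f3286_ag.Pt.Ex3
import Pool.Agent.Lib.MP_2f3286_ag.Pt.KlFinCore
import Pool.Agent.Lib.MP_2f3286_ag.Pt.Ex2
import Pool.Agent.Lib.MP_2f3286_ag.Pt.T1Main

/-!
# KLFIN: finiteness of the Kummer classes
-/

open Polynomial IntermediateField IsDedekindDomain

namespace Pool.Agent.Lib.MP_2f3286_ag.Pt

theorem kl_fin {C L : Type*} [Field C] [IsAlgClosed C] [CharZero C] [Field L] [Algebra C L] (t : L)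
    (ht : Transcendental C t) [FiniteDimensional (adjoin C {t}) L] (𝒰 : Set (ValuationSubring L))
    (h𝒰 : ∀ Q ∈ 𝒰, (∀ a : C, algebraMap C L a ∈ Q) ∧ Q ≠ ⊤)
    (hfin : {Q : ValuationSubring L | (∀ a : C, algebraMap C L a ∈ Q) ∧ Q ≠ ⊤ ∧ Q ∉ 𝒰}.Finite)
    (n : ℕ) (hn : 1 ≤ n) :
    ∃ T : Finset L, ∀ ρ : L, ρ ≠ 0 → (∀ Q ∈ 𝒰, DivAt n ρ Q) → ∃ r ∈ T, ∃ c : L, c ≠ 0 ∧
      ρ = r * c ^ n := by
  obtain ⟨P, hPC, htP⟩ : ∃ P : ValuationSubring L, (∀ a : C, algebraMap C L a ∈ P) ∧ t ∉ P := by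
    by_contra hcon
    push Not at hcon
    obtain ⟨c, hc⟩ := Ex3.const_of_mem_all (C := C) t hcon
    exact ht (hc ▸ isAlgebraic_algebraMap c)
  have hP : P ≠ ⊤ := by
    rintro rfl
    exact htP trivial
  obtain ⟨B, hBD, hBF, hB, d, hd, -⟩ := exists_pointed t ht P hPC hP
  have hunit : ∀ u : Bˣ, ∃ g : B, (u : B) = g ^ n := by
    intro u
    have h1 : d (u : B) = 0 := by
      have h2 := hd.mul (u : B) ((u⁻¹ : Bˣ) : B) u.ne_zero u⁻¹.ne_zero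
      rw [Units.mul_inv, (hd.const 1).2 ⟨1, (map_one _).symm⟩] at h2
      omega
    obtain ⟨c, hc⟩ := (hd.const _).1 h1
    obtain ⟨g, hg⟩ := IsAlgClosed.exists_pow_nat_eq c hn
    exact ⟨algebraMap C B g, by rw [hc, ← map_pow, hg]⟩
  have hS : {v : HeightOneSpectrum B | (v.valuation L).valuationSubring ∉ 𝒰}.Finite := by
    refine Set.Finite.of_injOn (f := fun v : HeightOneSpectrum B =>
      (v.valuation L).valuationSubring) (t := {Q : ValuationSubring L |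
        (∀ a : C, algebraMap C L a ∈ Q) ∧ Q ≠ ⊤ ∧ Q ∉ 𝒰}) ?_ (KlFin.vs_injective.injOn) hfin
    intro v hv
    obtain ⟨h1, h2, -⟩ := (place_iff P hPC hP B hB d hd (v.valuation L).valuationSubring).2 ⟨v, rfl⟩
    exact ⟨h1, h2, hv⟩
  obtain ⟨T, hT⟩ := KlFin.core (L := L) n hn (class_torsion_finite hd n hn) hunit _ hS
  refine ⟨T, fun ρ hρ0 hρ => hT ρ hρ0 fun v hv => hρ _ ?_⟩
  by_contra hcon
  exact hv hcon

end Pool.Agent.Lib.MP_2f3286_ag.Pt
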