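import Mathlib
import Pool.Agent.Lib.MP_2f3286_ag.Pt.Defs

/-!
# KLSTEP, the core: dividing a Kummer class, from the facts about the pointed affine curve
-/

open Polynomial IntermediateField IsDedekindDomain
open scoped TensorProduct nonZeroDivisors

namespace Pool.Agent.Lib.MP_2f3286_ag.Pt.KlStep

section

variable {B L : Type*} [CommRing B] [IsDedekindDomain B] [Field L] [Algebra B L]
    [IsFractionRing B L]

/-- the valuation of an element in terms of the multiplicity in the fractional ideal -/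
theorem valuation_eq_count (v : HeightOneSpectrum B) (x : L) (hx : x ≠ 0) :
    v.valuation L x =
      WithZero.exp (-FractionalIdeal.count L v (FractionalIdeal.spanSingleton B⁰ x)) := by
  classical
  obtain ⟨a, b, hb, rfl⟩ := IsFractionRing.div_surjective (A := B) x
  have hb0 : b ≠ 0 := nonZeroDivisors.ne_zero hb
  have hbL : algebraMap B L b ≠ 0 := by
    rwa [Ne, IsFractionRing.to_map_eq_zero_iff]
  have haL : algebraMap B L a ≠ 0 := by
    intro h
    rw [h, zero_div] at hx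
    exact hx rfl
  have ha0 : a ≠ 0 := by
    intro h
    rw [h, map_zero] at haL
    exact haL rfl
  have hne : (FractionalIdeal.spanSingleton B⁰ (algebraMap B L a / algebraMap B L b) :
      FractionalIdeal B⁰ L) ≠ 0 := by
    rw [Ne, FractionalIdeal.spanSingleton_eq_zero_iff]
    exact hx
  rw [FractionalIdeal.count_well_defined L v hne (a := b) (J := Ideal.span {a})]
  · rw [map_div₀, v.valuation_of_algebraMap, v.valuation_of_algebraMap,
      v.intValuation_if_neg ha0, v.intValuation_if_neg hb0, ← WithZero.exp_sub]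
    congr 1
    ring
  · rw [FractionalIdeal.coeIdeal_span_singleton, FractionalIdeal.spanSingleton_mul_spanSingleton]
    congr 1
    rw [div_eq_mul_inv, mul_comm]

/-- a fractional ideal with prescribed multiplicities on a set of primes where they are those of
an element, zero elsewhere -/
theorem exists_supported (S : Set (HeightOneSpectrum B)) (N : ℕ) (ρ : L) (hρ : ρ ≠ 0) :
    ∃ E : (FractionalIdeal B⁰ L)ˣ, ∀ v ∈ S, FractionalIdeal.count L v (E : FractionalIdeal B⁰ L) =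
      FractionalIdeal.count L v (FractionalIdeal.spanSingleton B⁰ ρ) / (N : ℤ) := by
  classical
  set I : FractionalIdeal B⁰ L := FractionalIdeal.spanSingleton B⁰ ρ with hI
  have hne : I ≠ 0 := by
    rw [hI, Ne, FractionalIdeal.spanSingleton_eq_zero_iff]
    exact hρ
  set e : HeightOneSpectrum B → ℤ := fun v =>
    if v ∈ S then FractionalIdeal.count L v I / (N : ℤ) else 0 with he
  have hfin : ∀ᶠ v : HeightOneSpectrum B in Filter.cofinite, e v = 0 := by
    filter_upwards [FractionalIdeal.finite_factors (K := L) I] with v hv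
    rw [he]
    dsimp only
    split_ifs
    · rw [hv, Int.zero_ediv]
    · rfl
  have hcount := fun v => FractionalIdeal.count_finprod L v e hfin
  have hE : (∏ᶠ v : HeightOneSpectrum B, (v.asIdeal : FractionalIdeal B⁰ L) ^ e v) ≠ 0 := by
    refine finprod_induction (fun x : FractionalIdeal B⁰ L => x ≠ 0) one_ne_zero
      (fun x y hx hy => mul_ne_zero hx hy) fun v => ?_
    exact zpow_ne_zero _ (FractionalIdeal.coeIdeal_ne_zero.mpr v.ne_bot)
  refine ⟨Units.mk0 _ hE, fun v hv => ?_⟩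
  rw [Units.val_mk0, hcount v, he]
  dsimp only
  rw [if_pos hv]

/-- divisibility of the class group: divide a fractional ideal up to a principal one -/
theorem exists_root (n : ℕ) (hcl : ∀ c : ClassGroup B, ∃ c', c' ^ n = c)
    (E : (FractionalIdeal B⁰ L)ˣ) :
    ∃ (F : (FractionalIdeal B⁰ L)ˣ) (c : L), c ≠ 0 ∧
      ((F : FractionalIdeal B⁰ L)) ^ n = E * FractionalIdeal.spanSingleton B⁰ c := by
  obtain ⟨c', hc'⟩ := hcl (ClassGroup.mk L E)
  have key : ∀ c' : ClassGroup B, c' ^ n = ClassGroup.mk L E →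
      ∃ (F : (FractionalIdeal B⁰ L)ˣ) (c : L), c ≠ 0 ∧
      ((F : FractionalIdeal B⁰ L)) ^ n = E * FractionalIdeal.spanSingleton B⁰ c := by
    intro c'
    refine ClassGroup.induction L (P := fun c' => c' ^ n = ClassGroup.mk L E →
      ∃ (F : (FractionalIdeal B⁰ L)ˣ) (c : L), c ≠ 0 ∧
      ((F : FractionalIdeal B⁰ L)) ^ n = E * FractionalIdeal.spanSingleton B⁰ c) ?_ c'
    intro F hF
    have h1 : ClassGroup.mk L (F ^ n * E⁻¹) = 1 := by
      rw [map_mul, map_pow, hF, map_inv, mul_inv_cancel]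
    rw [ClassGroup.mk_eq_one_iff] at h1
    obtain ⟨⟨c, hc⟩⟩ := h1
    have hc2 : ((F ^ n * E⁻¹ : (FractionalIdeal B⁰ L)ˣ) : FractionalIdeal B⁰ L) =
        FractionalIdeal.spanSingleton B⁰ c := by
      apply Subtype.coe_injective
      simp only [FractionalIdeal.val_eq_coe, hc, FractionalIdeal.coe_spanSingleton]
    refine ⟨F, c, ?_, ?_⟩
    · rintro rfl
      rw [FractionalIdeal.spanSingleton_zero] at hc2
      exact Units.ne_zero _ hc2
    · rw [← hc2, ← Units.val_mul, ← Units.val_pow_eq_pow_val]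
      congr 1
      rw [mul_comm E, inv_mul_cancel_right]
  exact key c' hc'

theorem count_span_mul (v : HeightOneSpectrum B) (x y : L) (hx : x ≠ 0) (hy : y ≠ 0) :
    FractionalIdeal.count L v (FractionalIdeal.spanSingleton B⁰ (x * y)) =
      FractionalIdeal.count L v (FractionalIdeal.spanSingleton B⁰ x) +
      FractionalIdeal.count L v (FractionalIdeal.spanSingleton B⁰ y) := by
  rw [← FractionalIdeal.spanSingleton_mul_spanSingleton, FractionalIdeal.count_mul L v]
  · rwa [Ne, FractionalIdeal.spanSingleton_eq_zero_iff]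
  · rwa [Ne, FractionalIdeal.spanSingleton_eq_zero_iff]

theorem count_span_pow (v : HeightOneSpectrum B) (x : L) (N : ℕ) :
    FractionalIdeal.count L v (FractionalIdeal.spanSingleton B⁰ (x ^ N)) =
      N * FractionalIdeal.count L v (FractionalIdeal.spanSingleton B⁰ x) := by
  rw [← FractionalIdeal.spanSingleton_pow, FractionalIdeal.count_pow]

/-- the division step on the Dedekind domain `B` -/
theorem step (S : Set (HeightOneSpectrum B)) (N n : ℕ) (hN : 1 ≤ N)
    (hcl : ∀ c : ClassGroup B, ∃ c', c' ^ n = c) (ρ : L) (hρ : ρ ≠ 0)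
    (h : ∀ v ∈ S, ∃ m : ℤ, v.valuation L ρ = WithZero.exp ((N : ℤ) * m)) :
    ∃ c : L, c ≠ 0 ∧ ∀ v ∈ S, ∃ m : ℤ,
      v.valuation L (ρ * c ^ N) = WithZero.exp (((N * n : ℕ) : ℤ) * m) := by
  obtain ⟨E, hE⟩ := exists_supported S N ρ hρ
  obtain ⟨F, c, hc, hF⟩ := exists_root n hcl E
  refine ⟨c, hc, fun v hv => ⟨-FractionalIdeal.count L v (F : FractionalIdeal B⁰ L), ?_⟩⟩
  obtain ⟨m, hm⟩ := h v hv
  have hN0 : (N : ℤ) ≠ 0 := by
    have : 0 < N := hN
    exact_mod_cast this.ne'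
  rw [valuation_eq_count v ρ hρ, WithZero.exp_inj] at hm
  have h1 := hE v hv
  have h2 : FractionalIdeal.count L v (FractionalIdeal.spanSingleton B⁰ ρ) = N * (-m) := by
    linarith
  rw [h2, Int.mul_ediv_cancel_left _ hN0] at h1
  have h3 := congrArg (FractionalIdeal.count L v) hF
  rw [FractionalIdeal.count_pow, FractionalIdeal.count_mul L v E.ne_zero
    (by rwa [Ne, FractionalIdeal.spanSingleton_eq_zero_iff]), h1] at h3
  rw [valuation_eq_count v _ (mul_ne_zero hρ (pow_ne_zero _ hc)), WithZero.exp_inj,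
    count_span_mul v ρ _ hρ (pow_ne_zero _ hc), count_span_pow, h2]
  push_cast
  linear_combination (N : ℤ) * h3

end

/-- KLSTEP from the facts about the pointed affine curve `B` -/
theorem core {C L : Type*} [Field C] [Field L] [Algebra C L] (𝒰 : Set (ValuationSubring L))
    (h𝒰 : ∀ Q ∈ 𝒰, (∀ a : C, algebraMap C L a ∈ Q) ∧ Q ≠ ⊤) (P : ValuationSubring L)
    (B : Subalgebra C L) [IsDedekindDomain B] [IsFractionRing B L]
    (hplace : ∀ Q : ValuationSubring L, ((∀ a : C, algebraMap C L a ∈ Q) ∧ Q ≠ ⊤ ∧ Q ≠ P) ↔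
      ∃ v : HeightOneSpectrum B, Q = (v.valuation L).valuationSubring)
    (hdiv : ∀ (v : HeightOneSpectrum B) (n : ℕ), 1 ≤ n → ∀ ρ : L, ρ ≠ 0 →
      (DivAt n ρ (v.valuation L).valuationSubring ↔
        ∃ m : ℤ, v.valuation L ρ = WithZero.exp ((n : ℤ) * m)))
    (N n : ℕ) (hN : 1 ≤ N) (hn : 1 ≤ n)
    (hcl : ∀ c : ClassGroup B, ∃ c', c' ^ n = c)
    (hP : P ∈ 𝒰 → (∀ v : HeightOneSpectrum B, (v.valuation L).valuationSubring ∈ 𝒰) ∧
      ∀ x : L, x ≠ 0 →
        (∀ v : HeightOneSpectrum B, DivAt (N * n) x (v.valuation L).valuationSubring) →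
        DivAt (N * n) x P)
    (ρ : L) (hρ : ρ ≠ 0) (h : ∀ Q ∈ 𝒰, DivAt N ρ Q) :
    ∃ c : L, c ≠ 0 ∧ ∀ Q ∈ 𝒰, DivAt (N * n) (ρ * c ^ N) Q := by
  have hNn : 1 ≤ N * n := Nat.one_le_iff_ne_zero.2 (by positivity)
  obtain ⟨c, hc, hc2⟩ := step {v : HeightOneSpectrum B | (v.valuation L).valuationSubring ∈ 𝒰}
    N n hN hcl ρ hρ fun v hv => (hdiv v N hN ρ hρ).1 (h _ hv)
  have hρc : ρ * c ^ N ≠ 0 := mul_ne_zero hρ (pow_ne_zero _ hc)
  refine ⟨c, hc, fun Q hQ => ?_⟩
  by_cases hQP : Q = P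
  · subst hQP
    obtain ⟨h1, h2⟩ := hP hQ
    exact h2 _ hρc fun v => (hdiv v _ hNn _ hρc).2 (hc2 v (h1 v))
  · obtain ⟨v, rfl⟩ := (hplace Q).1 ⟨(h𝒰 Q hQ).1, (h𝒰 Q hQ).2, hQP⟩
    exact (hdiv v _ hNn _ hρc).2 (hc2 v hQ)

/-- the degree of a principal divisor is zero: divisibility at the missing point -/
theorem at_missing {C L : Type*} [Field C] [Field L] [Algebra C L] (P : ValuationSubring L)
    (B : Subalgebra C L) [IsDedekindDomain B] [IsFractionRing B L] (d : B → ℕ)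
    (hquot : ∀ x : B, x ≠ 0 → Module.finrank C (B ⧸ Ideal.span {x}) = d x)
    (hmul : ∀ I J : Ideal B, I ≠ ⊥ → J ≠ ⊥ →
      Module.finrank C (B ⧸ I * J) = Module.finrank C (B ⧸ I) + Module.finrank C (B ⧸ J))
    (ϖ : L) (hϖ : ϖ ≠ 0) (hϖ2 : ∀ x : B, x ≠ 0 → P.valuation ((x : L) * ϖ ^ d x) = 1)
    (m : ℕ) (z : L)
    (hz : ∃ (x y : B) (I J : Ideal B), x ≠ 0 ∧ y ≠ 0 ∧ I ≠ ⊥ ∧ J ≠ ⊥ ∧
        z * algebraMap B L y = algebraMap B L x ∧
        Ideal.span {x} * J ^ m = Ideal.span {y} * I ^ m) : DivAt m z P := by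
  obtain ⟨x, y, I, J, hx, hy, hI, hJ, hxy, heq⟩ := hz
  have hpow : ∀ (I : Ideal B), I ≠ ⊥ → ∀ k : ℕ,
      Module.finrank C (B ⧸ I ^ k) = k * Module.finrank C (B ⧸ I) := by
    intro I hI k
    induction k with
    | zero =>
      rw [zero_mul, pow_zero, Ideal.one_eq_top]
      have : Subsingleton (B ⧸ (⊤ : Ideal B)) := Ideal.Quotient.subsingleton_iff.2 rfl
      exact Module.finrank_zero_of_subsingleton
    | succ k ih =>
      rw [pow_succ, hmul _ _ (pow_ne_zero _ hI) hI, ih]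
      ring
  have hsx : (Ideal.span {x} : Ideal B) ≠ ⊥ := by
    rwa [Ne, Ideal.span_singleton_eq_bot]
  have hsy : (Ideal.span {y} : Ideal B) ≠ ⊥ := by
    rwa [Ne, Ideal.span_singleton_eq_bot]
  have h1 : Module.finrank C (B ⧸ Ideal.span {x} * J ^ m) =
      Module.finrank C (B ⧸ Ideal.span {y} * I ^ m) := by rw [heq]
  rw [hmul _ _ hsx (pow_ne_zero _ hJ), hmul _ _ hsy (pow_ne_zero _ hI), hquot x hx, hquot y hy,
    hpow J hJ, hpow I hI] at h1
  set i := Module.finrank C (B ⧸ I)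
  set j := Module.finrank C (B ⧸ J)
  have hyL : (y : L) ≠ 0 := by
    intro h0
    exact hy (Subtype.ext h0)
  have hxL : (x : L) ≠ 0 := by
    intro h0
    exact hx (Subtype.ext h0)
  have hzxy : z = (x : L) / (y : L) := by
    rw [eq_div_iff hyL]
    exact hxy
  refine ⟨ϖ ^ ((j : ℤ) - i), zpow_ne_zero _ hϖ, ?_⟩
  have hkey : z * ((ϖ ^ ((j : ℤ) - i)) ^ m)⁻¹ =
      ((x : L) * ϖ ^ d x) * ((y : L) * ϖ ^ d y)⁻¹ := by
    rw [hzxy, ← zpow_natCast (ϖ ^ ((j : ℤ) - i)) m, ← zpow_mul, mul_inv, ← zpow_natCast ϖ (d x),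
      ← zpow_natCast ϖ (d y), ← zpow_neg, ← zpow_neg]
    have h2 : (d x : ℤ) + m * j = d y + m * i := by exact_mod_cast h1
    have h3 : -(((j : ℤ) - i) * m) = (d x : ℤ) + -(d y : ℤ) := by linear_combination (-1 : ℤ) * h2
    rw [h3, zpow_add₀ hϖ]
    field_simp
  rw [hkey, map_mul, map_inv₀, hϖ2 x hx, hϖ2 y hy, inv_one, mul_one]

end Pool.Agent.Lib.MP_2f3286_ag.Pt.KlStep
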