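import Mathlib
import Pool.Agent.Lib.MP_2f3286_ag.Pt.Defs

/-!
# Power series with coefficients of bounded pole order
-/

open Polynomial IntermediateField IsDedekindDomain
open scoped TensorProduct

namespace Pool.Agent.Lib.MP_2f3286_ag.Pt

theorem conv_tmul {C B : Type*} [Field C] [CommRing B] [Algebra C B] (s : PowerSeries C) (b : B) :
    conv C B (s ⊗ₜ b) = s.map (algebraMap C B) * PowerSeries.C b := by
  rw [conv, Algebra.TensorProduct.lift_tmul]
  rfl

theorem coeff_conv_tmul {C B : Type*} [Field C] [CommRing B] [Algebra C B] (s : PowerSeries C)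
    (b : B) (j : ℕ) : PowerSeries.coeff j (conv C B (s ⊗ₜ b)) = PowerSeries.coeff j s • b := by
  rw [conv_tmul, PowerSeries.coeff_mul_C, PowerSeries.coeff_map, Algebra.smul_def]

theorem conv_injective {C B : Type*} [Field C] [CommRing B] [Algebra C B] :
    Function.Injective (conv C B) := by
  classical
  let b := Module.Basis.ofVectorSpace C B
  let bb := b.baseChange (PowerSeries C)
  have h1 : ∀ (t : PowerSeries C ⊗[C] B) j i,
      PowerSeries.coeff j (bb.repr t i) = b.repr (PowerSeries.coeff j (conv C B t)) i := by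
    intro t j i
    induction t using TensorProduct.induction_on with
    | zero => simp
    | tmul s x =>
      rw [coeff_conv_tmul, map_smul, Finsupp.smul_apply]
      rw [Module.Basis.baseChange_repr_tmul]
      rw [smul_eq_mul, mul_comm, PowerSeries.coeff_smul]
      rfl
    | add x y hx hy =>
      rw [map_add, Finsupp.add_apply, map_add, map_add, map_add, map_add, Finsupp.add_apply, hx, hy]
  rw [injective_iff_map_eq_zero]
  intro t ht
  apply bb.repr.injective
  rw [map_zero]
  ext i j
  rw [h1, ht]
  simp

theorem conv_surj {C B : Type*} [Field C] [CommRing B] [Algebra C B] {d : B → ℕ}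
    (hd : IsPoleDeg C d) (f : PowerSeries B) (N : ℕ) (hN : ∀ j, d (PowerSeries.coeff j f) ≤ N) :
    ∃ t, conv C B t = f := by
  classical
  induction N generalizing f with
  | zero =>
    have h1 : ∀ j, ∃ c : C, PowerSeries.coeff j f = algebraMap C B c := fun j =>
      (hd.const _).1 (Nat.le_zero.mp (hN j))
    choose c hc using h1
    refine ⟨PowerSeries.mk c ⊗ₜ 1, ?_⟩
    ext j
    rw [coeff_conv_tmul, PowerSeries.coeff_mk, hc, Algebra.smul_def, mul_one]
  | succ N ih =>
    by_cases he : ∃ e : B, e ≠ 0 ∧ d e = N + 1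
    · obtain ⟨e, he0, hde⟩ := he
      have h1 : ∀ j, ∃ c : C, d (PowerSeries.coeff j f - c • e) ≤ N := by
        intro j
        obtain ⟨c, hc⟩ := hd.lead (PowerSeries.coeff j f) e he0 (by rw [hde]; exact hN j)
        refine ⟨c, ?_⟩
        rcases hc with hc | hc
        · rw [hc, hd.zero]; exact Nat.zero_le N
        · rw [hde] at hc; omega
      choose c hc using h1
      obtain ⟨t, ht⟩ := ih (f - conv C B (PowerSeries.mk c ⊗ₜ e)) (by
        intro j
        rw [map_sub, coeff_conv_tmul, PowerSeries.coeff_mk]
        exact hc j)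
      refine ⟨t + PowerSeries.mk c ⊗ₜ e, ?_⟩
      rw [map_add, ht, sub_add_cancel]
    · refine ih f fun j => ?_
      by_contra hcon
      have h1 : d (PowerSeries.coeff j f) = N + 1 := by
        have := hN j
        omega
      refine he ⟨_, fun h0 => ?_, h1⟩
      rw [h0, hd.zero] at h1
      omega

theorem evS_eq_zero {C B : Type*} [Field C] [CommRing B] [IsDedekindDomain B]
    [Algebra C B] {L : Type*} [Field L] [Algebra B L] [IsFractionRing B L] [Algebra C L]
    [IsScalarTower C B L] (v : HeightOneSpectrum B) (π : B) (hπ : π ∈ v.asIdeal)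
    (ev : B →ₐ[C] PowerSeries C)
    (hev : ∀ b : B, ∃ ν : PowerSeries L, (∀ j, v.valuation L (PowerSeries.coeff j ν) ≤ 1) ∧
      PowerSeries.C (algebraMap B L b) - (ev b).map (algebraMap C L) =
        (PowerSeries.C (algebraMap B L π) - PowerSeries.X) * ν)
    (t : PowerSeries C ⊗[C] B) (ν : PowerSeries L)
    (hν : ∀ j, v.valuation L (PowerSeries.coeff j ν) ≤ 1)
    (h : (conv C B t).map (algebraMap B L) =
      (PowerSeries.C (algebraMap B L π) - PowerSeries.X) * ν) :
    evS ev t = 0 := by
  classical
  -- constants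
  have hC : ∀ c : C, c ≠ 0 → v.valuation L (algebraMap C L c) = 1 := by
    intro c hc
    have h1 : ∀ c : C, v.valuation L (algebraMap C L c) ≤ 1 := by
      intro c
      rw [IsScalarTower.algebraMap_apply C B L]
      exact v.valuation_le_one _
    refine le_antisymm (h1 c) ?_
    have h2 := h1 c⁻¹
    have h3 : v.valuation L (algebraMap C L c) * v.valuation L (algebraMap C L c⁻¹) = 1 := by
      rw [← map_mul, ← map_mul, mul_inv_cancel₀ hc, map_one, map_one]
    calc (1 : _) = v.valuation L (algebraMap C L c) * v.valuation L (algebraMap C L c⁻¹) := h3.symm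
      _ ≤ v.valuation L (algebraMap C L c) * 1 := mul_le_mul_right h2 _
      _ = _ := mul_one _
  have hC1 : ∀ c : C, v.valuation L (algebraMap C L c) ≤ 1 := by
    intro c
    rw [IsScalarTower.algebraMap_apply C B L]
    exact v.valuation_le_one _
  have hπ1 : v.valuation L (algebraMap B L π) < 1 := v.valuation_lt_one_iff_mem π |>.2 hπ
  have hsmall : ∀ (c : C) (x : L), v.valuation L x ≤ 1 → algebraMap C L c = algebraMap B L π * x →
      c = 0 := by
    intro c x hx he
    by_contra hc
    have h1 := hC c hc
    rw [he, map_mul] at h1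
    have h2 : v.valuation L (algebraMap B L π) * v.valuation L x < 1 :=
      mul_lt_one_of_lt_of_le hπ1 hx
    exact absurd h1 h2.ne
  have hint : ∀ f g : PowerSeries L, (∀ j, v.valuation L (PowerSeries.coeff j f) ≤ 1) →
      (∀ j, v.valuation L (PowerSeries.coeff j g) ≤ 1) →
      ∀ j, v.valuation L (PowerSeries.coeff j (f * g)) ≤ 1 := by
    intro f g hf hg j
    rw [PowerSeries.coeff_mul]
    refine Valuation.map_sum_le _ fun p _ => ?_
    rw [map_mul]
    exact mul_le_one' (hf _) (hg _)
  have hcoef : ∀ (μ : PowerSeries L) (j : ℕ), PowerSeries.coeff (j + 1)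
      ((PowerSeries.C (algebraMap B L π) - PowerSeries.X) * μ) =
      algebraMap B L π * PowerSeries.coeff (j + 1) μ - PowerSeries.coeff j μ := by
    intro μ j
    rw [sub_mul, map_sub, PowerSeries.coeff_C_mul, PowerSeries.coeff_succ_X_mul]
  have hcoef0 : ∀ (μ : PowerSeries L), PowerSeries.coeff 0
      ((PowerSeries.C (algebraMap B L π) - PowerSeries.X) * μ) =
      algebraMap B L π * PowerSeries.coeff 0 μ := by
    intro μ
    rw [sub_mul, map_sub, PowerSeries.coeff_C_mul, PowerSeries.coeff_zero_X_mul, sub_zero]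
  have hinj : Function.Injective (algebraMap B L) := IsFractionRing.injective B L
  have hπ0 : π ≠ 0 := by
    rintro rfl
    obtain ⟨b, hb, hb0⟩ := Submodule.exists_mem_ne_zero_of_ne_bot v.ne_bot
    obtain ⟨μ, -, hμ⟩ := hev b
    have h1 := congrArg (PowerSeries.coeff 0) hμ
    rw [hcoef0, map_zero, zero_mul, map_sub, PowerSeries.coeff_zero_C, PowerSeries.coeff_map,
      sub_eq_zero] at h1
    have h2 : v.valuation L (algebraMap B L b) < 1 := (v.valuation_lt_one_iff_mem b).2 hb
    rw [h1] at h2
    by_cases hc : PowerSeries.coeff 0 (ev b) = 0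
    · rw [hc, map_zero] at h1
      exact hb0 (hinj (by rw [h1, map_zero]))
    · exact absurd (hC _ hc) h2.ne
  -- the difference
  have hdiff : ∀ t : PowerSeries C ⊗[C] B, ∃ μ : PowerSeries L,
      (∀ j, v.valuation L (PowerSeries.coeff j μ) ≤ 1) ∧
      (conv C B t).map (algebraMap B L) - (evS ev t).map (algebraMap C L) =
        (PowerSeries.C (algebraMap B L π) - PowerSeries.X) * μ := by
    intro t
    induction t using TensorProduct.induction_on with
    | zero => exact ⟨0, by simp, by simp⟩
    | tmul s b =>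
      obtain ⟨μ, h1, h2⟩ := hev b
      refine ⟨s.map (algebraMap C L) * μ, hint _ _ (fun j => ?_) h1, ?_⟩
      · rw [PowerSeries.coeff_map]; exact hC1 _
      · have h3 : (conv C B (s ⊗ₜ b)).map (algebraMap B L) =
            s.map (algebraMap C L) * PowerSeries.C (algebraMap B L b) := by
          rw [conv_tmul, map_mul, PowerSeries.map_C]
          congr 1
          ext j
          rw [PowerSeries.coeff_map, PowerSeries.coeff_map, PowerSeries.coeff_map,
            ← IsScalarTower.algebraMap_apply]
        have h4 : evS ev (s ⊗ₜ b) = s * ev b := by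
          rw [evS, Algebra.TensorProduct.lift_tmul]; rfl
        rw [h3, h4, map_mul, ← mul_sub, h2]
        ring
    | add x y hx hy =>
      obtain ⟨μ, h1, h2⟩ := hx
      obtain ⟨μ', h1', h2'⟩ := hy
      refine ⟨μ + μ', fun j => ?_, ?_⟩
      · rw [map_add]; exact Valuation.map_add_le _ (h1 j) (h1' j)
      · rw [mul_add, ← h2, ← h2', map_add, map_add, map_add, map_add]
        ring
  obtain ⟨μ, hμ1, hμ2⟩ := hdiff t
  have hmain : (evS ev t).map (algebraMap C L) =
      (PowerSeries.C (algebraMap B L π) - PowerSeries.X) * (ν - μ) := by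
    rw [mul_sub, ← hμ2, ← h]; ring
  have hint' : ∀ j, v.valuation L (PowerSeries.coeff j (ν - μ)) ≤ 1 := by
    intro j
    rw [map_sub]
    exact (Valuation.map_sub _ _ _).trans (max_le (hν j) (hμ1 j))
  have hπL : algebraMap B L π ≠ 0 := fun h0 => hπ0 (hinj (by rw [h0, map_zero]))
  have hall : ∀ j, PowerSeries.coeff j (evS ev t) = 0 ∧ PowerSeries.coeff j (ν - μ) = 0 := by
    intro j
    induction j with
    | zero =>
      have h1 := congrArg (PowerSeries.coeff 0) hmain
      rw [hcoef0, PowerSeries.coeff_map] at h1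
      have h2 := hsmall _ _ (hint' 0) h1
      refine ⟨h2, ?_⟩
      rw [h2, map_zero] at h1
      exact (mul_eq_zero.mp h1.symm).resolve_left hπL
    | succ j ih =>
      have h1 := congrArg (PowerSeries.coeff (j + 1)) hmain
      rw [hcoef, PowerSeries.coeff_map, ih.2, sub_zero] at h1
      have h2 := hsmall _ _ (hint' (j + 1)) h1
      refine ⟨h2, ?_⟩
      rw [h2, map_zero] at h1
      exact (mul_eq_zero.mp h1.symm).resolve_left hπL
  ext j
  rw [(hall j).1, map_zero]

end Pool.Agent.Lib.MP_2f3286_ag.Pt
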