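import Pool.Agent.Lib.MP_2f3286_ag.Pt.Defs

/-!
# Module NAK: two power series of bounded pole order generate the unit ideal
-/

open Polynomial IntermediateField IsDedekindDomain
open scoped TensorProduct

namespace Pool.Agent.Lib.MP_2f3286_ag.Pt

namespace Nak

section

variable {C B : Type*} [Field C] [CommRing B] [IsDomain B] [Algebra C B] {d : B → ℕ}

omit [IsDomain B] in
theorem d_mul_le (hd : IsPoleDeg C d) (x y : B) : d (x * y) ≤ d x + d y := by
  by_cases hx : x = 0
  · rw [hx, zero_mul, hd.zero]; exact Nat.zero_le _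
  by_cases hy : y = 0
  · rw [hy, mul_zero, hd.zero]; exact Nat.zero_le _
  exact (hd.mul x y hx hy).le

omit [IsDomain B] in
theorem d_one (hd : IsPoleDeg C d) : d (1 : B) = 0 :=
  (hd.const 1).2 ⟨1, by rw [map_one]⟩

/-- Division by `w` with a remainder of bounded pole order. -/
theorem exists_div (hd : IsPoleDeg C d) (w : B) (hw : w ≠ 0) :
    ∃ M : ℕ, ∀ y : B, ∃ r a : B, y = r + w * a ∧ d r ≤ M ∧ (a = 0 ∨ d a + d w ≤ d y) := by
  obtain ⟨n₀, hn₀⟩ := hd.large
  refine ⟨d w + n₀, ?_⟩
  intro y
  induction hy : d y using Nat.strong_induction_on generalizing y with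
  | _ m IH =>
    by_cases hm : m ≤ d w + n₀
    · exact ⟨y, 0, by ring, by rw [hy]; exact hm, Or.inl rfl⟩
    · obtain ⟨x, hx0, hx⟩ := hn₀ (m - d w) (by omega)
      have hwx : w * x ≠ 0 := mul_ne_zero hw hx0
      have hdwx : d (w * x) = m := by rw [hd.mul w x hw hx0, hx]; omega
      obtain ⟨c, hc⟩ := hd.lead y (w * x) hwx (by rw [hdwx, hy])
      have hcx : d (c • x) ≤ d x := (W hd (d x)).smul_mem c (le_refl (d x))
      rcases hc with hc | hc
      · refine ⟨0, c • x, ?_, by rw [hd.zero]; exact Nat.zero_le _, Or.inr (by omega)⟩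
        rw [sub_eq_zero] at hc
        rw [zero_add, mul_smul_comm]
        exact hc
      · rw [hdwx] at hc
        obtain ⟨r, a, h1, h2, h3⟩ := IH _ hc _ rfl
        refine ⟨r, a + c • x, ?_, h2, Or.inr ?_⟩
        · rw [mul_add, mul_smul_comm, ← add_assoc, ← h1]; ring
        · have h4 := hd.add a (c • x)
          rcases h3 with h3 | h3
          · rw [h3, zero_add]; omega
          · have : max (d a) (d (c • x)) ≤ m - d w := max_le (by omega) (by omega)
            omega

/-- The coefficients of the two cofactors. -/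
noncomputable def seq (R A : B → B) (b₀ b₁ : PowerSeries B) : ℕ → B × B
  | j =>
    let y : B := (if j = 0 then 1 else 0) -
      ∑ k : Fin j, PowerSeries.coeff ((k : ℕ) + 1) b₀ * (seq R A b₀ b₁ (j - ((k : ℕ) + 1))).1 -
      ∑ k : Fin j, PowerSeries.coeff ((k : ℕ) + 1) b₁ * (seq R A b₀ b₁ (j - ((k : ℕ) + 1))).2
    (R y, A y)
  termination_by j => j
  decreasing_by all_goals omega

omit [IsDomain B] in
theorem coeff_mul_split (f g : PowerSeries B) (j : ℕ) :
    PowerSeries.coeff j (f * g) = PowerSeries.constantCoeff f * PowerSeries.coeff j g +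
      ∑ k : Fin j, PowerSeries.coeff ((k : ℕ) + 1) f * PowerSeries.coeff (j - ((k : ℕ) + 1)) g := by
  cases j with
  | zero => simp
  | succ i =>
    rw [PowerSeries.coeff_mul, Finset.Nat.sum_antidiagonal_succ,
      PowerSeries.coeff_zero_eq_constantCoeff_apply,
      Finset.Nat.sum_antidiagonal_eq_sum_range_succ
        (fun a c => PowerSeries.coeff (a + 1) f * PowerSeries.coeff c g) i,
      Fin.sum_univ_eq_sum_range
        (fun k => PowerSeries.coeff (k + 1) f * PowerSeries.coeff (i + 1 - (k + 1)) g) (i + 1)]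
    congr 1
    refine Finset.sum_congr rfl fun k _ => ?_
    rw [Nat.add_sub_add_right]

end

end Nak

open Nak in
theorem exists_bezout {C B : Type*} [Field C] [CommRing B] [IsDomain B] [Algebra C B] {d : B → ℕ}
    (hd : IsPoleDeg C d) (b₀ b₁ : PowerSeries B) (h0 : PowerSeries.constantCoeff b₀ = 1)
    (N : ℕ) (hN : ∀ j, d (PowerSeries.coeff j b₀) ≤ N) (w : B) (hw : w ≠ 0)
    (h1 : PowerSeries.constantCoeff b₁ = w)
    (h1' : ∀ j, 1 ≤ j → d (PowerSeries.coeff j b₁) < d w) :
    ∃ (u v : PowerSeries B) (N' : ℕ), (∀ j, d (PowerSeries.coeff j u) ≤ N') ∧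
      (∀ j, d (PowerSeries.coeff j v) ≤ N') ∧ b₀ * u + b₁ * v = 1 := by
  obtain ⟨M, hM⟩ := exists_div hd w hw
  choose R A hRA hR hA using hM
  set s : ℕ → B × B := seq R A b₀ b₁ with hs
  set y : ℕ → B := fun j => (if j = 0 then 1 else 0) -
      ∑ k : Fin j, PowerSeries.coeff ((k : ℕ) + 1) b₀ * (s (j - ((k : ℕ) + 1))).1 -
      ∑ k : Fin j, PowerSeries.coeff ((k : ℕ) + 1) b₁ * (s (j - ((k : ℕ) + 1))).2 with hy
  have hsy : ∀ j, s j = (R (y j), A (y j)) := by
    intro j
    rw [hs, seq]
  have hD : 0 < d w := lt_of_le_of_lt (Nat.zero_le _) (h1' 1 le_rfl)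
  -- bounds
  have hbound : ∀ j, d (s j).1 ≤ M ∧ d (s j).2 ≤ N + M := by
    intro j
    induction j using Nat.strong_induction_on with
    | _ j IH =>
      have hyj : d (y j) ≤ d w - 1 + (N + M) := by
        change y j ∈ W hd (d w - 1 + (N + M))
        rw [hy]
        refine Submodule.sub_mem _ (Submodule.sub_mem _ ?_ ?_) ?_
        · split_ifs
          · change d (1 : B) ≤ _
            rw [d_one hd]; exact Nat.zero_le _
          · exact Submodule.zero_mem _
        · refine Submodule.sum_mem _ fun k _ => ?_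
          change d _ ≤ _
          refine (d_mul_le hd _ _).trans ?_
          have h2 := (IH (j - ((k : ℕ) + 1)) (by have := k.2; omega)).1
          have h3 := hN ((k : ℕ) + 1)
          omega
        · refine Submodule.sum_mem _ fun k _ => ?_
          change d _ ≤ _
          refine (d_mul_le hd _ _).trans ?_
          have h2 := (IH (j - ((k : ℕ) + 1)) (by have := k.2; omega)).2
          have h3 := h1' ((k : ℕ) + 1) (by omega)
          omega
      rw [hsy]
      refine ⟨hR _, ?_⟩
      rcases hA (y j) with h2 | h2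
      · change d (A (y j)) ≤ _
        rw [h2, hd.zero]; exact Nat.zero_le _
      · change d (A (y j)) ≤ _
        omega
  refine ⟨PowerSeries.mk fun j => (s j).1, PowerSeries.mk fun j => (s j).2, N + M, ?_, ?_, ?_⟩
  · intro j
    rw [PowerSeries.coeff_mk]
    have := (hbound j).1
    omega
  · intro j
    rw [PowerSeries.coeff_mk]
    exact (hbound j).2
  · ext j
    rw [map_add, coeff_mul_split, coeff_mul_split, h0, h1, one_mul, PowerSeries.coeff_one]
    simp only [PowerSeries.coeff_mk]
    have h2 := hRA (y j)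
    have h3 : (s j).1 = R (y j) := by rw [hsy]
    have h4 : (s j).2 = A (y j) := by rw [hsy]
    rw [h3, h4]
    have h5 : y j = (if j = 0 then 1 else 0) -
      ∑ k : Fin j, PowerSeries.coeff ((k : ℕ) + 1) b₀ * (s (j - ((k : ℕ) + 1))).1 -
      ∑ k : Fin j, PowerSeries.coeff ((k : ℕ) + 1) b₁ * (s (j - ((k : ℕ) + 1))).2 := rfl
    have h6 := h2.symm.trans h5
    linear_combination h6

end Pool.Agent.Lib.MP_2f3286_ag.Pt
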