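import Mathlib
import Pool.Agent.Lib.MP_2f3286_ag.Pt.Defs
import Pool.Agent.Lib.MP_2f3286_ag.Pt.PB1
import Pool.Agent.Lib.MP_2f3286_ag.Pt.PB2

/-!
# Principal parts with one pole at a prescribed point and bounded pole order at infinity
-/

open Polynomial IntermediateField IsDedekindDomain
open scoped TensorProduct

set_option linter.unusedSectionVars false

namespace Pool.Agent.Lib.MP_2f3286_ag.Pt

namespace PP

section

variable {C B : Type*} [Field C] [CommRing B] [IsDomain B] [Algebra C B]
  {d : B → ℕ} (hd : IsPoleDeg C d)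

include hd

theorem d_one : d 1 = 0 := (hd.const 1).2 ⟨1, (map_one _).symm⟩

theorem d_mul_le (x y : B) : d (x * y) ≤ d x + d y := by
  by_cases hx : x = 0
  · rw [hx, zero_mul, hd.zero]; exact Nat.zero_le _
  by_cases hy : y = 0
  · rw [hy, mul_zero, hd.zero]; exact Nat.zero_le _
  exact (hd.mul x y hx hy).le

end

theorem codim_le {C B : Type*} [Field C] [CommRing B] [Algebra C B] (V : Submodule C B)
    [Module.Finite C V] (I J : Ideal B) (hIJ : I ≤ J) [Module.Finite C (B ⧸ I)] :
    Module.finrank C (V ⊓ J.restrictScalars C : Submodule C B) + Module.finrank C (B ⧸ J) ≤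
      Module.finrank C (V ⊓ I.restrictScalars C : Submodule C B) + Module.finrank C (B ⧸ I) := by
  have hfin : ∀ K : Ideal B, Module.Finite C (V ⊓ K.restrictScalars C : Submodule C B) :=
    fun K => Module.Finite.of_injective (Submodule.inclusion inf_le_left)
      (Submodule.inclusion_injective _)
  set φ : (V ⊓ J.restrictScalars C : Submodule C B) →ₗ[C] B ⧸ I :=
    (Ideal.Quotient.mkₐ C I).toLinearMap.comp (Submodule.subtype _) with hφ
  set ψ : B ⧸ I →ₗ[C] B ⧸ J := (Ideal.Quotient.factorₐ C hIJ).toLinearMap with hψ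
  have h1 := LinearMap.finrank_range_add_finrank_ker φ
  have h2 := LinearMap.finrank_range_add_finrank_ker ψ
  have h3 : LinearMap.range ψ = ⊤ := by
    rw [LinearMap.range_eq_top]
    intro y
    obtain ⟨b, rfl⟩ := Ideal.Quotient.mk_surjective y
    exact ⟨Ideal.Quotient.mk I b, rfl⟩
  have h4 : LinearMap.range φ ≤ LinearMap.ker ψ := by
    rintro _ ⟨x, rfl⟩
    rw [LinearMap.mem_ker]
    have hx : (x : B) ∈ J := x.2.2
    change Ideal.Quotient.factorₐ C hIJ (Ideal.Quotient.mk I (x : B)) = 0
    exact (Ideal.Quotient.eq_zero_iff_mem.2 hx)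
  have h5 : Module.finrank C (LinearMap.ker φ) ≤
      Module.finrank C (V ⊓ I.restrictScalars C : Submodule C B) := by
    have h6 : ∀ x : LinearMap.ker φ, ((x : (V ⊓ J.restrictScalars C : Submodule C B)) : B) ∈
        (V ⊓ I.restrictScalars C : Submodule C B) := by
      intro x
      refine ⟨(x : (V ⊓ J.restrictScalars C : Submodule C B)).2.1, ?_⟩
      have h7 := x.2
      rw [LinearMap.mem_ker] at h7
      exact Ideal.Quotient.eq_zero_iff_mem.1 h7
    refine LinearMap.finrank_le_finrank_of_injective (f := LinearMap.codRestrict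
      (V ⊓ I.restrictScalars C : Submodule C B)
      ((Submodule.subtype _).comp (Submodule.subtype (LinearMap.ker φ))) h6) ?_
    intro x y hxy
    apply Subtype.ext
    apply Subtype.ext
    exact congrArg (fun z : (V ⊓ I.restrictScalars C : Submodule C B) => (z : B)) hxy
  have h6 : Module.finrank C (LinearMap.range φ) ≤ Module.finrank C (LinearMap.ker ψ) :=
    Submodule.finrank_mono h4
  rw [h3, finrank_top] at h2
  omega

section

variable {C B : Type*} [Field C] [IsAlgClosed C] [CommRing B] [IsDedekindDomain B] [Algebra C B]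
  {d : B → ℕ} (hd : IsPoleDeg C d)

include hd

theorem span_le (x : B) (hx : x ≠ 0) (m : ℕ) :
    Module.finrank C ((W hd (m + d x)) ⊓ (Ideal.span {x}).restrictScalars C : Submodule C B) ≤
      Module.finrank C (W hd m) := by
  have := pd_W_finite hd m
  have h1 : ((W hd (m + d x)) ⊓ (Ideal.span {x}).restrictScalars C : Submodule C B) ≤
      (W hd m).map (LinearMap.mulLeft C x) := by
    rintro y ⟨hy1, hy2⟩
    obtain ⟨b, rfl⟩ := Ideal.mem_span_singleton'.1 hy2
    refine ⟨b, ?_, mul_comm _ _⟩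
    change d b ≤ m
    change d (b * x) ≤ m + d x at hy1
    by_cases hb : b = 0
    · rw [hb, hd.zero]; exact Nat.zero_le _
    rw [hd.mul b x hb hx] at hy1
    omega
  exact (Submodule.finrank_mono h1).trans (Submodule.finrank_map_le _ _)

/-- elements generating an ideal at a prime, of bounded pole order -/
theorem exists_local_gen : ∃ m₀, ∀ (P I : Ideal B) [P.IsMaximal], P ≠ ⊥ → I ≠ ⊥ → ∀ x : B,
    x ≠ 0 → x ∈ P * I → ∃ a, a ∈ I ∧ a ∉ P * I ∧ d a ≤ m₀ + d x := by
  obtain ⟨g, n₀, -, hg⟩ := pd_W_finrank hd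
  refine ⟨n₀, fun P I _ hP hI x hx hxI => ?_⟩
  by_contra hcon
  push Not at hcon
  have hPI : P * I ≠ ⊥ := by
    rw [Ne, Ideal.mul_eq_bot, not_or]
    exact ⟨hP, hI⟩
  have hxs : Ideal.span {x} ≠ (⊥ : Ideal B) := by
    rwa [Ne, Ideal.span_singleton_eq_bot]
  have := pd_W_finite hd (n₀ + d x)
  have := pd_finite hd _ hxs
  have h1 := pd_codim hd I hI (n₀ + d x)
  have h2 : ((W hd (n₀ + d x)) ⊓ I.restrictScalars C : Submodule C B) ≤
      ((W hd (n₀ + d x)) ⊓ (P * I).restrictScalars C : Submodule C B) := by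
    rintro a ⟨ha1, ha2⟩
    refine ⟨ha1, ?_⟩
    by_contra ha3
    have := hcon a ha2 ha3
    change d a ≤ n₀ + d x at ha1
    omega
  have : Module.Finite C ((W hd (n₀ + d x)) ⊓ (P * I).restrictScalars C : Submodule C B) :=
    Module.Finite.of_injective (Submodule.inclusion inf_le_left)
      (Submodule.inclusion_injective _)
  have h3 := Submodule.finrank_mono h2
  have h4 := codim_le (W hd (n₀ + d x)) (Ideal.span {x}) (P * I)
    ((Ideal.span_singleton_le_iff_mem _).2 hxI)
  have h5 := pd_mul hd P I hP hI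
  have h6 := pd_max hd P hP
  have h7 := span_le hd x hx n₀
  have h8 := (pd_quot hd x hx).2
  have h9 := hg n₀ le_rfl
  have h10 := hg (n₀ + d x) (Nat.le_add_right _ _)
  omega

end

end PP

section

variable {C B : Type*} [Field C] [IsAlgClosed C] [CommRing B] [IsDedekindDomain B] [Algebra C B]
  {d : B → ℕ} (hd : IsPoleDeg C d) {L : Type*} [Field L] [Algebra B L] [IsFractionRing B L]

include hd

theorem dle_add (m : ℕ) (x y : L) (hx : DLe d m x) (hy : DLe d m y) : DLe d m (x + y) := by
  obtain ⟨a, b, hb, hab, hd1⟩ := hx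
  obtain ⟨a', b', hb', hab', hd2⟩ := hy
  refine ⟨a * b' + a' * b, b * b', mul_ne_zero hb hb', ?_, ?_⟩
  · rw [map_add, map_mul, map_mul, map_mul, ← hab, ← hab']
    ring
  · rw [hd.mul b b' hb hb']
    have h1 := PP.d_mul_le hd a b'
    have h2 := PP.d_mul_le hd a' b
    have h3 := hd.add (a * b') (a' * b)
    omega

theorem dle_mul (m m' : ℕ) (x y : L) (hx : DLe d m x) (hy : DLe d m' y) :
    DLe d (m + m') (x * y) := by
  obtain ⟨a, b, hb, hab, hd1⟩ := hx
  obtain ⟨a', b', hb', hab', hd2⟩ := hy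
  refine ⟨a * a', b * b', mul_ne_zero hb hb', ?_, ?_⟩
  · rw [map_mul, map_mul, ← hab, ← hab']
    ring
  · rw [hd.mul b b' hb hb']
    have h1 := PP.d_mul_le hd a a'
    omega

theorem dle_alg (m : ℕ) (x : B) : DLe d m (algebraMap B L x) ↔ d x ≤ m := by
  constructor
  · rintro ⟨a, b, hb, hab, hd1⟩
    by_cases hx : x = 0
    · rw [hx, hd.zero]; exact Nat.zero_le _
    have h1 : x * b = a := by
      apply IsFractionRing.injective B L
      rw [map_mul, hab]
    rw [← h1, hd.mul x b hx hb] at hd1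
    omega
  · intro h
    refine ⟨x, 1, one_ne_zero, by rw [map_one, mul_one], ?_⟩
    rw [PP.d_one hd]
    omega

end

namespace PP

section

variable {C B : Type*} [Field C] [IsAlgClosed C] [CommRing B] [IsDedekindDomain B] [Algebra C B]
  {d : B → ℕ} (hd : IsPoleDeg C d) {L : Type*} [Field L] [Algebra B L] [IsFractionRing B L]

include hd

/-- the residue fields are `C` -/
theorem exists_const (v : HeightOneSpectrum B) (b : B) :
    ∃ c : C, b - algebraMap C B c ∈ v.asIdeal := by
  have h1 := pd_max hd v.asIdeal v.ne_bot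
  have := pd_finite hd v.asIdeal v.ne_bot
  have : Algebra.IsIntegral C (B ⧸ v.asIdeal) := Algebra.IsIntegral.of_finite C (B ⧸ v.asIdeal)
  obtain ⟨c, hc⟩ := IsAlgClosed.algebraMap_bijective_of_isIntegral (k := C)
    (K := B ⧸ v.asIdeal) |>.2 (Ideal.Quotient.mk _ b)
  refine ⟨c, ?_⟩
  rw [← Ideal.Quotient.eq_zero_iff_mem, map_sub, ← hc, sub_eq_zero]
  rfl

theorem exists_const_frac (v : HeightOneSpectrum B) (x : L) (hx : v.valuation L x ≤ 1) :
    ∃ c : C, v.valuation L (x - algebraMap B L (algebraMap C B c)) < 1 := by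
  obtain ⟨a, ha⟩ := v.exists_valuation_sub_lt_of_integer hx 1
  obtain ⟨c, hc⟩ := exists_const hd v a
  refine ⟨c, ?_⟩
  have h1 : x - algebraMap B L (algebraMap C B c) =
      algebraMap B L (a - algebraMap C B c) - (algebraMap B L a - x) := by
    rw [map_sub]; ring
  rw [h1]
  refine lt_of_le_of_lt (Valuation.map_sub _ _ _) (max_lt ?_ ?_)
  · rw [HeightOneSpectrum.valuation_lt_one_iff_mem]
    exact hc
  · simpa using ha

/-- an element with a pole of exact order `j + 1` at `v` and no other pole -/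
theorem exists_pole (m₀ : ℕ) (hm₀ : ∀ (P I : Ideal B) [P.IsMaximal], P ≠ ⊥ → I ≠ ⊥ → ∀ x : B,
    x ≠ 0 → x ∈ P * I → ∃ a, a ∈ I ∧ a ∉ P * I ∧ d a ≤ m₀ + d x) (v : HeightOneSpectrum B)
    (j : ℕ) : ∃ a b : B, b ≠ 0 ∧ d a ≤ d b + m₀ ∧
      (∀ w : HeightOneSpectrum B, w ≠ v → w.valuation L (algebraMap B L a / algebraMap B L b) ≤ 1) ∧
      v.valuation L (algebraMap B L a / algebraMap B L b) = WithZero.exp ((j : ℤ) + 1) := by
  have hpow : v.asIdeal ^ (j + 1) ≠ ⊥ := pow_ne_zero _ v.ne_bot
  obtain ⟨b, hb1, hb⟩ := Submodule.exists_mem_ne_zero_of_ne_bot hpow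
  obtain ⟨I, hI⟩ := Ideal.dvd_iff_le.2 ((Ideal.span_singleton_le_iff_mem _).2 hb1)
  have hI0 : I ≠ ⊥ := by
    rintro rfl
    rw [Ideal.mul_bot, Ideal.span_singleton_eq_bot] at hI
    exact hb hI
  have hbI : b ∈ v.asIdeal * I := by
    have h1 : b ∈ v.asIdeal ^ (j + 1) * I := by
      rw [← hI]; exact Ideal.mem_span_singleton_self b
    exact Ideal.mul_mono_left (Ideal.pow_le_self (Nat.succ_ne_zero j)) h1
  obtain ⟨a, haI, haI', hd1⟩ := hm₀ v.asIdeal I v.ne_bot hI0 b hb hbI
  have ha0 : a ≠ 0 := by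
    rintro rfl
    exact haI' (Ideal.zero_mem _)
  -- multiplying `a` with the power of the prime gives multiples of `b`
  have hmul : ∀ t ∈ v.asIdeal ^ (j + 1), ∃ r, t * a = b * r := by
    intro t ht
    have h1 : t * a ∈ Ideal.span {b} := by
      rw [hI]; exact Ideal.mul_mem_mul ht haI
    obtain ⟨r, hr⟩ := Ideal.mem_span_singleton'.1 h1
    exact ⟨r, by rw [← hr, mul_comm]⟩
  have hbL : algebraMap B L b ≠ 0 := by
    rw [Ne, IsFractionRing.to_map_eq_zero_iff]; exact hb
  have haL : algebraMap B L a ≠ 0 := by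
    rw [Ne, IsFractionRing.to_map_eq_zero_iff]; exact ha0
  refine ⟨a, b, hb, by omega, ?_, ?_⟩
  · intro w hw
    have hne : ¬ v.asIdeal ^ (j + 1) ≤ w.asIdeal := by
      intro h
      have h1 : v.asIdeal ≤ w.asIdeal := w.isPrime.le_of_pow_le h
      exact hw (HeightOneSpectrum.ext ((v.isMaximal.eq_of_le w.isPrime.ne_top h1).symm))
    obtain ⟨t, ht, htw⟩ := SetLike.not_le_iff_exists.1 hne
    obtain ⟨r, hr⟩ := hmul t ht
    have h2 : w.valuation L (algebraMap B L t) = 1 :=
      (HeightOneSpectrum.valuation_eq_one_iff_notMem (v := w)).2 htw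
    have h3 : algebraMap B L a / algebraMap B L b = algebraMap B L r / algebraMap B L t := by
      have ht0 : algebraMap B L t ≠ 0 := by
        intro h
        rw [h, map_zero] at h2
        exact zero_ne_one h2
      rw [div_eq_div_iff hbL ht0, ← map_mul, ← map_mul, mul_comm a t, hr, mul_comm]
    rw [h3, map_div₀, h2, div_one]
    exact HeightOneSpectrum.valuation_le_one _ _
  · have hvb : v.valuation L (algebraMap B L b) ≠ 0 := (Valuation.ne_zero_iff _).2 hbL
    have hva : v.valuation L (algebraMap B L a) ≠ 0 := (Valuation.ne_zero_iff _).2 haL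
    rw [map_div₀]
    apply le_antisymm
    · -- take an element of exact order `j + 1`
      obtain ⟨t, ht, ht2⟩ := Ideal.exists_mem_pow_notMem_pow_succ v.asIdeal v.ne_bot
        v.isPrime.ne_top (j + 1)
      obtain ⟨r, hr⟩ := hmul t ht
      have h2 : WithZero.exp (-((j : ℤ) + 1)) ≤ v.valuation L (algebraMap B L t) := by
        rw [HeightOneSpectrum.valuation_of_algebraMap]
        by_contra h
        push Not at h
        apply ht2
        rw [← HeightOneSpectrum.intValuation_le_pow_iff_mem]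
        by_cases ht0 : v.intValuation t = 0
        · rw [ht0]; exact zero_le
        rw [← WithZero.exp_log ht0] at h ⊢
        rw [WithZero.exp_lt_exp] at h
        rw [WithZero.exp_le_exp]
        push_cast
        omega
      have h3 : v.valuation L (algebraMap B L t) * v.valuation L (algebraMap B L a) ≤
          v.valuation L (algebraMap B L b) := by
        rw [← map_mul, ← map_mul, hr, map_mul, map_mul]
        exact mul_le_of_le_one_right' (HeightOneSpectrum.valuation_le_one _ _)
      rw [div_le_iff₀ (zero_lt_iff.2 hvb)]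
      have h4 : WithZero.exp (-((j : ℤ) + 1)) * v.valuation L (algebraMap B L a) ≤
          v.valuation L (algebraMap B L b) := (mul_le_mul_left h2 _).trans h3
      have h5 : v.valuation L (algebraMap B L a) = WithZero.exp ((j : ℤ) + 1) *
          (WithZero.exp (-((j : ℤ) + 1)) * v.valuation L (algebraMap B L a)) := by
        rw [← mul_assoc, ← WithZero.exp_add, add_neg_cancel, WithZero.exp_zero, one_mul]
      rw [h5]
      exact mul_le_mul_right h4 _
    · -- `(a) = I * K` with `K` not in `v`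
      obtain ⟨K, hK⟩ := Ideal.dvd_iff_le.2 ((Ideal.span_singleton_le_iff_mem I).2 haI)
      have hKv : ¬ K ≤ v.asIdeal := by
        intro h
        apply haI'
        have h1 : a ∈ I * K := by rw [← hK]; exact Ideal.mem_span_singleton_self a
        rw [mul_comm]
        exact Ideal.mul_mono_right h h1
      obtain ⟨s, hs, hsv⟩ := SetLike.not_le_iff_exists.1 hKv
      have h1 : b * s ∈ v.asIdeal ^ (j + 1) * Ideal.span {a} := by
        rw [hK, ← mul_assoc, ← hI]
        exact Ideal.mul_mem_mul (Ideal.mem_span_singleton_self b) hs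
      obtain ⟨t, ht, hta⟩ := Ideal.mem_mul_span_singleton.1 h1
      have h2 : v.valuation L (algebraMap B L s) = 1 :=
        (HeightOneSpectrum.valuation_eq_one_iff_notMem (v := v)).2 hsv
      have h3 : v.valuation L (algebraMap B L t) ≤ WithZero.exp (-((j : ℤ) + 1)) := by
        rw [HeightOneSpectrum.valuation_of_algebraMap]
        have := (HeightOneSpectrum.intValuation_le_pow_iff_mem (v := v) t (j + 1)).2 ht
        push_cast at this
        exact this
      have h4 : v.valuation L (algebraMap B L b) = v.valuation L (algebraMap B L t) *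
          v.valuation L (algebraMap B L a) := by
        rw [← map_mul, ← map_mul, hta, map_mul, map_mul, h2, mul_one]
      rw [le_div_iff₀ (zero_lt_iff.2 hvb), h4, ← mul_assoc]
      have h5 : WithZero.exp ((j : ℤ) + 1) * v.valuation L (algebraMap B L t) ≤ 1 := by
        calc _ ≤ WithZero.exp ((j : ℤ) + 1) * WithZero.exp (-((j : ℤ) + 1)) :=
              mul_le_mul_right h3 _
          _ = 1 := by rw [← WithZero.exp_add, add_neg_cancel, WithZero.exp_zero]
      calc _ ≤ 1 * v.valuation L (algebraMap B L a) := mul_le_mul_left h5 _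
        _ = _ := one_mul _

theorem pp_aux (m₀ : ℕ) (hm₀ : ∀ (P I : Ideal B) [P.IsMaximal], P ≠ ⊥ → I ≠ ⊥ → ∀ x : B,
    x ≠ 0 → x ∈ P * I → ∃ a, a ∈ I ∧ a ∉ P * I ∧ d a ≤ m₀ + d x) (v : HeightOneSpectrum B)
    (j : ℕ) : ∀ x : L, v.valuation L x ≤ WithZero.exp (j : ℤ) → ∃ y : L,
    (∀ w : HeightOneSpectrum B, w ≠ v → w.valuation L y ≤ 1) ∧ v.valuation L (x - y) ≤ 1 ∧
    DLe d m₀ y := by
  induction j with
  | zero =>
    intro x hx
    refine ⟨0, fun w _ => by rw [map_zero]; exact zero_le, by simpa using hx, ?_⟩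
    refine ⟨0, 1, one_ne_zero, by simp, ?_⟩
    rw [hd.zero]
    exact Nat.zero_le _
  | succ j ih =>
    intro x hx
    by_cases hxj : v.valuation L x ≤ WithZero.exp (j : ℤ)
    · exact ih x hxj
    obtain ⟨a, b, hb, hd1, hw, hv⟩ := exists_pole hd (L := L) m₀ hm₀ v j
    set z := algebraMap B L a / algebraMap B L b with hz
    have hz0 : z ≠ 0 := by
      intro h
      rw [h, map_zero] at hv
      exact WithZero.exp_ne_zero hv.symm
    have hbL : algebraMap B L b ≠ 0 := by
      rw [Ne, IsFractionRing.to_map_eq_zero_iff]; exact hb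
    have h1 : v.valuation L (x / z) ≤ 1 := by
      rw [map_div₀, hv]
      apply div_le_one_of_le₀ _ zero_le
      push_cast at hx
      exact hx
    obtain ⟨c, hc⟩ := exists_const_frac hd v (x / z) h1
    set c' := algebraMap B L (algebraMap C B c) with hc'
    have h2 : v.valuation L (x - c' * z) ≤ WithZero.exp (j : ℤ) := by
      have h3 : x - c' * z = (x / z - c') * z := by
        rw [sub_mul, div_mul_cancel₀ _ hz0]
      rw [h3, map_mul, hv]
      by_cases h4 : v.valuation L (x / z - c') = 0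
      · rw [h4, zero_mul]; exact zero_le
      rw [← WithZero.exp_log h4] at hc ⊢
      rw [← WithZero.exp_zero, WithZero.exp_lt_exp] at hc
      rw [← WithZero.exp_add, WithZero.exp_le_exp]
      omega
    obtain ⟨y, hy1, hy2, hy3⟩ := ih _ h2
    refine ⟨y + c' * z, ?_, ?_, ?_⟩
    · intro w hwv
      refine (Valuation.map_add _ _ _).trans (max_le (hy1 w hwv) ?_)
      rw [map_mul]
      exact mul_le_one' (HeightOneSpectrum.valuation_le_one _ _) (hw w hwv)
    · have h3 : x - (y + c' * z) = x - c' * z - y := by ring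
      rw [h3]
      exact hy2
    · refine dle_add hd m₀ _ _ hy3 ⟨algebraMap C B c * a, b, hb, ?_, ?_⟩
      · rw [hz, hc', map_mul, mul_assoc, div_mul_cancel₀ _ hbL]
      · have h3 := d_mul_le hd (algebraMap C B c) a
        have h4 : d (algebraMap C B c) = 0 := (hd.const _).2 ⟨c, rfl⟩
        omega

end

end PP

section

variable {C B : Type*} [Field C] [IsAlgClosed C] [CommRing B] [IsDedekindDomain B] [Algebra C B]
  {d : B → ℕ} (hd : IsPoleDeg C d) {L : Type*} [Field L] [Algebra B L] [IsFractionRing B L]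

include hd

theorem pd_pp : ∃ m₀, ∀ (v : HeightOneSpectrum B) (x : L), ∃ y : L,
    (∀ w : HeightOneSpectrum B, w ≠ v → w.valuation L y ≤ 1) ∧ v.valuation L (x - y) ≤ 1 ∧
    DLe d m₀ y := by
  obtain ⟨m₀, hm₀⟩ := PP.exists_local_gen hd
  refine ⟨m₀, fun v x => ?_⟩
  have h1 : ∃ j : ℕ, v.valuation L x ≤ WithZero.exp (j : ℤ) := by
    by_cases hx : v.valuation L x = 0
    · exact ⟨0, by rw [hx]; exact zero_le⟩
    refine ⟨(WithZero.log (v.valuation L x)).toNat, ?_⟩
    rw [← WithZero.log_le_iff_le_exp hx]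
    exact Int.self_le_toNat _
  obtain ⟨j, hj⟩ := h1
  exact PP.pp_aux hd m₀ hm₀ v j x hj

end

end Pool.Agent.Lib.MP_2f3286_ag.Pt
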