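import Pool.Agent.Lib.MP_2f3286_ag.Pt.Defs

/-!
# Module SER: roots and lifts of power series
-/

open Polynomial IntermediateField IsDedekindDomain
open scoped TensorProduct

namespace Pool.Agent.Lib.MP_2f3286_ag.Pt

namespace Ser

/-- The approximations of the `n`-th root of `f`. -/
noncomputable def approx {L : Type*} [Field L] (n : ℕ) (f : PowerSeries L) : ℕ → PowerSeries L
  | 0 => 1
  | k + 1 => approx n f k + PowerSeries.C (PowerSeries.coeff (k + 1) (f - approx n f k ^ n) / n) *
      PowerSeries.X ^ (k + 1)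

theorem approx_const {L : Type*} [Field L] (n : ℕ) (f : PowerSeries L) (k : ℕ) :
    PowerSeries.constantCoeff (approx n f k) = 1 := by
  induction k with
  | zero => simp [approx]
  | succ k ih => simp [approx, ih]

theorem approx_spec {L : Type*} [Field L] [CharZero L] (n : ℕ) (hn : 1 ≤ n)
    (f : PowerSeries L) (hf : PowerSeries.constantCoeff f = 1) (k : ℕ) :
    PowerSeries.X ^ (k + 1) ∣ f - approx n f k ^ n := by
  induction k with
  | zero =>
    rw [zero_add, pow_one, PowerSeries.X_dvd_iff]
    simp [approx, hf]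
  | succ k ih =>
    have hn0 : (n : L) ≠ 0 := by
      have : n ≠ 0 := by omega
      exact_mod_cast this
    set a := approx n f k with ha
    set c := PowerSeries.coeff (k + 1) (f - a ^ n) / (n : L) with hc
    set t : PowerSeries L := PowerSeries.C c * PowerSeries.X ^ (k + 1) with ht
    have hstep : approx n f (k + 1) = a + t := rfl
    rw [hstep]
    obtain ⟨q, hq⟩ := Polynomial.binomExpansion (Polynomial.X ^ n : (PowerSeries L)[X]) a t
    simp only [Polynomial.eval_pow, Polynomial.eval_X, Polynomial.derivative_X_pow,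
      Polynomial.eval_mul, Polynomial.eval_C] at hq
    rw [PowerSeries.X_pow_dvd_iff]
    intro m hm
    rw [PowerSeries.X_pow_dvd_iff] at ih
    have ht2 : PowerSeries.coeff m (q * t ^ 2) = 0 := by
      have hdvd : PowerSeries.X ^ (k + 1 + 1) ∣ q * t ^ 2 := by
        refine Dvd.dvd.mul_left ?_ _
        rw [ht, mul_pow, ← pow_mul]
        refine Dvd.dvd.mul_left ?_ _
        exact pow_dvd_pow _ (by omega)
      exact (PowerSeries.X_pow_dvd_iff.1 hdvd) m hm
    have hlin : PowerSeries.coeff m ((n : PowerSeries L) * a ^ (n - 1) * t) =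
        if m = k + 1 then (n : L) * c else 0 := by
      have h1 : (n : PowerSeries L) * a ^ (n - 1) * t =
          PowerSeries.C ((n : L) * c) * (a ^ (n - 1) * PowerSeries.X ^ (k + 1)) := by
        rw [ht, map_mul, map_natCast]; ring
      rw [h1, PowerSeries.coeff_C_mul, PowerSeries.coeff_mul_X_pow']
      by_cases hmk : m = k + 1
      · rw [if_pos hmk, if_pos (by omega), hmk, Nat.sub_self,
          PowerSeries.coeff_zero_eq_constantCoeff_apply, map_pow, ha, approx_const, one_pow,
          mul_one]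
      · rw [if_neg hmk, if_neg (by omega), mul_zero]
    rw [map_sub, hq, map_add, map_add, ht2, hlin, add_zero]
    by_cases hmk : m = k + 1
    · rw [if_pos hmk, hmk, hc, mul_div_cancel₀ _ hn0, map_sub]
      ring
    · rw [if_neg hmk, add_zero]
      have := ih m (by omega)
      rw [map_sub] at this
      exact this

theorem approx_coeff {L : Type*} [Field L] (n : ℕ) (f : PowerSeries L) (j k : ℕ) (h : j ≤ k) :
    PowerSeries.coeff j (approx n f k) = PowerSeries.coeff j (approx n f j) := by
  induction k with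
  | zero =>
    have : j = 0 := by omega
    rw [this]
  | succ k ih =>
    by_cases hjk : j = k + 1
    · rw [hjk]
    · rw [← ih (by omega)]
      simp only [approx, map_add]
      rw [PowerSeries.coeff_C_mul, PowerSeries.coeff_X_pow, if_neg hjk, mul_zero, add_zero]

/-- The coefficients of the lift. -/
noncomputable def lift {L : Type*} [Field L] (Y : L → L) (γ : PowerSeries L) (w : L) : ℕ → L
  | 0 => w
  | j + 1 => Y (-∑ k : Fin (j + 1), PowerSeries.coeff ((k : ℕ) + 1) γ * lift Y γ w (j - k))
  decreasing_by omega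

end Ser

theorem exists_series_root {L : Type*} [Field L] [CharZero L] (n : ℕ) (hn : 1 ≤ n)
    (f : PowerSeries L) (hf : PowerSeries.constantCoeff f = 1) :
    ∃ g : PowerSeries L, PowerSeries.constantCoeff g = 1 ∧ g ^ n = f := by
  set g : PowerSeries L := PowerSeries.mk fun j => PowerSeries.coeff j (Ser.approx n f j) with hg
  have hclose : ∀ k, PowerSeries.X ^ (k + 1) ∣ g - Ser.approx n f k := by
    intro k
    rw [PowerSeries.X_pow_dvd_iff]
    intro m hm
    rw [map_sub, hg, PowerSeries.coeff_mk, Ser.approx_coeff n f m k (by omega), sub_self]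
  refine ⟨g, ?_, ?_⟩
  · rw [← PowerSeries.coeff_zero_eq_constantCoeff_apply, hg, PowerSeries.coeff_mk,
      PowerSeries.coeff_zero_eq_constantCoeff_apply, Ser.approx_const]
  · ext m
    have h1 : PowerSeries.X ^ (m + 1) ∣ g ^ n - Ser.approx n f m ^ n :=
      (hclose m).trans (sub_dvd_pow_sub_pow _ _ _)
    have h2 : PowerSeries.X ^ (m + 1) ∣ g ^ n - f := by
      have h3 := Ser.approx_spec n hn f hf m
      have : g ^ n - f = (g ^ n - Ser.approx n f m ^ n) - (f - Ser.approx n f m ^ n) := by ring
      rw [this]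
      exact dvd_sub h1 h3
    have h4 := (PowerSeries.X_pow_dvd_iff.1 h2) m (by omega)
    rw [map_sub, sub_eq_zero] at h4
    exact h4

theorem exists_lift {B : Type*} [CommRing B] [IsDedekindDomain B] {d : B → ℕ} {L : Type*} [Field L]
    [Algebra B L] [IsFractionRing B L] (m₀ : ℕ) (v : HeightOneSpectrum B)
    (hpp : ∀ x : L, ∃ y : L, (∀ w : HeightOneSpectrum B, w ≠ v → w.valuation L y ≤ 1) ∧
      v.valuation L (x - y) ≤ 1 ∧ DLe d m₀ y)
    (γ : PowerSeries L) (hγ : PowerSeries.constantCoeff γ = 1) (w : B) :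
    ∃ β : PowerSeries L, PowerSeries.constantCoeff β = algebraMap B L w ∧
      (∀ j, 1 ≤ j → DLe d m₀ (PowerSeries.coeff j β) ∧
        ∀ w : HeightOneSpectrum B, w ≠ v → w.valuation L (PowerSeries.coeff j β) ≤ 1) ∧
      ∀ j, v.valuation L (PowerSeries.coeff j (γ * β)) ≤ 1 := by
  choose Y hY1 hY2 hY3 using hpp
  set b : ℕ → L := Ser.lift Y γ (algebraMap B L w) with hb
  have hb0 : b 0 = algebraMap B L w := by rw [hb, Ser.lift]
  have hb1 : ∀ j, b (j + 1) =
      Y (-∑ k : Fin (j + 1), PowerSeries.coeff ((k : ℕ) + 1) γ * b (j - k)) := by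
    intro j
    rw [hb, Ser.lift]
  refine ⟨PowerSeries.mk b, ?_, ?_, ?_⟩
  · rw [← PowerSeries.coeff_zero_eq_constantCoeff_apply, PowerSeries.coeff_mk, hb0]
  · intro j hj
    obtain ⟨i, rfl⟩ : ∃ i, j = i + 1 := ⟨j - 1, by omega⟩
    rw [PowerSeries.coeff_mk, hb1]
    exact ⟨hY3 _, fun w hw => hY1 _ w hw⟩
  · intro j
    rcases Nat.eq_zero_or_pos j with rfl | hj
    · rw [PowerSeries.coeff_zero_eq_constantCoeff_apply, map_mul, hγ, one_mul,
        ← PowerSeries.coeff_zero_eq_constantCoeff_apply, PowerSeries.coeff_mk, hb0]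
      exact v.valuation_le_one w
    · obtain ⟨i, rfl⟩ : ∃ i, j = i + 1 := ⟨j - 1, by omega⟩
      rw [PowerSeries.coeff_mul, Finset.Nat.sum_antidiagonal_succ,
        PowerSeries.coeff_zero_eq_constantCoeff_apply, hγ, one_mul, PowerSeries.coeff_mk]
      simp only [PowerSeries.coeff_mk]
      have h1 : ∑ p ∈ Finset.HasAntidiagonal.antidiagonal i, PowerSeries.coeff (p.1 + 1) γ * b p.2 =
          ∑ k : Fin (i + 1), PowerSeries.coeff ((k : ℕ) + 1) γ * b (i - k) := by
        rw [Finset.Nat.sum_antidiagonal_eq_sum_range_succ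
          (fun a c => PowerSeries.coeff (a + 1) γ * b c) i,
          Fin.sum_univ_eq_sum_range (fun k => PowerSeries.coeff (k + 1) γ * b (i - k)) (i + 1)]
      rw [h1]
      set S := ∑ k : Fin (i + 1), PowerSeries.coeff ((k : ℕ) + 1) γ * b (i - k) with hS
      have h2 := hY2 (-S)
      rw [hb1, ← hS]
      have h3 : Y (-S) + S = -(-S - Y (-S)) := by ring
      rw [h3, Valuation.map_neg]
      exact h2

end Pool.Agent.Lib.MP_2f3286_ag.Pt
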