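import Pool.Agent.Lib.MP_2f3286_ag.Pt.Defs
import Pool.Agent.Lib.MP_2f3286_ag.Pt.PB1

/-!
# TAYLOR: expansion of functions in a uniformizer
-/

open Polynomial IntermediateField IsDedekindDomain
open scoped TensorProduct

namespace Pool.Agent.Lib.MP_2f3286_ag.Pt

namespace Taylor

section

variable {C B : Type*} [Field C] [CommRing B] [IsDedekindDomain B]
    [Algebra C B] {L : Type*} [Field L] [Algebra B L]
    [IsFractionRing B L] [Algebra C L] [IsScalarTower C B L] (v : HeightOneSpectrum B) (π : B)

theorem val_const (c : C) (hc : c ≠ 0) : v.valuation L (algebraMap C L c) = 1 := by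
  rw [IsScalarTower.algebraMap_apply C B L, v.valuation_of_algebraMap,
    v.intValuation_eq_one_iff]
  intro hmem
  have h1 : algebraMap C B c * algebraMap C B c⁻¹ ∈ v.asIdeal := Ideal.mul_mem_right _ _ hmem
  rw [← map_mul, mul_inv_cancel₀ hc, map_one] at h1
  exact v.isPrime.ne_top ((Ideal.eq_top_iff_one _).2 h1)

theorem val_const_le (c : C) : v.valuation L (algebraMap C L c) ≤ 1 := by
  rcases eq_or_ne c 0 with rfl | hc
  · rw [map_zero, map_zero]; exact zero_le_one
  · exact (val_const v c hc).le

theorem const_zero (c : C) (hc : v.valuation L (algebraMap C L c) < 1) : c = 0 := by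
  by_contra h
  rw [val_const v c h] at hc
  exact lt_irrefl _ hc

theorem val_unif (hπ : π ∈ v.asIdeal) (hπ2 : π ∉ v.asIdeal ^ 2) :
    v.valuation L (algebraMap B L π) = WithZero.exp (-1 : ℤ) := by
  rw [v.valuation_of_algebraMap]
  have hπ0 : π ≠ 0 := fun hc => hπ2 (by rw [hc]; exact zero_mem _)
  have h1 := (v.intValuation_le_pow_iff_mem π 1).2 (by rwa [pow_one])
  have h2 : ¬ v.intValuation π ≤ WithZero.exp (-(2 : ℕ) : ℤ) := fun hc =>
    hπ2 ((v.intValuation_le_pow_iff_mem π 2).1 hc)
  have h3 := v.intValuation_ne_zero π hπ0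
  obtain ⟨z, hz⟩ : ∃ z : ℤ, v.intValuation π = WithZero.exp z :=
    ⟨WithZero.log (v.intValuation π), (WithZero.exp_log h3).symm⟩
  rw [hz] at h1 h2 ⊢
  rw [WithZero.exp_le_exp] at h1 h2
  congr 1
  push_cast at h1 h2
  omega

/-- uniqueness -/
theorem unique (hπ : π ∈ v.asIdeal) (H : PowerSeries C) (N : PowerSeries L)
    (hN : ∀ j, v.valuation L (PowerSeries.coeff j N) ≤ 1) (hπ0 : π ≠ 0)
    (h : H.map (algebraMap C L) =
      (PowerSeries.C (algebraMap B L π) - PowerSeries.X) * N) : H = 0 := by
  have hinj : Function.Injective (algebraMap B L) := IsFractionRing.injective B L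
  have hπL : algebraMap B L π ≠ 0 := fun hc => hπ0 (hinj (by rw [hc, map_zero]))
  have hπ1 : v.valuation L (algebraMap B L π) < 1 := (v.valuation_lt_one_iff_mem π).2 hπ
  have key : ∀ j, PowerSeries.coeff j H = 0 ∧ PowerSeries.coeff j N = 0 := by
    intro j
    induction j with
    | zero =>
      have h0 := congrArg (PowerSeries.coeff 0) h
      rw [PowerSeries.coeff_map, sub_mul, map_sub, PowerSeries.coeff_C_mul,
        PowerSeries.coeff_zero_X_mul, sub_zero] at h0
      have h1 : v.valuation L (algebraMap C L (PowerSeries.coeff 0 H)) < 1 := by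
        rw [h0, map_mul]
        exact mul_lt_one_of_lt_of_le hπ1 (hN 0)
      have h2 := const_zero v _ h1
      rw [h2, map_zero] at h0
      exact ⟨h2, (mul_eq_zero.1 h0.symm).resolve_left hπL⟩
    | succ j ih =>
      have h0 := congrArg (PowerSeries.coeff (j + 1)) h
      rw [PowerSeries.coeff_map, sub_mul, map_sub, PowerSeries.coeff_C_mul,
        PowerSeries.coeff_succ_X_mul, ih.2, sub_zero] at h0
      have h1 : v.valuation L (algebraMap C L (PowerSeries.coeff (j + 1) H)) < 1 := by
        rw [h0, map_mul]
        exact mul_lt_one_of_lt_of_le hπ1 (hN _)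
      have h2 := const_zero v _ h1
      rw [h2, map_zero] at h0
      exact ⟨h2, (mul_eq_zero.1 h0.symm).resolve_left hπL⟩
  ext j
  rw [(key j).1, map_zero]

/-- existence -/
theorem exists_expansion (hπ : π ∈ v.asIdeal) (hπ2 : π ∉ v.asIdeal ^ 2)
    (hres : ∀ b : B, ∃ c : C, b - algebraMap C B c ∈ v.asIdeal) (x : L)
    (hx : v.valuation L x ≤ 1) :
    ∃ (F : PowerSeries C) (ν : PowerSeries L),
      (∀ j, v.valuation L (PowerSeries.coeff j ν) ≤ 1) ∧
      PowerSeries.C x - F.map (algebraMap C L) =
        (PowerSeries.C (algebraMap B L π) - PowerSeries.X) * ν := by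
  have hinj : Function.Injective (algebraMap B L) := IsFractionRing.injective B L
  have hπ0 : π ≠ 0 := fun hc => hπ2 (by rw [hc]; exact zero_mem _)
  have hπL : algebraMap B L π ≠ 0 := fun hc => hπ0 (hinj (by rw [hc, map_zero]))
  -- one step
  have step : ∀ y : {y : L // v.valuation L y ≤ 1}, ∃ (c : C) (z : {y : L // v.valuation L y ≤ 1}),
      (y : L) = algebraMap C L c + algebraMap B L π * z := by
    rintro ⟨y, hy⟩
    obtain ⟨a, ha⟩ := v.exists_valuation_sub_lt_of_integer hy 1
    obtain ⟨c, hc⟩ := hres a
    have h1 : v.valuation L (y - algebraMap C L c) < 1 := by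
      have h2 : v.valuation L (algebraMap B L (a - algebraMap C B c)) < 1 :=
        (v.valuation_lt_one_iff_mem _).2 hc
      have h3 : y - algebraMap C L c = (y - algebraMap B L a) +
          algebraMap B L (a - algebraMap C B c) := by
        rw [map_sub, ← IsScalarTower.algebraMap_apply C B L]
        ring
      rw [h3]
      refine (v.valuation L).map_add_lt ?_ h2
      rw [Valuation.map_sub_swap]
      simpa using ha
    have h4 : v.valuation L ((algebraMap B L π)⁻¹ * (y - algebraMap C L c)) ≤ 1 := by
      rw [map_mul, map_inv₀, val_unif v π hπ hπ2]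
      rcases eq_or_ne (v.valuation L (y - algebraMap C L c)) 0 with h0 | h0
      · rw [h0, mul_zero]; exact zero_le_one
      obtain ⟨z, hz⟩ : ∃ z : ℤ, v.valuation L (y - algebraMap C L c) = WithZero.exp z :=
        ⟨WithZero.log _, (WithZero.exp_log h0).symm⟩
      rw [hz] at h1 ⊢
      rw [← WithZero.exp_zero, WithZero.exp_lt_exp] at h1
      rw [← WithZero.exp_neg, ← WithZero.exp_add, ← WithZero.exp_zero, WithZero.exp_le_exp]
      omega
    refine ⟨c, ⟨_, h4⟩, ?_⟩
    change y = algebraMap C L c + algebraMap B L π * ((algebraMap B L π)⁻¹ *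
      (y - algebraMap C L c))
    rw [← mul_assoc, mul_inv_cancel₀ hπL, one_mul]
    ring
  choose c z hcz using step
  let s : ℕ → {y : L // v.valuation L y ≤ 1} := fun j => z^[j] ⟨x, hx⟩
  have hs : ∀ j, ((s j : {y : L // v.valuation L y ≤ 1}) : L) =
      algebraMap C L (c (s j)) + algebraMap B L π * (s (j + 1)) := by
    intro j
    have : s (j + 1) = z (s j) := Function.iterate_succ_apply' z j _
    rw [this]
    exact hcz (s j)
  refine ⟨PowerSeries.mk fun j => c (s j), PowerSeries.mk fun j => (s (j + 1) : L), ?_, ?_⟩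
  · intro j
    rw [PowerSeries.coeff_mk]
    exact (s (j + 1)).2
  · ext j
    rcases j with _ | j
    · rw [map_sub, sub_mul, map_sub, PowerSeries.coeff_C_mul, PowerSeries.coeff_zero_X_mul,
        PowerSeries.coeff_map, PowerSeries.coeff_mk, PowerSeries.coeff_mk, sub_zero,
        PowerSeries.coeff_zero_C]
      have := hs 0
      change x = _ at this
      rw [sub_eq_iff_eq_add']
      exact this
    · rw [map_sub, sub_mul, map_sub, PowerSeries.coeff_C_mul, PowerSeries.coeff_succ_X_mul,
        PowerSeries.coeff_map, PowerSeries.coeff_mk, PowerSeries.coeff_mk, PowerSeries.coeff_mk,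
        PowerSeries.coeff_C, if_neg (Nat.succ_ne_zero j)]
      rw [hs (j + 1)]
      ring

theorem eq_zero_of_divisible (hπ : π ∈ v.asIdeal) (b : B) (ν : PowerSeries L)
    (hν : ∀ j, v.valuation L (PowerSeries.coeff j ν) ≤ 1)
    (h : PowerSeries.C (algebraMap B L b) =
        (PowerSeries.C (algebraMap B L π) - PowerSeries.X) * ν) : b = 0 := by
  have h0 : algebraMap B L b = algebraMap B L π * PowerSeries.coeff 0 ν := by
    have h0 := congrArg (PowerSeries.coeff 0) h
    rwa [PowerSeries.coeff_zero_C, sub_mul, map_sub, PowerSeries.coeff_C_mul,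
        PowerSeries.coeff_zero_X_mul, sub_zero] at h0
  have h1 : ∀ j, PowerSeries.coeff j ν = algebraMap B L π * PowerSeries.coeff (j + 1) ν := by
    intro j
    have h0 := congrArg (PowerSeries.coeff (j + 1)) h
    rw [PowerSeries.coeff_C, if_neg (Nat.succ_ne_zero j), sub_mul, map_sub,
      PowerSeries.coeff_C_mul, PowerSeries.coeff_succ_X_mul] at h0
    exact (sub_eq_zero.1 h0.symm).symm
  have h2 : ∀ j, algebraMap B L b = algebraMap B L π ^ (j + 1) * PowerSeries.coeff j ν := by
    intro j
    induction j with
    | zero => rw [h0, zero_add, pow_one]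
    | succ j ih => rw [ih, h1 j]; ring
  by_contra hb
  have hval : ∀ j : ℕ, b ∈ v.asIdeal ^ j := by
    intro j
    rw [← v.intValuation_le_pow_iff_mem, ← v.valuation_of_algebraMap (K := L)]
    change v.valuation L (algebraMap B L b) ≤ _
    rw [h2 j, map_mul, map_pow]
    have h5 : v.valuation L (algebraMap B L π) ≤ WithZero.exp (-1 : ℤ) := by
      rw [v.valuation_of_algebraMap]
      have := (v.intValuation_le_pow_iff_mem π 1).2 (by rwa [pow_one])
      simpa using this
    calc v.valuation L (algebraMap B L π) ^ (j + 1) * v.valuation L (PowerSeries.coeff j ν)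
        ≤ v.valuation L (algebraMap B L π) ^ (j + 1) * 1 := by
          gcongr
          exact hν j
      _ ≤ (WithZero.exp (-1 : ℤ)) ^ (j + 1) := by
          rw [mul_one]
          gcongr
      _ ≤ WithZero.exp (-(j : ℤ)) := by
          rw [← WithZero.exp_nsmul, WithZero.exp_le_exp]
          simp
  have h6 : b ∈ (⨅ i : ℕ, v.asIdeal ^ i : Ideal B) := by
    rw [Ideal.mem_iInf]
    exact hval
  rw [Ideal.iInf_pow_eq_bot_of_isDomain v.asIdeal v.isPrime.ne_top] at h6
  exact hb h6

end

end Taylor

theorem exists_taylor {C B : Type*} [Field C] [IsAlgClosed C] [CommRing B] [IsDedekindDomain B]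
    [Algebra C B] {d : B → ℕ} (hd : IsPoleDeg C d) {L : Type*} [Field L] [Algebra B L]
    [IsFractionRing B L] [Algebra C L] [IsScalarTower C B L] (v : HeightOneSpectrum B) (π : B)
    (hπ : π ∈ v.asIdeal) (hπ2 : π ∉ v.asIdeal ^ 2) :
    ∃ ev : B →ₐ[C] PowerSeries C, Function.Injective ev ∧ ∀ b : B, ∃ ν : PowerSeries L,
      (∀ j, v.valuation L (PowerSeries.coeff j ν) ≤ 1) ∧
      PowerSeries.C (algebraMap B L b) - (ev b).map (algebraMap C L) =
        (PowerSeries.C (algebraMap B L π) - PowerSeries.X) * ν := by
  have hπ0 : π ≠ 0 := fun hc => hπ2 (by rw [hc]; exact zero_mem _)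
  have hres : ∀ b : B, ∃ c : C, b - algebraMap C B c ∈ v.asIdeal := by
    intro b
    have hfin := pd_finite hd v.asIdeal v.ne_bot
    have hmax : v.asIdeal.IsMaximal := v.isMaximal
    have hbij := IsAlgClosed.algebraMap_bijective_of_isIntegral (k := C) (K := B ⧸ v.asIdeal)
    obtain ⟨c, hc⟩ := hbij.2 (Ideal.Quotient.mk _ b)
    refine ⟨c, ?_⟩
    rw [← Ideal.Quotient.eq, ← hc]
    rfl
  have hex := fun b : B => Taylor.exists_expansion (C := C) (L := L) v π hπ hπ2 hres
    (algebraMap B L b) (v.valuation_le_one b)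
  choose F ν hν hF using hex
  -- uniqueness in usable form
  have huniq : ∀ (b : B) (G : PowerSeries C) (ν' : PowerSeries L),
      (∀ j, v.valuation L (PowerSeries.coeff j ν') ≤ 1) →
      PowerSeries.C (algebraMap B L b) - G.map (algebraMap C L) =
        (PowerSeries.C (algebraMap B L π) - PowerSeries.X) * ν' → F b = G := by
    intro b G ν' h1 h2
    have h3 : (G - F b).map (algebraMap C L) =
        (PowerSeries.C (algebraMap B L π) - PowerSeries.X) * (ν b - ν') := by
      rw [mul_sub, ← hF b, ← h2, map_sub]
      ring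
    have h4 := Taylor.unique v π hπ (G - F b) (ν b - ν') (fun j => by
      rw [map_sub]; exact (v.valuation L).map_sub_le (hν b j) (h1 j)) hπ0 h3
    exact (sub_eq_zero.1 h4).symm
  have hmulreg : ∀ f g : PowerSeries L, (∀ j, v.valuation L (PowerSeries.coeff j f) ≤ 1) →
      (∀ j, v.valuation L (PowerSeries.coeff j g) ≤ 1) →
      ∀ j, v.valuation L (PowerSeries.coeff j (f * g)) ≤ 1 := by
    intro f g hf hg j
    rw [PowerSeries.coeff_mul]
    refine (v.valuation L).map_sum_le (fun p _ => ?_)
    rw [map_mul]
    exact mul_le_one' (hf _) (hg _)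
  have hCreg : ∀ b : B, ∀ j,
      v.valuation L (PowerSeries.coeff j (PowerSeries.C (algebraMap B L b))) ≤ 1 := by
    intro b j
    rw [PowerSeries.coeff_C]
    split_ifs
    · exact v.valuation_le_one _
    · rw [map_zero]; exact zero_le_one
  have hFconst : ∀ c : C, F (algebraMap C B c) = algebraMap C (PowerSeries C) c := by
    intro c
    refine huniq _ _ 0 (fun j => by rw [map_zero, map_zero]; exact zero_le_one) ?_
    rw [mul_zero, ← IsScalarTower.algebraMap_apply C B L]
    have : algebraMap C (PowerSeries C) c = PowerSeries.C c := rfl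
    rw [this, PowerSeries.map_C, sub_self]
  let ev : B →ₐ[C] PowerSeries C :=
    { toFun := F
      map_one' := by
        have := hFconst 1
        rwa [map_one, map_one] at this
      map_zero' := by
        have := hFconst 0
        rwa [map_zero, map_zero] at this
      map_add' := by
        intro x y
        refine huniq _ _ (ν x + ν y) (fun j => by
          rw [map_add]; exact (v.valuation L).map_add_le (hν x j) (hν y j)) ?_
        rw [mul_add, ← hF x, ← hF y, map_add, map_add, map_add]
        ring
      map_mul' := by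
        intro x y
        refine huniq _ _ (PowerSeries.C (algebraMap B L x) * ν y +
          (F y).map (algebraMap C L) * ν x) (fun j => by
            rw [map_add]
            refine (v.valuation L).map_add_le (hmulreg _ _ (hCreg x) (hν y) j)
              (hmulreg _ _ (fun j => ?_) (hν x) j)
            rw [PowerSeries.coeff_map]
            exact Taylor.val_const_le v _) ?_
        have e : (PowerSeries.C (algebraMap B L π) - PowerSeries.X) *
            (PowerSeries.C (algebraMap B L x) * ν y + (F y).map (algebraMap C L) * ν x) =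
            PowerSeries.C (algebraMap B L x) *
              ((PowerSeries.C (algebraMap B L π) - PowerSeries.X) * ν y) +
            (F y).map (algebraMap C L) *
              ((PowerSeries.C (algebraMap B L π) - PowerSeries.X) * ν x) := by ring
        rw [e, ← hF x, ← hF y, map_mul, map_mul, map_mul]
        ring
      commutes' := hFconst }
  refine ⟨ev, ?_, fun b => ⟨ν b, hν b, hF b⟩⟩
  rw [injective_iff_map_eq_zero]
  intro b hb
  have h1 := hF b
  have h2 : F b = 0 := hb
  rw [h2, map_zero, sub_zero] at h1
  exact Taylor.eq_zero_of_divisible v π hπ b (ν b) (hν b) h1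

end Pool.Agent.Lib.MP_2f3286_ag.Pt
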