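import Pool.Agent.Lib.MP_2f3286_ag.Pt.Defs
import Pool.Agent.Lib.MP_2f3286_ag.Pt.PB1
import Pool.Agent.Lib.MP_2f3286_ag.Pt.PP
import Pool.Agent.Lib.MP_2f3286_ag.Pt.Ser
import Pool.Agent.Lib.MP_2f3286_ag.Pt.Taylor
import Pool.Agent.Lib.MP_2f3286_ag.Pt.Nak
import Pool.Agent.Lib.MP_2f3286_ag.Pt.Conv

/-!
# IDENT: a family of `n`-th roots of `P - P_s`
-/

open Polynomial IntermediateField IsDedekindDomain
open scoped TensorProduct

namespace Pool.Agent.Lib.MP_2f3286_ag.Pt

set_option linter.unusedSectionVars false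

namespace Ident

open PowerSeries in
/-- a power series with coefficients in a finite dimensional space comes from a tensor -/
theorem exists_tensor {C B : Type*} [Field C] [CommRing B] [Algebra C B] (V : Submodule C B)
    [Module.Finite C V] (f : PowerSeries B) (hf : ∀ j, PowerSeries.coeff j f ∈ V) :
    ∃ t : PowerSeries C ⊗[C] B, conv C B t = f ∧
      ∀ I : Ideal B, (∀ x ∈ V, x ∈ I) → t ∈ I.map (Algebra.TensorProduct.includeRight :
        B →ₐ[C] PowerSeries C ⊗[C] B) := by
  classical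
  let b := Module.finBasis C V
  let s : Fin (Module.finrank C V) → PowerSeries C := fun k =>
    PowerSeries.mk (fun j => b.repr ⟨PowerSeries.coeff j f, hf j⟩ k)
  refine ⟨∑ k, s k ⊗ₜ (b k : B), ?_, ?_⟩
  · ext j
    rw [map_sum, map_sum]
    have h1 : ∀ k, PowerSeries.coeff j (conv C B (s k ⊗ₜ (b k : B))) =
        (b.repr ⟨PowerSeries.coeff j f, hf j⟩ k) • (b k : B) := by
      intro k
      unfold conv
      rw [Algebra.TensorProduct.lift_tmul]
      have : (IsScalarTower.toAlgHom C B (PowerSeries B)) (b k : B) = PowerSeries.C (b k : B) := rfl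
      rw [this, PowerSeries.coeff_mul_C, PowerSeries.mapAlgHom_apply, PowerSeries.coeff_map,
        PowerSeries.coeff_mk, Algebra.smul_def]
      rfl
    rw [Finset.sum_congr rfl (fun k _ => h1 k)]
    have h2 := congrArg (fun x : V => (x : B)) (b.sum_repr ⟨PowerSeries.coeff j f, hf j⟩)
    change _ = PowerSeries.coeff j f at h2
    refine Eq.trans ?_ h2
    rw [Submodule.coe_sum]
    rfl
  · intro I hI
    refine Ideal.sum_mem _ (fun k _ => ?_)
    have : s k ⊗ₜ[C] (b k : B) = (s k ⊗ₜ[C] (1 : B)) *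
        (Algebra.TensorProduct.includeRight : B →ₐ[C] PowerSeries C ⊗[C] B) (b k : B) := by
      rw [Algebra.TensorProduct.includeRight_apply, Algebra.TensorProduct.tmul_mul_tmul, mul_one,
        one_mul]
    rw [this]
    exact Ideal.mul_mem_left _ _ (Ideal.mem_map_of_mem _ (hI _ (b k).2))

section reg

variable {B : Type*} [CommRing B] [IsDedekindDomain B] {L : Type*} [Field L] [Algebra B L]
  [IsFractionRing B L]

/-- coefficients integral at `v` -/
def Reg (v : HeightOneSpectrum B) (f : PowerSeries L) : Prop :=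
  ∀ j, v.valuation L (PowerSeries.coeff j f) ≤ 1

theorem Reg.mul {v : HeightOneSpectrum B} {f g : PowerSeries L} (hf : Reg v f) (hg : Reg v g) :
    Reg v (f * g) := by
  intro j
  rw [PowerSeries.coeff_mul]
  refine (v.valuation L).map_sum_le (fun p _ => ?_)
  rw [map_mul]
  exact mul_le_one' (hf _) (hg _)

theorem Reg.one {v : HeightOneSpectrum B} : Reg v (1 : PowerSeries L) := by
  intro j
  rw [PowerSeries.coeff_one]
  split_ifs
  · rw [map_one]
  · rw [map_zero]; exact zero_le_one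

theorem Reg.pow {v : HeightOneSpectrum B} {f : PowerSeries L} (hf : Reg v f) (n : ℕ) :
    Reg v (f ^ n) := by
  induction n with
  | zero => rw [pow_zero]; exact Reg.one
  | succ n ih => rw [pow_succ]; exact ih.mul hf

theorem Reg.sub {v : HeightOneSpectrum B} {f g : PowerSeries L} (hf : Reg v f) (hg : Reg v g) :
    Reg v (f - g) := by
  intro j
  rw [map_sub]
  exact (v.valuation L).map_sub_le (hf j) (hg j)

theorem Reg.map {v : HeightOneSpectrum B} (f : PowerSeries B) :
    Reg v (f.map (algebraMap B L)) := by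
  intro j
  rw [PowerSeries.coeff_map]
  exact v.valuation_le_one _

theorem Reg.ofC {v : HeightOneSpectrum B} {x : L} (hx : v.valuation L x ≤ 1) :
    Reg v (PowerSeries.C x) := by
  intro j
  rw [PowerSeries.coeff_C]
  split_ifs
  · exact hx
  · rw [map_zero]; exact zero_le_one

end reg

section bdd

variable {C B : Type*} [Field C] [IsAlgClosed C] [CommRing B] [IsDedekindDomain B] [Algebra C B]
  {d : B → ℕ} (hd : IsPoleDeg C d) {L : Type*} [Field L] [Algebra B L] [IsFractionRing B L]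

/-- coefficients of bounded pole order -/
def Bd (d : B → ℕ) (N : ℕ) (f : PowerSeries L) : Prop := ∀ j, DLe d N (PowerSeries.coeff j f)

include hd

theorem dle_zero (m : ℕ) : DLe d m (0 : L) := by
  refine ⟨0, 1, one_ne_zero, ?_, ?_⟩
  · rw [map_zero, zero_mul]
  · rw [hd.zero]; exact Nat.zero_le _

omit hd in
theorem dle_mono {m m' : ℕ} (h : m ≤ m') {x : L} (hx : DLe d m x) : DLe d m' x := by
  obtain ⟨a, b, hb, h1, h2⟩ := hx
  exact ⟨a, b, hb, h1, by omega⟩

theorem dle_sum {σ : Type*} (s : Finset σ) (f : σ → L) (m : ℕ) (hf : ∀ i ∈ s, DLe d m (f i)) :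
    DLe d m (∑ i ∈ s, f i) := by
  classical
  induction s using Finset.induction_on with
  | empty => rw [Finset.sum_empty]; exact dle_zero hd m
  | insert a s ha ih =>
    rw [Finset.sum_insert ha]
    exact dle_add hd m _ _ (hf a (Finset.mem_insert_self _ _))
      (ih (fun i hi => hf i (Finset.mem_insert_of_mem hi)))

theorem Bd.mul {N N' : ℕ} {f g : PowerSeries L} (hf : Bd d N f) (hg : Bd d N' g) :
    Bd d (N + N') (f * g) := by
  intro j
  rw [PowerSeries.coeff_mul]
  exact dle_sum hd _ _ _ (fun p _ => dle_mul hd _ _ _ _ (hf _) (hg _))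

theorem dle_one (m : ℕ) : DLe d m (1 : L) := by
  have := (dle_alg hd m (1 : B) (L := L)).2 (by
    rw [(hd.const 1).2 ⟨1, (map_one _).symm⟩]; exact Nat.zero_le _)
  rwa [map_one] at this

theorem Bd.one : Bd d 0 (1 : PowerSeries L) := by
  intro j
  rw [PowerSeries.coeff_one]
  split_ifs
  · exact dle_one hd 0
  · exact dle_zero hd 0

theorem Bd.pow {N : ℕ} {f : PowerSeries L} (hf : Bd d N f) (n : ℕ) : Bd d (n * N) (f ^ n) := by
  induction n with
  | zero => rw [pow_zero, zero_mul]; exact Bd.one hd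
  | succ n ih => rw [pow_succ, Nat.succ_mul]; exact Bd.mul hd ih hf

theorem Bd.ofC {N : ℕ} {x : L} (hx : DLe d N x) : Bd d N (PowerSeries.C x) := by
  intro j
  rw [PowerSeries.coeff_C]
  split_ifs
  · exact hx
  · exact dle_zero hd N

omit hd in
theorem Bd.mono {N N' : ℕ} (h : N ≤ N') {f : PowerSeries L} (hf : Bd d N f) : Bd d N' f :=
  fun j => dle_mono h (hf j)

end bdd

section phi

/-- The embedding of the tensor product into power series over the fraction field. -/
noncomputable def Phi (C B L : Type*) [Field C] [CommRing B] [Algebra C B] [Field L]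
    [Algebra B L] : PowerSeries C ⊗[C] B →+* PowerSeries L :=
  (PowerSeries.map (algebraMap B L)).comp (conv C B).toRingHom

theorem Phi_apply {C B L : Type*} [Field C] [CommRing B] [Algebra C B] [Field L]
    [Algebra B L] (t : PowerSeries C ⊗[C] B) :
    Phi C B L t = (conv C B t).map (algebraMap B L) := rfl

theorem Phi_injective {C B L : Type*} [Field C] [CommRing B] [IsDomain B] [Algebra C B] [Field L]
    [Algebra B L] [IsFractionRing B L] : Function.Injective (Phi C B L) := by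
  intro x y h
  rw [Phi_apply, Phi_apply] at h
  have h1 : Function.Injective (PowerSeries.map (algebraMap B L)) :=
    PowerSeries.map_injective _ (IsFractionRing.injective B L)
  exact conv_injective (h1 h)

theorem Phi_right {C B L : Type*} [Field C] [CommRing B] [Algebra C B] [Field L]
    [Algebra B L] (b : B) : Phi C B L (1 ⊗ₜ b) = PowerSeries.C (algebraMap B L b) := by
  rw [Phi_apply]
  unfold conv
  rw [Algebra.TensorProduct.lift_tmul, map_one, one_mul]
  have : (IsScalarTower.toAlgHom C B (PowerSeries B)) b = PowerSeries.C b := rfl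
  rw [this, PowerSeries.map_C]

theorem Phi_left {C B L : Type*} [Field C] [CommRing B] [Algebra C B] [Field L]
    [Algebra B L] [Algebra C L] [IsScalarTower C B L] (s : PowerSeries C) :
    Phi C B L (s ⊗ₜ 1) = s.map (algebraMap C L) := by
  rw [Phi_apply]
  unfold conv
  rw [Algebra.TensorProduct.lift_tmul, map_one, mul_one]
  ext j
  rw [PowerSeries.mapAlgHom_apply, PowerSeries.coeff_map, PowerSeries.coeff_map,
    PowerSeries.coeff_map]
  exact (IsScalarTower.algebraMap_apply C B L _).symm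

end phi


section descend

variable {C B : Type*} [Field C] [IsAlgClosed C] [CommRing B] [IsDedekindDomain B] [Algebra C B]
  {d : B → ℕ} (hd : IsPoleDeg C d) {L : Type*} [Field L] [Algebra B L] [IsFractionRing B L]

include hd

/-- integral everywhere and bounded: comes from a bounded power series over `B` -/
theorem descend {N : ℕ} (F : PowerSeries L) (hF : ∀ w : HeightOneSpectrum B, Reg w F)
    (hb : Bd d N F) : ∃ f : PowerSeries B, f.map (algebraMap B L) = F ∧
      ∀ j, d (PowerSeries.coeff j f) ≤ N := by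
  have h1 : ∀ j, ∃ b : B, algebraMap B L b = PowerSeries.coeff j F := fun j =>
    HeightOneSpectrum.mem_integers_of_valuation_le_one L _ (fun w => hF w j)
  choose b hb1 using h1
  refine ⟨PowerSeries.mk b, ?_, fun j => ?_⟩
  · ext j
    rw [PowerSeries.coeff_map, PowerSeries.coeff_mk, hb1]
  · rw [PowerSeries.coeff_mk]
    have := hb j
    rw [← hb1 j] at this
    exact (dle_alg hd N (b j)).1 this

theorem descT {N : ℕ} (F : PowerSeries L) (hF : ∀ w : HeightOneSpectrum B, Reg w F)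
    (hb : Bd d N F) : ∃ t : PowerSeries C ⊗[C] B, Phi C B L t = F := by
  obtain ⟨f, hf, hfN⟩ := descend hd F hF hb
  have := pd_W_finite hd N
  obtain ⟨t, ht, -⟩ := exists_tensor (W hd N) f (fun j => hfN j)
  exact ⟨t, by rw [Phi_apply, ht, hf]⟩

theorem descI {N : ℕ} (v : HeightOneSpectrum B) (F : PowerSeries L)
    (hF : ∀ w : HeightOneSpectrum B, Reg w F) (hb : Bd d N F)
    (hv : ∀ j, v.valuation L (PowerSeries.coeff j F) < 1) :
    ∃ t : PowerSeries C ⊗[C] B, Phi C B L t = F ∧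
      t ∈ v.asIdeal.map (Algebra.TensorProduct.includeRight : B →ₐ[C] PowerSeries C ⊗[C] B) := by
  obtain ⟨f, hf, hfN⟩ := descend hd F hF hb
  have := pd_W_finite hd N
  have hfin : Module.Finite C (W hd N ⊓ v.asIdeal.restrictScalars C : Submodule C B) :=
    Submodule.finiteDimensional_of_le inf_le_left
  obtain ⟨t, ht, ht2⟩ := exists_tensor (W hd N ⊓ v.asIdeal.restrictScalars C) f (fun j => by
    refine ⟨hfN j, ?_⟩
    have h2 := hv j
    rw [← hf, PowerSeries.coeff_map, v.valuation_lt_one_iff_mem] at h2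
    exact h2)
  exact ⟨t, by rw [Phi_apply, ht, hf], ht2 _ (fun x hx => hx.2)⟩

end descend

end Ident


theorem Ident.core {C B : Type*} [Field C] [IsAlgClosed C] [CharZero C] [CommRing B]
    [IsDedekindDomain B] [Algebra C B] {d : B → ℕ} (hd : IsPoleDeg C d) (n : ℕ) (hn : 1 ≤ n)
    (v : HeightOneSpectrum B) {ι κ : Type} [Finite ι] [Finite κ] (g : ι → B) (h : κ → B)
    (hh : ∀ k, h k ∈ v.asIdeal) (L : Type*) [Field L] [Algebra B L] [IsFractionRing B L]
    [Algebra C L] [IsScalarTower C B L] :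
    ∃ ev : B →ₐ[C] PowerSeries C, Function.Injective ev ∧
    ∃ (T₀ T₁ T₂ : ι → PowerSeries C ⊗[C] B) (T₀' T₂' : κ → PowerSeries C ⊗[C] B)
      (b₀ b₁ u w : PowerSeries C ⊗[C] B),
      b₀ ≠ 0 ∧ b₀ * u + b₁ * w = 1 ∧
      (∀ i k, T₀ i * T₀' k = (1 ⊗ₜ g i - ev (g i) ⊗ₜ 1) * (1 ⊗ₜ h k) * b₀ ^ n) ∧
      (∀ i k, T₂ i * T₂' k = (1 ⊗ₜ g i - ev (g i) ⊗ₜ 1) * (1 ⊗ₜ h k) * b₁ ^ n) ∧
      (∀ i, T₁ i ^ n = T₀ i ^ (n - 1) * T₂ i) ∧
      (∀ i j, (1 ⊗ₜ g j - ev (g j) ⊗ₜ 1) * T₀ i = (1 ⊗ₜ g i - ev (g i) ⊗ₜ 1) * T₀ j) ∧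
      (∀ i, T₀ i ∈ (v.asIdeal.map (Algebra.TensorProduct.includeRight :
        B →ₐ[C] PowerSeries C ⊗[C] B))) ∧
      (∀ i, T₂ i ∈ (v.asIdeal.map (Algebra.TensorProduct.includeRight :
        B →ₐ[C] PowerSeries C ⊗[C] B))) ∧
      (∀ k, evS ev (T₀' k) = 0) ∧ ∀ k, evS ev (T₂' k) = 0 := by
  classical
  have hinjCL : Function.Injective (algebraMap C L) := (algebraMap C L).injective
  have hCL : CharZero L := charZero_of_injective_algebraMap hinjCL
  have hinj : Function.Injective (algebraMap B L) := IsFractionRing.injective B L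
  -- uniformizer
  obtain ⟨π, hπv⟩ := v.intValuation_exists_uniformizer
  have hπm : π ∈ v.asIdeal := by
    have := (v.intValuation_le_pow_iff_mem π 1).1 (by rw [hπv]; rfl)
    rwa [pow_one] at this
  have hπ2 : π ∉ v.asIdeal ^ 2 := by
    intro hc
    have := (v.intValuation_le_pow_iff_mem π 2).2 hc
    rw [hπv] at this
    revert this
    decide
  have hπ0 : π ≠ 0 := fun hc => hπ2 (by rw [hc]; exact zero_mem _)
  have hπL : algebraMap B L π ≠ 0 := fun hc => hπ0 (hinj (by rw [hc, map_zero]))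
  obtain ⟨ev, hevinj, hev⟩ := exists_taylor hd (L := L) v π hπm hπ2
  choose ν hνr hν using hev
  obtain ⟨m₀, hm₀⟩ := pd_pp hd (L := L)
  have hpp := hm₀ v
  -- the root of 1 - X / π
  let f : PowerSeries L := 1 - PowerSeries.C (algebraMap B L π)⁻¹ * PowerSeries.X
  have hf1 : PowerSeries.constantCoeff f = 1 := by
    simp [f]
  obtain ⟨γ, hγ1, hγn⟩ := exists_series_root n hn f hf1
  let P : PowerSeries L := PowerSeries.C (algebraMap B L π) - PowerSeries.X
  have hP : P = PowerSeries.C (algebraMap B L π) * γ ^ n := by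
    rw [hγn]
    simp only [P, f]
    rw [mul_sub, mul_one, ← mul_assoc, ← map_mul, mul_inv_cancel₀ hπL, map_one, one_mul]
  have hγγ : γ * γ⁻¹ = 1 := PowerSeries.mul_inv_cancel γ (by rw [hγ1]; exact one_ne_zero)
  have hγ'1 : PowerSeries.constantCoeff γ⁻¹ = 1 := by
    rw [PowerSeries.constantCoeff_inv, hγ1, inv_one]
  -- the degree of w
  obtain ⟨n₀, hn₀⟩ := hd.large
  obtain ⟨w, hw0, hwd⟩ := hn₀ (max n₀ (m₀ + 1)) (le_max_left _ _)
  have hwd' : m₀ < d w := by
    have := le_max_right n₀ (m₀ + 1)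
    omega
  have hd1 : d (1 : B) = 0 := (hd.const 1).2 ⟨1, (map_one _).symm⟩
  obtain ⟨β0, h01, h02, h03⟩ := exists_lift (d := d) (L := L) m₀ v hpp γ hγ1 1
  obtain ⟨β1, h11, h12, h13⟩ := exists_lift (d := d) (L := L) m₀ v hpp γ hγ1 w
  obtain ⟨β0', h01', h02', h03'⟩ := exists_lift (d := d) (L := L) m₀ v hpp γ⁻¹ hγ'1 1
  obtain ⟨β1', h11', h12', h13'⟩ := exists_lift (d := d) (L := L) m₀ v hpp γ⁻¹ hγ'1 w
  -- general facts on the lifts
  have hreg : ∀ (b : B) (β : PowerSeries L), PowerSeries.constantCoeff β = algebraMap B L b →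
      (∀ j, 1 ≤ j → DLe d m₀ (PowerSeries.coeff j β) ∧
        ∀ w : HeightOneSpectrum B, w ≠ v → w.valuation L (PowerSeries.coeff j β) ≤ 1) →
      (∀ w : HeightOneSpectrum B, w ≠ v → Ident.Reg w β) ∧ Ident.Bd d (max m₀ (d b)) β := by
    intro b β hb1 hb2
    constructor
    · intro w hw j
      rcases Nat.eq_zero_or_pos j with hj | hj
      · subst hj
        rw [PowerSeries.coeff_zero_eq_constantCoeff_apply, hb1]
        exact w.valuation_le_one _
      · exact (hb2 j hj).2 w hw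
    · intro j
      rcases Nat.eq_zero_or_pos j with hj | hj
      · subst hj
        rw [PowerSeries.coeff_zero_eq_constantCoeff_apply, hb1]
        exact (dle_alg hd _ b).2 (le_max_right _ _)
      · exact Ident.dle_mono (le_max_left _ _) (hb2 j hj).1
  obtain ⟨r0, B0⟩ := hreg 1 β0 h01 h02
  obtain ⟨r1, B1⟩ := hreg w β1 h11 h12
  obtain ⟨r0', B0'⟩ := hreg 1 β0' h01' h02'
  obtain ⟨r1', B1'⟩ := hreg w β1' h11' h12'
  rw [hd1, max_eq_left (Nat.zero_le _)] at B0 B0'
  rw [max_eq_right hwd'.le] at B1 B1'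
  -- products of lifts
  have hregm : ∀ (β β' : PowerSeries L), (∀ w : HeightOneSpectrum B, w ≠ v → Ident.Reg w β) →
      (∀ w : HeightOneSpectrum B, w ≠ v → Ident.Reg w β') → Ident.Reg v (γ * β) →
      Ident.Reg v (γ⁻¹ * β') → ∀ w : HeightOneSpectrum B, Ident.Reg w (β * β') := by
    intro β β' h1 h2 h3 h4 w
    by_cases hw : w = v
    · subst hw
      have : β * β' = (γ * β) * (γ⁻¹ * β') := by
        calc β * β' = (γ * γ⁻¹) * (β * β') := by rw [hγγ, one_mul]
          _ = _ := by ring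
      rw [this]
      exact h3.mul h4
    · exact (h1 w hw).mul (h2 w hw)
  have hPreg : Ident.Reg v P := by
    have : P = PowerSeries.map (algebraMap B L) (PowerSeries.C π - PowerSeries.X) := by
      simp [P]
    rw [this]
    exact Ident.Reg.map _
  -- the element mu_i
  let μ : ι → PowerSeries L := fun i =>
    PowerSeries.C (algebraMap B L (g i)) - (ev (g i)).map (algebraMap C L)
  have hμ : ∀ i, μ i = P * ν (g i) := fun i => hν (g i)
  have hμΦ : ∀ i, Ident.Phi C B L (1 ⊗ₜ g i - ev (g i) ⊗ₜ 1) = μ i := by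
    intro i
    rw [map_sub, Ident.Phi_right, Ident.Phi_left]
  have hμB : ∀ i, μ i = PowerSeries.map (algebraMap B L)
      (PowerSeries.C (g i) - (ev (g i)).map (algebraMap C B)) := by
    intro i
    rw [map_sub, PowerSeries.map_C]
    have : PowerSeries.map (algebraMap B L) (PowerSeries.map (algebraMap C B) (ev (g i))) =
        PowerSeries.map (algebraMap C L) (ev (g i)) := by
      ext j
      simp only [PowerSeries.coeff_map]
      exact (IsScalarTower.algebraMap_apply C B L _).symm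
    rw [this]
  have hμreg : ∀ i (w : HeightOneSpectrum B), Ident.Reg w (μ i) := by
    intro i w
    rw [hμB]
    exact Ident.Reg.map _
  have hμbd : ∀ i, Ident.Bd d (d (g i)) (μ i) := by
    intro i j
    rw [hμB, PowerSeries.coeff_map, dle_alg hd, map_sub, PowerSeries.coeff_map, sub_eq_add_neg]
    refine (hd.add _ _).trans (max_le ?_ ?_)
    · rw [PowerSeries.coeff_C]
      split_ifs
      · exact le_rfl
      · rw [hd.zero]; exact Nat.zero_le _
    · rw [← map_neg, (hd.const _).2 ⟨_, rfl⟩]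
      exact Nat.zero_le _
  -- T-elements in the ideal
  have hT : ∀ (a b : ℕ), a + b = n → ∀ i, ∃ t : PowerSeries C ⊗[C] B,
      Ident.Phi C B L t = μ i * β0 ^ a * β1 ^ b ∧
      t ∈ v.asIdeal.map (Algebra.TensorProduct.includeRight : B →ₐ[C] PowerSeries C ⊗[C] B) := by
    intro a b hab i
    have hE : μ i * β0 ^ a * β1 ^ b =
        PowerSeries.C (algebraMap B L π) * (ν (g i) * (γ * β0) ^ a * (γ * β1) ^ b) := by
      rw [hμ, hP, ← hab]
      ring
    have hG : Ident.Reg v (ν (g i) * (γ * β0) ^ a * (γ * β1) ^ b) :=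
      (Ident.Reg.mul (hνr (g i)) (Ident.Reg.pow h03 a)).mul (Ident.Reg.pow h13 b)
    have hlt : ∀ j, v.valuation L (PowerSeries.coeff j (μ i * β0 ^ a * β1 ^ b)) < 1 := by
      intro j
      rw [hE, PowerSeries.coeff_C_mul, map_mul]
      have h1 : v.valuation L (algebraMap B L π) < 1 := (v.valuation_lt_one_iff_mem π).2 hπm
      exact mul_lt_one_of_lt_of_le h1 (hG j)
    refine Ident.descI hd v (μ i * β0 ^ a * β1 ^ b) ?_
      (Ident.Bd.mul hd (Ident.Bd.mul hd (hμbd i) (Ident.Bd.pow hd B0 a)) (Ident.Bd.pow hd B1 b)) hlt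
    intro w
    by_cases hw : w = v
    · subst hw
      exact fun j => (hlt j).le
    · exact ((hμreg i w).mul ((r0 w hw).pow a)).mul ((r1 w hw).pow b)
  -- T'-elements killed by evS
  have hT' : ∀ (β' : PowerSeries L) (N : ℕ),
      (∀ w : HeightOneSpectrum B, w ≠ v → Ident.Reg w β') → Ident.Bd d N β' →
      Ident.Reg v (γ⁻¹ * β') → ∀ k, ∃ t : PowerSeries C ⊗[C] B,
      Ident.Phi C B L t = PowerSeries.C (algebraMap B L (h k)) * β' ^ n ∧ evS ev t = 0 := by
    intro β' N hr hb hrv k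
    let ν' : PowerSeries L :=
      PowerSeries.C (algebraMap B L (h k) * (algebraMap B L π)⁻¹) * (γ⁻¹ * β') ^ n
    have hE : PowerSeries.C (algebraMap B L (h k)) * β' ^ n = P * ν' := by
      have h1 : PowerSeries.C (algebraMap B L π) *
          PowerSeries.C (algebraMap B L (h k) * (algebraMap B L π)⁻¹) =
          PowerSeries.C (algebraMap B L (h k)) := by
        rw [← map_mul, mul_comm (algebraMap B L (h k)), ← mul_assoc, mul_inv_cancel₀ hπL, one_mul]
      calc PowerSeries.C (algebraMap B L (h k)) * β' ^ n =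
          (PowerSeries.C (algebraMap B L π) *
          PowerSeries.C (algebraMap B L (h k) * (algebraMap B L π)⁻¹)) * β' ^ n := by rw [h1]
        _ = (PowerSeries.C (algebraMap B L π) *
          PowerSeries.C (algebraMap B L (h k) * (algebraMap B L π)⁻¹)) *
            ((γ * γ⁻¹) * β') ^ n := by rw [hγγ, one_mul]
        _ = P * ν' := by rw [hP]; simp only [ν']; ring
    have hνr' : Ident.Reg v ν' := by
      refine Ident.Reg.mul (Ident.Reg.ofC ?_) (Ident.Reg.pow hrv n)
      rw [map_mul, map_inv₀]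
      have h1 : v.valuation L (algebraMap B L (h k)) ≤ v.valuation L (algebraMap B L π) := by
        rw [v.valuation_of_algebraMap, v.valuation_of_algebraMap, hπv]
        have := (v.intValuation_le_pow_iff_mem (h k) 1).2 (by rw [pow_one]; exact hh k)
        simpa using this
      have h2 : v.valuation L (algebraMap B L π) ≠ 0 := (Valuation.ne_zero_iff _).2 hπL
      rw [← div_eq_mul_inv]
      exact (div_le_one₀ (zero_lt_iff.2 h2)).2 h1
    obtain ⟨t, ht⟩ := Ident.descT hd (PowerSeries.C (algebraMap B L (h k)) * β' ^ n)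
      (fun w => by
        by_cases hw : w = v
        · subst hw
          rw [hE]
          exact hPreg.mul hνr'
        · exact (Ident.Reg.ofC (w.valuation_le_one _)).mul ((hr w hw).pow n))
      (Ident.Bd.mul hd (Ident.Bd.ofC hd ((dle_alg hd _ (h k)).2 le_rfl)) (Ident.Bd.pow hd hb n))
    exact ⟨t, ht, evS_eq_zero v π hπm ev (fun b => ⟨ν b, hνr b, hν b⟩) t ν' hνr'
      (by rw [← Ident.Phi_apply, ht, hE])⟩
  have hΦ : Function.Injective (Ident.Phi C B L) := Ident.Phi_injective
  -- b0 and b1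
  obtain ⟨b0B, hb0, hb0d⟩ := Ident.descend hd (β0 * β0') (hregm β0 β0' r0 r0' h03 h03')
    (Ident.Bd.mul hd B0 B0')
  obtain ⟨b1B, hb1, hb1d⟩ := Ident.descend hd (β1 * β1') (hregm β1 β1' r1 r1' h13 h13')
    (Ident.Bd.mul hd B1 B1')
  have hb0c : PowerSeries.constantCoeff b0B = 1 := by
    apply hinj
    have := congrArg PowerSeries.constantCoeff hb0
    rw [← PowerSeries.coeff_zero_eq_constantCoeff_apply, PowerSeries.coeff_map, map_mul, h01,
      h01', PowerSeries.coeff_zero_eq_constantCoeff_apply] at this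
    simpa using this
  have hb1c : PowerSeries.constantCoeff b1B = w * w := by
    apply hinj
    have := congrArg PowerSeries.constantCoeff hb1
    rw [← PowerSeries.coeff_zero_eq_constantCoeff_apply, PowerSeries.coeff_map, map_mul, h11,
      h11', PowerSeries.coeff_zero_eq_constantCoeff_apply, ← map_mul] at this
    exact this
  have hdww : d (w * w) = d w + d w := hd.mul w w hw0 hw0
  have hb1lt : ∀ j, 1 ≤ j → d (PowerSeries.coeff j b1B) < d (w * w) := by
    intro j hj
    have h1 : DLe d (d w + m₀) (PowerSeries.coeff j (β1 * β1')) := by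
      rw [PowerSeries.coeff_mul]
      refine Ident.dle_sum hd _ _ _ (fun p hp => ?_)
      have hp := Finset.HasAntidiagonal.mem_antidiagonal.1 hp
      rcases Nat.eq_zero_or_pos p.1 with hp1 | hp1
      · have hp2 : 1 ≤ p.2 := by omega
        exact dle_mul hd _ _ _ _ (B1 _) (h12' _ hp2).1
      · rw [add_comm (d w) m₀]
        exact dle_mul hd _ _ _ _ (h12 _ hp1).1 (B1' _)
    rw [← hb1, PowerSeries.coeff_map, dle_alg hd] at h1
    rw [hdww]
    omega
  obtain ⟨uB, vB, N', hu, hv', huv⟩ := exists_bezout hd b0B b1B hb0c (m₀ + m₀) hb0d (w * w)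
    (mul_ne_zero hw0 hw0) hb1c hb1lt
  have hfinW := fun m => pd_W_finite hd m
  obtain ⟨b0, hb0t, -⟩ := Ident.exists_tensor (W hd (m₀ + m₀)) b0B (fun j => hb0d j)
  obtain ⟨b1, hb1t, -⟩ := Ident.exists_tensor (W hd (d w + d w)) b1B (fun j => hb1d j)
  obtain ⟨u, hut, -⟩ := Ident.exists_tensor (W hd N') uB (fun j => hu j)
  obtain ⟨v', hvt, -⟩ := Ident.exists_tensor (W hd N') vB (fun j => hv' j)
  choose T0 hT0 hT0m using hT n 0 (by omega)
  choose T1 hT1 hT1m using hT (n - 1) 1 (by omega)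
  choose T2 hT2 hT2m using hT 0 n (by omega)
  choose T0' hT0' hT0e using hT' β0' m₀ r0' B0' h03'
  choose T2' hT2' hT2e using hT' β1' (d w) r1' B1' h13'
  have hΦb0 : Ident.Phi C B L b0 = β0 * β0' := by rw [Ident.Phi_apply, hb0t, hb0]
  have hΦb1 : Ident.Phi C B L b1 = β1 * β1' := by rw [Ident.Phi_apply, hb1t, hb1]
  refine ⟨ev, hevinj, T0, T1, T2, T0', T2', b0, b1, u, v', ?_, ?_, ?_, ?_, ?_, ?_, hT0m, hT2m,
    hT0e, hT2e⟩
  · intro hc
    rw [hc, map_zero] at hb0t
    rw [← hb0t, map_zero] at hb0c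
    exact zero_ne_one hb0c
  · apply conv_injective (C := C) (B := B)
    rw [map_add, map_mul, map_mul, hb0t, hb1t, hut, hvt, huv, map_one]
  · intro i k
    apply hΦ
    rw [map_mul, map_mul, map_mul, map_pow, hT0, hT0', hμΦ, Ident.Phi_right, hΦb0]
    ring
  · intro i k
    apply hΦ
    rw [map_mul, map_mul, map_mul, map_pow, hT2, hT2', hμΦ, Ident.Phi_right, hΦb1]
    ring
  · intro i
    apply hΦ
    rw [map_mul, map_pow, map_pow, hT0, hT1, hT2]
    obtain ⟨k, rfl⟩ : ∃ k, n = k + 1 := ⟨n - 1, by omega⟩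
    simp only [Nat.add_sub_cancel]
    ring_nf
  · intro i j
    apply hΦ
    rw [map_mul, map_mul, hμΦ, hμΦ, hT0, hT0]
    ring

theorem t2_ident {C B : Type*} [Field C] [IsAlgClosed C] [CharZero C] [CommRing B]
    [IsDedekindDomain B] [Algebra C B] {d : B → ℕ} (hd : IsPoleDeg C d) (n : ℕ) (hn : 1 ≤ n)
    (v : HeightOneSpectrum B) {ι κ : Type} [Finite ι] [Finite κ] (g : ι → B) (h : κ → B)
    (hh : ∀ k, h k ∈ v.asIdeal) :
    ∃ ev : B →ₐ[C] PowerSeries C, Function.Injective ev ∧
    ∃ (T₀ T₁ T₂ : ι → PowerSeries C ⊗[C] B) (T₀' T₂' : κ → PowerSeries C ⊗[C] B)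
      (b₀ b₁ u w : PowerSeries C ⊗[C] B),
      b₀ ≠ 0 ∧ b₀ * u + b₁ * w = 1 ∧
      (∀ i k, T₀ i * T₀' k = (1 ⊗ₜ g i - ev (g i) ⊗ₜ 1) * (1 ⊗ₜ h k) * b₀ ^ n) ∧
      (∀ i k, T₂ i * T₂' k = (1 ⊗ₜ g i - ev (g i) ⊗ₜ 1) * (1 ⊗ₜ h k) * b₁ ^ n) ∧
      (∀ i, T₁ i ^ n = T₀ i ^ (n - 1) * T₂ i) ∧
      (∀ i j, (1 ⊗ₜ g j - ev (g j) ⊗ₜ 1) * T₀ i = (1 ⊗ₜ g i - ev (g i) ⊗ₜ 1) * T₀ j) ∧
      (∀ i, T₀ i ∈ (v.asIdeal.map (Algebra.TensorProduct.includeRight :
        B →ₐ[C] PowerSeries C ⊗[C] B))) ∧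
      (∀ i, T₂ i ∈ (v.asIdeal.map (Algebra.TensorProduct.includeRight :
        B →ₐ[C] PowerSeries C ⊗[C] B))) ∧
      (∀ k, evS ev (T₀' k) = 0) ∧ ∀ k, evS ev (T₂' k) = 0 := by
  exact Ident.core hd n hn v g h hh (FractionRing B)

end Pool.Agent.Lib.MP_2f3286_ag.Pt
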