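import Mathlib

/-!
# MP_2f3286_ag, campaign II, module SPEC: specialisation of identities
-/

open scoped TensorProduct

namespace Pool.Agent.Lib.MP_2f3286_ag.Pt

namespace Spec

/-- generic extension of points (Chevalley and Nullstellensatz) -/
lemma gen_ext {C B A : Type*} [Field C] [IsAlgClosed C] [CommRing B] [IsDomain B] [Algebra C B]
    [Algebra.FiniteType C B] [CommRing A] [IsDomain A] [Algebra C A] [Algebra.FiniteType C A]
    (φ : B →ₐ[C] A) (hφ : Function.Injective φ) (s : A) (hs : s ≠ 0) :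
    ∃ f : B, f ≠ 0 ∧ ∀ χ : B →ₐ[C] C, χ f ≠ 0 →
      ∃ ψ : A →ₐ[C] C, (∀ b, ψ (φ b) = χ b) ∧ ψ s ≠ 0 := by
  classical
  have : IsNoetherianRing B := Algebra.FiniteType.isNoetherianRing C B
  have hft : (φ : B →+* A).FiniteType := by
    have h1 : ((φ : B →+* A).comp (algebraMap C B)).FiniteType := by
      have : (φ : B →+* A).comp (algebraMap C B) = algebraMap C A := by
        ext c
        simp
      rw [this]
      exact RingHom.finiteType_algebraMap.2 inferInstance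
    exact RingHom.FiniteType.of_comp_finiteType h1
  have hfp : (φ : B →+* A).FinitePresentation := (RingHom.FinitePresentation.of_finiteType).1 hft
  have hcon := PrimeSpectrum.isConstructible_comap_image hfp
    (PrimeSpectrum.isConstructible_basicOpen (f := s))
  obtain ⟨T, hT⟩ := PrimeSpectrum.exists_constructibleSetData_iff.2 hcon
  have hbot : (⊥ : PrimeSpectrum B) ∈ PrimeSpectrum.comap (φ : B →+* A) ''
      (PrimeSpectrum.basicOpen s : Set (PrimeSpectrum A)) := by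
    refine ⟨⊥, ?_, ?_⟩
    · change s ∉ (⊥ : Ideal A)
      simpa using hs
    · ext b
      change φ b ∈ (⊥ : Ideal A) ↔ b ∈ (⊥ : Ideal B)
      rw [Ideal.mem_bot, Ideal.mem_bot]
      exact map_eq_zero_iff φ hφ
  rw [← hT] at hbot
  simp only [PrimeSpectrum.ConstructibleSetData.toSet, Set.mem_iUnion] at hbot
  obtain ⟨D, hD, hbotD⟩ := hbot
  have hg : ∀ i, D.g i = 0 := by
    intro i
    have := hbotD.1 (Set.mem_range_self i)
    simpa using this
  have hf : D.f ≠ 0 := by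
    intro h0
    apply hbotD.2
    intro x hx
    rw [Set.mem_singleton_iff] at hx
    rw [hx, h0]
    exact Ideal.zero_mem _
  refine ⟨D.f, hf, fun χ hχ => ?_⟩
  -- the maximal ideal of `χ` is in the image
  set 𝔪 : PrimeSpectrum B := ⟨RingHom.ker (χ : B →+* C), RingHom.ker_isPrime _⟩ with h𝔪
  have hmem : 𝔪 ∈ PrimeSpectrum.comap (φ : B →+* A) ''
      (PrimeSpectrum.basicOpen s : Set (PrimeSpectrum A)) := by
    rw [← hT]
    simp only [PrimeSpectrum.ConstructibleSetData.toSet, Set.mem_iUnion]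
    refine ⟨D, hD, ?_, ?_⟩
    · rintro _ ⟨i, rfl⟩
      rw [hg i]
      exact Ideal.zero_mem _
    · intro h
      exact hχ (h rfl)
  obtain ⟨P, hsP, hP⟩ := hmem
  have hsP' : s ∉ P.asIdeal := hsP
  -- a maximal ideal above `P` avoiding `s`
  have hjac : P.asIdeal.jacobson = P.asIdeal := by
    have : IsJacobsonRing A := isJacobsonRing_of_finiteType (A := C)
    exact this.out P.2.isRadical
  obtain ⟨M, hMmax, hPM, hsM⟩ : ∃ M : Ideal A, M.IsMaximal ∧ P.asIdeal ≤ M ∧ s ∉ M := by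
    by_contra hcon
    push Not at hcon
    apply hsP'
    rw [← hjac, Ideal.jacobson, Ideal.mem_sInf]
    rintro J ⟨hPJ, hJ⟩
    exact hcon J hJ hPJ
  let _ : Field (A ⧸ M) := Ideal.Quotient.field M
  have hfin : Module.Finite C (A ⧸ M) := finite_of_finite_type_of_isJacobsonRing C (A ⧸ M)
  have hbij : Function.Bijective (algebraMap C (A ⧸ M)) :=
    IsAlgClosed.algebraMap_bijective_of_isIntegral
  let e : C ≃ₐ[C] (A ⧸ M) := AlgEquiv.ofBijective (Algebra.ofId C (A ⧸ M)) hbij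
  let ψ : A →ₐ[C] C := (e.symm : (A ⧸ M) →ₐ[C] C).comp (Ideal.Quotient.mkₐ C M)
  have hψ0 : ∀ a, ψ a = 0 ↔ a ∈ M := by
    intro a
    change e.symm (Ideal.Quotient.mk M a) = 0 ↔ a ∈ M
    rw [map_eq_zero_iff e.symm e.symm.injective, Ideal.Quotient.eq_zero_iff_mem]
  refine ⟨ψ, fun b => ?_, fun h => hsM ((hψ0 s).1 h)⟩
  have h1 : b - algebraMap C B (χ b) ∈ 𝔪.asIdeal := by
    change χ (b - algebraMap C B (χ b)) = 0
    simp
  rw [← hP] at h1
  have h2 : φ (b - algebraMap C B (χ b)) ∈ M := hPM h1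
  have h3 := (hψ0 _).2 h2
  rw [map_sub, map_sub, sub_eq_zero] at h3
  rw [h3]
  simp

/-- every tensor is defined over a finitely generated subalgebra -/
lemma exists_coeffs {C B S : Type*} [Field C] [CommRing B] [Algebra C B] [CommRing S] [Algebra C S]
    (t : S ⊗[C] B) : ∃ c : Finset S, ∀ A₀ : Subalgebra C S, (∀ s ∈ c, s ∈ A₀) →
      ∃ t', Algebra.TensorProduct.map A₀.val (AlgHom.id C B) t' = t := by
  classical
  induction t using TensorProduct.induction_on with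
  | zero => exact ⟨∅, fun A₀ _ => ⟨0, by simp⟩⟩
  | tmul s b =>
    refine ⟨{s}, fun A₀ h => ⟨(⟨s, h s (by simp)⟩ : A₀) ⊗ₜ b, ?_⟩⟩
    simp
  | add x y hx hy =>
    obtain ⟨c, hc⟩ := hx
    obtain ⟨c', hc'⟩ := hy
    refine ⟨c ∪ c', fun A₀ h => ?_⟩
    obtain ⟨x', hx'⟩ := hc A₀ fun s hs => h s (Finset.mem_union_left _ hs)
    obtain ⟨y', hy'⟩ := hc' A₀ fun s hs => h s (Finset.mem_union_right _ hs)
    exact ⟨x' + y', by rw [map_add, hx', hy']⟩

end Spec

open Spec in
theorem exists_spec {C B S : Type*} [Field C] [IsAlgClosed C] [CommRing B] [IsDomain B]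
    [Algebra C B] [Algebra.FiniteType C B] [CommRing S] [IsDomain S] [Algebra C S] (ev : B →ₐ[C] S)
    (hev : Function.Injective ev) (F : Set (S ⊗[C] B)) (hF : F.Finite) (b₀ : S ⊗[C] B)
    (hb₀ : b₀ ≠ 0) :
    ∃ f : B, f ≠ 0 ∧ ∀ χ : B →ₐ[C] C, χ f ≠ 0 →
      ∃ (A₀ : Subalgebra C S) (ψ : A₀ →ₐ[C] C) (hev' : ∀ b, ev b ∈ A₀),
        (∀ b, ψ ⟨ev b, hev' b⟩ = χ b) ∧
        (∀ t ∈ F, ∃ t', Algebra.TensorProduct.map A₀.val (AlgHom.id C B) t' = t) ∧
        ∃ t', Algebra.TensorProduct.map A₀.val (AlgHom.id C B) t' = b₀ ∧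
          Algebra.TensorProduct.lift ((Algebra.ofId C B).comp ψ) (AlgHom.id C B)
            (fun _ _ => Commute.all _ _) t' ≠ 0 := by
  classical
  obtain ⟨s, hs⟩ := ‹Algebra.FiniteType C B›.out
  -- coefficients
  choose c hc using fun t : S ⊗[C] B => exists_coeffs t
  let 𝓑 := Module.Basis.ofVectorSpace C B
  let eqv := TensorProduct.equivFinsuppOfBasisRight (M := S) 𝓑
  set σ := eqv b₀ with hσ
  have hσ0 : σ ≠ 0 := by
    intro h
    exact hb₀ ((map_eq_zero_iff eqv eqv.injective).1 h)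
  obtain ⟨k0, hk0⟩ : ∃ k, σ k ≠ 0 := by
    by_contra hcon
    push Not at hcon
    exact hσ0 (Finsupp.ext hcon)
  have hb₀sum : b₀ = ∑ k ∈ σ.support, σ k ⊗ₜ 𝓑 k := by
    have h1 : eqv.symm σ = b₀ := eqv.symm_apply_apply b₀
    rw [← h1]
    exact TensorProduct.equivFinsuppOfBasisRight_symm_apply 𝓑 σ
  let G : Finset S := s.image ev ∪ (hF.toFinset.biUnion c ∪ σ.support.image σ)
  let A₀ : Subalgebra C S := Algebra.adjoin C (G : Set S)
  have hGA : ∀ x ∈ G, x ∈ A₀ := fun x hx => Algebra.subset_adjoin hx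
  have hev' : ∀ b, ev b ∈ A₀ := by
    intro b
    have h1 : b ∈ Algebra.adjoin C (s : Set B) := by rw [hs]; exact Algebra.mem_top
    have h2 : ev b ∈ (Algebra.adjoin C (s : Set B)).map ev := ⟨b, h1, rfl⟩
    rw [AlgHom.map_adjoin] at h2
    refine Algebra.adjoin_mono ?_ h2
    rintro _ ⟨x, hx, rfl⟩
    exact Finset.mem_coe.2 (Finset.mem_union_left _ (Finset.mem_image_of_mem _ hx))
  have : Algebra.FiniteType C A₀ := (Subalgebra.fg_iff_finiteType _).1 (Subalgebra.fg_adjoin_finset _)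
  let φ : B →ₐ[C] A₀ := ev.codRestrict A₀ hev'
  have hφ : Function.Injective φ := fun x y h => hev (congrArg Subtype.val h)
  have hσA : ∀ k, σ k ∈ A₀ := by
    intro k
    by_cases hk : k ∈ σ.support
    · exact hGA _ (Finset.mem_union_right _ (Finset.mem_union_right _
        (Finset.mem_image_of_mem _ hk)))
    · rw [Finsupp.notMem_support_iff.1 hk]
      exact A₀.zero_mem
  obtain ⟨f, hf, hext⟩ := gen_ext φ hφ (⟨σ k0, hσA k0⟩ : A₀)
    (fun h => hk0 (congrArg Subtype.val h))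
  refine ⟨f, hf, fun χ hχ => ?_⟩
  obtain ⟨ψ, hψ, hψ0⟩ := hext χ hχ
  refine ⟨A₀, ψ, hev', hψ, ?_, ?_⟩
  · intro t ht
    refine hc t A₀ fun x hx => hGA x ?_
    exact Finset.mem_union_right _ (Finset.mem_union_left _
      (Finset.mem_biUnion.2 ⟨t, hF.mem_toFinset.2 ht, hx⟩))
  · refine ⟨∑ k ∈ σ.support, (⟨σ k, hσA k⟩ : A₀) ⊗ₜ 𝓑 k, ?_, ?_⟩
    · rw [map_sum]
      simp only [Algebra.TensorProduct.map_tmul, AlgHom.id_apply, Subalgebra.coe_val]
      exact hb₀sum.symm
    · rw [map_sum]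
      simp only [Algebra.TensorProduct.lift_tmul, AlgHom.comp_apply, AlgHom.id_apply,
        Algebra.ofId_apply]
      intro h
      have h1 : ∑ k ∈ σ.support, ψ ⟨σ k, hσA k⟩ • 𝓑 k = 0 := by
        rw [← h]
        exact Finset.sum_congr rfl fun k _ => Algebra.smul_def _ _
      have h2 := linearIndependent_iff'.1 𝓑.linearIndependent σ.support
        (fun k => ψ ⟨σ k, hσA k⟩) h1 k0 (Finsupp.mem_support_iff.2 hk0)
      exact hψ0 h2

end Pool.Agent.Lib.MP_2f3286_ag.Pt
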