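import Mathlib
import Pool.Agent.Lib.MP_2f3286_ag.Pt.Defs

/-!
# VAL: an identity of divisor classes modulo `n`-th powers
-/

open IsDedekindDomain
open scoped Pointwise

namespace Pool.Agent.Lib.MP_2f3286_ag.Pt

namespace Val

/-- The product of the ideals generated by two families, with the products prescribed. -/
theorem span_range_mul {B : Type*} [CommRing B] {ι κ : Type*} (T μ : ι → B) (T' ν : κ → B) (c : B)
    (h : ∀ i k, T i * T' k = μ i * ν k * c) :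
    Ideal.span (Set.range T) * Ideal.span (Set.range T') =
      Ideal.span (Set.range μ) * Ideal.span (Set.range ν) * Ideal.span {c} := by
  rw [Ideal.span_mul_span', Ideal.span_mul_span', Ideal.span_mul_span']
  congr 1
  ext x
  constructor
  · rintro ⟨_, ⟨i, rfl⟩, _, ⟨k, rfl⟩, rfl⟩
    refine ⟨μ i * ν k, ⟨μ i, ⟨i, rfl⟩, ν k, ⟨k, rfl⟩, rfl⟩, c, rfl, ?_⟩
    exact (h i k).symm
  · rintro ⟨_, ⟨_, ⟨i, rfl⟩, _, ⟨k, rfl⟩, rfl⟩, _, rfl, rfl⟩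
    exact ⟨T i, ⟨i, rfl⟩, T' k, ⟨k, rfl⟩, h i k⟩

/-- Proportional families generate proportional ideals. -/
theorem span_singleton_mul_span_range {B : Type*} [CommRing B] {ι : Type*} (T μ : ι → B) (i : ι)
    (h : ∀ j, μ i * T j = T i * μ j) :
    Ideal.span {μ i} * Ideal.span (Set.range T) = Ideal.span {T i} * Ideal.span (Set.range μ) := by
  rw [Ideal.span_mul_span', Ideal.span_mul_span']
  congr 1
  ext x
  constructor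
  · rintro ⟨_, rfl, _, ⟨j, rfl⟩, rfl⟩
    exact ⟨T i, rfl, μ j, ⟨j, rfl⟩, (h j).symm⟩
  · rintro ⟨_, rfl, _, ⟨j, rfl⟩, rfl⟩
    exact ⟨μ i, rfl, T j, ⟨j, rfl⟩, h j⟩

theorem exists_index {B : Type*} [CommRing B] {ι : Type*} (μ : ι → B) (I : Ideal B) (hI : I ≠ ⊥)
    (hμ : Ideal.span (Set.range μ) = I) : ∃ i, μ i ≠ 0 := by
  by_contra hcon
  push Not at hcon
  apply hI
  rw [← hμ, Ideal.span_eq_bot]
  rintro _ ⟨i, rfl⟩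
  exact hcon i

/-- The factor of the product of the two ideals. -/
theorem exists_factor {B : Type*} [CommRing B] [IsDedekindDomain B] (n : ℕ) (𝔪 𝔮 : Ideal B)
    (h𝔪 : 𝔪 ≠ ⊥) (h𝔮 : 𝔮 ≠ ⊥) {ι κ : Type*} (μ : ι → B)
    (ν : κ → B) (hμ : Ideal.span (Set.range μ) = 𝔮) (hν : Ideal.span (Set.range ν) = 𝔪)
    (T : ι → B) (T' : κ → B) (b : B)
    (h : ∀ i k, T i * T' k = μ i * ν k * b ^ n)
    (hm : ∀ i, T i ∈ 𝔪) (hq : ∀ k, T' k ∈ 𝔮) :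
    ∃ A : Ideal B, Ideal.span (Set.range T) = 𝔪 * A ∧ A ∣ Ideal.span {b} ^ n := by
  have h1 : 𝔪 ∣ Ideal.span (Set.range T) := by
    rw [Ideal.dvd_iff_le, Ideal.span_le]
    rintro _ ⟨i, rfl⟩
    exact hm i
  have h2 : 𝔮 ∣ Ideal.span (Set.range T') := by
    rw [Ideal.dvd_iff_le, Ideal.span_le]
    rintro _ ⟨i, rfl⟩
    exact hq i
  obtain ⟨A, hA⟩ := h1
  obtain ⟨A', hA'⟩ := h2
  refine ⟨A, hA, A', ?_⟩
  have h3 := span_range_mul T μ T' ν (b ^ n) h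
  rw [hμ, hν, hA, hA', ← Ideal.span_singleton_pow] at h3
  have h4 : (𝔮 * 𝔪) * (A * A') = (𝔮 * 𝔪) * Ideal.span {b} ^ n := by
    rw [← h3]
    ring
  exact (mul_left_cancel₀ (mul_ne_zero h𝔮 h𝔪) h4).symm

end Val

open Val

theorem t2_val {B : Type*} [CommRing B] [IsDedekindDomain B] (n : ℕ) (hn : 1 ≤ n) (𝔪 𝔮 : Ideal B)
    [𝔪.IsMaximal] [𝔮.IsMaximal] (hne : 𝔪 ≠ 𝔮) (h𝔪 : 𝔪 ≠ ⊥) (h𝔮 : 𝔮 ≠ ⊥) {ι κ : Type*} (μ : ι → B)
    (ν : κ → B) (hμ : Ideal.span (Set.range μ) = 𝔮) (hν : Ideal.span (Set.range ν) = 𝔪)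
    (T₀ T₁ T₂ : ι → B) (T₀' T₂' : κ → B) (b₀ b₁ u w : B) (hb : b₀ * u + b₁ * w = 1) (hb₀ : b₀ ≠ 0)
    (h0 : ∀ i k, T₀ i * T₀' k = μ i * ν k * b₀ ^ n)
    (h2 : ∀ i k, T₂ i * T₂' k = μ i * ν k * b₁ ^ n)
    (h1 : ∀ i, T₁ i ^ n = T₀ i ^ (n - 1) * T₂ i)
    (hc : ∀ i j, μ j * T₀ i = μ i * T₀ j)
    (hm0 : ∀ i, T₀ i ∈ 𝔪) (hm2 : ∀ i, T₂ i ∈ 𝔪) (hq0 : ∀ k, T₀' k ∈ 𝔮) (hq2 : ∀ k, T₂' k ∈ 𝔮) :
    ∃ i, μ i ≠ 0 ∧ T₀ i ≠ 0 ∧ ∃ J₁ J₂ : Ideal B, J₁ ≠ ⊥ ∧ J₂ ≠ ⊥ ∧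
      Ideal.span {T₀ i} * 𝔮 * J₁ ^ n = Ideal.span {μ i} * 𝔪 * J₂ ^ n := by
  obtain ⟨i, hi⟩ := exists_index μ 𝔮 h𝔮 hμ
  obtain ⟨k, hk⟩ := exists_index ν 𝔪 h𝔪 hν
  have hT0 : T₀ i ≠ 0 := by
    intro h
    have := h0 i k
    rw [h, zero_mul] at this
    exact mul_ne_zero (mul_ne_zero hi hk) (pow_ne_zero _ hb₀) this.symm
  refine ⟨i, hi, hT0, ?_⟩
  obtain ⟨A₀, hA₀, hA₀b⟩ := exists_factor n 𝔪 𝔮 h𝔪 h𝔮 μ ν hμ hν T₀ T₀' b₀ h0 hm0 hq0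
  have e0 : Ideal.span {T₀ i} * 𝔮 = Ideal.span {μ i} * 𝔪 * A₀ := by
    rw [← hμ, ← span_singleton_mul_span_range T₀ μ i (fun j => by rw [← hc i j]; ring), hA₀,
      mul_assoc]
  have hA₀0 : A₀ ≠ ⊥ := by
    rintro rfl
    rw [Ideal.mul_bot, Ideal.span_eq_bot] at hA₀
    exact hT0 (hA₀ _ ⟨i, rfl⟩)
  -- the power
  suffices hD : ∃ D : Ideal B, A₀ ^ (n - 1) = D ^ n by
    obtain ⟨D, hD⟩ := hD
    refine ⟨D, A₀, ?_, hA₀0, ?_⟩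
    · rintro rfl
      rw [← Ideal.zero_eq_bot, zero_pow (by omega)] at hD
      exact pow_ne_zero _ hA₀0 hD
    · rw [e0, mul_assoc _ A₀, ← hD, ← pow_succ', Nat.sub_add_cancel hn]
  by_cases hb1 : b₁ = 0
  · rw [hb1, zero_mul, add_zero] at hb
    have hu : IsUnit b₀ := IsUnit.of_mul_eq_one _ hb
    rw [Ideal.span_singleton_eq_top.2 hu, ← Ideal.one_eq_top, one_pow] at hA₀b
    have : A₀ = 1 := isUnit_iff_eq_one.1 (isUnit_of_dvd_one hA₀b)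
    exact ⟨1, by rw [this, one_pow, one_pow]⟩
  obtain ⟨A₂, hA₂, hA₂b⟩ := exists_factor n 𝔪 𝔮 h𝔪 h𝔮 μ ν hμ hν T₂ T₂' b₁ h2 hm2 hq2
  have hT2' : T₂' k ≠ 0 := by
    intro h
    have := h2 i k
    rw [h, mul_zero] at this
    exact mul_ne_zero (mul_ne_zero hi hk) (pow_ne_zero _ hb1) this.symm
  have e2 : Ideal.span {T₂ i} * 𝔮 = Ideal.span {μ i} * 𝔪 * A₂ := by
    rw [← hμ, ← span_singleton_mul_span_range T₂ μ i (fun j => ?_), hA₂, mul_assoc]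
    apply mul_right_cancel₀ hT2'
    calc μ i * T₂ j * T₂' k = μ i * (T₂ j * T₂' k) := by ring
      _ = (T₂ i * T₂' k) * μ j := by rw [h2, h2]; ring
      _ = T₂ i * μ j * T₂' k := by ring
  have e1 : (Ideal.span {T₁ i} * 𝔮) ^ n =
      (Ideal.span {μ i} * 𝔪) ^ n * (A₀ ^ (n - 1) * A₂) := by
    calc (Ideal.span {T₁ i} * 𝔮) ^ n = Ideal.span {T₁ i} ^ n * 𝔮 ^ n := mul_pow _ _ _
      _ = (Ideal.span {T₀ i} ^ (n - 1) * Ideal.span {T₂ i}) * (𝔮 ^ (n - 1) * 𝔮) := by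
          rw [Ideal.span_singleton_pow, h1, Ideal.span_singleton_pow,
            Ideal.span_singleton_mul_span_singleton, ← pow_succ, Nat.sub_add_cancel hn]
      _ = (Ideal.span {T₀ i} * 𝔮) ^ (n - 1) * (Ideal.span {T₂ i} * 𝔮) := by
          rw [mul_pow]; ring
      _ = (Ideal.span {μ i} * 𝔪 * A₀) ^ (n - 1) * (Ideal.span {μ i} * 𝔪 * A₂) := by
          rw [e0, e2]
      _ = ((Ideal.span {μ i} * 𝔪) ^ (n - 1) * (Ideal.span {μ i} * 𝔪)) * (A₀ ^ (n - 1) * A₂) := by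
          rw [mul_pow _ A₀]; ring
      _ = _ := by rw [← pow_succ, Nat.sub_add_cancel hn]
  have hX : Ideal.span {μ i} * 𝔪 ≠ 0 := by
    apply mul_ne_zero _ h𝔪
    simpa using hi
  have hdvd : Ideal.span {μ i} * 𝔪 ∣ Ideal.span {T₁ i} * 𝔮 := by
    rw [← UniqueFactorizationMonoid.pow_dvd_pow_iff_dvd (n := n) (by omega)]
    exact ⟨_, e1⟩
  obtain ⟨Z, hZ⟩ := hdvd
  have e3 : A₀ ^ (n - 1) * A₂ = Z ^ n := by
    apply mul_left_cancel₀ (pow_ne_zero n hX)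
    rw [← e1, hZ, mul_pow]
  have hcop : IsCoprime (A₀ ^ (n - 1)) A₂ := by
    apply IsCoprime.pow_left
    have h5 : IsCoprime (Ideal.span {b₀} ^ n) (Ideal.span {b₁} ^ n) := by
      apply IsCoprime.pow
      rw [Ideal.isCoprime_span_singleton_iff]
      exact ⟨u, w, by rw [← hb]; ring⟩
    exact (h5.of_isCoprime_of_dvd_left hA₀b).of_isCoprime_of_dvd_right hA₂b
  have hunit : IsUnit (gcd (A₀ ^ (n - 1)) A₂) := by
    rw [Ideal.gcd_eq_sup, isUnit_iff_eq_one, Ideal.one_eq_top]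
    exact Ideal.isCoprime_iff_sup_eq.1 hcop
  exact exists_eq_pow_of_mul_eq_pow hunit e3

end Pool.Agent.Lib.MP_2f3286_ag.Pt
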