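import Mathlib
import Pool.Agent.Lib.MP_2f3286_ag.Pt.Defs
import Pool.Agent.Lib.MP_2f3286_ag.Pt.Val
import Pool.Agent.Lib.MP_2f3286_ag.Pt.PB1
import Pool.Agent.Lib.MP_2f3286_ag.Pt.PB2
import Pool.Agent.Lib.MP_2f3286_ag.Pt.PB3
import Pool.Agent.Lib.MP_2f3286_ag.Pt.Spec
import Pool.Agent.Lib.MP_2f3286_ag.Pt.Ident

/-!
# T2MAIN: divisibility of the class group of a pointed affine curve
-/

open IsDedekindDomain
open scoped TensorProduct

namespace Pool.Agent.Lib.MP_2f3286_ag.Pt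

namespace T2Main

/-! ### Kernels of points -/

theorem ker_eq_span {C B : Type*} [Field C] [CommRing B] [Algebra C B] {ι : Type*} (g : ι → B)
    (hg : Algebra.adjoin C (Set.range g) = ⊤) (χ : B →ₐ[C] C) :
    Ideal.span (Set.range fun i => g i - algebraMap C B (χ (g i))) = RingHom.ker χ := by
  apply le_antisymm
  · rw [Ideal.span_le]
    rintro _ ⟨i, rfl⟩
    simp [RingHom.mem_ker]
  · have key : ∀ x ∈ Algebra.adjoin C (Set.range g), x - algebraMap C B (χ x) ∈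
        Ideal.span (Set.range fun i => g i - algebraMap C B (χ (g i))) := by
      intro x hx
      induction hx using Algebra.adjoin_induction with
      | mem x hx =>
        obtain ⟨i, rfl⟩ := hx
        exact Ideal.subset_span ⟨i, rfl⟩
      | algebraMap c => simp
      | add x y _ _ hx hy =>
        have := Ideal.add_mem _ hx hy
        rw [map_add, map_add]
        convert this using 1
        ring
      | mul x y _ _ hx hy =>
        have := Ideal.add_mem _ (Ideal.mul_mem_left _ y hx)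
          (Ideal.mul_mem_left _ (algebraMap C B (χ x)) hy)
        rw [map_mul, map_mul]
        convert this using 1
        ring
    intro x hx
    have h1 := key x (hg ▸ Algebra.mem_top)
    rw [RingHom.mem_ker] at hx
    rwa [show χ x = 0 from hx, map_zero, sub_zero] at h1

/-! ### Specialisation -/

section spec

variable {C B S : Type*} [Field C] [CommRing B] [Algebra C B] [CommRing S] [Algebra C S]
  (A₀ : Subalgebra C S)

theorem inj_map : Function.Injective (Algebra.TensorProduct.map A₀.val (AlgHom.id C B)) := by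
  have h := Module.Flat.rTensor_preserves_injective_linearMap (M := B) (A₀.val.toLinearMap)
    Subtype.val_injective
  have h2 : ∀ x : A₀ ⊗[C] B, LinearMap.rTensor B A₀.val.toLinearMap x =
      Algebra.TensorProduct.map A₀.val (AlgHom.id C B) x := by
    intro x
    induction x with
    | zero => rw [map_zero, map_zero]
    | tmul a b => rfl
    | add x y hx hy => rw [map_add, map_add, hx, hy]
  intro x y hxy
  apply h
  rw [h2, h2, hxy]

variable (ψ : A₀ →ₐ[C] C)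

/-- The specialisation map. -/
noncomputable def Phi : A₀ ⊗[C] B →ₐ[C] B :=
  Algebra.TensorProduct.lift ((Algebra.ofId C B).comp ψ) (AlgHom.id C B)
    (fun _ _ => Commute.all _ _)

theorem Phi_mem (I : Ideal B) (t : A₀ ⊗[C] B)
    (ht : Algebra.TensorProduct.map A₀.val (AlgHom.id C B) t ∈
      I.map (Algebra.TensorProduct.includeRight : B →ₐ[C] S ⊗[C] B)) :
    Phi A₀ ψ t ∈ I := by
  let p : B →ₐ[C] B ⧸ I := Ideal.Quotient.mkₐ C I
  let PS : S ⊗[C] B →ₐ[C] S ⊗[C] (B ⧸ I) := Algebra.TensorProduct.map (AlgHom.id C S) p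
  let PA : A₀ ⊗[C] B →ₐ[C] A₀ ⊗[C] (B ⧸ I) := Algebra.TensorProduct.map (AlgHom.id C A₀) p
  have h1 : I.map (Algebra.TensorProduct.includeRight : B →ₐ[C] S ⊗[C] B) ≤ RingHom.ker PS := by
    rw [Ideal.map_le_iff_le_comap]
    intro b hb
    rw [Ideal.mem_comap, RingHom.mem_ker]
    simp only [PS, p, Algebra.TensorProduct.includeRight_apply, Algebra.TensorProduct.map_tmul,
      Ideal.Quotient.mkₐ_eq_mk, Ideal.Quotient.eq_zero_iff_mem.2 hb, TensorProduct.tmul_zero]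
  have h2 : PS (Algebra.TensorProduct.map A₀.val (AlgHom.id C B) t) = 0 := h1 ht
  have h3 : (Algebra.TensorProduct.map A₀.val (AlgHom.id C (B ⧸ I))) (PA t) = 0 := by
    rw [← h2]
    have : (Algebra.TensorProduct.map A₀.val (AlgHom.id C (B ⧸ I))).comp PA =
        PS.comp (Algebra.TensorProduct.map A₀.val (AlgHom.id C B)) := by
      ext <;> simp [PA, PS]
    exact DFunLike.congr_fun this t
  have h4 : PA t = 0 := by
    apply inj_map (B := B ⧸ I) A₀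
    rw [h3, map_zero]
  have h5 : p (Phi A₀ ψ t) = Phi (B := B ⧸ I) A₀ ψ (PA t) := by
    have : p.comp (Phi A₀ ψ) = (Phi (B := B ⧸ I) A₀ ψ).comp PA := by
      ext <;> simp [PA, Phi, p]
    exact DFunLike.congr_fun this t
  rw [h4, map_zero] at h5
  exact Ideal.Quotient.eq_zero_iff_mem.1 h5

variable (ev : B →ₐ[C] S) (χ : B →ₐ[C] C) (hev' : ∀ b, ev b ∈ A₀)
  (hψ : ∀ b, ψ ⟨ev b, hev' b⟩ = χ b)

include hψ in
theorem chi_Phi (t : A₀ ⊗[C] B)
    (ht : Algebra.TensorProduct.lift (AlgHom.id C S) ev (fun _ _ => Commute.all _ _)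
      (Algebra.TensorProduct.map A₀.val (AlgHom.id C B) t) = 0) :
    χ (Phi A₀ ψ t) = 0 := by
  let ev0 : B →ₐ[C] A₀ := ev.codRestrict A₀ hev'
  let e : A₀ ⊗[C] B →ₐ[C] A₀ := Algebra.TensorProduct.lift (AlgHom.id C A₀) ev0
    (fun _ _ => Commute.all _ _)
  have h1 : (e t : S) = 0 := by
    rw [← ht]
    have : A₀.val.comp e = (Algebra.TensorProduct.lift (AlgHom.id C S) ev
      (fun _ _ => Commute.all _ _)).comp (Algebra.TensorProduct.map A₀.val (AlgHom.id C B)) := by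
      ext <;> simp [e, ev0]
    exact DFunLike.congr_fun this t
  have h2 : e t = 0 := Subtype.ext h1
  have h3 : χ (Phi A₀ ψ t) = ψ (e t) := by
    have : χ.comp (Phi A₀ ψ) = ψ.comp e := by
      ext b
      · simp [Phi, e]
      · simp only [Phi, e, ev0, AlgHom.comp_apply, Algebra.TensorProduct.includeRight_apply,
          AlgHom.restrictScalars_apply, Algebra.TensorProduct.lift_tmul, map_one, one_mul,
          AlgHom.coe_id, id]
        exact (hψ b).symm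
    exact DFunLike.congr_fun this t
  rw [h3, h2, map_zero]

theorem Phi_mu (b : B) : Phi A₀ ψ (1 ⊗ₜ b - (⟨ev b, hev' b⟩ : A₀) ⊗ₜ 1) =
    b - algebraMap C B (ψ ⟨ev b, hev' b⟩) := by
  rw [map_sub]
  simp [Phi]

end spec

theorem stepA {C B : Type*} [Field C] [IsAlgClosed C] [CharZero C] [CommRing B]
    [IsDedekindDomain B] [Algebra C B] {d : B → ℕ} (hd : IsPoleDeg C d) (n : ℕ) (hn : 1 ≤ n)
    (v : HeightOneSpectrum B) : ∃ f : B, f ≠ 0 ∧ ∀ χ : B →ₐ[C] C, χ f ≠ 0 →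
      RingHom.ker χ ≠ v.asIdeal → RingHom.ker χ ≠ ⊥ → ∃ (x y : B) (J₁ J₂ : Ideal B), x ≠ 0 ∧ y ≠ 0 ∧
        J₁ ≠ ⊥ ∧ J₂ ≠ ⊥ ∧ Ideal.span {x} * RingHom.ker χ * J₁ ^ n =
          Ideal.span {y} * v.asIdeal * J₂ ^ n := by
  classical
  have hft : Algebra.FiniteType C B := by
    obtain ⟨m, hm⟩ := pd_ft hd
    have := pd_W_finite hd m
    obtain ⟨s, hs⟩ := (inferInstance : Module.Finite C (W hd m)).fg_top
    refine ⟨⟨s.image Subtype.val, ?_⟩⟩
    rw [eq_top_iff, ← hm]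
    apply Algebra.adjoin_le
    intro x hx
    have h1 : (⟨x, hx⟩ : W hd m) ∈ Submodule.span C (s : Set (W hd m)) := hs ▸ Submodule.mem_top
    have h2 : x ∈ (Submodule.span C (s : Set (W hd m))).map (W hd m).subtype := ⟨_, h1, rfl⟩
    rw [Submodule.map_span] at h2
    have h3 : ((W hd m).subtype '' (s : Set (W hd m))) = ((s.image Subtype.val : Finset B) : Set B) := by
      simp
    rw [h3] at h2
    exact Algebra.span_le_adjoin _ _ h2
  obtain ⟨r, g, hg⟩ : ∃ (r : ℕ) (g : Fin r → B), Algebra.adjoin C (Set.range g) = ⊤ := by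
    obtain ⟨s, hs⟩ := hft.out
    refine ⟨s.card, fun i => (s.equivFin.symm i : B), ?_⟩
    rw [← hs]
    congr 1
    ext x
    constructor
    · rintro ⟨i, rfl⟩
      exact (s.equivFin.symm i).2
    · intro hx
      exact ⟨s.equivFin ⟨x, hx⟩, by simp⟩
  obtain ⟨r', h, hh⟩ : ∃ (r' : ℕ) (h : Fin r' → B), Ideal.span (Set.range h) = v.asIdeal :=
    Submodule.fg_iff_exists_fin_generating_family.1 (IsNoetherian.noetherian v.asIdeal)
  have hhm : ∀ k, h k ∈ v.asIdeal := fun k => hh ▸ Ideal.subset_span ⟨k, rfl⟩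
  obtain ⟨ev, hev, T₀, T₁, T₂, T₀', T₂', b₀, b₁, u, w, hb₀, hbz, h0, h2, h1, hc, hm0, hm2, hq0,
    hq2⟩ := t2_ident hd n hn v g h hhm
  obtain ⟨f, hf, hspec⟩ := exists_spec ev hev
    (Set.range T₀ ∪ (Set.range T₁ ∪ (Set.range T₂ ∪ (Set.range T₀' ∪ (Set.range T₂' ∪ {b₁, u, w})))))
    (by
      refine (Set.finite_range _).union ((Set.finite_range _).union ((Set.finite_range _).union
        ((Set.finite_range _).union ((Set.finite_range _).union ?_))))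
      exact Set.toFinite _) b₀ hb₀
  refine ⟨f, hf, fun χ hχ hne hker => ?_⟩
  obtain ⟨A₀, ψ, hev', hψ, hlift, c₀, hc₀, hΦc₀⟩ := hspec χ hχ
  have lift0 : ∀ i, ∃ t, Algebra.TensorProduct.map A₀.val (AlgHom.id C B) t = T₀ i :=
    fun i => hlift _ (Or.inl ⟨i, rfl⟩)
  have lift1 : ∀ i, ∃ t, Algebra.TensorProduct.map A₀.val (AlgHom.id C B) t = T₁ i :=
    fun i => hlift _ (Or.inr (Or.inl ⟨i, rfl⟩))
  have lift2 : ∀ i, ∃ t, Algebra.TensorProduct.map A₀.val (AlgHom.id C B) t = T₂ i :=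
    fun i => hlift _ (Or.inr (Or.inr (Or.inl ⟨i, rfl⟩)))
  have lift0' : ∀ k, ∃ t, Algebra.TensorProduct.map A₀.val (AlgHom.id C B) t = T₀' k :=
    fun k => hlift _ (Or.inr (Or.inr (Or.inr (Or.inl ⟨k, rfl⟩))))
  have lift2' : ∀ k, ∃ t, Algebra.TensorProduct.map A₀.val (AlgHom.id C B) t = T₂' k :=
    fun k => hlift _ (Or.inr (Or.inr (Or.inr (Or.inr (Or.inl ⟨k, rfl⟩)))))
  obtain ⟨c₁, hc₁⟩ := hlift b₁ (Or.inr (Or.inr (Or.inr (Or.inr (Or.inr (by simp))))))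
  obtain ⟨u', hu'⟩ := hlift u (Or.inr (Or.inr (Or.inr (Or.inr (Or.inr (by simp))))))
  obtain ⟨w', hw'⟩ := hlift w (Or.inr (Or.inr (Or.inr (Or.inr (Or.inr (by simp))))))
  choose U₀ hU₀ using lift0
  choose U₁ hU₁ using lift1
  choose U₂ hU₂ using lift2
  choose V₀ hV₀ using lift0'
  choose V₂ hV₂ using lift2'
  have inj := inj_map (B := B) A₀
  -- the differences
  have hmu : ∀ i, Algebra.TensorProduct.map A₀.val (AlgHom.id C B)
      (1 ⊗ₜ g i - (⟨ev (g i), hev' (g i)⟩ : A₀) ⊗ₜ 1) = 1 ⊗ₜ g i - ev (g i) ⊗ₜ 1 := by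
    intro i
    rw [map_sub, Algebra.TensorProduct.map_tmul, Algebra.TensorProduct.map_tmul]
    simp
  have hnu : ∀ k, Algebra.TensorProduct.map A₀.val (AlgHom.id C B)
      (1 ⊗ₜ h k : A₀ ⊗[C] B) = 1 ⊗ₜ h k := by
    intro k
    rw [Algebra.TensorProduct.map_tmul]
    simp
  have hΦmu : ∀ i, Phi A₀ ψ (1 ⊗ₜ g i - (⟨ev (g i), hev' (g i)⟩ : A₀) ⊗ₜ 1) =
      g i - algebraMap C B (χ (g i)) := by
    intro i
    rw [Phi_mu, hψ]
  have hΦnu : ∀ k, Phi A₀ ψ (1 ⊗ₜ h k) = h k := by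
    intro k
    simp [Phi]
  have e0 : ∀ i k, U₀ i * V₀ k =
      (1 ⊗ₜ g i - (⟨ev (g i), hev' (g i)⟩ : A₀) ⊗ₜ 1) * (1 ⊗ₜ h k) * c₀ ^ n := by
    intro i k
    apply inj
    rw [map_mul, map_mul, map_mul, map_pow, hU₀, hV₀, hmu, hnu, hc₀, h0]
  have e2 : ∀ i k, U₂ i * V₂ k =
      (1 ⊗ₜ g i - (⟨ev (g i), hev' (g i)⟩ : A₀) ⊗ₜ 1) * (1 ⊗ₜ h k) * c₁ ^ n := by
    intro i k
    apply inj
    rw [map_mul, map_mul, map_mul, map_pow, hU₂, hV₂, hmu, hnu, hc₁, h2]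
  have e1 : ∀ i, U₁ i ^ n = U₀ i ^ (n - 1) * U₂ i := by
    intro i
    apply inj
    rw [map_mul, map_pow, map_pow, hU₀, hU₁, hU₂, h1]
  have ec : ∀ i j, (1 ⊗ₜ g j - (⟨ev (g j), hev' (g j)⟩ : A₀) ⊗ₜ 1) * U₀ i =
      (1 ⊗ₜ g i - (⟨ev (g i), hev' (g i)⟩ : A₀) ⊗ₜ 1) * U₀ j := by
    intro i j
    apply inj
    rw [map_mul, map_mul, hmu, hmu, hU₀, hU₀, hc]
  have eb : c₀ * u' + c₁ * w' = 1 := by
    apply inj
    rw [map_add, map_mul, map_mul, hc₀, hu', hc₁, hw', map_one, hbz]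
  have : v.asIdeal.IsMaximal := v.isMaximal
  have : (RingHom.ker χ).IsMaximal := RingHom.ker_isMaximal_of_surjective χ.toRingHom
    (fun c => ⟨algebraMap C B c, by simp⟩)
  obtain ⟨i, hi, hTi, J₁, J₂, hJ₁, hJ₂, hJ⟩ := t2_val n hn v.asIdeal (RingHom.ker χ) (Ne.symm hne)
    v.ne_bot hker (fun i => g i - algebraMap C B (χ (g i))) h (ker_eq_span g hg χ) hh
    (fun i => Phi A₀ ψ (U₀ i)) (fun i => Phi A₀ ψ (U₁ i)) (fun i => Phi A₀ ψ (U₂ i))
    (fun k => Phi A₀ ψ (V₀ k)) (fun k => Phi A₀ ψ (V₂ k)) (Phi A₀ ψ c₀) (Phi A₀ ψ c₁)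
    (Phi A₀ ψ u') (Phi A₀ ψ w') (by rw [← map_mul, ← map_mul, ← map_add, eb, map_one]) hΦc₀
    (fun i k => by rw [← map_mul, e0, map_mul, map_mul, map_pow, hΦmu, hΦnu])
    (fun i k => by rw [← map_mul, e2, map_mul, map_mul, map_pow, hΦmu, hΦnu])
    (fun i => by rw [← map_pow, e1, map_mul, map_pow])
    (fun i j => by
      rw [← hΦmu, ← hΦmu, ← map_mul, ← map_mul, ec])
    (fun i => Phi_mem A₀ ψ _ _ (by rw [hU₀]; exact hm0 i))
    (fun i => Phi_mem A₀ ψ _ _ (by rw [hU₂]; exact hm2 i))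
    (fun k => by
      rw [RingHom.mem_ker]
      exact chi_Phi A₀ ψ ev χ hev' hψ _ (by rw [hV₀]; exact hq0 k))
    (fun k => by
      rw [RingHom.mem_ker]
      exact chi_Phi A₀ ψ ev χ hev' hψ _ (by rw [hV₂]; exact hq2 k))
  exact ⟨_, _, J₁, J₂, hTi, hi, hJ₁, hJ₂, hJ⟩

/-! ### Classes modulo `n`-th powers -/

/-- The class of a nonzero ideal modulo `n`-th powers. -/
noncomputable def cl {B : Type*} [CommRing B] [IsDedekindDomain B] (n : ℕ) :
    nonZeroDivisors (Ideal B) →* ClassGroup B ⧸ (powMonoidHom n : ClassGroup B →* ClassGroup B).range :=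
  (QuotientGroup.mk' _).comp ClassGroup.mk0

theorem quot_pow {G : Type*} [CommGroup G] (n : ℕ) (q : G ⧸ (powMonoidHom n : G →* G).range) :
    q ^ n = 1 := by
  obtain ⟨c, rfl⟩ := QuotientGroup.mk_surjective q
  rw [← QuotientGroup.mk_pow, QuotientGroup.eq_one_iff]
  exact ⟨c, rfl⟩

theorem cl_pow {B : Type*} [CommRing B] [IsDedekindDomain B] (n : ℕ) (I : nonZeroDivisors (Ideal B)) :
    cl n (I ^ n) = 1 := by
  rw [map_pow, quot_pow]

theorem cl_span {B : Type*} [CommRing B] [IsDedekindDomain B] (n : ℕ) (I : nonZeroDivisors (Ideal B))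
    (x : B) (hx : (I : Ideal B) = Ideal.span {x}) : cl n I = 1 := by
  have h : ClassGroup.mk0 I = 1 := by
    rw [ClassGroup.mk0_eq_one_iff I.2, hx]
    exact ⟨⟨x, rfl⟩⟩
  change QuotientGroup.mk' _ (ClassGroup.mk0 I) = 1
  rw [h, map_one]

theorem cl_eq {B : Type*} [CommRing B] [IsDedekindDomain B] (n : ℕ) (x y : B) (I I' J₁ J₂ : Ideal B)
    (hx : x ≠ 0) (hy : y ≠ 0) (hI : I ∈ nonZeroDivisors (Ideal B))
    (hI' : I' ∈ nonZeroDivisors (Ideal B)) (hJ₁ : J₁ ≠ ⊥) (hJ₂ : J₂ ≠ ⊥)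
    (h : Ideal.span {x} * I * J₁ ^ n = Ideal.span {y} * I' * J₂ ^ n) :
    cl n ⟨I, hI⟩ = cl n ⟨I', hI'⟩ := by
  have hx' : Ideal.span {x} ∈ nonZeroDivisors (Ideal B) := by
    rw [mem_nonZeroDivisors_iff_ne_zero]
    simpa using hx
  have hy' : Ideal.span {y} ∈ nonZeroDivisors (Ideal B) := by
    rw [mem_nonZeroDivisors_iff_ne_zero]
    simpa using hy
  have hJ₁' : J₁ ∈ nonZeroDivisors (Ideal B) := mem_nonZeroDivisors_iff_ne_zero.2 hJ₁
  have hJ₂' : J₂ ∈ nonZeroDivisors (Ideal B) := mem_nonZeroDivisors_iff_ne_zero.2 hJ₂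
  have h1 : (⟨_, hx'⟩ * ⟨I, hI⟩ * ⟨J₁, hJ₁'⟩ ^ n : nonZeroDivisors (Ideal B)) =
      ⟨_, hy'⟩ * ⟨I', hI'⟩ * ⟨J₂, hJ₂'⟩ ^ n := Subtype.ext h
  have h2 := congrArg (cl n) h1
  rwa [map_mul, map_mul, map_mul, map_mul, cl_pow, cl_pow, mul_one, mul_one,
    cl_span n ⟨_, hx'⟩ x rfl, cl_span n ⟨_, hy'⟩ y rfl, one_mul, one_mul] at h2

/-! ### Maximal ideals -/

section

variable {C B : Type*} [Field C] [CommRing B] [IsDomain B] [Algebra C B] {d : B → ℕ}
  (hd : IsPoleDeg C d)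

include hd

theorem d_one : d 1 = 0 := (hd.const 1).2 ⟨1, (map_one _).symm⟩

theorem d_neg_one : d (-1) = 0 := (hd.const (-1)).2 ⟨-1, by simp⟩

theorem exists_max (F : B) (hF : F ≠ 0) : ∃ 𝔮 : Ideal B, 𝔮.IsMaximal ∧ 𝔮 ≠ ⊥ ∧ F ∉ 𝔮 := by
  obtain ⟨n₀, hn₀⟩ := hd.large
  obtain ⟨x, hx, hdx⟩ := hn₀ (n₀ + 1) (by omega)
  have h1 : d (F * x) = d F + (n₀ + 1) := by rw [hd.mul _ _ hF hx, hdx]
  have h2 : d (1 + F * x) ≠ 0 := by
    intro h
    have h3 := hd.add (1 + F * x) (-1)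
    rw [h, d_neg_one hd] at h3
    have h4 : 1 + F * x + -1 = F * x := by ring
    rw [h4, h1] at h3
    simp at h3
  have h3 : ¬ IsUnit (1 + F * x) := by
    intro hu
    obtain ⟨z, hz⟩ := hu.exists_right_inv
    have hz0 : z ≠ 0 := by
      rintro rfl
      rw [mul_zero] at hz
      exact zero_ne_one hz
    have h0 : 1 + F * x ≠ 0 := by
      intro h
      rw [h, zero_mul] at hz
      exact zero_ne_one hz
    have := hd.mul _ _ h0 hz0
    rw [hz, d_one hd] at this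
    omega
  obtain ⟨𝔮, h𝔮, hmem⟩ := exists_max_ideal_of_mem_nonunits h3
  refine ⟨𝔮, h𝔮, ?_, ?_⟩
  · rintro rfl
    rw [Ideal.mem_bot] at hmem
    rw [hmem, hd.zero] at h2
    exact h2 rfl
  · intro hF𝔮
    apply h𝔮.ne_top
    rw [Ideal.eq_top_iff_one]
    have := 𝔮.sub_mem hmem (𝔮.mul_mem_right x hF𝔮)
    simpa using this

end

theorem exists_point {C B : Type*} [Field C] [IsAlgClosed C] [CommRing B] [Algebra C B]
    (𝔮 : Ideal B) [𝔮.IsMaximal] (hfin : Module.Finite C (B ⧸ 𝔮)) :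
    ∃ χ : B →ₐ[C] C, RingHom.ker χ = 𝔮 := by
  have hb : Function.Bijective (algebraMap C (B ⧸ 𝔮)) :=
    IsAlgClosed.algebraMap_bijective_of_isIntegral
  let e : C ≃ₐ[C] (B ⧸ 𝔮) := AlgEquiv.ofBijective (Algebra.ofId C (B ⧸ 𝔮)) hb
  refine ⟨e.symm.toAlgHom.comp (Ideal.Quotient.mkₐ C 𝔮), ?_⟩
  ext b
  rw [RingHom.mem_ker]
  change e.symm (Ideal.Quotient.mk 𝔮 b) = 0 ↔ _
  rw [map_eq_zero_iff _ e.symm.injective, Ideal.Quotient.eq_zero_iff_mem]

/-! ### The main argument -/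

section main

variable {C B : Type*} [Field C] [IsAlgClosed C] [CharZero C] [CommRing B]
    [IsDedekindDomain B] [Algebra C B] {d : B → ℕ} (hd : IsPoleDeg C d) (n : ℕ) (hn : 1 ≤ n)

include hd hn

/-- all maximal ideals outside a proper closed set are equivalent to a given one -/
theorem stepB (v : HeightOneSpectrum B) : ∃ f : B, f ≠ 0 ∧ ∀ q : HeightOneSpectrum B,
    f ∉ q.asIdeal → cl n ⟨q.asIdeal, mem_nonZeroDivisors_iff_ne_zero.2 q.ne_bot⟩ =
      cl n ⟨v.asIdeal, mem_nonZeroDivisors_iff_ne_zero.2 v.ne_bot⟩ := by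
  obtain ⟨f, hf, h⟩ := stepA hd n hn v
  refine ⟨f, hf, fun q hfq => ?_⟩
  by_cases hqv : q.asIdeal = v.asIdeal
  · congr 1
    exact Subtype.ext hqv
  have : q.asIdeal.IsMaximal := q.isMaximal
  obtain ⟨χ, hχ⟩ := exists_point (C := C) q.asIdeal (pd_finite hd q.asIdeal q.ne_bot)
  obtain ⟨x, y, J₁, J₂, hx, hy, hJ₁, hJ₂, hJ⟩ := h χ (fun hc => hfq (by rw [← hχ]; exact hc))
    (by rw [hχ]; exact hqv) (by rw [hχ]; exact q.ne_bot)
  rw [hχ] at hJ
  exact cl_eq n x y _ _ J₁ J₂ hx hy _ _ hJ₁ hJ₂ hJ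

theorem stepC (v v' : HeightOneSpectrum B) :
    cl n ⟨v.asIdeal, mem_nonZeroDivisors_iff_ne_zero.2 v.ne_bot⟩ =
      cl n ⟨v'.asIdeal, mem_nonZeroDivisors_iff_ne_zero.2 v'.ne_bot⟩ := by
  obtain ⟨f, hf, h⟩ := stepB hd n hn v
  obtain ⟨f', hf', h'⟩ := stepB hd n hn v'
  obtain ⟨𝔮, h𝔮, h𝔮b, hF⟩ := exists_max hd (f * f') (mul_ne_zero hf hf')
  let q : HeightOneSpectrum B := ⟨𝔮, h𝔮.isPrime, h𝔮b⟩
  rw [← h q (fun hm => hF (𝔮.mul_mem_right _ hm)), ← h' q (fun hm => hF (𝔮.mul_mem_left _ hm))]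

theorem stepD (v : HeightOneSpectrum B) (I : Ideal B) (hI : I ∈ nonZeroDivisors (Ideal B)) :
    cl n ⟨I, hI⟩ = cl n ⟨v.asIdeal, mem_nonZeroDivisors_iff_ne_zero.2 v.ne_bot⟩ ^
      Module.finrank C (B ⧸ I) := by
  induction I using UniqueFactorizationMonoid.induction_on_prime with
  | h₁ => exact absurd rfl (mem_nonZeroDivisors_iff_ne_zero.1 hI)
  | h₂ I hu =>
    have hI1 : I = ⊤ := Ideal.isUnit_iff.1 hu
    subst hI1
    have h1 : (⟨⊤, hI⟩ : nonZeroDivisors (Ideal B)) = 1 := Subtype.ext Ideal.one_eq_top.symm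
    rw [h1, map_one]
    have : Subsingleton (B ⧸ (⊤ : Ideal B)) := Ideal.Quotient.subsingleton_iff.2 rfl
    rw [Module.finrank_zero_of_subsingleton, pow_zero]
  | h₃ I p hI0 hp ih =>
    have hI' : I ∈ nonZeroDivisors (Ideal B) := mem_nonZeroDivisors_iff_ne_zero.2 hI0
    have hp' : p ∈ nonZeroDivisors (Ideal B) := mem_nonZeroDivisors_iff_ne_zero.2 hp.ne_zero
    have h1 : (⟨p * I, hI⟩ : nonZeroDivisors (Ideal B)) = ⟨p, hp'⟩ * ⟨I, hI'⟩ := rfl
    let q : HeightOneSpectrum B := ⟨p, Ideal.isPrime_of_prime hp, hp.ne_zero⟩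
    have : p.IsMaximal := q.isMaximal
    rw [h1, map_mul, ih hI', pd_mul hd p I hp.ne_zero hI0, pd_max hd p hp.ne_zero, pow_add,
      pow_one, stepC hd n hn v q]

end main

end T2Main

open T2Main

theorem class_divisible {C B : Type*} [Field C] [IsAlgClosed C] [CharZero C] [CommRing B]
    [IsDedekindDomain B] [Algebra C B] {d : B → ℕ} (hd : IsPoleDeg C d) (n : ℕ) (hn : 1 ≤ n)
    (c : ClassGroup B) : ∃ c', c' ^ n = c := by
  obtain ⟨𝔮, h𝔮, h𝔮b, -⟩ := exists_max hd 1 one_ne_zero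
  let v : HeightOneSpectrum B := ⟨𝔮, h𝔮.isPrime, h𝔮b⟩
  have h1 : ∀ x : B, x ≠ 0 →
      cl n ⟨v.asIdeal, mem_nonZeroDivisors_iff_ne_zero.2 v.ne_bot⟩ ^ d x = 1 := by
    intro x hx
    have hx' : Ideal.span {x} ∈ nonZeroDivisors (Ideal B) := by
      rw [mem_nonZeroDivisors_iff_ne_zero]
      simpa using hx
    rw [← (pd_quot hd x hx).2, ← stepD hd n hn v _ hx']
    exact cl_span n _ x rfl
  have h2 : cl n ⟨v.asIdeal, mem_nonZeroDivisors_iff_ne_zero.2 v.ne_bot⟩ = 1 := by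
    obtain ⟨n₀, hn₀⟩ := hd.large
    obtain ⟨x, hx, hdx⟩ := hn₀ n₀ le_rfl
    obtain ⟨y, hy, hdy⟩ := hn₀ (n₀ + 1) (by omega)
    have h3 := h1 x hx
    have h4 := h1 y hy
    rw [hdx] at h3
    rw [hdy, pow_succ, h3, one_mul] at h4
    exact h4
  obtain ⟨I, rfl⟩ := ClassGroup.mk0_surjective c
  have h3 : cl n I = 1 := by
    have := stepD hd n hn v I.1 I.2
    rw [h2, one_pow] at this
    exact this
  have h4 : (QuotientGroup.mk (ClassGroup.mk0 I) :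
      ClassGroup B ⧸ (powMonoidHom n : ClassGroup B →* ClassGroup B).range) = 1 := h3
  rw [QuotientGroup.eq_one_iff] at h4
  obtain ⟨c', hc'⟩ := h4
  exact ⟨c', hc'⟩

end Pool.Agent.Lib.MP_2f3286_ag.Pt
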