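import Mathlib
import Pool.Agent.Lib.MP_2f3286_ag.Pt.Defs
import Pool.Agent.Lib.MP_2f3286_ag.Pt.KlStepCore
import Pool.Agent.Lib.MP_2f3286_ag.Pt.Ex2
import Pool.Agent.Lib.MP_2f3286_ag.Pt.Ex3
import Pool.Agent.Lib.MP_2f3286_ag.Pt.T2Main
import Pool.Agent.Lib.MP_2f3286_ag.Pt.PB1
import Pool.Agent.Lib.MP_2f3286_ag.Pt.PB2

/-!
# KLSTEP: dividing a Kummer class of a function field
-/

open Polynomial IntermediateField IsDedekindDomain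
open scoped TensorProduct

namespace Pool.Agent.Lib.MP_2f3286_ag.Pt

theorem kl_step {C L : Type*} [Field C] [IsAlgClosed C] [CharZero C] [Field L] [Algebra C L] (t : L)
    (ht : Transcendental C t) [FiniteDimensional (adjoin C {t}) L] (𝒰 : Set (ValuationSubring L))
    (h𝒰 : ∀ Q ∈ 𝒰, (∀ a : C, algebraMap C L a ∈ Q) ∧ Q ≠ ⊤)
    (hfin : {Q : ValuationSubring L | (∀ a : C, algebraMap C L a ∈ Q) ∧ Q ≠ ⊤ ∧ Q ∉ 𝒰}.Finite)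
    (N n : ℕ) (hN : 1 ≤ N) (hn : 1 ≤ n) (ρ : L) (hρ : ρ ≠ 0) (h : ∀ Q ∈ 𝒰, DivAt N ρ Q) :
    ∃ c : L, c ≠ 0 ∧ ∀ Q ∈ 𝒰, DivAt (N * n) (ρ * c ^ N) Q := by
  classical
  by_cases hemp : 𝒰 = ∅
  · exact ⟨1, one_ne_zero, fun Q hQ => by rw [hemp] at hQ; exact absurd hQ (Set.notMem_empty _)⟩
  obtain ⟨P, hPC, hP, hPU⟩ : ∃ P : ValuationSubring L, (∀ a : C, algebraMap C L a ∈ P) ∧ P ≠ ⊤ ∧
      (P ∈ 𝒰 → ∀ Q : ValuationSubring L, (∀ a : C, algebraMap C L a ∈ Q) → Q ≠ ⊤ → Q ∈ 𝒰) := by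
    by_cases hall : ∀ Q : ValuationSubring L, (∀ a : C, algebraMap C L a ∈ Q) → Q ≠ ⊤ → Q ∈ 𝒰
    · obtain ⟨Q, hQ⟩ := Set.nonempty_iff_ne_empty.2 hemp
      exact ⟨Q, (h𝒰 Q hQ).1, (h𝒰 Q hQ).2, fun _ => hall⟩
    · push Not at hall
      obtain ⟨Q, hQ1, hQ2, hQ3⟩ := hall
      exact ⟨Q, hQ1, hQ2, fun h => absurd h hQ3⟩
  obtain ⟨B, hD, hF, hB, d, hd, ϖ, hϖ, -, hϖ2⟩ := exists_pointed t ht P hPC hP
  have hplace := place_iff P hPC hP B hB d hd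
  refine KlStep.core 𝒰 h𝒰 P B hplace (fun v n hn ρ hρ => divAt_iff v n hn ρ hρ) N n hN hn
    (fun c => class_divisible hd n hn c) (fun hPin => ⟨fun v => ?_, fun x hx hdiv => ?_⟩) ρ hρ h
  · obtain ⟨h1, h2, -⟩ := (hplace _).2 ⟨v, rfl⟩
    exact hPU hPin _ h1 h2
  · refine KlStep.at_missing P B d (fun x hx => (pd_quot hd x hx).2)
      (fun I J hI hJ => pd_mul hd I J hI hJ) ϖ hϖ hϖ2 (N * n) x ?_
    exact (divAt_all_iff (N * n) (Nat.one_le_iff_ne_zero.2 (by positivity)) x hx).1 hdiv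

end Pool.Agent.Lib.MP_2f3286_ag.Pt
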