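import Mathlib

/-!
# Closed subgroups of a Galois group as Galois groups of the fixed field
-/

open Polynomial IntermediateField IsDedekindDomain
open scoped TensorProduct

namespace Pool.Agent.Lib.MP_2f3286_ag.Pt

/-- The restriction of scalars `Gal(M/E) → Gal(M/K)` is continuous. -/
theorem restrictScalars_continuous {K M : Type*} [Field K] [Field M] [Algebra K M]
    (E : IntermediateField K M) :
    Continuous (fun φ : Gal(M/E) => (((fixingSubgroupEquiv E).symm φ : fixingSubgroup E) :
      Gal(M/K))) := by
  let g : Gal(M/E) →* Gal(M/K) :=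
    (fixingSubgroup E).subtype.comp (fixingSubgroupEquiv E).symm.toMonoidHom
  change Continuous g
  apply continuous_of_continuousAt_one
  unfold ContinuousAt
  rw [map_one]
  intro s hs
  rw [krullTopology_mem_nhds_one_iff] at hs
  obtain ⟨L, hL, hs⟩ := hs
  rw [Filter.mem_map]
  have hfg : L.FG := IntermediateField.essFiniteType_iff.1 inferInstance
  obtain ⟨T, hT⟩ := hfg
  have halg : ∀ x ∈ (T : Set M), IsIntegral E x := by
    intro x hx
    have h1 : x ∈ L := by
      rw [← hT]
      exact IntermediateField.subset_adjoin K _ hx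
    have h2 : IsIntegral K (⟨x, h1⟩ : L) := Algebra.IsIntegral.isIntegral _
    have h3 : IsIntegral K x := by
      have := h2.map L.val
      exact this
    exact h3.tower_top
  rw [krullTopology_mem_nhds_one_iff]
  refine ⟨IntermediateField.adjoin E (T : Set M),
    IntermediateField.finiteDimensional_adjoin halg, ?_⟩
  intro φ hφ
  apply hs
  have h4 : L ≤ IntermediateField.restrictScalars K (IntermediateField.adjoin E (T : Set M)) := by
    rw [← hT]
    rw [IntermediateField.adjoin_le_iff]
    intro x hx
    rw [SetLike.mem_coe, IntermediateField.mem_restrictScalars]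
    exact IntermediateField.subset_adjoin E _ hx
  have hφ' := (IntermediateField.mem_fixingSubgroup_iff _ _).1 hφ
  refine (IntermediateField.mem_fixingSubgroup_iff _ _).2 ?_
  intro x hx
  exact hφ' x (h4 hx)

/-- A closed subgroup `A` of `Gal(M/K)` is the Galois group of `M` over its fixed field, as a
topological group. -/
theorem exists_equiv {K M : Type*} [Field K] [Field M] [Algebra K M] [IsGalois K M]
    (A : Subgroup Gal(M/K)) (hA : IsClosed (A : Set Gal(M/K))) (E : IntermediateField K M)
    (hE : E = IntermediateField.fixedField A) :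
    ∃ e : Gal(M/E) ≃* A, Continuous e ∧ Continuous e.symm := by
  have h1 : fixingSubgroup E = A := by
    rw [hE]
    exact InfiniteGalois.fixingSubgroup_fixedField ⟨A, hA⟩
  let e : Gal(M/E) ≃* A :=
    (fixingSubgroupEquiv E).symm.trans (MulEquiv.subgroupCongr h1)
  have hc : Continuous e := by
    rw [Topology.IsInducing.subtypeVal.continuous_iff]
    exact restrictScalars_continuous E
  refine ⟨e, hc, ?_⟩
  have h2 := Continuous.continuous_symm_of_equiv_compact_to_t2 (f := e.toEquiv) hc
  exact h2

theorem transport {K M : Type*} [Field K] [Field M] [Algebra K M] [IsGalois K M]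
    (A : Subgroup Gal(M/K)) (hA : IsClosed (A : Set Gal(M/K))) (E : IntermediateField K M)
    (hE : E = IntermediateField.fixedField A) (ℓ : ℕ) [Fact ℓ.Prime]
    (h : Finite (Gal(M/E) →ₜ* Multiplicative (ZMod ℓ)) ∧
      ∀ f : Gal(M/E) →ₜ* Multiplicative (ZMod ℓ), ∃ F : Gal(M/E) →ₜ* Multiplicative ℤ_[ℓ],
        ∀ a, PadicInt.toZMod (F a).toAdd = (f a).toAdd) :
    Finite (A →ₜ* Multiplicative (ZMod ℓ)) ∧
      ∀ f : A →ₜ* Multiplicative (ZMod ℓ), ∃ F : A →ₜ* Multiplicative ℤ_[ℓ],
        ∀ a, PadicInt.toZMod (F a).toAdd = (f a).toAdd := by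
  obtain ⟨e, he, he'⟩ := exists_equiv A hA E hE
  let u : Gal(M/E) →ₜ* A := ⟨e.toMonoidHom, he⟩
  let v : A →ₜ* Gal(M/E) := ⟨e.symm.toMonoidHom, he'⟩
  refine ⟨?_, ?_⟩
  · have := h.1
    refine Finite.of_injective (fun f : A →ₜ* Multiplicative (ZMod ℓ) => f.comp u) ?_
    intro f g hfg
    ext a
    have h3 := DFunLike.congr_fun hfg (e.symm a)
    have h4 : u (e.symm a) = a := e.apply_symm_apply a
    change f (u (e.symm a)) = g (u (e.symm a)) at h3
    rw [h4] at h3
    exact h3
  · intro f
    obtain ⟨F, hF⟩ := h.2 (f.comp u)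
    refine ⟨F.comp v, ?_⟩
    intro a
    have h3 := hF (e.symm a)
    have h4 : u (e.symm a) = a := e.apply_symm_apply a
    change PadicInt.toZMod (F (e.symm a)).toAdd = (f (u (e.symm a))).toAdd at h3
    rw [h4] at h3
    exact h3

end Pool.Agent.Lib.MP_2f3286_ag.Pt
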