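import Mathlib
import Pool.Agent.Lib.MP_2f3286_ag.Pt.Defs
import Pool.Agent.Lib.MP_2f3286_ag.Full.WVal

/-!
# Radicals in an unramified extension have divisible valuations
-/

open Polynomial IntermediateField IsDedekindDomain
open scoped TensorProduct

namespace Pool.Agent.Lib.MP_2f3286_ag.Pt

open Full

namespace Unr

/-- A valuation ring of a finite Galois extension with trivial stabiliser is unramified. -/
theorem exists_base_val {E L : Type*} [Field E] [Field L] [Algebra E L] [FiniteDimensional E L]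
    [IsGalois E L] (V : ValuationSubring L)
    (hst : ∀ σ : Gal(L/E), (∀ x, x ∈ V ↔ σ x ∈ V) → σ = 1)
    (harch : ∀ z y : L, V.valuation z < 1 → y ≠ 0 → ∃ N : ℕ, V.valuation (z ^ N) < V.valuation y)
    (β : L) (hβ : β ≠ 0) :
    ∃ c : E, c ≠ 0 ∧ V.valuation (β * (algebraMap E L c)⁻¹) = 1 := by
  classical
  obtain ⟨𝔒, h𝔒⟩ : ∃ 𝔒, V.comap (algebraMap E L) = 𝔒 := ⟨_, rfl⟩
  let 𝒲 : Gal(L/E) → ValuationSubring L := fun σ => V.comap (σ : L →+* L)
  have hmem : ∀ (σ : Gal(L/E)) (x : L), x ∈ 𝒲 σ ↔ σ x ∈ V := fun σ x => Iff.rfl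
  have h : ∀ σ, (𝒲 σ).comap (algebraMap E L) = 𝔒 := by
    intro σ
    rw [← h𝔒]
    ext x
    change σ (algebraMap E L x) ∈ V ↔ algebraMap E L x ∈ V
    rw [AlgEquiv.commutes]
  let P : Gal(L/E) → Ideal (integralClosure 𝔒 L) := fun σ => PP (h σ)
  have hcop : Pairwise (Function.onFun IsCoprime P) := by
    intro σ τ hστ
    have := PP_isMaximal (h σ)
    have := PP_isMaximal (h τ)
    apply Ideal.isCoprime_of_isMaximal
    intro heq
    apply hστ
    have h1 : 𝒲 σ = 𝒲 τ := eq_of_PP_eq (h σ) (h τ) heq
    have h2 : τ * σ⁻¹ = 1 := by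
      apply hst
      intro x
      have h3 : σ⁻¹ x ∈ 𝒲 σ ↔ σ⁻¹ x ∈ 𝒲 τ := by rw [h1]
      rw [hmem, hmem] at h3
      have h4 : σ (σ⁻¹ x) = x := by
        rw [← AlgEquiv.mul_apply, mul_inv_cancel, AlgEquiv.one_apply]
      rw [h4] at h3
      exact h3
    exact (mul_inv_eq_one.mp h2).symm
  obtain ⟨r, hr⟩ : ∃ r : integralClosure 𝔒 L, ∀ σ, r - (if σ = 1 then 1 else 0) ∈ P σ :=
    Ideal.exists_forall_sub_mem_ideal hcop (fun σ => if σ = 1 then 1 else 0)
  have hval : ∀ (σ : Gal(L/E)) (c : integralClosure 𝔒 L), c ∈ P σ → V.valuation (σ c) < 1 := by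
    intro σ c hc
    have h1 : (𝒲 σ).valuation (c : L) < 1 := (mem_PP (h σ) c).mp hc
    exact (val_comap_lt_one (σ : L →+* L) V (c : L)).mp h1
  -- the two elements
  have hs1 : V.valuation (1 - (r : L)) < 1 := by
    have h1 := hr 1
    rw [if_pos rfl] at h1
    have h2 := hval 1 _ h1
    have h3 : (1 : Gal(L/E)) ((r - 1 : integralClosure 𝔒 L) : L) = (r : L) - 1 := rfl
    rw [h3] at h2
    rw [← Valuation.map_neg, neg_sub]
    exact h2
  have hr1 : V.valuation (r : L) = 1 := by
    have h1 : (r : L) = 1 - (1 - (r : L)) := by ring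
    rw [h1]
    exact Valuation.map_one_sub_of_lt _ hs1
  have hrσ : ∀ σ : Gal(L/E), σ ≠ 1 → V.valuation (σ r) < 1 := by
    intro σ hσ
    have h1 := hr σ
    rw [if_neg hσ, sub_zero] at h1
    exact hval σ _ h1
  have hsσ : ∀ σ : Gal(L/E), σ ≠ 1 → V.valuation (σ (1 - (r : L))) = 1 := by
    intro σ hσ
    rw [map_sub, map_one]
    exact Valuation.map_one_sub_of_lt _ (hrσ σ hσ)
  -- the exponent
  have hN1 : ∃ N : ℕ, V.valuation ((1 - (r : L)) ^ N) < V.valuation β := harch _ _ hs1 hβ
  obtain ⟨N1, hN1⟩ := hN1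
  have hNσ : ∀ σ : Gal(L/E), ∃ N : ℕ, σ ≠ 1 →
      V.valuation ((σ r) ^ N) < V.valuation (σ β)⁻¹ := by
    intro σ
    by_cases hσ : σ = 1
    · exact ⟨0, fun h => absurd hσ h⟩
    · obtain ⟨N, hN⟩ := harch (σ r) (σ β)⁻¹ (hrσ σ hσ)
        (inv_ne_zero ((map_ne_zero σ).mpr hβ))
      exact ⟨N, fun _ => hN⟩
  choose Nσ hNσ using hNσ
  set N := N1 + ∑ σ, Nσ σ with hNdef
  have hanti : ∀ (z : L) (a b : ℕ), V.valuation z ≤ 1 → a ≤ b →
      V.valuation (z ^ b) ≤ V.valuation (z ^ a) := by
    intro z a b hz hab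
    rw [map_pow, map_pow]
    exact pow_le_pow_right_of_le_one' hz hab
  have hA : V.valuation ((1 - (r : L)) ^ N) < V.valuation β :=
    (hanti _ _ _ hs1.le (by omega)).trans_lt hN1
  have hB : ∀ σ : Gal(L/E), σ ≠ 1 → V.valuation ((σ r) ^ N) < V.valuation (σ β)⁻¹ := by
    intro σ hσ
    refine (hanti _ _ _ (hrσ σ hσ).le ?_).trans_lt (hNσ σ hσ)
    have := Finset.single_le_sum (f := Nσ) (fun _ _ => Nat.zero_le _) (Finset.mem_univ σ)
    omega
  set x : L := (r : L) ^ N * β + (1 - (r : L)) ^ N with hx
  have hx1 : V.valuation x = V.valuation β := by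
    have h1 : V.valuation ((r : L) ^ N * β) = V.valuation β := by
      rw [map_mul, map_pow, hr1, one_pow, one_mul]
    rw [hx, Valuation.map_add_eq_of_lt_left _ (by rw [h1]; exact hA), h1]
  have hxσ : ∀ σ : Gal(L/E), σ ≠ 1 → V.valuation (σ x) = 1 := by
    intro σ hσ
    have h1 : V.valuation ((σ (1 - (r : L))) ^ N) = 1 := by rw [map_pow, hsσ σ hσ, one_pow]
    have h2 : V.valuation ((σ r) ^ N * σ β) < 1 := by
      have h3 := hB σ hσ
      have h4 : V.valuation (σ β) ≠ 0 := (Valuation.ne_zero_iff _).mpr ((map_ne_zero σ).mpr hβ)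
      rw [map_mul]
      rw [map_inv₀] at h3
      calc V.valuation ((σ r) ^ N) * V.valuation (σ β)
          < (V.valuation (σ β))⁻¹ * V.valuation (σ β) :=
            mul_lt_mul_of_pos_right h3 (zero_lt_iff.mpr h4)
        _ = 1 := inv_mul_cancel₀ h4
    have h5 : σ x = (σ r) ^ N * σ β + (σ (1 - (r : L))) ^ N := by
      rw [hx, map_add, map_mul, map_pow, map_pow]
    rw [h5, Valuation.map_add_eq_of_lt_right _ (by rw [h1]; exact h2), h1]
  have hc : algebraMap E L (Algebra.norm E x) = ∏ σ : Gal(L/E), σ x :=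
    Algebra.norm_eq_prod_automorphisms E x
  have hcv : V.valuation (algebraMap E L (Algebra.norm E x)) = V.valuation β := by
    rw [hc, map_prod, ← Finset.mul_prod_erase _ _ (Finset.mem_univ (1 : Gal(L/E))),
      Finset.prod_eq_one (s := Finset.univ.erase (1 : Gal(L/E)))
        (fun σ hσ => hxσ σ (Finset.ne_of_mem_erase hσ)), mul_one, AlgEquiv.one_apply, hx1]
  have hβv : V.valuation β ≠ 0 := (Valuation.ne_zero_iff _).mpr hβ
  refine ⟨Algebra.norm E x, ?_, ?_⟩
  · intro h0
    rw [h0, map_zero, map_zero] at hcv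
    exact hβv hcv.symm
  · rw [map_mul, map_inv₀, hcv, mul_inv_cancel₀ hβv]


section adj

open scoped IntermediateField.algebraAdjoinAdjoin

theorem alg_adjoin {kb M : Type*} [Field kb] [Field M] [Algebra kb M] (t y : M)
    (h1 : IsAlgebraic (adjoin kb {t}) y) : IsAlgebraic (Algebra.adjoin kb {t}) y :=
  (IsFractionRing.isAlgebraic_iff (Algebra.adjoin kb {t}) (adjoin kb {t}) M).mpr h1

end adj

section coeff

variable {R M kb : Type*} [CommRing R] [Field M] [Field kb] [Algebra R M]

/-- Unit coefficient lemma for the integral closure of `R` in `M`. -/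
theorem unit_coeff (Ψ : integralClosure R M →+* kb) (y : M) (n : ℕ) :
    ∀ f : (integralClosure R M)[X], f.natDegree ≤ n → aeval y f = 0 →
      (∃ i, Ψ (f.coeff i) ≠ 0) →
      ∃ a b : integralClosure R M, y * b = a ∧ (Ψ a ≠ 0 ∨ Ψ b ≠ 0) := by
  induction n with
  | zero =>
    intro f hf hfy hu
    exfalso
    rw [Nat.le_zero, natDegree_eq_zero] at hf
    obtain ⟨a, rfl⟩ := hf
    obtain ⟨i, hi⟩ := hu
    rw [aeval_C] at hfy
    have ha : (a : M) = 0 := hfy
    have ha' : a = 0 := Subtype.ext ha
    rw [ha', C_0, coeff_zero, map_zero] at hi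
    exact hi rfl
  | succ n ih =>
    intro f hf hfy hu
    by_cases hfn : f.natDegree ≤ n
    · exact ih f hfn hfy hu
    have hdeg : f.natDegree = n + 1 := by omega
    set lc := f.leadingCoeff with hlc
    -- `b = lc * y` is integral
    have hb : IsIntegral (integralClosure R M) ((lc : M) * y) := by
      have := RingHom.isIntegralElem_leadingCoeff_mul (f := algebraMap (integralClosure R M) M)
        (p := f) y (by rw [← aeval_def]; exact hfy)
      exact this
    have hb' : IsIntegral R ((lc : M) * y) := isIntegral_trans _ hb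
    set b : integralClosure R M := ⟨(lc : M) * y, hb'⟩ with hbdef
    by_cases h1 : Ψ lc = 0
    · by_cases h2 : Ψ b = 0
      · set g : (integralClosure R M)[X] := f.eraseLead + C b * X ^ n with hg
        have hgdeg : g.natDegree ≤ n := by
          refine (natDegree_add_le _ _).trans (max_le ?_ ?_)
          · have := eraseLead_natDegree_le f
            omega
          · exact natDegree_C_mul_X_pow_le _ _
        have hgy : aeval y g = 0 := by
          have h3 : aeval y f = aeval y f.eraseLead + (lc : M) * y ^ (n + 1) := by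
            conv_lhs => rw [← eraseLead_add_C_mul_X_pow f]
            rw [map_add, map_mul, map_pow, aeval_X, aeval_C, hdeg]
            rfl
          rw [hg, map_add, map_mul, map_pow, aeval_X, aeval_C]
          have h4 : algebraMap (integralClosure R M) M b = (lc : M) * y := rfl
          rw [h4]
          rw [h3] at hfy
          linear_combination hfy
        refine ih g hgdeg hgy ?_
        obtain ⟨i, hi⟩ := hu
        have hi' : i ≤ n := by
          by_contra hcon
          rcases Nat.lt_or_ge (n + 1) i with h3 | h3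
          · rw [coeff_eq_zero_of_natDegree_lt (by omega), map_zero] at hi
            exact hi rfl
          · have : i = f.natDegree := by omega
            rw [this] at hi
            exact hi h1
        have hcoeff : g.coeff i = f.coeff i + if i = n then b else 0 := by
          rw [hg, coeff_add, eraseLead_coeff_of_ne i (by omega), coeff_C_mul, coeff_X_pow]
          split_ifs <;> simp
        refine ⟨i, ?_⟩
        rw [hcoeff]
        by_cases hin : i = n
        · rw [if_pos hin, map_add, h2, add_zero]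
          exact hi
        · rw [if_neg hin, add_zero]
          exact hi
      · exact ⟨b, lc, mul_comm _ _, Or.inl h2⟩
    · exact ⟨b, lc, mul_comm _ _, Or.inr h1⟩

end coeff

section

variable {k K M kb : Type*} [Field k] [Field K] [Field M] [Field kb] [Algebra k kb] [Algebra k K]
  [Algebra K M] [Algebra kb M] [Algebra k M] [IsScalarTower k K M] [IsScalarTower k kb M]

/-- `t` is transcendental over `kb`. -/
theorem transcendental_t [Algebra.IsAlgebraic k kb] (t : K) (ht : Transcendental k t) :
    Transcendental kb (algebraMap K M t) := by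
  intro h
  apply ht
  have h1 : IsAlgebraic k (algebraMap K M t) := IsAlgebraic.restrictScalars k h
  exact (isAlgebraic_algebraMap_iff (algebraMap K M).injective).mp h1

/-- every element of `M` satisfies a polynomial equation with coefficients in `kb[t]` -/
theorem exists_poly [Algebra.IsAlgebraic K M] (t : K) [FiniteDimensional (adjoin k {t}) K]
    (y : M) : ∃ P : kb[X][X], P ≠ 0 ∧
      eval₂ ((aeval (algebraMap K M t) : kb[X] →ₐ[kb] M) : kb[X] →+* M) y P = 0 := by
  have h1 := isAlgebraic_M (k := k) (kb := kb) t y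
  have h2 : IsAlgebraic (Algebra.adjoin kb {algebraMap K M t}) y := alg_adjoin _ _ h1
  obtain ⟨p, hp0, hp⟩ := h2
  let f : kb[X] →+* Algebra.adjoin kb {algebraMap K M t} :=
    ((aeval (⟨algebraMap K M t, Algebra.subset_adjoin rfl⟩ :
      Algebra.adjoin kb {algebraMap K M t}) : kb[X] →ₐ[kb] _) : kb[X] →+* _)
  have hf' : ∀ q : kb[X], ((f q : Algebra.adjoin kb {algebraMap K M t}) : M) =
      aeval (algebraMap K M t) q := by
    intro q
    exact (aeval_algebraMap_apply M (⟨algebraMap K M t, Algebra.subset_adjoin rfl⟩ :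
      Algebra.adjoin kb {algebraMap K M t}) q).symm
  have hf : Function.Surjective f := by
    rintro ⟨x, hx⟩
    rw [Algebra.adjoin_singleton_eq_range_aeval] at hx
    obtain ⟨q, hq⟩ := hx
    exact ⟨q, Subtype.ext ((hf' q).trans hq)⟩
  obtain ⟨P, hP⟩ := Polynomial.map_surjective f hf p
  refine ⟨P, ?_, ?_⟩
  · rintro rfl
    apply hp0
    rw [← hP, Polynomial.map_zero]
  · rw [← hP, aeval_def, eval₂_map] at hp
    rw [← hp]
    congr 1
    exact RingHom.ext fun q => (hf' q).symm

variable (R : Subalgebra k K)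

/-- elements of `kb[t]` are integral over `R` -/
theorem isIntegral_aeval [Algebra.IsAlgebraic k kb] (t : K) (htR : t ∈ R) (p : kb[X]) :
    IsIntegral R (aeval (algebraMap K M t) p) := by
  have h1 : ∀ a : kb, IsIntegral R (algebraMap kb M a) := by
    intro a
    have h2 : IsIntegral k a := Algebra.IsIntegral.isIntegral a
    have h3 : IsIntegral k (algebraMap kb M a) := h2.algebraMap
    exact h3.tower_top
  have h2 : IsIntegral R (algebraMap K M t) := by
    have h3 : algebraMap K M t = algebraMap R M ⟨t, htR⟩ := rfl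
    rw [h3]
    exact isIntegral_algebraMap
  induction p using Polynomial.induction_on' with
  | add p q hp hq => rw [map_add]; exact hp.add hq
  | monomial n a =>
    rw [aeval_monomial]
    exact (h1 a).mul (h2.pow n)

/-- the map `kb[X] → B_M` -/
noncomputable def jj [Algebra.IsAlgebraic k kb] (t : K) (htR : t ∈ R) :
    kb[X] →+* integralClosure R M :=
  RingHom.codRestrict ((aeval (algebraMap K M t) : kb[X] →ₐ[kb] M) : kb[X] →+* M)
    (integralClosure R M) (fun p => isIntegral_aeval R t htR p)

theorem jj_coe [Algebra.IsAlgebraic k kb] (t : K) (htR : t ∈ R) (p : kb[X]) :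
    ((jj (M := M) R t htR p : integralClosure R M) : M) = aeval (algebraMap K M t) p := rfl

theorem jj_injective [Algebra.IsAlgebraic k kb] (t : K) (ht : Transcendental k t) (htR : t ∈ R) :
    Function.Injective (jj (M := M) (kb := kb) R t htR) := by
  rw [injective_iff_map_eq_zero]
  intro p hp
  have h1 : aeval (algebraMap K M t) p = 0 := by
    rw [← jj_coe R t htR p, hp]; rfl
  by_contra hp0
  exact transcendental_t (kb := kb) (M := M) t ht ⟨p, hp0, h1⟩

theorem Psi_jj [Algebra.IsAlgebraic k kb] (t : K) (htR : t ∈ R)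
    (Ψ : integralClosure R M →+* kb) (hΨ : IsPt R M kb Ψ) (p : kb[X]) :
    Ψ (jj R t htR p) = p.eval (Ψ (jj R t htR (X : kb[X]))) := by
  induction p using Polynomial.induction_on' with
  | add p q hp hq => rw [map_add, map_add, hp, hq, eval_add]
  | monomial n a =>
    rw [← C_mul_X_pow_eq_monomial, map_mul, map_pow, map_mul, map_pow, eval_mul, eval_pow, eval_C,
      eval_X]
    congr 1
    apply hΨ
    rw [jj_coe (kb := kb) (M := M) R t htR, aeval_C]

/-- The valuation ring of a point. -/
theorem exists_val [Algebra.IsAlgebraic k kb] [Algebra.IsAlgebraic K M] (t : K)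
    [FiniteDimensional (adjoin k {t}) K] (ht : Transcendental k t) (htR : t ∈ R)
    (Ψ : integralClosure R M →+* kb) (hΨ : IsPt R M kb Ψ) :
    ∃ V : ValuationSubring M,
      (∀ x, x ∈ V ↔ ∃ a b : integralClosure R M, Ψ b ≠ 0 ∧ x * b = a) ∧
      (∀ b : integralClosure R M, (b : M) ∈ V) ∧
      (∀ b : integralClosure R M, V.valuation (b : M) < 1 ↔ Ψ b = 0) ∧
      ∀ z y : M, V.valuation z < 1 → y ≠ 0 → ∃ N : ℕ, V.valuation (z ^ N) < V.valuation y := by
  set a₀ := Ψ (jj R t htR (X : kb[X])) with ha₀
  have hjinj := jj_injective (M := M) (kb := kb) R t ht htR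
  set t' := algebraMap K M t with ht'
  have htr : Transcendental kb t' := transcendental_t (kb := kb) (M := M) t ht
  set π : M := aeval t' (X - C a₀ : kb[X]) with hπ
  have hπ0 : π ≠ 0 := by
    intro h
    exact htr ⟨X - C a₀, X_sub_C_ne_zero a₀, h⟩
  -- scaling
  have hscale : ∀ y : M, ∃ P : kb[X][X], (∃ i, (P.coeff i).eval a₀ ≠ 0) ∧
      aeval y (P.map (jj (M := M) R t htR)) = 0 := by
    intro y
    obtain ⟨P, hP0, hP⟩ := exists_poly (k := k) (kb := kb) (M := M) t y
    obtain ⟨e, P₁, hP₁, hPP₁⟩ := WfDvdMonoid.max_power_factor' hP0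
      (x := (C (X - C a₀) : kb[X][X])) (by
        rw [Polynomial.isUnit_C]
        exact (irreducible_X_sub_C a₀).not_isUnit)
    refine ⟨P₁, ?_, ?_⟩
    · by_contra hcon
      push Not at hcon
      apply hP₁
      rw [C_dvd_iff_dvd_coeff]
      intro i
      exact dvd_iff_isRoot.mpr (hcon i)
    · rw [aeval_def, eval₂_map]
      rw [hPP₁, eval₂_mul, eval₂_pow, eval₂_C] at hP
      exact (mul_eq_zero.mp hP).resolve_left (pow_ne_zero _ hπ0)
  have hcoeffΨ : ∀ (P : kb[X][X]) (i : ℕ), Ψ ((P.map (jj (M := M) R t htR)).coeff i) =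
      (P.coeff i).eval a₀ := by
    intro P i
    rw [coeff_map, Psi_jj R t htR Ψ hΨ]
  let V : ValuationSubring M :=
    { carrier := {x | ∃ a b : integralClosure R M, Ψ b ≠ 0 ∧ x * b = a}
      mul_mem' := by
        rintro x y ⟨a, b, hb, hab⟩ ⟨a', b', hb', hab'⟩
        refine ⟨a * a', b * b', ?_, ?_⟩
        · rw [map_mul]; exact mul_ne_zero hb hb'
        · push_cast
          rw [← hab, ← hab']
          ring
      one_mem' := ⟨1, 1, by rw [map_one]; exact one_ne_zero, by simp⟩
      add_mem' := by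
        rintro x y ⟨a, b, hb, hab⟩ ⟨a', b', hb', hab'⟩
        refine ⟨a * b' + a' * b, b * b', ?_, ?_⟩
        · rw [map_mul]; exact mul_ne_zero hb hb'
        · push_cast
          rw [← hab, ← hab']
          ring
      zero_mem' := ⟨0, 1, by rw [map_one]; exact one_ne_zero, by simp⟩
      neg_mem' := by
        rintro x ⟨a, b, hb, hab⟩
        refine ⟨-a, b, hb, ?_⟩
        push_cast
        rw [← hab]
        ring
      mem_or_inv_mem' := by
        intro x
        by_cases hx0 : x = 0
        · left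
          exact ⟨0, 1, by rw [map_one]; exact one_ne_zero, by simp [hx0]⟩
        obtain ⟨P, ⟨i, hi⟩, hP⟩ := hscale x
        obtain ⟨a, b, hab, hor⟩ := unit_coeff Ψ x _ _ le_rfl hP
          ⟨i, by rw [hcoeffΨ]; exact hi⟩
        rcases hor with ha | hb
        · right
          refine ⟨b, a, ha, ?_⟩
          rw [← hab, inv_mul_cancel_left₀ hx0]
        · left
          exact ⟨a, b, hb, hab⟩ }
  have hV : ∀ x, x ∈ V ↔ ∃ a b : integralClosure R M, Ψ b ≠ 0 ∧ x * b = a := fun x => Iff.rfl
  have hBV : ∀ b : integralClosure R M, (b : M) ∈ V := fun b =>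
    ⟨b, 1, by rw [map_one]; exact one_ne_zero, by simp⟩
  have hlt : ∀ b : integralClosure R M, V.valuation (b : M) < 1 ↔ Ψ b = 0 := by
    intro b
    rw [val_lt_one_iff]
    constructor
    · rintro (h | h)
      · have h1 : b = 0 := Subtype.ext h
        rw [h1, map_zero]
      · by_contra hb
        apply h
        have hb0 : (b : M) ≠ 0 := by
          intro h0
          apply hb
          have h1 : b = 0 := Subtype.ext h0
          rw [h1, map_zero]
        exact ⟨1, b, hb, by rw [inv_mul_cancel₀ hb0]; rfl⟩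
    · intro hb
      by_cases hb0 : (b : M) = 0
      · exact Or.inl hb0
      right
      rintro ⟨a', b', hb', hab'⟩
      apply hb'
      have h1 : b' = a' * b := by
        apply Subtype.ext
        push_cast
        rw [← hab', mul_comm, mul_inv_cancel_left₀ hb0]
      rw [h1, map_mul, hb, mul_zero]
  have heq1 : ∀ b : integralClosure R M, Ψ b ≠ 0 → V.valuation (b : M) = 1 := by
    intro b hb
    refine val_eq_one_of_mem (hBV b) fun h => hb ((hlt b).mp h)
  have hle1 : ∀ b : integralClosure R M, V.valuation (b : M) ≤ 1 := fun b =>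
    (V.valuation_le_one_iff _).mpr (hBV b)
  refine ⟨V, hV, hBV, hlt, ?_⟩
  -- first archimedean property
  have hA1 : ∀ y : M, y ≠ 0 → ∃ N : ℕ, V.valuation (π ^ N) ≤ V.valuation y := by
    intro y hy
    obtain ⟨P, hP0, hP⟩ := exists_poly (k := k) (kb := kb) (M := M) t y⁻¹
    set f := P.map (jj (M := M) R t htR) with hf
    have hfy : eval₂ (algebraMap (integralClosure R M) M) y⁻¹ f = 0 := by
      rw [hf, eval₂_map]
      exact hP
    have hlcf : f.leadingCoeff = jj R t htR P.leadingCoeff :=
      leadingCoeff_map_of_injective hjinj P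
    have hb : IsIntegral (integralClosure R M) ((f.leadingCoeff : M) * y⁻¹) :=
      RingHom.isIntegralElem_leadingCoeff_mul (f := algebraMap (integralClosure R M) M)
        (p := f) y⁻¹ hfy
    have hb' : IsIntegral R ((f.leadingCoeff : M) * y⁻¹) := isIntegral_trans _ hb
    have h1 := hle1 ⟨_, hb'⟩
    have h2 : V.valuation ((f.leadingCoeff : M) * y⁻¹) ≤ 1 := h1
    obtain ⟨N, q, hq, hpq⟩ := WfDvdMonoid.max_power_factor' (leadingCoeff_ne_zero.mpr hP0)
      (x := (X - C a₀ : kb[X])) (irreducible_X_sub_C a₀).not_isUnit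
    have hq' : q.eval a₀ ≠ 0 := fun h => hq (dvd_iff_isRoot.mpr h)
    have hqv : V.valuation (aeval t' q) = 1 := by
      rw [ht', ← jj_coe R t htR]
      apply heq1
      rw [Psi_jj R t htR Ψ hΨ]
      exact hq'
    have h3 : V.valuation (f.leadingCoeff : M) = V.valuation (π ^ N) := by
      rw [hlcf, jj_coe, hpq, map_mul, map_pow, ← hπ, map_mul, hqv, mul_one]
    have hy' : V.valuation y ≠ 0 := (Valuation.ne_zero_iff _).mpr hy
    refine ⟨N, ?_⟩
    rw [← h3]
    rw [map_mul, map_inv₀, mul_inv_le_iff₀ (zero_lt_iff.mpr hy'), one_mul] at h2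
    exact h2
  have hπv : V.valuation π < 1 := by
    have h1 : π = ((jj (M := M) R t htR (X - C a₀) : integralClosure R M) : M) := rfl
    rw [h1, hlt, Psi_jj R t htR Ψ hΨ, eval_sub, eval_X, eval_C, sub_self]
  -- second archimedean property
  have hA2 : ∀ z : M, V.valuation z < 1 → ∃ j : ℕ, V.valuation (z ^ j) ≤ V.valuation π := by
    classical
    intro z hz
    obtain ⟨P, hex, hP⟩ := hscale z
    set j := Nat.find hex with hj
    have hj1 : (P.coeff j).eval a₀ ≠ 0 := Nat.find_spec hex
    have hj2 : ∀ i < j, (P.coeff i).eval a₀ = 0 := by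
      intro i hi
      by_contra hcon
      exact Nat.find_min hex hi hcon
    refine ⟨j, ?_⟩
    by_contra hcon
    push Not at hcon
    set f := P.map (jj (M := M) R t htR) with hf
    have hzj0 : V.valuation (z ^ j) ≠ 0 := zero_lt_iff.mp (lt_of_le_of_lt zero_le hcon)
    have hsum : ∑ i ∈ Finset.range (f.natDegree + 1 + j), (f.coeff i : M) * z ^ i = 0 := by
      rw [← hP, aeval_def, eval₂_eq_sum_range' _ (n := f.natDegree + 1 + j) (by omega)]
      rfl
    have hjmem : j ∈ Finset.range (f.natDegree + 1 + j) := Finset.mem_range.mpr (by omega)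
    rw [← Finset.add_sum_erase _ _ hjmem] at hsum
    have hcj : V.valuation ((f.coeff j : M) * z ^ j) = V.valuation (z ^ j) := by
      rw [map_mul, heq1 _ (by rw [hcoeffΨ]; exact hj1), one_mul]
    have hrest : V.valuation (∑ i ∈ (Finset.range (f.natDegree + 1 + j)).erase j,
        (f.coeff i : M) * z ^ i) < V.valuation (z ^ j) := by
      apply Valuation.map_sum_lt _ hzj0
      intro i hi
      have hij : i ≠ j := Finset.ne_of_mem_erase hi
      rcases lt_or_gt_of_ne hij with hlt' | hgt
      · -- small index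
        refine lt_of_le_of_lt ?_ hcon
        obtain ⟨q, hq⟩ := dvd_iff_isRoot.mpr (hj2 i hlt')
        have h1 : (f.coeff i : M) = π * aeval t' q := by
          rw [hf, coeff_map, jj_coe, hq, map_mul]
        rw [map_mul, h1, map_mul]
        have h2 : V.valuation (aeval t' q) ≤ 1 := hle1 (jj R t htR q)
        have h3 : V.valuation (z ^ i) ≤ 1 := by
          rw [map_pow]
          exact pow_le_one' hz.le i
        calc V.valuation π * V.valuation (aeval t' q) * V.valuation (z ^ i)
            ≤ V.valuation π * 1 * 1 := by gcongr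
          _ = V.valuation π := by rw [mul_one, mul_one]
      · -- large index
        have h1 : V.valuation (z ^ i) < V.valuation (z ^ j) := by
          have h2 : z ^ i = z ^ j * z ^ (i - j - 1) * z := by
            rw [← pow_add, ← pow_succ]
            congr 1
            omega
          rw [h2, map_mul, map_mul]
          have h3 : V.valuation (z ^ (i - j - 1)) ≤ 1 := by
            rw [map_pow]
            exact pow_le_one' hz.le _
          calc V.valuation (z ^ j) * V.valuation (z ^ (i - j - 1)) * V.valuation z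
              ≤ V.valuation (z ^ j) * 1 * V.valuation z := by gcongr
            _ = V.valuation (z ^ j) * V.valuation z := by rw [mul_one]
            _ < V.valuation (z ^ j) * 1 := mul_lt_mul_of_pos_left hz (zero_lt_iff.mpr hzj0)
            _ = V.valuation (z ^ j) := mul_one _
        refine lt_of_le_of_lt ?_ h1
        rw [map_mul]
        calc V.valuation (f.coeff i : M) * V.valuation (z ^ i)
            ≤ 1 * V.valuation (z ^ i) := by
              gcongr
              exact hle1 _
          _ = V.valuation (z ^ i) := one_mul _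
    have h5 : (f.coeff j : M) * z ^ j = -∑ i ∈ (Finset.range (f.natDegree + 1 + j)).erase j,
        (f.coeff i : M) * z ^ i := by
      linear_combination hsum
    rw [← hcj, h5, Valuation.map_neg] at hrest
    exact lt_irrefl _ hrest
  -- conclusion
  intro z y hz hy
  obtain ⟨N, hN⟩ := hA1 y hy
  obtain ⟨j, hj⟩ := hA2 z hz
  have h1 : V.valuation (z ^ (j * N)) ≤ V.valuation y := by
    refine le_trans ?_ hN
    rw [pow_mul, map_pow, map_pow V.valuation π]
    gcongr
  refine ⟨j * N + 1, ?_⟩
  have hy' : V.valuation y ≠ 0 := (Valuation.ne_zero_iff _).mpr hy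
  rw [pow_succ, map_mul]
  calc V.valuation (z ^ (j * N)) * V.valuation z ≤ V.valuation y * V.valuation z := by gcongr
    _ < V.valuation y * 1 := mul_lt_mul_of_pos_left hz (zero_lt_iff.mpr hy')
    _ = V.valuation y := mul_one _

end


section

variable {k K M kb : Type*} [Field k] [Field K] [Field M] [Field kb] [Algebra k kb] [Algebra k K]
  [Algebra K M] [Algebra kb M] [Algebra k M] [IsScalarTower k K M] [IsScalarTower k kb M]
  (R : Subalgebra k K)

/-- an automorphism that stabilises the valuation ring of a point fixes the point -/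
theorem eq_one_of_stab (Ψ : integralClosure R M →+* kb) (hΨ : IsPt R M kb Ψ)
    (hkb : ∀ a : kb, IsIntegral R (algebraMap kb M a))
    (hun : ∀ g : Gal(M/K), (∀ a : kb, g (algebraMap kb M a) = algebraMap kb M a) →
      (∀ b b' : integralClosure R M, (b' : M) = g b → Ψ b' = Ψ b) → g = 1)
    (V : ValuationSubring M) (hlt : ∀ b : integralClosure R M, V.valuation (b : M) < 1 ↔ Ψ b = 0)
    (g : Gal(M/K)) (hg : ∀ a : kb, g (algebraMap kb M a) = algebraMap kb M a)
    (hgV : ∀ x, x ∈ V ↔ g x ∈ V) : g = 1 := by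
  refine hun g hg fun b b' hb => ?_
  set c : integralClosure R M := ⟨algebraMap kb M (Ψ b), hkb _⟩ with hc
  have hcΨ : Ψ c = Ψ b := hΨ _ _ rfl
  have h1 : Ψ (b - c) = 0 := by rw [map_sub, hcΨ, sub_self]
  have h2 : g ((b - c : integralClosure R M) : M) = ((b' - c : integralClosure R M) : M) := by
    have h3 : ((b - c : integralClosure R M) : M) = (b : M) - algebraMap kb M (Ψ b) := rfl
    have h4 : ((b' - c : integralClosure R M) : M) = (b' : M) - algebraMap kb M (Ψ b) := rfl
    rw [h3, h4, map_sub, hg, hb]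
  have h3 : V.valuation (g ((b - c : integralClosure R M) : M)) < 1 := by
    have h4 := (hlt (b - c)).mpr h1
    rw [val_lt_one_iff] at h4 ⊢
    rcases h4 with h4 | h4
    · left; rw [h4, map_zero]
    · right
      intro h5
      apply h4
      rw [hgV, map_inv₀]
      exact h5
  rw [h2, hlt, map_sub, hcΨ, sub_eq_zero] at h3
  exact h3

end

end Unr

section

variable {k K M kb : Type*} [Field k] [CharZero k] [Field K] [Field M] [Field kb] [Algebra k kb]
  [IsAlgClosed kb] [Algebra.IsAlgebraic k kb] [Algebra k K] [Algebra K M] [Algebra kb M]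
  [Algebra k M] [IsScalarTower k K M] [IsScalarTower k kb M] [IsGalois K M]
  (t : K) [FiniteDimensional (adjoin k {t}) K]
  (R : Subalgebra k K)

/-- every element of `M` is, at the point `Ψ`, a unit times an element of `E` -/
theorem Unr.exists_unit (htR : t ∈ R)
    (hun : ∀ Ψ : integralClosure R M →+* kb, IsPt R M kb Ψ → ∀ g : Gal(M/K),
      (∀ a : kb, g (algebraMap kb M a) = algebraMap kb M a) →
      (∀ b b' : integralClosure R M, (b' : M) = g b → Ψ b' = Ψ b) → g = 1)
    (E : IntermediateField K M) (hE : ∀ a : kb, algebraMap kb M a ∈ E)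
    (β : M) (hβ : β ≠ 0) (Ψ : integralClosure R M →+* kb) (hΨ : IsPt R M kb Ψ)
    (V : ValuationSubring M)
    (hlt : ∀ b : integralClosure R M, V.valuation (b : M) < 1 ↔ Ψ b = 0)
    (harch : ∀ z y : M, V.valuation z < 1 → y ≠ 0 →
      ∃ N : ℕ, V.valuation (z ^ N) < V.valuation y) :
    ∃ c : E, c ≠ 0 ∧ V.valuation (β * (c : M)⁻¹) = 1 := by
  classical
  let L : FiniteGaloisIntermediateField E M := FiniteGaloisIntermediateField.adjoin E {β}
  have hβL : β ∈ L.toIntermediateField :=
    FiniteGaloisIntermediateField.subset_adjoin E {β} rfl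
  set L' : IntermediateField E M := L.toIntermediateField with hL'
  have hfd : FiniteDimensional E L' := L.finiteDimensional
  have hgal : IsGalois E L' := L.isGalois
  have hstab := Unr.eq_one_of_stab R Ψ hΨ
    (fun a => by
      have := Unr.isIntegral_aeval (M := M) R t htR (C a)
      rwa [aeval_C] at this) (hun Ψ hΨ) V hlt
  set V' := V.comap (algebraMap L' M) with hV'
  obtain ⟨c, hc0, hc⟩ := Unr.exists_base_val (E := E) (L := L') V' (by
    intro σ hσ
    obtain ⟨a₀, ha₀⟩ := AlgEquiv.restrictNormalHom_surjective (F := E) (K₁ := L') M σ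
    have ha₀' : ∀ x : L', a₀ (x : M) = ((σ x : L') : M) := by
      intro x
      rw [← ha₀]
      exact (AlgEquiv.restrictNormal_commutes a₀ L' x).symm
    obtain ⟨g, hg⟩ := val_trans (E := L') (M := M) (G := Gal(M/L'))
      (fun x => stabilizer_isOpen_of_isIntegral (K := L') (L := M) x)
      (fun g x => g.commutes x)
      (fun x hx => by
        have h1 : x ∈ IntermediateField.fixedField (⊤ : Subgroup Gal(M/L')) := by
          rw [IntermediateField.mem_fixedField_iff]
          exact fun g _ => hx g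
        rw [InfiniteGalois.fixedField_bot] at h1
        exact IntermediateField.mem_bot.mp h1)
      V (V.comap (a₀ : M →+* M)) (by
        ext x
        change (x : M) ∈ V ↔ a₀ (x : M) ∈ V
        rw [ha₀']
        exact hσ x)
    have hg' : ∀ x : M, a₀ x ∈ V ↔ g x ∈ V := hg
    let a : Gal(M/E) := a₀ * (g.restrictScalars E)⁻¹
    have h1 : a.restrictScalars K = 1 := by
      apply hstab
      · intro b
        exact a.commutes ⟨_, hE b⟩
      · intro x
        have h2 := hg' ((g.restrictScalars E)⁻¹ x)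
        have h3 : g ((g.restrictScalars E)⁻¹ x) = x := g.apply_symm_apply x
        rw [h3] at h2
        exact h2.symm
    apply AlgEquiv.ext
    intro x
    apply Subtype.ext
    rw [← ha₀']
    have h2 : a (g (x : M)) = g (x : M) := by
      have := congrArg (fun f : Gal(M/K) => f (g (x : M))) h1
      exact this
    have h3 : a (g (x : M)) = a₀ (x : M) := by
      have h4 : (g.restrictScalars E)⁻¹ (g (x : M)) = x := g.symm_apply_apply (x : M)
      change a₀ ((g.restrictScalars E)⁻¹ (g (x : M))) = _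
      rw [h4]
    rw [← h3, h2]
    exact g.commutes x)
    (by
      intro z y hz hy
      obtain ⟨N, hN⟩ := harch (z : M) (y : M)
        ((val_comap_lt_one (algebraMap L' M) V z).mp hz) (fun h => hy (Subtype.ext h))
      refine ⟨N, ?_⟩
      have hy' : V'.valuation y ≠ 0 := (Valuation.ne_zero_iff _).mpr hy
      have hyM : (y : M) ≠ 0 := fun h => hy (Subtype.ext h)
      have hyM' : V.valuation (y : M) ≠ 0 := (Valuation.ne_zero_iff _).mpr hyM
      have h1 : V'.valuation (z ^ N * y⁻¹) < 1 := by
        rw [val_comap_lt_one]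
        have h2 : algebraMap L' M (z ^ N * y⁻¹) = (z : M) ^ N * (y : M)⁻¹ := by
          rw [map_mul, map_pow, map_inv₀]; rfl
        rw [h2, map_mul, map_inv₀, mul_inv_lt_iff₀ (zero_lt_iff.mpr hyM'), one_mul]
        exact hN
      rw [map_mul, map_inv₀, mul_inv_lt_iff₀ (zero_lt_iff.mpr hy'), one_mul] at h1
      exact h1)
    (⟨β, hβL⟩ : L') (fun h => hβ (congrArg Subtype.val h))
  refine ⟨c, hc0, ?_⟩
  have h1 := (val_comap_eq_one (algebraMap L' M) V _).mp hc
  rw [map_mul, map_inv₀] at h1
  exact h1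

theorem unr (ht : Transcendental k t) (htR : t ∈ R)
    (hun : ∀ Ψ : integralClosure R M →+* kb, IsPt R M kb Ψ → ∀ g : Gal(M/K),
      (∀ a : kb, g (algebraMap kb M a) = algebraMap kb M a) →
      (∀ b b' : integralClosure R M, (b' : M) = g b → Ψ b' = Ψ b) → g = 1)
    (E : IntermediateField K M) (hE : ∀ a : kb, algebraMap kb M a ∈ E)
    (hEf : ∃ s : Finset E, ∀ x : E, (x : M) ∈ Submodule.span (adjoin kb {algebraMap K M t})
      ((fun y : E => (y : M)) '' s)) (n : ℕ) (hn : 1 ≤ n)
    (ρ : E) (hρ : ρ ≠ 0) (β : M) (hβ : β ^ n = ρ) (Ψ : integralClosure R M →+* kb)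
    (hΨ : IsPt R M kb Ψ) (Q : ValuationSubring E) (hQ : IsPlaceOfPt Ψ E Q) : DivAt n ρ Q := by
  obtain ⟨V, hV, hBV, hlt, harch⟩ := Unr.exists_val (M := M) R t ht htR Ψ hΨ
  have hρ' : (ρ : M) ≠ 0 := fun h => hρ (Subtype.ext h)
  have hβ0 : β ≠ 0 := by
    rintro rfl
    rw [zero_pow (by omega)] at hβ
    exact hρ' hβ.symm
  obtain ⟨c, hc0, hc⟩ := Unr.exists_unit t R htR hun E hE β hβ0 Ψ hΨ V hlt harch
  have hQV : Q = V.comap (algebraMap E M) := by
    ext x
    change x ∈ Q ↔ (x : M) ∈ V
    constructor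
    · intro hx
      obtain ⟨a, b, -, -, hb, hab⟩ := (hQ x).mp hx
      exact (hV _).mpr ⟨a, b, hb, hab⟩
    · intro hx
      by_cases hx0 : x = 0
      · rw [hx0]; exact Q.zero_mem
      have hx0' : (x : M) ≠ 0 := fun h => hx0 (Subtype.ext h)
      have hinv : ((x⁻¹ : E) : M) = (x : M)⁻¹ := rfl
      rcases Q.mem_or_inv_mem x with h | h
      · exact h
      obtain ⟨a, b, ha, hb, hbΨ, hab⟩ := (hQ x⁻¹).mp h
      by_cases haΨ : Ψ a = 0
      · exfalso
        obtain ⟨a', b', hbΨ', hab'⟩ := (hV _).mp hx
        have h1 : a * a' = b * b' := by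
          apply Subtype.ext
          push_cast
          rw [← hab, ← hab', hinv]
          field_simp
        have h2 : Ψ a * Ψ a' = Ψ b * Ψ b' := by rw [← map_mul, ← map_mul, h1]
        rw [haΨ, zero_mul] at h2
        exact mul_ne_zero hbΨ hbΨ' h2.symm
      · rw [hQ]
        refine ⟨b, a, hb, ha, haΨ, ?_⟩
        rw [← hab, hinv, mul_inv_cancel_left₀ hx0']
  refine ⟨c, hc0, ?_⟩
  rw [hQV, val_comap_eq_one]
  have h1 : algebraMap E M (ρ * (c ^ n)⁻¹) = (β * (c : M)⁻¹) ^ n := by
    rw [map_mul, map_inv₀, map_pow, mul_pow, inv_pow, hβ]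
    rfl
  rw [h1, map_pow, hc, one_pow]

end

end Pool.Agent.Lib.MP_2f3286_ag.Pt
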