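import Mathlib
import Pool.Agent.Lib.MP_2f3286_ag.Full.WField
import Pool.Agent.Lib.MP_2f3286_ag.Pt.Defs
import Pool.Agent.Lib.MP_2f3286_ag.Pt.Cof
import Pool.Agent.Lib.MP_2f3286_ag.Pt.Kg
import Pool.Agent.Lib.MP_2f3286_ag.Pt.Trans
import Pool.Agent.Lib.MP_2f3286_ag.Pt.KlFin
import Pool.Agent.Lib.MP_2f3286_ag.Pt.KlStep
import Pool.Agent.Lib.MP_2f3286_ag.Pt.Places
import Pool.Agent.Lib.MP_2f3286_ag.Pt.Unr

/-!
# FINLIFT: the abelianisations of open subgroups of the geometric fundamental group of an affine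
curve are finitely generated and torsion free
-/

set_option linter.unusedSectionVars false

open Polynomial IntermediateField

namespace Pool.Agent.Lib.MP_2f3286_ag.Pt

open Pool.Agent.Lib.MP_2f3286_ag.Full

section

variable {k K M kb : Type*} [Field k] [CharZero k] [Field K] [Field M] [Field kb] [Algebra k kb]
  [IsAlgClosed kb] [Algebra.IsAlgebraic k kb] [Algebra k K] [Algebra K M] [Algebra kb M]
  [Algebra k M] [IsScalarTower k K M] [IsScalarTower k kb M] [IsGalois K M]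
  (t : K) [FiniteDimensional (adjoin k {t}) K]
  (R : Subalgebra k K)

namespace FinLift

/-- the places of `E` on the curve -/
def plc (R : Subalgebra k K) (E : IntermediateField K M) (hE : ∀ a : kb, algebraMap kb M a ∈ E) :
    Set (ValuationSubring E) :=
  {Q | (∀ a : kb, (⟨algebraMap kb M a, hE a⟩ : E) ∈ Q) ∧ Q ≠ ⊤ ∧
      ∀ r : R, (⟨algebraMap R M r, E.algebraMap_mem (r : K)⟩ : E) ∈ Q}

/-- an element has an `n`-th root in `M` if and only if its order at each place of the curve is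
divisible by `n` -/
theorem root_iff (ht : Transcendental k t) (htR : t ∈ R)
    (hun : ∀ Ψ : integralClosure R M →+* kb, IsPt R M kb Ψ → ∀ g : Gal(M/K),
      (∀ a : kb, g (algebraMap kb M a) = algebraMap kb M a) →
      (∀ b b' : integralClosure R M, (b' : M) = g b → Ψ b' = Ψ b) → g = 1)
    (hmax : IsRadClosed R M kb) (E : IntermediateField K M) (hE : ∀ a : kb, algebraMap kb M a ∈ E)
    (hEf : ∃ s : Finset E, ∀ x : E, (x : M) ∈ Submodule.span (adjoin kb {algebraMap K M t})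
      ((fun y : E => (y : M)) '' s)) (n : ℕ) (hn : 1 ≤ n) (ρ : E) (hρ : ρ ≠ 0) :
    (∀ Q ∈ plc R E hE, DivAt n ρ Q) ↔ ∃ β : M, β ^ n = ρ := by
  constructor
  · intro h
    refine hmax n ρ hn (fun h0 => hρ (Subtype.ext h0)) fun Ψ hΨ => ?_
    obtain ⟨Q, hQ, hQk, hQt, hQR⟩ := exists_place_of_pt t R ht htR E hE hEf Ψ hΨ
    obtain ⟨c, hc, hv⟩ := h Q ⟨hQk, hQt, hQR⟩
    have h1 : ρ * (c ^ n)⁻¹ ∈ Q := (Q.valuation_le_one_iff _).1 hv.le
    have h2 : (ρ * (c ^ n)⁻¹)⁻¹ ∈ Q := by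
      rw [← Q.valuation_le_one_iff, map_inv₀, hv, inv_one]
    obtain ⟨a, b, -, -, hb, hab⟩ := (hQ _).1 h1
    obtain ⟨a', b', -, -, hb', hab'⟩ := (hQ _).1 h2
    have hcM : (c : M) ≠ 0 := fun h0 => hc (Subtype.ext h0)
    have hρM : (ρ : M) ≠ 0 := fun h0 => hρ (Subtype.ext h0)
    push_cast at hab hab'
    have h3 : a * a' = b * b' := by
      apply Subtype.ext
      push_cast
      rw [← hab, ← hab']
      field_simp
    have h4 : Ψ a ≠ 0 := by
      intro h0
      have h5 := congrArg Ψ h3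
      rw [map_mul, map_mul, h0, zero_mul] at h5
      exact mul_ne_zero hb hb' h5.symm
    refine ⟨c, b, a, hb, h4, ?_⟩
    rw [← hab]
    field_simp
  · rintro ⟨β, hβ⟩ Q ⟨hQk, hQt, hQR⟩
    obtain ⟨Ψ, hΨ, hQ⟩ := exists_pt_of_place t R ht htR E hE hEf Q hQk hQt hQR
    exact unr t R ht htR hun E hE hEf n hn ρ hρ β hβ Ψ hΨ Q hQ

/-- the fixed field of an open subgroup of the geometric group is finite over `kb(t)` -/
theorem exists_span (E : IntermediateField K M) (hE : ∀ a : kb, algebraMap kb M a ∈ E)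
    (E₁ : IntermediateField (adjoin kb {algebraMap K M t}) M)
    [FiniteDimensional (adjoin kb {algebraMap K M t}) E₁] (hEE : ∀ x ∈ E, x ∈ E₁) :
    ∃ s : Finset E, ∀ x : E, (x : M) ∈ Submodule.span (adjoin kb {algebraMap K M t})
      ((fun y : E => (y : M)) '' s) := by
  have hcE : ∀ c ∈ adjoin kb {algebraMap K M t}, c ∈ E := by
    intro c hc
    obtain ⟨p, q, rfl⟩ := (IntermediateField.mem_adjoin_simple_iff kb c).mp hc
    have h1 : ∀ p : kb[X], aeval (algebraMap K M t) p ∈ E := by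
      intro p
      rw [aeval_eq_sum_range]
      refine sum_mem fun i _ => ?_
      rw [Algebra.smul_def]
      exact mul_mem (hE _) (pow_mem (E.algebraMap_mem t) i)
    exact div_mem (h1 p) (h1 q)
  let P : Submodule (adjoin kb {algebraMap K M t}) E₁ :=
    { carrier := {y | (y : M) ∈ E}
      zero_mem' := E.zero_mem
      add_mem' := fun ha hb => E.add_mem ha hb
      smul_mem' := by
        intro c a ha
        change ((c • a : E₁) : M) ∈ E
        rw [Algebra.smul_def]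
        exact E.mul_mem (hcE _ c.2) ha }
  have hP : Module.Finite (adjoin kb {algebraMap K M t}) P := inferInstance
  obtain ⟨s, hs⟩ := hP
  classical
  refine ⟨s.image fun y : P => (⟨((y : E₁) : M), y.2⟩ : E), fun x => ?_⟩
  have h2 : ∀ y : P, y ∈ Submodule.span (adjoin kb {algebraMap K M t}) (s : Set P) →
      ((y : E₁) : M) ∈ Submodule.span (adjoin kb {algebraMap K M t})
      ((fun y : E => (y : M)) ''
        ((s.image fun y : P => (⟨((y : E₁) : M), y.2⟩ : E) : Finset E) : Set E)) := by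
    intro y hy
    induction hy using Submodule.span_induction with
    | mem y hy =>
      refine Submodule.subset_span ⟨⟨((y : E₁) : M), y.2⟩, ?_, rfl⟩
      rw [Finset.coe_image]
      exact ⟨y, hy, rfl⟩
    | zero => exact Submodule.zero_mem _
    | add a b _ _ ha hb => exact Submodule.add_mem _ ha hb
    | smul c a _ ha => exact Submodule.smul_mem _ c ha
  exact h2 ⟨⟨x, hEE x x.2⟩, x.2⟩ (by rw [hs]; trivial)

end FinLift

end

theorem fin_lift {k K M kb : Type*} [Field k] [CharZero k] [Field K] [Field M] [Field kb]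
    [Algebra k kb] [IsAlgClosed kb] [Algebra.IsAlgebraic k kb] [Algebra k K] [Algebra K M]
    [Algebra kb M] [Algebra k M] [IsScalarTower k K M] [IsScalarTower k kb M] [IsGalois K M]
    (t : K) (ht : Transcendental k t) [FiniteDimensional (adjoin k {t}) K]
    (R : Subalgebra k K) (htR : t ∈ R) (hfg : R.FG)
    (hun : ∀ Ψ : integralClosure R M →+* kb, IsPt R M kb Ψ → ∀ g : Gal(M/K),
      (∀ a : kb, g (algebraMap kb M a) = algebraMap kb M a) →
      (∀ b b' : integralClosure R M, (b' : M) = g b → Ψ b' = Ψ b) → g = 1)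
    (hmax : IsRadClosed R M kb) (N : Subgroup Gal(M/K))
    (hN : ∀ g, g ∈ N ↔ ∀ a : kb, g (algebraMap kb M a) = algebraMap kb M a)
    (A : Subgroup Gal(M/K)) (hAN : A ≤ N) (O : Subgroup Gal(M/K)) (hO : IsOpen (O : Set Gal(M/K)))
    (hON : O ⊓ N ≤ A) (ℓ : ℕ) [Fact ℓ.Prime] :
    Finite (A →ₜ* Multiplicative (ZMod ℓ)) ∧
      ∀ f : A →ₜ* Multiplicative (ZMod ℓ), ∃ F : A →ₜ* Multiplicative ℤ_[ℓ],
        ∀ a, PadicInt.toZMod (F a).toAdd = (f a).toAdd := by
  have hNg : N = geomGroup K M kb := by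
    ext g
    rw [hN, mem_geomGroup]
  have hAo : OpenIn (geomGroup K M kb) A := ⟨O, hO, by rw [← hNg]; exact hON⟩
  have hAc : IsClosed (A : Set Gal(M/K)) :=
    OpenIn.isClosed_of_le hAo (hNg ▸ hAN) (isClosed_geomGroup K M kb)
  set E : IntermediateField K M := IntermediateField.fixedField A with hEdef
  have hE : ∀ a : kb, algebraMap kb M a ∈ E := by
    intro a
    rw [hEdef, IntermediateField.mem_fixedField_iff]
    intro g hg
    exact (hN g).1 (hAN hg) a
  obtain ⟨E₁, hE₁, hEE⟩ := exists_fd (k := k) (kb := kb) t A hAo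
  have hEf : ∃ s : Finset E, ∀ x : E, (x : M) ∈ Submodule.span (adjoin kb {algebraMap K M t})
      ((fun y : E => (y : M)) '' s) := by
    refine FinLift.exists_span t E hE E₁ fun x hx => hEE x fun h hh => ?_
    rw [hEdef, IntermediateField.mem_fixedField_iff] at hx
    exact hx h hh
  let _ := Cof.algE E hE
  have := Cof.tower E hE
  let tE : E := algebraMap K E t
  have htE : Transcendental kb tE := Cof.trans_coe E hE tE (Cof.trans_kb t ht)
  have : FiniteDimensional (adjoin kb {tE}) E := Cof.finDim E hE tE hEf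
  have : CharZero kb := charZero_of_injective_algebraMap (algebraMap k kb).injective
  have hroot := FinLift.root_iff t R ht htR hun hmax E hE hEf
  have hU : ∀ Q ∈ FinLift.plc R E hE, (∀ a : kb, algebraMap kb E a ∈ Q) ∧ Q ≠ ⊤ :=
    fun Q hQ => ⟨hQ.1, hQ.2.1⟩
  have hfin : {Q : ValuationSubring E | (∀ a : kb, algebraMap kb E a ∈ Q) ∧ Q ≠ ⊤ ∧
      Q ∉ FinLift.plc R E hE}.Finite := by
    refine (cofinite_places t R ht hfg E hE hEf).subset ?_
    rintro Q ⟨h1, h2, h3⟩
    exact ⟨h1, h2, fun h4 => h3 ⟨h1, h2, h4⟩⟩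
  have hℓ : 1 ≤ ℓ := (Fact.out : ℓ.Prime).one_le
  refine transport A hAc E rfl ℓ (kummer_tfab (C := kb) ℓ ?_ ?_)
  · obtain ⟨T, hT⟩ := kl_fin tE htE (FinLift.plc R E hE) hU hfin ℓ hℓ
    exact ⟨T, fun ρ β hρ hβ => hT ρ hρ ((hroot ℓ hℓ ρ hρ).2 ⟨β, hβ⟩)⟩
  · intro n ρ β hn hρ hβ
    obtain ⟨c, hc, h⟩ := kl_step tE htE (FinLift.plc R E hE) hU hfin n ℓ hn hℓ ρ hρ
      ((hroot n hn ρ hρ).2 ⟨β, hβ⟩)
    obtain ⟨β', hβ'⟩ := (hroot (n * ℓ) (Nat.mul_pos hn hℓ) (ρ * c ^ n)
      (mul_ne_zero hρ (pow_ne_zero n hc))).1 h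
    exact ⟨c, β', hc, hβ'⟩

end Pool.Agent.Lib.MP_2f3286_ag.Pt
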