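import Mathlib
import Pool.Agent.Lib.MP_2f3286_ag.Full.PointsTwo
import Pool.Agent.Lib.MP_2f3286_ag.Pt.Defs

/-!
# The maximal unramified extension
-/

open scoped Pointwise

namespace Pool.Agent.Lib.MP_2f3286_ag.Pt

/-- The inertia elements: automorphisms of `Ω` over `K` that fix a `kb`-point of the integral closure
of `R` in `Ω`. -/
def inertia (R K Ω kb : Type*) [CommRing R] [Field K] [Field Ω] [Field kb] [Algebra R Ω]
    [Algebra K Ω] [Algebra kb Ω] : Set Gal(Ω/K) :=
  {g | ∃ Ψ : integralClosure R Ω →+* kb, IsPt R Ω kb Ψ ∧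
    ∀ b b' : integralClosure R Ω, (b' : Ω) = g b → Ψ b' = Ψ b}

/-- `M` is the maximal extension of `K` that is unramified over the curve with ring of functions `R`:
the field of all elements of an algebraic closure fixed by the inertia elements. -/
def IsMaxUnram (R K M kb : Type*) [CommRing R] [Field K] [Field M] [Field kb] [Algebra R M]
    [Algebra K M] [Algebra kb M] : Prop :=
  ∀ x : AlgebraicClosure M, (∃ m : M, algebraMap M (AlgebraicClosure M) m = x) ↔
    ∀ g ∈ inertia R K (AlgebraicClosure M) kb, g x = x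

section ext

/-- Points extend to integral extensions. -/
theorem exists_ext {B C kb : Type*} [CommRing B] [CommRing C] [Algebra B C]
    [Algebra.IsIntegral B C] (hinj : Function.Injective (algebraMap B C)) [Field kb]
    [IsAlgClosed kb] (Ψ : B →+* kb) (hΨ : Function.Surjective Ψ) :
    ∃ Φ : C →+* kb, ∀ b, Φ (algebraMap B C b) = Ψ b := by
  have hp : (RingHom.ker Ψ).IsPrime := RingHom.ker_isPrime Ψ
  obtain ⟨Q, -, hQp, hQ⟩ := Ideal.exists_ideal_over_prime_of_isIntegral (S := C) (RingHom.ker Ψ) ⊥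
    (by
      rw [← RingHom.ker_eq_comap_bot, (RingHom.injective_iff_ker_eq_bot _).mp hinj]
      exact bot_le)
  let e : (B ⧸ RingHom.ker Ψ) ≃+* kb := RingHom.quotientKerEquivOfSurjective hΨ
  let j : (B ⧸ RingHom.ker Ψ) →+* C ⧸ Q := Ideal.quotientMap Q (algebraMap B C) (by rw [← hQ])
  let i : kb →+* C ⧸ Q := j.comp e.symm
  let _ : Algebra kb (C ⧸ Q) := i.toAlgebra
  have hint : Algebra.IsIntegral kb (C ⧸ Q) := by
    constructor
    intro x
    obtain ⟨c, rfl⟩ := Ideal.Quotient.mk_surjective x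
    have h1 : (algebraMap B C).IsIntegralElem c := Algebra.IsIntegral.isIntegral c
    obtain ⟨p, hp, hp'⟩ := h1
    refine ⟨p.map Ψ, hp.map Ψ, ?_⟩
    rw [Polynomial.eval₂_map]
    have h2 : (algebraMap kb (C ⧸ Q)).comp Ψ = (Ideal.Quotient.mk Q).comp (algebraMap B C) := by
      ext b
      change j (e.symm (Ψ b)) = _
      have h3 : e.symm (Ψ b) = Ideal.Quotient.mk _ b := by
        rw [RingEquiv.symm_apply_eq]; rfl
      rw [h3]
      exact Ideal.quotientMap_mk
    rw [h2, ← Polynomial.hom_eval₂, hp', map_zero]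
  have hbij : Function.Bijective (algebraMap kb (C ⧸ Q)) :=
    IsAlgClosed.algebraMap_bijective_of_isIntegral
  let f : kb ≃+* C ⧸ Q := RingEquiv.ofBijective _ hbij
  refine ⟨f.symm.toRingHom.comp (Ideal.Quotient.mk Q), fun b => ?_⟩
  change f.symm (Ideal.Quotient.mk Q (algebraMap B C b)) = Ψ b
  rw [RingEquiv.symm_apply_eq]
  change _ = j (e.symm (Ψ b))
  have h3 : e.symm (Ψ b) = Ideal.Quotient.mk _ b := by
    rw [RingEquiv.symm_apply_eq]; rfl
  rw [h3]
  exact Ideal.quotientMap_mk.symm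

end ext

section

variable {R k K M Ω kb : Type*} [CommRing R] [Field k] [CharZero k] [Field K] [Field M] [Field kb]
  [Algebra k kb] [IsAlgClosed kb] [Algebra.IsAlgebraic k kb] [Algebra k K] [Algebra K M]
  [Algebra kb M] [Algebra k M] [IsScalarTower k K M] [IsScalarTower k kb M] [IsGalois K M]
  [Algebra R K] [Algebra R M] [IsScalarTower R K M]
  [Field Ω] [IsAlgClosed Ω] [Algebra M Ω] [Algebra.IsAlgebraic M Ω] [Algebra K Ω] [Algebra R Ω]
  [Algebra kb Ω] [IsScalarTower K M Ω] [IsScalarTower R M Ω] [IsScalarTower R K Ω]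
  [IsScalarTower kb M Ω]

include k in
theorem unram_aux (hBk : ∀ a : kb, IsIntegral R (algebraMap kb M a))
    (hM : ∀ x : Ω, (∃ m : M, algebraMap M Ω m = x) → ∀ g ∈ inertia R K Ω kb, g x = x)
    (Ψ : integralClosure R M →+* kb) (hΨ : IsPt R M kb Ψ) (g : Gal(M/K))
    (hg : ∀ b b' : integralClosure R M, (b' : M) = g b → Ψ b' = Ψ b) : g = 1 := by
  classical
  have hK0 : CharZero K := charZero_of_injective_algebraMap (algebraMap k K).injective
  have hM0 : CharZero M := charZero_of_injective_algebraMap (algebraMap K M).injective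
  have halg : Algebra.IsAlgebraic K Ω := Algebra.IsAlgebraic.trans K M Ω
  have hcl : IsAlgClosure K Ω := ⟨inferInstance, halg⟩
  have hnorm : Normal K Ω := IsAlgClosure.normal K Ω
  have hΩg : IsGalois K Ω := ⟨⟩
  have hΩM : IsGalois M Ω := IsGalois.tower_top_of_isGalois K M Ω
  have hgal : IsGalois kb kb := inferInstance
  let B := integralClosure R M
  have hsurj : Function.Surjective Ψ := fun a => ⟨⟨algebraMap kb M a, hBk a⟩, hΨ a _ rfl⟩
  -- `g` is the identity on `kb`
  have hgk : ∀ a : kb, g (algebraMap kb M a) = algebraMap kb M a := by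
    intro a
    obtain ⟨a', ha'⟩ := Full.exists_apply_alg k g a
    have h1 := hg ⟨algebraMap kb M a, hBk a⟩ ⟨algebraMap kb M a', hBk a'⟩ ha'.symm
    rw [hΨ a ⟨algebraMap kb M a, hBk a⟩ rfl, hΨ a' ⟨algebraMap kb M a', hBk a'⟩ rfl] at h1
    rw [ha', h1]
  -- extension of the point
  let C := integralClosure B Ω
  have hCint : Algebra.IsIntegral B C := integralClosure.AlgebraIsIntegral
  have hinj : Function.Injective (algebraMap B C) := by
    intro x y h
    have h1 := congrArg (algebraMap C Ω) h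
    rw [← IsScalarTower.algebraMap_apply, ← IsScalarTower.algebraMap_apply] at h1
    exact Subtype.ext ((algebraMap M Ω).injective h1)
  obtain ⟨Φ, hΦ⟩ := exists_ext (B := B) (C := C) hinj Ψ hsurj
  -- lift of `g`
  obtain ⟨g', hg'⟩ := AlgEquiv.restrictNormalHom_surjective (F := K) (K₁ := M) (E := Ω) g
  have hg'M : ∀ m : M, g' (algebraMap M Ω m) = algebraMap M Ω (g m) := by
    intro m
    rw [← hg']
    exact (AlgEquiv.restrictNormal_commutes g' M m).symm
  have hRM : ∀ x : Ω, IsIntegral R x → IsIntegral B x := fun x hx => hx.tower_top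
  have hMR : ∀ x : Ω, IsIntegral B x → IsIntegral R x := by
    intro x hx
    have : Algebra.IsIntegral R B := integralClosure.AlgebraIsIntegral
    exact isIntegral_trans x hx
  let actC : C →+* C :=
    { toFun := fun c => ⟨g' c, hRM _ ((hMR _ c.2).map
        ((g'.toAlgHom.restrictScalars R : Ω →ₐ[R] Ω)))⟩
      map_one' := Subtype.ext (map_one g')
      map_mul' := fun _ _ => Subtype.ext (map_mul g' _ _)
      map_zero' := Subtype.ext (map_zero g')
      map_add' := fun _ _ => Subtype.ext (map_add g' _ _) }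
  have hkbC : ∀ a : kb, IsIntegral B (algebraMap kb Ω a) := by
    intro a
    have h1 : algebraMap kb Ω a = algebraMap B Ω ⟨algebraMap kb M a, hBk a⟩ := by
      rw [IsScalarTower.algebraMap_apply kb M Ω]; rfl
    rw [h1]; exact isIntegral_algebraMap
  have hkbC' : ∀ a : kb, (⟨algebraMap kb Ω a, hkbC a⟩ : C) =
      algebraMap B C ⟨algebraMap kb M a, hBk a⟩ := by
    intro a
    apply Subtype.ext
    change algebraMap kb Ω a = algebraMap M Ω (algebraMap kb M a)
    rw [← IsScalarTower.algebraMap_apply]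
  have hactB : ∀ b : B, ∃ b' : B, (b' : M) = g b ∧ actC (algebraMap B C b) = algebraMap B C b' := by
    intro b
    refine ⟨⟨g b, b.2.map ((g.toAlgHom.restrictScalars R : M →ₐ[R] M))⟩, rfl, ?_⟩
    apply Subtype.ext
    exact hg'M (b : M)
  obtain ⟨h, hh1, hh2⟩ := Full.points_trans' (R := B) (K := M) (M := Ω) (k := kb) (kb := kb)
    (fun x hx => by
      have : Algebra.IsIntegral R B := integralClosure.AlgebraIsIntegral
      exact ⟨⟨x, isIntegral_trans x hx⟩, rfl⟩)
    hkbC Φ (Φ.comp actC) (fun a => by rw [hkbC', hΦ]; exact hΨ a _ rfl) (fun a => by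
      obtain ⟨b', hb', hb''⟩ := hactB ⟨algebraMap kb M a, hBk a⟩
      rw [RingHom.comp_apply, hkbC', hb'', hΦ]
      exact hΨ a _ (hb'.trans (hgk a))) (fun b => by
      obtain ⟨b', hb', hb''⟩ := hactB b
      rw [RingHom.comp_apply, hb'', hΦ, hΦ]
      exact hg b b' hb') (fun a => ⟨⟨algebraMap kb M a, hBk a⟩, by
        change algebraMap M Ω (algebraMap kb M a) = algebraMap kb Ω a
        rw [← IsScalarTower.algebraMap_apply]⟩)
  -- the inertia element
  let hK : Gal(Ω/K) := h.restrictScalars K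
  have hhK : ∀ x, hK x = h x := fun x => rfl
  let inc : integralClosure R Ω →+* C :=
    { toFun := fun b => ⟨b, hRM _ b.2⟩
      map_one' := rfl
      map_mul' := fun _ _ => rfl
      map_zero' := rfl
      map_add' := fun _ _ => rfl }
  have hmem : g' * hK⁻¹ ∈ inertia R K Ω kb := by
    refine ⟨Φ.comp inc, fun a b hb => ?_, fun b b' hb => ?_⟩
    · have h1 : inc b = algebraMap B C ⟨algebraMap kb M a, hBk a⟩ := by
        rw [← hkbC']; exact Subtype.ext hb
      rw [RingHom.comp_apply, h1, hΦ]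
      exact hΨ a _ rfl
    · let b₁ : C := ⟨hK⁻¹ (b : Ω), hRM _ (b.2.map
        (((hK⁻¹ : Gal(Ω/K)).toAlgHom.restrictScalars R : Ω →ₐ[R] Ω)))⟩
      have h1 : inc b' = actC b₁ := Subtype.ext hb
      have h2 : inc b = actHom B h b₁ := by
        apply Subtype.ext
        change (b : Ω) = hK (hK⁻¹ (b : Ω))
        exact (hK.apply_symm_apply _).symm
      rw [RingHom.comp_apply, RingHom.comp_apply, h1, h2, ← hh2]
      rfl
  apply AlgEquiv.ext
  intro m
  apply (algebraMap M Ω).injective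
  have h1 := hM (algebraMap M Ω m) ⟨m, rfl⟩ _ hmem
  have h2 : hK⁻¹ (algebraMap M Ω m) = algebraMap M Ω m := by
    have h3 : hK (algebraMap M Ω m) = algebraMap M Ω m := h.commutes m
    have h4 := congrArg (hK⁻¹ : Gal(Ω/K)) h3
    rw [← h4]
    exact hK.symm_apply_apply _
  rw [AlgEquiv.mul_apply, h2, hg'M] at h1
  exact h1

omit [CharZero k] [Algebra.IsAlgebraic k kb] [IsGalois K M] [Algebra.IsAlgebraic M Ω] in
theorem radClosed_aux (hBk : ∀ a : kb, IsIntegral R (algebraMap kb M a))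
    (hM : ∀ x : Ω, (∃ m : M, algebraMap M Ω m = x) ↔ ∀ g ∈ inertia R K Ω kb, g x = x) :
    IsRadClosed R M kb := by
  classical
  intro n ρ hn hρ hloc
  obtain ⟨β, hβ⟩ := IsAlgClosed.exists_pow_nat_eq (algebraMap M Ω ρ) hn
  suffices h : ∃ m : M, algebraMap M Ω m = β by
    obtain ⟨m, hm⟩ := h
    refine ⟨m, (algebraMap M Ω).injective ?_⟩
    rw [map_pow, hm, hβ]
  refine (hM β).mpr fun g hg => ?_
  have hgM : ∀ m : M, g (algebraMap M Ω m) = algebraMap M Ω m := fun m =>
    (hM _).mp ⟨m, rfl⟩ g hg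
  obtain ⟨Φ, hΦ, hΦg⟩ := hg
  have hBk' : ∀ a : kb, IsIntegral R (algebraMap kb Ω a) := by
    intro a
    rw [IsScalarTower.algebraMap_apply kb M Ω]
    exact (hBk a).algebraMap
  let inc : integralClosure R M →+* integralClosure R Ω :=
    { toFun := fun b => ⟨algebraMap M Ω b, b.2.algebraMap⟩
      map_one' := Subtype.ext (map_one (algebraMap M Ω))
      map_mul' := fun _ _ => Subtype.ext (map_mul (algebraMap M Ω) _ _)
      map_zero' := Subtype.ext (map_zero (algebraMap M Ω))
      map_add' := fun _ _ => Subtype.ext (map_add (algebraMap M Ω) _ _) }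
  obtain ⟨c, x, y, hx, hy, hxy⟩ := hloc (Φ.comp inc) (fun a b hb => by
    refine hΦ a _ ?_
    change algebraMap M Ω b = algebraMap kb Ω a
    rw [hb, ← IsScalarTower.algebraMap_apply])
  have hroot : ∀ x : integralClosure R M, Φ (inc x) ≠ 0 → ∃ ξ : Ω, ξ ^ n = algebraMap M Ω x ∧
      ξ ≠ 0 ∧ g ξ = ξ := by
    intro x hx
    obtain ⟨ξ, hξ⟩ := IsAlgClosed.exists_pow_nat_eq (algebraMap M Ω (x : M)) hn
    have hξi : IsIntegral R ξ := by
      have h1 : IsIntegral R (ξ ^ n) := by rw [hξ]; exact x.2.algebraMap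
      exact IsIntegral.of_pow hn h1
    have hΦξ : Φ ⟨ξ, hξi⟩ ≠ 0 := by
      intro h0
      apply hx
      have h1 : inc x = ⟨ξ, hξi⟩ ^ n := Subtype.ext hξ.symm
      rw [h1, map_pow, h0, zero_pow (by omega)]
    have hξ0 : ξ ≠ 0 := by
      rintro rfl
      exact hΦξ (map_zero Φ)
    refine ⟨ξ, hξ, hξ0, ?_⟩
    have h1 : (g ξ / ξ) ^ n = 1 := by
      rw [div_pow, ← map_pow, hξ, hgM]
      refine div_self ?_
      rw [← hξ]; exact pow_ne_zero n hξ0
    obtain ⟨ζ, hζ⟩ : ∃ ζ : kb, algebraMap kb Ω ζ = g ξ / ξ := by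
      have h2 : IsIntegral kb (g ξ / ξ) := ⟨Polynomial.X ^ n - 1,
        Polynomial.monic_X_pow_sub_C 1 (by omega), by simp [h1]⟩
      have h3 : (minpoly kb (g ξ / ξ)).degree = 1 :=
        IsAlgClosed.degree_eq_one_of_irreducible kb (minpoly.irreducible h2)
      exact minpoly.mem_range_of_degree_eq_one kb _ h3
    have h2 : g ξ = algebraMap kb Ω ζ * ξ := by
      rw [hζ, div_mul_cancel₀ _ hξ0]
    have h3 : IsIntegral R (g ξ) := by rw [h2]; exact (hBk' ζ).mul hξi
    have h4 := hΦg ⟨ξ, hξi⟩ ⟨g ξ, h3⟩ rfl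
    have h5 : (⟨g ξ, h3⟩ : integralClosure R Ω) = ⟨algebraMap kb Ω ζ, hBk' ζ⟩ * ⟨ξ, hξi⟩ :=
      Subtype.ext h2
    rw [h5, map_mul, hΦ ζ _ rfl] at h4
    have h6 : ζ = 1 := by
      have := mul_right_cancel₀ hΦξ (h4.trans (one_mul _).symm)
      exact this
    rw [h2, h6, map_one, one_mul]
  obtain ⟨ξ, hξ, hξ0, hgξ⟩ := hroot x hx
  obtain ⟨η, hη, hη0, hgη⟩ := hroot y hy
  have hx0 : algebraMap M Ω (x : M) ≠ 0 := by rw [← hξ]; exact pow_ne_zero n hξ0
  have hβ0 : β ≠ 0 := by
    rintro rfl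
    rw [zero_pow (by omega)] at hβ
    exact hρ ((map_eq_zero (algebraMap M Ω)).mp hβ.symm)
  have h1 : (β * ξ) ^ n = (algebraMap M Ω c * η) ^ n := by
    rw [mul_pow, mul_pow, hβ, hξ, hη, ← map_mul, hxy, map_mul, map_pow]
  have hcη : algebraMap M Ω c * η ≠ 0 := by
    intro h0
    rw [h0, zero_pow (by omega)] at h1
    exact mul_ne_zero hβ0 hξ0 (pow_eq_zero_iff (by omega) |>.mp h1)
  have h2 : (β * ξ / (algebraMap M Ω c * η)) ^ n = 1 := by
    rw [div_pow, h1]
    exact div_self (pow_ne_zero n hcη)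
  obtain ⟨ζ, hζ⟩ : ∃ ζ : kb, algebraMap kb Ω ζ = β * ξ / (algebraMap M Ω c * η) := by
    have h3 : IsIntegral kb (β * ξ / (algebraMap M Ω c * η)) := ⟨Polynomial.X ^ n - 1,
      Polynomial.monic_X_pow_sub_C 1 (by omega), by simp [h2]⟩
    have h4 : (minpoly kb (β * ξ / (algebraMap M Ω c * η))).degree = 1 :=
      IsAlgClosed.degree_eq_one_of_irreducible kb (minpoly.irreducible h3)
    exact minpoly.mem_range_of_degree_eq_one kb _ h4
  have h3 : β = algebraMap M Ω (algebraMap kb M ζ) * (algebraMap M Ω c * η) / ξ := by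
    rw [← IsScalarTower.algebraMap_apply, hζ, div_mul_cancel₀ _ hcη, mul_div_cancel_right₀ _ hξ0]
  have h4 : g β = g (algebraMap M Ω (algebraMap kb M ζ)) *
      (g (algebraMap M Ω c) * g η) / g ξ := by
    conv_lhs => rw [h3]
    rw [map_div₀, map_mul, map_mul]
  rw [h4, hgM, hgM, hgη, hgξ]
  exact h3.symm

end

section

variable {k K M kb : Type*} [Field k] [CharZero k] [Field K] [Field M] [Field kb]
  [Algebra k kb] [IsAlgClosed kb] [Algebra.IsAlgebraic k kb] [Algebra k K] [Algebra K M]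
  [Algebra kb M] [Algebra k M] [IsScalarTower k K M] [IsScalarTower k kb M]

theorem integral_const (R : Subalgebra k K) (a : kb) : IsIntegral R (algebraMap kb M a) := by
  have h1 : IsIntegral k a := Algebra.IsIntegral.isIntegral a
  have h2 : IsIntegral k (algebraMap kb M a) := h1.algebraMap
  exact h2.tower_top

theorem unram_of_max [IsGalois K M] (R : Subalgebra k K) (hM : IsMaxUnram R K M kb)
    (Ψ : integralClosure R M →+* kb) (hΨ : IsPt R M kb Ψ) (g : Gal(M/K))
    (hg : ∀ b b' : integralClosure R M, (b' : M) = g b → Ψ b' = Ψ b) : g = 1 :=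
  unram_aux (k := k) (Ω := AlgebraicClosure M) (integral_const R) (fun x => (hM x).mp) Ψ hΨ g hg

theorem radClosed_of_max (R : Subalgebra k K) (hM : IsMaxUnram R K M kb) : IsRadClosed R M kb :=
  radClosed_aux (Ω := AlgebraicClosure M) (integral_const R) hM

end

end Pool.Agent.Lib.MP_2f3286_ag.Pt
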