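import Mathlib
import Pool.Agent.Lib.MP_2f3286_ag.Pt.OverDefs
import Pool.Agent.Lib.MP_2f3286_ag.Pt.FinLift

/-!
# FINLIFT for all curves, proper or not
-/

set_option linter.unusedSectionVars false

open Polynomial IntermediateField

namespace Pool.Agent.Lib.MP_2f3286_ag.Pt

open Pool.Agent.Lib.MP_2f3286_ag.Full PTAux

/-- an automorphism that fixes a point of an affine open part is inert at the valuation ring of the
point, hence trivial -/
theorem hun_of_over {k K M kb : Type*} [Field k] [CharZero k] [Field K] [Field M] [Field kb]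
    [Algebra k kb] [IsAlgClosed kb] [Algebra.IsAlgebraic k kb] [Algebra k K] [Algebra K M]
    [Algebra kb M] [Algebra k M] [IsScalarTower k K M] [IsScalarTower k kb M] [IsGalois K M]
    (t : K) (ht : Transcendental k t) [FiniteDimensional (adjoin k {t}) K]
    (R₀ R : Subalgebra k K) (hR : R₀ ≤ R) (htR : t ∈ R) (hun : IsUnramOver R₀ K M kb)
    (Ψ : integralClosure R M →+* kb) (hΨ : IsPt R M kb Ψ) (g : Gal(M/K))
    (hg : ∀ b b' : integralClosure R M, (b' : M) = g b → Ψ b' = Ψ b) : g = 1 := by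
  obtain ⟨V, hV, hBV, hlt, -⟩ := Unr.exists_val (M := M) R t ht htR Ψ hΨ
  have hkb : ∀ a : kb, algebraMap kb M a ∈ V := fun a => hBV ⟨algebraMap kb M a, int_kb R a⟩
  have hgint : ∀ b : integralClosure R M, IsIntegral R (g (b : M)) := fun b =>
    b.2.map (g.toAlgHom.restrictScalars R)
  refine hun V ⟨⟨hkb, ?_⟩, fun r => hBV (algebraMap R (integralClosure R M) ⟨r, hR r.2⟩)⟩ g ?_
  · intro htop
    set τ : M := algebraMap K M t with hτ
    set c : kb := Ψ ⟨τ, int_t t R htR⟩ with hc
    have hint : IsIntegral R (τ - algebraMap kb M c) := (int_t t R htR).sub (int_kb R c)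
    have h4 : Ψ ⟨τ - algebraMap kb M c, hint⟩ = 0 := by
      have h5 : (⟨τ - algebraMap kb M c, hint⟩ : integralClosure R M) =
        ⟨τ, int_t t R htR⟩ - ⟨algebraMap kb M c, int_kb R c⟩ := rfl
      rw [h5, map_sub, hΨ c ⟨algebraMap kb M c, int_kb R c⟩ rfl, ← hc, sub_self]
    have h6 : V.valuation (τ - algebraMap kb M c) < 1 := (hlt _).2 h4
    have h7 : τ - algebraMap kb M c ≠ 0 := by
      intro h0
      have htr : Transcendental kb τ := transc (k := k) t ht
      apply X_sub_C_ne_zero c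
      apply (transcendental_iff.1 htr)
      rw [map_sub, aeval_X, aeval_C, h0]
    have h8 : (τ - algebraMap kb M c)⁻¹ ∈ V := by
      rw [htop]; exact ValuationSubring.mem_top _
    have h9 : V.valuation (τ - algebraMap kb M c)⁻¹ ≤ 1 := (V.valuation_le_one_iff _).2 h8
    rw [map_inv₀, inv_le_one₀ (by rw [zero_lt_iff, Ne, map_eq_zero]; exact h7)] at h9
    exact absurd (lt_of_lt_of_le h6 h9) (lt_irrefl _)
  · intro x hx
    obtain ⟨a, b, hb, hab⟩ := (hV x).1 hx
    set a' : integralClosure R M := ⟨g (a : M), hgint a⟩ with ha'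
    set b' : integralClosure R M := ⟨g (b : M), hgint b⟩ with hb'
    have hΨa : Ψ a' = Ψ a := hg a a' rfl
    have hΨb : Ψ b' = Ψ b := hg b b' rfl
    have hb1 : V.valuation (b : M) = 1 := by
      refine le_antisymm ((V.valuation_le_one_iff _).2 (hBV b)) ?_
      rw [← not_lt, hlt]; exact hb
    have hb1' : V.valuation (b' : M) = 1 := by
      refine le_antisymm ((V.valuation_le_one_iff _).2 (hBV b')) ?_
      rw [← not_lt, hlt, hΨb]; exact hb
    have hb0 : (b : M) ≠ 0 := by
      intro h0; rw [h0, map_zero] at hb1; exact zero_ne_one hb1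
    have hb0' : (b' : M) ≠ 0 := by
      intro h0; rw [h0, map_zero] at hb1'; exact zero_ne_one hb1'
    have hgx : g x * (b' : M) = a' := by
      change g x * g (b : M) = g (a : M)
      rw [← map_mul, hab]
    refine ⟨(hV _).2 ⟨a', b', by rw [hΨb]; exact hb, hgx⟩, ?_⟩
    have h1 : (g x - x) * ((b * b' : integralClosure R M) : M) =
        ((a' * b - a * b' : integralClosure R M) : M) := by
      push_cast
      rw [← hgx, ← hab]
      ring
    have h2 : Ψ (a' * b - a * b') = 0 := by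
      rw [map_sub, map_mul, map_mul, hΨa, hΨb, sub_self]
    have h3 : V.valuation ((a' * b - a * b' : integralClosure R M) : M) < 1 := (hlt _).2 h2
    rw [← h1, map_mul] at h3
    have h4 : V.valuation ((b * b' : integralClosure R M) : M) = 1 := by
      push_cast
      rw [map_mul, hb1, hb1', one_mul]
    rwa [h4, mul_one] at h3

section

variable {k K M kb : Type*} [Field k] [CharZero k] [Field K] [Field M] [Field kb] [Algebra k kb]
  [IsAlgClosed kb] [Algebra.IsAlgebraic k kb] [Algebra k K] [Algebra K M] [Algebra kb M]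
  [Algebra k M] [IsScalarTower k K M] [IsScalarTower k kb M] [IsGalois K M]
  (t : K) [FiniteDimensional (adjoin k {t}) K]

namespace FinLift

/-- all places of `E` -/
def plcOver (R₀ : Subalgebra k K) (E : IntermediateField K M)
    (hE : ∀ a : kb, algebraMap kb M a ∈ E) : Set (ValuationSubring E) :=
  {Q | (∀ a : kb, (⟨algebraMap kb M a, hE a⟩ : E) ∈ Q) ∧ Q ≠ ⊤ ∧
    ∀ r : R₀, (⟨algebraMap R₀ M r, E.algebraMap_mem (r : K)⟩ : E) ∈ Q}

/-- the restriction of a place of `M` is a place of `E` -/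
theorem comap_plcOver (R₀ : Subalgebra k K) (E : IntermediateField K M)
    (hE : ∀ a : kb, algebraMap kb M a ∈ E) (V : ValuationSubring M) (hV : IsPlcOver R₀ kb V) :
    V.comap (algebraMap E M) ∈ plcOver R₀ E hE := by
  refine ⟨fun a => hV.1.1 a, fun htop => hV.1.2 ?_, fun r => hV.2 r⟩
  rw [eq_top_iff]
  intro x _
  have h1 : IsIntegral E x := Algebra.IsIntegral.isIntegral x
  refine mem_of_isIntegral (R := E) (𝒱 := V) (fun r => ?_) h1
  have h2 : r ∈ V.comap (algebraMap E M) := by rw [htop]; exact ValuationSubring.mem_top _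
  exact h2

/-- roots in `M` have divisible orders at the places on the affine part -/
theorem divAt_of_root_over (ht : Transcendental k t) (R₀ R : Subalgebra k K) (hR : R₀ ≤ R) (htR : t ∈ R)
    (hun : IsUnramOver R₀ K M kb) (E : IntermediateField K M)
    (hE : ∀ a : kb, algebraMap kb M a ∈ E)
    (hEf : ∃ s : Finset E, ∀ x : E, (x : M) ∈ Submodule.span (adjoin kb {algebraMap K M t})
      ((fun y : E => (y : M)) '' s)) (n : ℕ) (hn : 1 ≤ n) (ρ : E) (hρ : ρ ≠ 0) (β : M)
    (hβ : β ^ n = ρ) (Q : ValuationSubring E) (hQ : Q ∈ plcOver R₀ E hE)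
    (hQR : ∀ r : R, (⟨algebraMap R M r, E.algebraMap_mem (r : K)⟩ : E) ∈ Q) : DivAt n ρ Q := by
  obtain ⟨Ψ, hΨ, hQΨ⟩ := exists_pt_of_place t R ht htR E hE hEf Q hQ.1 hQ.2.1 hQR
  exact unr t R ht htR (fun Ψ hΨ g _ hg => hun_of_over t ht R₀ R hR htR hun Ψ hΨ g hg) E hE hEf
    n hn ρ hρ β hβ Ψ hΨ Q hQΨ

theorem adjoin_inv' {C L : Type*} [Field C] [Field L] [Algebra C L] (x : L) :
    adjoin C {x⁻¹} = adjoin C {x} := by
  apply le_antisymm
  · rw [adjoin_simple_le_iff]
    exact inv_mem (mem_adjoin_simple_self C x)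
  · rw [adjoin_simple_le_iff]
    have := inv_mem (mem_adjoin_simple_self C x⁻¹)
    rwa [inv_inv] at this

/-- an element has an `n`-th root in `M` if and only if its order at each place is divisible by
`n` -/
theorem root_iff_over (ht : Transcendental k t) (R₀ : Subalgebra k K)
    (hun : IsUnramOver R₀ K M kb) (hmax : IsRadClosedOver R₀ M kb)
    (E : IntermediateField K M) (hE : ∀ a : kb, algebraMap kb M a ∈ E)
    (hEf : ∃ s : Finset E, ∀ x : E, (x : M) ∈ Submodule.span (adjoin kb {algebraMap K M t})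
      ((fun y : E => (y : M)) '' s)) (n : ℕ) (hn : 1 ≤ n) (ρ : E) (hρ : ρ ≠ 0) :
    (∀ Q ∈ plcOver R₀ E hE, DivAt n ρ Q) ↔ ∃ β : M, β ^ n = ρ := by
  constructor
  · intro h
    refine hmax n ρ hn (fun h0 => hρ (Subtype.ext h0)) fun V hV => ?_
    obtain ⟨c, hc, hv⟩ := h _ (comap_plcOver R₀ E hE V hV)
    refine ⟨c, fun h0 => hc (Subtype.ext h0), ?_⟩
    have h1 := (val_comap_eq_one (algebraMap E M) V _).mp hv
    rw [map_mul, map_inv₀, map_pow] at h1
    exact h1
  · rintro ⟨β, hβ⟩ Q hQ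
    -- the ring generated by `R₀` and one element
    have hring : ∀ u : K, algebraMap K E u ∈ Q → ∀ r : (R₀ ⊔ Algebra.adjoin k {u} : Subalgebra k K),
        (⟨algebraMap (R₀ ⊔ Algebra.adjoin k {u} : Subalgebra k K) M r,
          E.algebraMap_mem (r : K)⟩ : E) ∈ Q := by
      intro u hu r
      have hk : ∀ a : k, algebraMap K E (algebraMap k K a) ∈ Q := by
        intro a
        have h1 : algebraMap K E (algebraMap k K a) =
            (⟨algebraMap kb M (algebraMap k kb a), hE _⟩ : E) := by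
          apply Subtype.ext
          change algebraMap K M (algebraMap k K a) = algebraMap kb M (algebraMap k kb a)
          rw [← IsScalarTower.algebraMap_apply, ← IsScalarTower.algebraMap_apply]
        rw [h1]
        exact hQ.1 _
      let S : Subalgebra k K :=
        { carrier := {x | algebraMap K E x ∈ Q}
          mul_mem' := fun {x y} hx hy => by
            change algebraMap K E (x * y) ∈ Q
            rw [map_mul]; exact Q.mul_mem _ _ hx hy
          add_mem' := fun {x y} hx hy => by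
            change algebraMap K E (x + y) ∈ Q
            rw [map_add]; exact Q.add_mem _ _ hx hy
          algebraMap_mem' := hk }
      have h2 : R₀ ⊔ Algebra.adjoin k {u} ≤ S := by
        refine sup_le (fun x hx => ?_) (Algebra.adjoin_le ?_)
        · exact hQ.2.2 ⟨x, hx⟩
        · rintro x rfl
          exact hu
      exact h2 r.2
    rcases Q.mem_or_inv_mem (algebraMap K E t) with h | h
    · exact divAt_of_root_over t ht R₀ (R₀ ⊔ Algebra.adjoin k {t}) le_sup_left
        (le_sup_right (a := R₀) (Algebra.subset_adjoin rfl)) hun E hE hEf n hn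
        ρ hρ β hβ Q hQ (hring t h)
    · rw [← map_inv₀] at h
      have h1 : adjoin k {t⁻¹} = adjoin k {t} := adjoin_inv' t
      have h2 : adjoin kb {algebraMap K M t⁻¹} = adjoin kb {algebraMap K M t} := by
        rw [map_inv₀]; exact adjoin_inv' _
      have : FiniteDimensional (adjoin k {t⁻¹}) K := by
        rw [h1]; infer_instance
      have ht' : Transcendental k t⁻¹ := by
        intro h3
        exact ht (by simpa using h3.inv)
      exact divAt_of_root_over t⁻¹ ht' R₀ (R₀ ⊔ Algebra.adjoin k {t⁻¹}) le_sup_left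
        (le_sup_right (a := R₀) (Algebra.subset_adjoin rfl)) hun E hE
        (by rw [h2]; exact hEf) n hn ρ hρ β hβ Q hQ (hring t⁻¹ h)

end FinLift

end

/-- FINLIFT for all curves -/
theorem fin_lift_over {k K M kb : Type*} [Field k] [CharZero k] [Field K] [Field M] [Field kb]
    [Algebra k kb] [IsAlgClosed kb] [Algebra.IsAlgebraic k kb] [Algebra k K] [Algebra K M]
    [Algebra kb M] [Algebra k M] [IsScalarTower k K M] [IsScalarTower k kb M] [IsGalois K M]
    (t : K) (ht : Transcendental k t) [FiniteDimensional (adjoin k {t}) K]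
    (R₀ : Subalgebra k K) (hfg : R₀.FG)
    (hun : IsUnramOver R₀ K M kb) (hmax : IsRadClosedOver R₀ M kb) (N : Subgroup Gal(M/K))
    (hN : ∀ g, g ∈ N ↔ ∀ a : kb, g (algebraMap kb M a) = algebraMap kb M a)
    (A : Subgroup Gal(M/K)) (hAN : A ≤ N) (O : Subgroup Gal(M/K)) (hO : IsOpen (O : Set Gal(M/K)))
    (hON : O ⊓ N ≤ A) (ℓ : ℕ) [Fact ℓ.Prime] :
    Finite (A →ₜ* Multiplicative (ZMod ℓ)) ∧
      ∀ f : A →ₜ* Multiplicative (ZMod ℓ), ∃ F : A →ₜ* Multiplicative ℤ_[ℓ],
        ∀ a, PadicInt.toZMod (F a).toAdd = (f a).toAdd := by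
  have hNg : N = geomGroup K M kb := by
    ext g
    rw [hN, mem_geomGroup]
  have hAo : OpenIn (geomGroup K M kb) A := ⟨O, hO, by rw [← hNg]; exact hON⟩
  have hAc : IsClosed (A : Set Gal(M/K)) :=
    OpenIn.isClosed_of_le hAo (hNg ▸ hAN) (isClosed_geomGroup K M kb)
  set E : IntermediateField K M := IntermediateField.fixedField A with hEdef
  have hE : ∀ a : kb, algebraMap kb M a ∈ E := by
    intro a
    rw [hEdef, IntermediateField.mem_fixedField_iff]
    intro g hg
    exact (hN g).1 (hAN hg) a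
  obtain ⟨E₁, hE₁, hEE⟩ := exists_fd (k := k) (kb := kb) t A hAo
  have hEf : ∃ s : Finset E, ∀ x : E, (x : M) ∈ Submodule.span (adjoin kb {algebraMap K M t})
      ((fun y : E => (y : M)) '' s) := by
    refine FinLift.exists_span t E hE E₁ fun x hx => hEE x fun h hh => ?_
    rw [hEdef, IntermediateField.mem_fixedField_iff] at hx
    exact hx h hh
  let _ := Cof.algE E hE
  have := Cof.tower E hE
  let tE : E := algebraMap K E t
  have htE : Transcendental kb tE := Cof.trans_coe E hE tE (Cof.trans_kb t ht)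
  have : FiniteDimensional (adjoin kb {tE}) E := Cof.finDim E hE tE hEf
  have : CharZero kb := charZero_of_injective_algebraMap (algebraMap k kb).injective
  have hroot := FinLift.root_iff_over t ht R₀ hun hmax E hE hEf
  have hU : ∀ Q ∈ FinLift.plcOver R₀ E hE, (∀ a : kb, algebraMap kb E a ∈ Q) ∧ Q ≠ ⊤ :=
    fun Q hQ => ⟨hQ.1, hQ.2.1⟩
  have hfin : {Q : ValuationSubring E | (∀ a : kb, algebraMap kb E a ∈ Q) ∧ Q ≠ ⊤ ∧
      Q ∉ FinLift.plcOver R₀ E hE}.Finite := by
    refine (cofinite_places t R₀ ht hfg E hE hEf).subset ?_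
    rintro Q ⟨h1, h2, h3⟩
    exact ⟨h1, h2, fun h4 => h3 ⟨h1, h2, h4⟩⟩
  have hℓ : 1 ≤ ℓ := (Fact.out : ℓ.Prime).one_le
  refine transport A hAc E rfl ℓ (kummer_tfab (C := kb) ℓ ?_ ?_)
  · obtain ⟨T, hT⟩ := kl_fin tE htE (FinLift.plcOver R₀ E hE) hU hfin ℓ hℓ
    exact ⟨T, fun ρ β hρ hβ => hT ρ hρ ((hroot ℓ hℓ ρ hρ).2 ⟨β, hβ⟩)⟩
  · intro n ρ β hn hρ hβ
    obtain ⟨c, hc, h⟩ := kl_step tE htE (FinLift.plcOver R₀ E hE) hU hfin n ℓ hn hℓ ρ hρ
      ((hroot n hn ρ hρ).2 ⟨β, hβ⟩)
    obtain ⟨β', hβ'⟩ := (hroot (n * ℓ) (Nat.mul_pos hn hℓ) (ρ * c ^ n)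
      (mul_ne_zero hρ (pow_ne_zero n hc))).1 h
    exact ⟨c, β', hc, hβ'⟩

end Pool.Agent.Lib.MP_2f3286_ag.Pt
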