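import Pool.Agent.Lib.MP_2f3286_ag.Pt.Defs

/-!
# Base change of the pole order
-/

set_option autoImplicit false

open scoped TensorProduct Classical

namespace Pool.Agent.Lib.MP_2f3286_ag.Pt

namespace BC

variable {C B E : Type*} [Field C] [CommRing B] [IsDomain B] [Algebra C B] {d : B → ℕ}

theorem d_smul (hd : IsPoleDeg C d) {c : C} (hc : c ≠ 0) (b : B) : d (c • b) = d b := by
  by_cases hb : b = 0
  · rw [hb, smul_zero]
  · have h1 : algebraMap C B c ≠ 0 := by
      rw [Ne, map_eq_zero_iff _ (FaithfulSMul.algebraMap_injective C B)]; exact hc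
    rw [Algebra.smul_def, hd.mul _ _ h1 hb, (hd.const _).2 ⟨c, rfl⟩, zero_add]

theorem d_smul_le (hd : IsPoleDeg C d) (c : C) (b : B) : d (c • b) ≤ d b := by
  by_cases hc : c = 0
  · rw [hc, zero_smul, hd.zero]; exact Nat.zero_le _
  · exact (d_smul hd hc b).le

theorem d_sum_le (hd : IsPoleDeg C d) {ι : Type*} (s : Finset ι) (f : ι → B) {m : ℕ}
    (h : ∀ i ∈ s, d (f i) ≤ m) : d (∑ i ∈ s, f i) ≤ m := by
  induction s using Finset.induction_on with
  | empty => simp [hd.zero]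
  | insert a s ha ih =>
    rw [Finset.sum_insert ha]
    exact (hd.add _ _).trans (max_le (h a (by simp)) (ih (fun i hi => h i (by simp [hi]))))

variable [Field E] [Algebra C E]

/-- Coordinates of an element of `E ⊗ B` with respect to a basis of `E`. -/
noncomputable def co (x : E ⊗[C] B) (i : Module.Basis.ofVectorSpaceIndex C E) : B :=
  TensorProduct.equivFinsuppOfBasisLeft (Module.Basis.ofVectorSpace C E) x i

/-- The indices of nonzero coordinates. -/
noncomputable def su (x : E ⊗[C] B) : Finset (Module.Basis.ofVectorSpaceIndex C E) :=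
  (TensorProduct.equivFinsuppOfBasisLeft (Module.Basis.ofVectorSpace C E) x).support

theorem mem_su {x : E ⊗[C] B} {i} : i ∈ su x ↔ co x i ≠ 0 := by simp [su, co]

/-- The pole order. -/
noncomputable def dE (d : B → ℕ) (x : E ⊗[C] B) : ℕ := (su x).sup (fun i => d (co x i))

theorem dE_le (hd : IsPoleDeg C d) {x : E ⊗[C] B} {m : ℕ} :
    dE d x ≤ m ↔ ∀ i, d (co x i) ≤ m := by
  unfold dE
  rw [Finset.sup_le_iff]
  refine ⟨fun h i => ?_, fun h i _ => h i⟩
  by_cases hi : i ∈ su x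
  · exact h i hi
  · have : co x i = 0 := by
      by_contra h; exact hi (mem_su.2 h)
    rw [this, hd.zero]; exact Nat.zero_le _

theorem co_add (x y : E ⊗[C] B) (i) : co (x + y) i = co x i + co y i := by simp [co]
theorem co_sub (x y : E ⊗[C] B) (i) : co (x - y) i = co x i - co y i := by simp [co]
theorem co_zero (i) : co (0 : E ⊗[C] B) i = 0 := by simp [co]

theorem co_tmul (γ : E) (b : B) (i) :
    co (γ ⊗ₜ[C] b) i = (Module.Basis.ofVectorSpace C E).repr γ i • b := by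
  simp [co]

theorem co_sum {ι : Type*} (s : Finset ι) (f : ι → E ⊗[C] B) (i) :
    co (∑ j ∈ s, f j) i = ∑ j ∈ s, co (f j) i := by
  simp [co, map_sum, Finsupp.finsetSum_apply]

theorem eq_of_co {x y : E ⊗[C] B} (h : ∀ i, co x i = co y i) : x = y :=
  (TensorProduct.equivFinsuppOfBasisLeft (Module.Basis.ofVectorSpace C E)).injective
    (Finsupp.ext h)

theorem expand (x : E ⊗[C] B) :
    x = ∑ i ∈ su x, (Module.Basis.ofVectorSpace C E i) ⊗ₜ[C] co x i := by
  have h := TensorProduct.equivFinsuppOfBasisLeft_symm_apply (Module.Basis.ofVectorSpace C E)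
    (TensorProduct.equivFinsuppOfBasisLeft (Module.Basis.ofVectorSpace C E) x)
  rw [LinearEquiv.symm_apply_apply] at h
  exact h

theorem co_smul (γ : E) (x : E ⊗[C] B) (i) :
    co (γ • x) i = ∑ j ∈ su x,
      (Module.Basis.ofVectorSpace C E).repr (γ * Module.Basis.ofVectorSpace C E j) i • co x j := by
  conv_lhs => rw [expand x, Finset.smul_sum]
  rw [co_sum]
  refine Finset.sum_congr rfl (fun j _ => ?_)
  rw [TensorProduct.smul_tmul', smul_eq_mul, co_tmul]

theorem dE_smul_le (hd : IsPoleDeg C d) (γ : E) (x : E ⊗[C] B) : dE d (γ • x) ≤ dE d x := by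
  rw [dE_le hd]
  intro i
  rw [co_smul]
  exact d_sum_le hd _ _ (fun j _ => (d_smul_le hd _ _).trans ((dE_le hd).1 le_rfl j))

theorem dE_zero (hd : IsPoleDeg C d) : dE d (0 : E ⊗[C] B) = 0 := by
  refine Nat.le_zero.1 ((dE_le hd).2 (fun i => ?_))
  rw [co_zero, hd.zero]

theorem dE_add (hd : IsPoleDeg C d) (x y : E ⊗[C] B) : dE d (x + y) ≤ max (dE d x) (dE d y) := by
  rw [dE_le hd]
  intro i
  rw [co_add]
  exact (hd.add _ _).trans (max_le_max ((dE_le hd).1 le_rfl i) ((dE_le hd).1 le_rfl i))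

theorem dE_tmul_le (hd : IsPoleDeg C d) (γ : E) (b : B) : dE d (γ ⊗ₜ[C] b) ≤ d b := by
  rw [dE_le hd]
  intro i
  rw [co_tmul]
  exact d_smul_le hd _ _

theorem dE_tmul (hd : IsPoleDeg C d) {γ : E} (hγ : γ ≠ 0) (b : B) : dE d (γ ⊗ₜ[C] b) = d b := by
  refine le_antisymm (dE_tmul_le hd γ b) ?_
  obtain ⟨i, hi⟩ : ∃ i, (Module.Basis.ofVectorSpace C E).repr γ i ≠ 0 := by
    by_contra hcon
    push Not at hcon
    exact hγ ((Module.Basis.ofVectorSpace C E).repr.map_eq_zero_iff.1 (Finsupp.ext hcon))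
  have h := (dE_le hd).1 (le_refl (dE d (γ ⊗ₜ[C] b))) i
  rw [co_tmul, d_smul hd hi] at h
  exact h

theorem dE_span (hd : IsPoleDeg C d) (m : ℕ) (x : E ⊗[C] B) :
    dE d x ≤ m ↔ x ∈ Submodule.span E ((fun b => (1 : E) ⊗ₜ[C] b) '' {b : B | d b ≤ m}) := by
  constructor
  · intro h
    rw [expand x]
    refine Submodule.sum_mem _ (fun i _ => ?_)
    have h1 : (Module.Basis.ofVectorSpace C E i) ⊗ₜ[C] co x i =
        (Module.Basis.ofVectorSpace C E i) • ((1 : E) ⊗ₜ[C] co x i) := by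
      rw [TensorProduct.smul_tmul', smul_eq_mul, mul_one]
    rw [h1]
    exact Submodule.smul_mem _ _ (Submodule.subset_span ⟨_, (dE_le hd).1 h i, rfl⟩)
  · intro h
    induction h using Submodule.span_induction with
    | mem x hx =>
      obtain ⟨b, hb, rfl⟩ := hx
      exact (dE_tmul_le hd _ _).trans hb
    | zero => rw [dE_zero hd]; exact Nat.zero_le _
    | add x y _ _ hx hy => exact (dE_add hd x y).trans (max_le hx hy)
    | smul γ x _ hx => exact (dE_smul_le hd γ x).trans hx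

theorem dE_mul_le (hd : IsPoleDeg C d) (x y : E ⊗[C] B) :
    dE d (x * y) ≤ dE d x + dE d y := by
  have key : ∀ x ∈ Submodule.span E ((fun b => (1 : E) ⊗ₜ[C] b) '' {b : B | d b ≤ dE d x}),
      ∀ m n, x ∈ Submodule.span E ((fun b => (1 : E) ⊗ₜ[C] b) '' {b : B | d b ≤ m}) →
        ∀ y, y ∈ Submodule.span E ((fun b => (1 : E) ⊗ₜ[C] b) '' {b : B | d b ≤ n}) →
          dE d (x * y) ≤ m + n := by
    intro x _ m n hx y hy
    rw [dE_span hd]
    have h1 := Submodule.mul_mem_mul hx hy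
    rw [Submodule.span_mul_span] at h1
    refine Submodule.span_mono ?_ h1
    rintro _ ⟨_, ⟨b, hb, rfl⟩, _, ⟨b', hb', rfl⟩, rfl⟩
    refine ⟨b * b', ?_, by simp⟩
    change d (b * b') ≤ m + n
    by_cases h0 : b = 0
    · rw [h0, zero_mul, hd.zero]; exact Nat.zero_le _
    by_cases h0' : b' = 0
    · rw [h0', mul_zero, hd.zero]; exact Nat.zero_le _
    rw [hd.mul _ _ h0 h0']
    exact Nat.add_le_add hb hb'
  exact key x ((dE_span hd _ x).1 le_rfl) _ _ ((dE_span hd _ x).1 le_rfl) y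
    ((dE_span hd _ y).1 le_rfl)

/-- Leading coefficients. -/
theorem dE_lead (hd : IsPoleDeg C d) (x : E ⊗[C] B) {e : B} (he : e ≠ 0) (h : dE d x ≤ d e) :
    ∃ α : E, x - α ⊗ₜ[C] e = 0 ∨ dE d (x - α ⊗ₜ[C] e) < d e := by
  choose c hc using fun i => hd.lead (co x i) e he (((dE_le hd).1 h i))
  refine ⟨∑ i ∈ su x, c i • Module.Basis.ofVectorSpace C E i, ?_⟩
  have hrepr : ∀ i, co ((∑ i ∈ su x, c i • Module.Basis.ofVectorSpace C E i) ⊗ₜ[C] e) i =
      if i ∈ su x then c i • e else 0 := by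
    intro i
    rw [co_tmul, map_sum, Finsupp.finsetSum_apply]
    simp only [map_smul, Module.Basis.repr_self, Finsupp.smul_single, smul_eq_mul, mul_one]
    by_cases hi : i ∈ su x
    · rw [if_pos hi, Finset.sum_eq_single i]
      · simp
      · intro j _ hj; simp [Finsupp.single_apply, hj]
      · intro h; exact absurd hi h
    · rw [if_neg hi, Finset.sum_eq_zero, zero_smul]
      intro j hj
      have : j ≠ i := fun hji => hi (hji ▸ hj)
      simp [Finsupp.single_apply, this]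
  have hall : ∀ i, co (x - (∑ i ∈ su x, c i • Module.Basis.ofVectorSpace C E i) ⊗ₜ[C] e) i = 0 ∨
      d (co (x - (∑ i ∈ su x, c i • Module.Basis.ofVectorSpace C E i) ⊗ₜ[C] e) i) < d e := by
    intro i
    rw [co_sub, hrepr]
    by_cases hi : i ∈ su x
    · rw [if_pos hi]; exact hc i
    · rw [if_neg hi, sub_zero]
      left
      by_contra h; exact hi (mem_su.2 h)
  by_cases h0 : ∀ i, co (x - (∑ i ∈ su x, c i • Module.Basis.ofVectorSpace C E i) ⊗ₜ[C] e) i = 0
  · left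
    apply eq_of_co
    intro i; rw [h0 i, co_zero]
  · right
    push Not at h0
    obtain ⟨i, hi⟩ := h0
    have hpos : 0 < d e := lt_of_le_of_lt (Nat.zero_le _) ((hall i).resolve_left hi)
    have : dE d (x - (∑ i ∈ su x, c i • Module.Basis.ofVectorSpace C E i) ⊗ₜ[C] e) ≤ d e - 1 := by
      rw [dE_le hd]
      intro i
      rcases hall i with h | h
      · rw [h, hd.zero]; exact Nat.zero_le _
      · omega
    omega

/-- There is an element of `B` with the degree of a given nonzero element. -/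
theorem exists_d (x : E ⊗[C] B) (hx : x ≠ 0) : ∃ e : B, e ≠ 0 ∧ d e = dE d x := by
  have hne : (su x).Nonempty := by
    rw [Finset.nonempty_iff_ne_empty]
    intro h
    apply hx
    apply eq_of_co
    intro i
    rw [co_zero]
    by_contra hc
    have := mem_su.2 hc
    rw [h] at this
    simp at this
  obtain ⟨i, hi, h⟩ := Finset.exists_mem_eq_sup (su x) hne (fun i => d (co x i))
  exact ⟨co x i, mem_su.1 hi, h.symm⟩

theorem dE_lead' (hd : IsPoleDeg C d) (x : E ⊗[C] B) (hx : x ≠ 0) :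
    ∃ (e : B) (α : E) (x' : E ⊗[C] B), e ≠ 0 ∧ d e = dE d x ∧ α ≠ 0 ∧ x = α ⊗ₜ[C] e + x' ∧
      (x' = 0 ∨ dE d x' < dE d x) := by
  obtain ⟨e, he, hde⟩ := exists_d (d := d) x hx
  obtain ⟨α, hα⟩ := dE_lead hd x he hde.ge
  refine ⟨e, α, x - α ⊗ₜ[C] e, he, hde, ?_, by ring, by rw [← hde]; exact hα⟩
  rintro rfl
  rw [TensorProduct.zero_tmul, sub_zero] at hα
  rcases hα with hα | hα
  · exact hx hα
  · omega

theorem dE_neg (hd : IsPoleDeg C d) (x : E ⊗[C] B) : dE d (-x) ≤ dE d x := by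
  have := dE_smul_le hd (-1 : E) x
  rwa [neg_smul, one_smul] at this

/-- Being zero or smaller than `m` is preserved by sums. -/
theorem lt_add (hd : IsPoleDeg C d) {m : ℕ} {x y : E ⊗[C] B} (hx : x = 0 ∨ dE d x < m)
    (hy : y = 0 ∨ dE d y < m) : x + y = 0 ∨ dE d (x + y) < m := by
  rcases hx with rfl | hx
  · rwa [zero_add]
  rcases hy with rfl | hy
  · rw [add_zero]; exact Or.inr hx
  · right
    exact lt_of_le_of_lt (dE_add hd x y) (max_lt hx hy)

theorem lt_neg (hd : IsPoleDeg C d) {m : ℕ} {x : E ⊗[C] B} (hx : x = 0 ∨ dE d x < m) :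
    -x = 0 ∨ dE d (-x) < m := by
  rcases hx with rfl | hx
  · simp
  · exact Or.inr (lt_of_le_of_lt (dE_neg hd x) hx)

theorem dE_mul (hd : IsPoleDeg C d) (x y : E ⊗[C] B) (hx : x ≠ 0) (hy : y ≠ 0) :
    x * y ≠ 0 ∧ dE d (x * y) = dE d x + dE d y := by
  obtain ⟨e, α, x', he, hde, hα, hxe, hx'⟩ := dE_lead' hd x hx
  obtain ⟨f, β, y', hf, hdf, hβ, hyf, hy'⟩ := dE_lead' hd y hy
  have h1 : ¬ (x * y = 0 ∨ dE d (x * y) < dE d x + dE d y) := by
    intro hcon
    have h2 : (α * β) ⊗ₜ[C] (e * f) = x * y + -(x' * y + (α ⊗ₜ[C] e) * y') := by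
      have : (α * β) ⊗ₜ[C] (e * f) = (α ⊗ₜ[C] e) * (β ⊗ₜ[C] f) := by simp
      rw [this]
      have e1 : α ⊗ₜ[C] e = x - x' := by rw [hxe]; ring
      have e2 : β ⊗ₜ[C] f = y - y' := by rw [hyf]; ring
      rw [e2, e1]; ring
    have h3 : x' * y = 0 ∨ dE d (x' * y) < dE d x + dE d y := by
      rcases hx' with rfl | hx'
      · left; ring
      · right
        exact lt_of_le_of_lt (dE_mul_le hd _ _) (by omega)
    have h4 : (α ⊗ₜ[C] e) * y' = 0 ∨ dE d ((α ⊗ₜ[C] e) * y') < dE d x + dE d y := by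
      rcases hy' with rfl | hy'
      · left; ring
      · right
        refine lt_of_le_of_lt (dE_mul_le hd _ _) ?_
        have := dE_tmul_le hd α e
        omega
    have h5 := lt_add hd hcon (lt_neg hd (lt_add hd h3 h4))
    rw [← h2] at h5
    have h6 : dE d ((α * β) ⊗ₜ[C] (e * f)) = dE d x + dE d y := by
      rw [dE_tmul hd (mul_ne_zero hα hβ), hd.mul _ _ he hf, hde, hdf]
    rcases h5 with h5 | h5
    · -- then the degree is zero and the coordinates vanish
      obtain ⟨i, hi⟩ : ∃ i, (Module.Basis.ofVectorSpace C E).repr (α * β) i ≠ 0 := by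
        by_contra hcon
        push Not at hcon
        exact mul_ne_zero hα hβ
          ((Module.Basis.ofVectorSpace C E).repr.map_eq_zero_iff.1 (Finsupp.ext hcon))
      have h7 := co_tmul (C := C) (α * β) (e * f) i
      rw [h5, co_zero] at h7
      exact (smul_ne_zero hi (mul_ne_zero he hf)) h7.symm
    · omega
  push Not at h1
  exact ⟨h1.1, le_antisymm (dE_mul_le hd x y) h1.2⟩

end BC

open BC

theorem pd_baseChange {C B E : Type*} [Field C] [CommRing B] [IsDomain B] [Algebra C B] {d : B → ℕ}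
    (hd : IsPoleDeg C d) [Field E] [Algebra C E] :
    IsDomain (E ⊗[C] B) ∧ ∃ dE : E ⊗[C] B → ℕ, IsPoleDeg E dE ∧ (∀ b, dE (1 ⊗ₜ b) = d b) ∧
      ∀ m x, dE x ≤ m ↔ x ∈ Submodule.span E ((fun b => (1 : E) ⊗ₜ[C] b) '' {b : B | d b ≤ m}) := by
  have hone : d 1 = 0 := (hd.const 1).2 ⟨1, by simp⟩
  haveI hnt : Nontrivial (E ⊗[C] B) := by
    refine ⟨⟨(1 : E) ⊗ₜ[C] (1 : B), 0, ?_⟩⟩
    intro h
    obtain ⟨n₀, hn⟩ := hd.large
    obtain ⟨b, hb, hdb⟩ := hn (n₀ + 1) (by omega)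
    have h1 : (1 : E) ⊗ₜ[C] b = 0 := by
      have : (1 : E) ⊗ₜ[C] b = ((1 : E) ⊗ₜ[C] (1 : B)) * ((1 : E) ⊗ₜ[C] b) := by simp
      rw [this, h, zero_mul]
    have h2 := dE_tmul hd (one_ne_zero : (1 : E) ≠ 0) b
    rw [h1, dE_zero hd] at h2
    omega
  haveI : NoZeroDivisors (E ⊗[C] B) := by
    refine ⟨fun {x y} h => ?_⟩
    by_contra hcon
    push Not at hcon
    exact (dE_mul hd x y hcon.1 hcon.2).1 h
  refine ⟨NoZeroDivisors.to_isDomain _, dE d, ?_, fun b => dE_tmul hd one_ne_zero b,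
    fun m x => dE_span hd m x⟩
  refine ⟨dE_zero hd, fun x y hx hy => (dE_mul hd x y hx hy).2, dE_add hd, ?_, ?_, ?_⟩
  · intro x
    constructor
    · intro h
      obtain ⟨α, hα⟩ := dE_lead hd x (one_ne_zero : (1 : B) ≠ 0) (by rw [h]; exact Nat.zero_le _)
      rcases hα with hα | hα
      · exact ⟨α, sub_eq_zero.1 hα⟩
      · omega
    · rintro ⟨c, rfl⟩
      have h := dE_tmul_le hd c (1 : B)
      have h2 : algebraMap E (E ⊗[C] B) c = c ⊗ₜ[C] (1 : B) := rfl
      rw [h2]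
      omega
  · intro x y hy h
    obtain ⟨e, β, y', he, hde, hβ, hye, hy'⟩ := dE_lead' hd y hy
    obtain ⟨α, hα⟩ := dE_lead hd x he (by omega)
    refine ⟨α * β⁻¹, ?_⟩
    have h1 : x - (α * β⁻¹) • y = (x - α ⊗ₜ[C] e) + -((α * β⁻¹) • y') := by
      have h2 : (α * β⁻¹) • (β ⊗ₜ[C] e) = α ⊗ₜ[C] e := by
        rw [TensorProduct.smul_tmul', smul_eq_mul, mul_assoc, inv_mul_cancel₀ hβ, mul_one]
      have h3 : (α * β⁻¹) • y = α ⊗ₜ[C] e + (α * β⁻¹) • y' := by
        conv_lhs => rw [hye]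
        rw [smul_add, h2]
      rw [h3]; ring
    rw [h1]
    refine lt_add hd (by rw [← hde]; exact hα) (lt_neg hd ?_)
    rcases hy' with rfl | hy'
    · left; rw [smul_zero]
    · right; exact lt_of_le_of_lt (dE_smul_le hd _ _) hy'
  · obtain ⟨n₀, hn⟩ := hd.large
    refine ⟨n₀, fun n h => ?_⟩
    obtain ⟨b, hb, hdb⟩ := hn n h
    refine ⟨(1 : E) ⊗ₜ[C] b, ?_, by rw [dE_tmul hd one_ne_zero, hdb]⟩
    intro h0
    obtain ⟨i, hi⟩ : ∃ i, (Module.Basis.ofVectorSpace C E).repr (1 : E) i ≠ 0 := by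
      by_contra hcon
      push Not at hcon
      exact one_ne_zero ((Module.Basis.ofVectorSpace C E).repr.map_eq_zero_iff.1 (Finsupp.ext hcon))
    have h7 := co_tmul (C := C) (1 : E) b i
    rw [h0, co_zero] at h7
    exact (smul_ne_zero hi hb) h7.symm

end Pool.Agent.Lib.MP_2f3286_ag.Pt
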