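import Mathlib

/-!
# Injectivity of a matrix of polynomials is detected by finitely many minors
-/

set_option autoImplicit false

namespace Pool.Agent.Lib.MP_2f3286_ag.Pt

namespace Minor

theorem exists_rows {C : Type*} [Field C] {ι κ : Type*} [Fintype κ] [DecidableEq κ]
    (A : Matrix ι κ C) (hA : ∀ x : κ → C, A.mulVec x = 0 → x = 0) :
    ∃ f : κ → ι, (A.submatrix f id).det ≠ 0 := by
  -- the rows span
  have hspan : Submodule.span C (Set.range A) = (⊤ : Submodule C (κ → C)) := by
    by_contra hne
    obtain ⟨φ, hφ, hmap⟩ := Submodule.exists_dual_map_eq_bot_of_lt_top (lt_top_iff_ne_top.2 hne)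
      inferInstance
    apply hφ
    have h0 : (fun k => φ (Pi.single k 1)) = 0 := by
      apply hA
      funext i
      have h1 : φ (A i) = 0 := by
        have : φ (A i) ∈ (Submodule.span C (Set.range A)).map φ :=
          Submodule.mem_map_of_mem (Submodule.subset_span ⟨i, rfl⟩)
        rw [hmap] at this
        simpa using this
      have h2 : A i = ∑ k, A i k • (Pi.single k (1 : C) : κ → C) := by
        funext k
        simp [Finset.sum_apply, Pi.single_apply]
      rw [h2, map_sum] at h1
      simp only [map_smul, smul_eq_mul] at h1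
      simpa [Matrix.mulVec, dotProduct] using h1
    refine LinearMap.pi_ext' (fun k => ?_)
    ext
    simpa using congrFun h0 k
  obtain ⟨b, hb, hbs, hbi⟩ := exists_linearIndependent C (Set.range A)
  rw [hspan] at hbs
  let B : Module.Basis b C (κ → C) := Module.Basis.mk hbi (by rw [Subtype.range_coe]; exact hbs.ge)
  let e : κ ≃ b := (Pi.basisFun C κ).indexEquiv B
  choose g hg using fun k : κ => hb (e k).2
  refine ⟨g, ?_⟩
  have hli : LinearIndependent C (fun k : κ => A (g k)) := by
    have : (fun k : κ => A (g k)) = (fun x : b => (x : κ → C)) ∘ e := by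
      funext k; exact hg k
    rw [this]
    exact hbi.comp e e.injective
  have h1 : IsUnit (A.submatrix g id) := by
    rw [← Matrix.linearIndependent_rows_iff_isUnit]
    exact hli
  exact ((Matrix.isUnit_iff_isUnit_det _).1 h1).ne_zero

end Minor

theorem exists_minor {C : Type*} [Field C] {σ ι κ : Type*} [Finite ι] [Fintype κ]
    (A : Matrix ι κ (MvPolynomial σ C)) :
    ∃ H : Finset (MvPolynomial σ C),
      (∀ z : σ → C, (∀ x : κ → C, (A.map (MvPolynomial.eval z)).mulVec x = 0 → x = 0) →
        ∃ h ∈ H, MvPolynomial.eval z h ≠ 0) ∧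
      ∀ (E : Type*) [Field E] [Algebra C E] (z : σ → E), ∀ h ∈ H, MvPolynomial.aeval z h ≠ 0 →
        ∀ x : κ → E, (A.map (MvPolynomial.aeval z)).mulVec x = 0 → x = 0 := by
  classical
  have := Fintype.ofFinite ι
  refine ⟨Finset.univ.image (fun f : κ → ι => (A.submatrix f id).det), ?_, ?_⟩
  · intro z hz
    obtain ⟨f, hf⟩ := Minor.exists_rows (A.map (MvPolynomial.eval z)) hz
    refine ⟨_, Finset.mem_image_of_mem _ (Finset.mem_univ f), ?_⟩
    rw [RingHom.map_det]
    exact hf
  · intro E _ _ z h hh hne x hx
    obtain ⟨f, -, rfl⟩ := Finset.mem_image.1 hh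
    rw [AlgHom.map_det] at hne
    refine Matrix.eq_zero_of_mulVec_eq_zero hne ?_
    funext k
    exact congrFun hx (f k)

end Pool.Agent.Lib.MP_2f3286_ag.Pt
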