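import Mathlib
import Pool.Agent.Lib.MP_2f3286_ag.Pt.Defs

/-!
# T1DER: the derivation argument over the bigger field
-/

open Polynomial IntermediateField IsDedekindDomain
open scoped TensorProduct

namespace Pool.Agent.Lib.MP_2f3286_ag.Pt

namespace T1Der

theorem der_pow {B : Type*} [CommRing B] (δ : B →+ B)
    (hδ : ∀ x y, δ (x * y) = x * δ y + y * δ x) (a : B) (n : ℕ) :
    δ (a ^ (n + 1)) = ((n + 1 : ℕ) : B) * a ^ n * δ a := by
  induction n with
  | zero => simp
  | succ n ih =>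
    rw [pow_succ a (n + 1), hδ, ih]
    push_cast
    ring

end T1Der

theorem t1_der {E B : Type*} [Field E] [CharZero E] [CommRing B] [IsDomain B] [Algebra E B]
    {d : B → ℕ} (hd : IsPoleDeg E d) (n : ℕ) (hn : 1 ≤ n) (δ : B →+ B)
    (hδ : ∀ x y, δ (x * y) = x * δ y + y * δ x) (m r : ℕ) (ρ : B) (hρ : ρ ≠ 0)
    (hδρ : d (δ ρ) < d ρ ∨ δ ρ = 0) (a x z : Fin r → B) (q : Fin r → Fin r → B)
    (ham : ∀ i, d (a i) ≤ m) (ha : ∃ i, a i ≠ 0) (h1 : ∀ j, ρ * x j = a j ^ n)
    (h2 : ∀ i j, ρ * q i j = a i * a j ^ (n - 1)) (h3 : ∑ j, z j * x j = 1)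
    (hinj : ∀ c : Fin r → B, (∀ i, c i = 0 ∨ d (c i) < m) → (∀ i k, c i * a k = c k * a i) →
      ∀ i, c i = 0) : δ ρ = 0 := by
  obtain ⟨k, rfl⟩ : ∃ k, n = k + 1 := ⟨n - 1, by omega⟩
  rw [Nat.add_sub_cancel] at h2
  set c : Fin r → B := fun i =>
    ∑ j, z j * (((k + 1 : ℕ) : B) * q i j * δ (a j) - a i * δ (x j)) with hc
  have hder : ∀ j, ((k + 1 : ℕ) : B) * a j ^ k * δ (a j) = ρ * δ (x j) + x j * δ ρ := by
    intro j
    rw [← T1Der.der_pow δ hδ, ← h1 j, hδ]
  have hkey : ∀ i, ρ * c i = a i * δ ρ := by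
    intro i
    rw [hc]
    dsimp only
    rw [Finset.mul_sum]
    have hterm : ∀ j, ρ * (z j * (((k + 1 : ℕ) : B) * q i j * δ (a j) - a i * δ (x j))) =
        a i * δ ρ * (z j * x j) := by
      intro j
      linear_combination (z j * ((k + 1 : ℕ) : B) * δ (a j)) * h2 i j + (z j * a i) * hder j
    rw [Finset.sum_congr rfl fun j _ => hterm j, ← Finset.mul_sum, h3, mul_one]
  by_contra hne
  have hlt : d (δ ρ) < d ρ := hδρ.resolve_right hne
  have hc0 := hinj c (fun i => ?_) (fun i k' => ?_)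
  · obtain ⟨i, hi⟩ := ha
    have h4 := hkey i
    rw [hc0 i, mul_zero] at h4
    rcases mul_eq_zero.1 h4.symm with h5 | h5
    · exact hi h5
    · exact hne h5
  · by_cases hci : c i = 0
    · exact Or.inl hci
    · right
      have hai : a i ≠ 0 := by
        intro h0
        have h4 := hkey i
        rw [h0, zero_mul] at h4
        rcases mul_eq_zero.1 h4 with h5 | h5
        · exact hρ h5
        · exact hci h5
      have h6 := congrArg d (hkey i)
      rw [hd.mul _ _ hρ hci, hd.mul _ _ hai hne] at h6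
      have := ham i
      omega
  · refine mul_left_cancel₀ hρ ?_
    linear_combination a k' * hkey i - a i * hkey k'

end Pool.Agent.Lib.MP_2f3286_ag.Pt
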