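import Pool.Agent.Lib.MP_2f3286_ag.Pt.T1Lc
import Pool.Agent.Lib.MP_2f3286_ag.Pt.BC
import Pool.Agent.Lib.MP_2f3286_ag.Pt.Minor
import Pool.Agent.Lib.MP_2f3286_ag.Pt.GenPt
import Pool.Agent.Lib.MP_2f3286_ag.Pt.T1Der
import Pool.Agent.Lib.MP_2f3286_ag.Pt.PB1

/-!
# MP_2f3286_ag, campaign II, module T1MAIN, part 2: a family of ideals with principal power is finite
-/

open scoped TensorProduct

namespace Pool.Agent.Lib.MP_2f3286_ag.Pt

namespace T1Main

/-- elements of pole order less than `m`, and `0` -/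
def Wlt {C B : Type*} [Field C] [CommRing B] [Algebra C B] {d : B → ℕ} (hd : IsPoleDeg C d)
    (m : ℕ) : Submodule C B where
  carrier := {x | x = 0 ∨ d x < m}
  zero_mem' := Or.inl rfl
  add_mem' {x y} hx hy := by
    rcases hx with rfl | hx
    · rcases hy with rfl | hy
      · exact Or.inl (by simp)
      · exact Or.inr (by simpa using hy)
    · rcases hy with rfl | hy
      · exact Or.inr (by simpa using hx)
      · exact Or.inr ((hd.add x y).trans_lt (max_lt hx hy))
  smul_mem' c x hx := by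
    rcases hx with rfl | hx
    · exact Or.inl (by simp)
    · exact Or.inr (((W hd (d x)).smul_mem c (le_refl (d x))).trans_lt hx)

theorem mem_Wlt {C B : Type*} [Field C] [CommRing B] [Algebra C B] {d : B → ℕ}
    (hd : IsPoleDeg C d) {m : ℕ} {x : B} : x ∈ Wlt hd m ↔ x = 0 ∨ d x < m := Iff.rfl

/-- the variables -/
abbrev Sig (r Nm ND Nt : ℕ) : Type :=
  (Fin r × Fin Nm) ⊕ (Fin r × Fin ND) ⊕ (Fin r × Fin ND) ⊕ ((Fin r × Fin r) × Fin ND) ⊕ Fin Nt

section gen

variable (C : Type*) {B : Type*} [Field C] [CommRing B] [Algebra C B]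
  {r Nm ND Nt Nl : ℕ} (ρ₀ : B) (bm : Fin Nm → B) (bD : Fin ND → B) (bt : Fin Nt → B)
  (bl : Fin Nl → B) (n : ℕ)

section defs

variable {A : Type*} [CommRing A] [Algebra C A] (p : Sig r Nm ND Nt → A)

noncomputable def ea (i : Fin r) : A ⊗[C] B := lc bm (fun l => p (.inl (i, l)))
noncomputable def ex (i : Fin r) : A ⊗[C] B := lc bD (fun l => p (.inr (.inl (i, l))))
noncomputable def ez (i : Fin r) : A ⊗[C] B := lc bD (fun l => p (.inr (.inr (.inl (i, l)))))
noncomputable def eqq (i j : Fin r) : A ⊗[C] B :=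
  lc bD (fun l => p (.inr (.inr (.inr (.inl ((i, j), l))))))
noncomputable def eρ : A ⊗[C] B := 1 ⊗ₜ ρ₀ + lc bt (fun l => p (.inr (.inr (.inr (.inr l)))))

noncomputable def F1 (j : Fin r) : A ⊗[C] B := eρ C ρ₀ bt p * ex C bD p j - ea C bm p j ^ n
noncomputable def F2 (i j : Fin r) : A ⊗[C] B :=
  eρ C ρ₀ bt p * eqq C bD p i j - ea C bm p i * ea C bm p j ^ (n - 1)
noncomputable def F3 : A ⊗[C] B := ∑ j, ez C bD p j * ex C bD p j - 1

noncomputable def cv (x : Fin r × Fin Nl → A) (i : Fin r) : A ⊗[C] B := lc bl (fun l => x (i, l))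
noncomputable def GG (x : Fin r × Fin Nl → A) (i k : Fin r) : A ⊗[C] B :=
  cv C bl x i * ea C bm p k - cv C bl x k * ea C bm p i

theorem cv_sum [DecidableEq (Fin r × Fin Nl)] (x : Fin r × Fin Nl → A) (i : Fin r) :
    cv C bl x i = ∑ c, x c • cv C bl (Pi.single c (1 : A)) i := by
  simp only [cv, lc_eq_sum_smul, Finset.smul_sum]
  rw [Finset.sum_comm]
  refine Finset.sum_congr rfl fun l _ => ?_
  rw [Finset.sum_eq_single (i, l)]
  · simp
  · intro c _ hc
    rw [Pi.single_eq_of_ne hc.symm]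
    simp
  · simp

theorem GG_sum [DecidableEq (Fin r × Fin Nl)] (x : Fin r × Fin Nl → A) (i k : Fin r) :
    GG C bm bl p x i k = ∑ c, x c • GG C bm bl p (Pi.single c (1 : A)) i k := by
  simp only [GG, smul_sub, Finset.sum_sub_distrib]
  rw [cv_sum C bl x i, cv_sum C bl x k, Finset.sum_mul, Finset.sum_mul]
  simp only [smul_mul_assoc]

end defs

section nat

variable {A A' : Type*} [CommRing A] [Algebra C A] [CommRing A'] [Algebra C A'] (f : A →ₐ[C] A')
  (p : Sig r Nm ND Nt → A)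

theorem mp_F1 (j : Fin r) :
    mp f (F1 C ρ₀ bm bD bt n p j) = F1 C ρ₀ bm bD bt n (fun s => f (p s)) j := by
  simp [F1, ea, ex, eρ, mp_lc, mp_tmul]

theorem mp_F2 (i j : Fin r) :
    mp f (F2 C ρ₀ bm bD bt n p i j) = F2 C ρ₀ bm bD bt n (fun s => f (p s)) i j := by
  simp [F2, ea, eqq, eρ, mp_lc, mp_tmul]

theorem mp_F3 : mp f (F3 C (B := B) bD p) = F3 C bD (fun s => f (p s)) := by
  simp [F3, ez, ex, mp_lc]

theorem mp_GG (x : Fin r × Fin Nl → A) (i k : Fin r) :
    mp f (GG C bm bl p x i k) = GG C bm bl (fun s => f (p s)) (fun c => f (x c)) i k := by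
  simp [GG, cv, ea, mp_lc]

end nat

/-- the universal point -/
noncomputable abbrev uX (r Nm ND Nt : ℕ) : Sig r Nm ND Nt → MvPolynomial (Sig r Nm ND Nt) C :=
  MvPolynomial.X

/-- the equations -/
def Eqs {A : Type*} [CommRing A] [Algebra C A] (p : Sig r Nm ND Nt → A) : Prop :=
  (∀ j, F1 C ρ₀ bm bD bt n p j = 0) ∧ (∀ i j, F2 C ρ₀ bm bD bt n p i j = 0) ∧
    F3 C bD p = 0

/-- the polynomial equations -/
def IdE : Set (MvPolynomial (Sig r Nm ND Nt) C) :=
  {f | (∃ j i, f = co (F1 C ρ₀ bm bD bt n (uX C r Nm ND Nt) j) i) ∨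
    (∃ j k i, f = co (F2 C ρ₀ bm bD bt n (uX C r Nm ND Nt) j k) i) ∨
    ∃ i, f = co (F3 C bD (uX C r Nm ND Nt)) i}

theorem Eqs_iff {A : Type*} [CommRing A] [Algebra C A] (z : Sig r Nm ND Nt → A) :
    Eqs C ρ₀ bm bD bt n z ↔ ∀ f ∈ IdE (r := r) C ρ₀ bm bD bt n, MvPolynomial.aeval z f = 0 := by
  have hX : (fun s => MvPolynomial.aeval (R := C) z (MvPolynomial.X s)) = z := by
    funext s; simp
  have h1 : ∀ j i, MvPolynomial.aeval z (co (F1 C ρ₀ bm bD bt n (uX C r Nm ND Nt) j) i) =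
      co (F1 C ρ₀ bm bD bt n z j) i := by
    intro j i
    rw [← co_mp, mp_F1, hX]
  have h2 : ∀ j k i, MvPolynomial.aeval z (co (F2 C ρ₀ bm bD bt n (uX C r Nm ND Nt) j k) i) =
      co (F2 C ρ₀ bm bD bt n z j k) i := by
    intro j k i
    rw [← co_mp, mp_F2, hX]
  have h3 : ∀ i, MvPolynomial.aeval z (co (F3 C (B := B) bD
      (uX C r Nm ND Nt)) i) =
      co (F3 C bD z) i := by
    intro i
    rw [← co_mp, mp_F3, hX]
  constructor
  · rintro ⟨e1, e2, e3⟩ f (⟨j, i, rfl⟩ | ⟨j, k, i, rfl⟩ | ⟨i, rfl⟩)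
    · rw [h1, e1]; simp [co]
    · rw [h2, e2]; simp [co]
    · rw [h3, e3]; simp [co]
  · intro h
    refine ⟨fun j => ?_, fun j k => ?_, ?_⟩
    · rw [eq_zero_iff]
      intro i
      rw [← h1]
      exact h _ (Or.inl ⟨j, i, rfl⟩)
    · rw [eq_zero_iff]
      intro i
      rw [← h2]
      exact h _ (Or.inr (Or.inl ⟨j, k, i, rfl⟩))
    · rw [eq_zero_iff]
      intro i
      rw [← h3]
      exact h _ (Or.inr (Or.inr ⟨i, rfl⟩))

/-- the universal matrix entries -/
noncomputable def ent (c : (Fin r × Fin r) × (Fin r × Fin Nl)) :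
    MvPolynomial (Sig r Nm ND Nt) C ⊗[C] B :=
  GG C bm bl (uX C r Nm ND Nt) (Pi.single c.2 1) c.1.1 c.1.2

open Classical in
/-- the indices of the coordinates that occur -/
noncomputable def SS (r ND Nt : ℕ) (bm : Fin Nm → B) (bl : Fin Nl → B) :
    Finset (Module.Basis.ofVectorSpaceIndex C B) :=
  Finset.univ.biUnion fun c : (Fin r × Fin r) × (Fin r × Fin Nl) =>
    ((Algebra.TensorProduct.basis (MvPolynomial (Sig r Nm ND Nt) C)
      (Module.Basis.ofVectorSpace C B)).repr (ent (ND := ND) (Nt := Nt) C bm bl c)).support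

theorem co_ent (c : (Fin r × Fin r) × (Fin r × Fin Nl)) (s : Module.Basis.ofVectorSpaceIndex C B)
    (hs : s ∉ SS C r ND Nt bm bl) : co (ent (ND := ND) (Nt := Nt) C bm bl c) s = 0 := by
  classical
  by_contra h
  apply hs
  rw [SS, Finset.mem_biUnion]
  exact ⟨c, Finset.mem_univ c, by rw [Finsupp.mem_support_iff]; exact h⟩

/-- the matrix -/
noncomputable def Mat (r ND Nt : ℕ) (bm : Fin Nm → B) (bl : Fin Nl → B) :
    Matrix ((Fin r × Fin r) × SS C r ND Nt bm bl) (Fin r × Fin Nl)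
      (MvPolynomial (Sig r Nm ND Nt) C) :=
  fun a c => co (ent C bm bl (a.1, c)) a.2

theorem mat_iff {A : Type*} [CommRing A] [Algebra C A] (z : Sig r Nm ND Nt → A)
    (x : Fin r × Fin Nl → A) :
    ((Mat C r ND Nt bm bl).map (MvPolynomial.aeval z)).mulVec x = 0 ↔
      ∀ i k, GG C bm bl z x i k = 0 := by
  classical
  have hX : (fun s => MvPolynomial.aeval (R := C) z (MvPolynomial.X s)) = z := by
    funext s; simp
  have hsg : ∀ c : Fin r × Fin Nl, (fun s => MvPolynomial.aeval (R := C) z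
      ((Pi.single c (1 : MvPolynomial (Sig r Nm ND Nt) C) : Fin r × Fin Nl → _) s)) =
      Pi.single c (1 : A) := by
    intro c
    funext s
    by_cases h : s = c
    · subst h; simp
    · simp [h]
  have h1 : ∀ i k s (c : Fin r × Fin Nl), MvPolynomial.aeval z (co (ent C bm bl ((i, k), c)) s) =
      co (GG C bm bl z (Pi.single c (1 : A)) i k) s := by
    intro i k s c
    rw [← co_mp, ent, mp_GG, hX, hsg]
  have h2 : ∀ i k s, co (GG C bm bl z x i k) s =
      ∑ c, MvPolynomial.aeval z (co (ent C bm bl ((i, k), c)) s) * x c := by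
    intro i k s
    rw [GG_sum, co_sum_smul]
    exact Finset.sum_congr rfl fun c _ => by rw [h1]
  constructor
  · intro h i k
    rw [eq_zero_iff]
    intro s
    rw [h2]
    by_cases hs : s ∈ SS C r ND Nt bm bl
    · exact congrFun h ((i, k), ⟨s, hs⟩)
    · apply Finset.sum_eq_zero
      intro c _
      rw [co_ent C bm bl ((i, k), c) s hs, map_zero, zero_mul]
  · intro h
    funext a
    obtain ⟨⟨i, k⟩, s⟩ := a
    have h3 := h2 i k s
    rw [h i k] at h3
    have h4 : co (0 : A ⊗[C] B) (s : Module.Basis.ofVectorSpaceIndex C B) = 0 := by simp [co]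
    rw [h4] at h3
    exact h3.symm

end gen

universe u v

theorem dE_lt {C : Type u} {B : Type v} [Field C] [CommRing B] [Algebra C B] {d : B → ℕ}
    (hd : IsPoleDeg C d) {E : Type u} [Field E] [Algebra C E] {dE : E ⊗[C] B → ℕ}
    (hdE2 : ∀ m x, dE x ≤ m ↔
      x ∈ Submodule.span E ((fun b => (1 : E) ⊗ₜ[C] b) '' {b : B | d b ≤ m}))
    (m : ℕ) {k : ℕ} (b : Fin k → B) (hb : ∀ l, b l = 0 ∨ d (b l) < m) (p : Fin k → E) :
    lc (C := C) b p = 0 ∨ dE (lc b p) < m := by
  cases m with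
  | zero =>
    left
    rw [lc]
    apply Finset.sum_eq_zero
    intro l _
    rcases hb l with h | h
    · rw [h, TensorProduct.tmul_zero]
    · omega
  | succ m =>
    right
    apply Nat.lt_succ_of_le
    rw [hdE2]
    apply lc_mem
    intro l
    change d (b l) ≤ m
    rcases hb l with h | h
    · rw [h, hd.zero]; exact Nat.zero_le _
    · omega

theorem key {C : Type u} {B : Type v} [Field C] [IsAlgClosed C] [CharZero C] [CommRing B]
    [IsDomain B] [Algebra C B] {d : B → ℕ} (hd : IsPoleDeg C d) (n : ℕ) (hn : 1 ≤ n)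
    (m r D N : ℕ) (ρ₀ : B) (hρ₀ : d ρ₀ = N) (𝒱 : Set B) (h𝒱 : 𝒱.Infinite)
    (hτ : ∀ τ ∈ 𝒱, τ = 0 ∨ d τ < N)
    (hdata : ∀ τ ∈ 𝒱, ∃ (a x z : Fin r → B) (q : Fin r → Fin r → B), (∀ i, d (a i) ≤ m) ∧
      (∀ j, (ρ₀ + τ) * x j = a j ^ n) ∧ (∀ i j, (ρ₀ + τ) * q i j = a i * a j ^ (n - 1)) ∧
      ∑ j, z j * x j = 1 ∧ (∀ j, d (x j) ≤ D ∧ d (z j) ≤ D) ∧ (∀ i j, d (q i j) ≤ D) ∧
      ∀ c : Fin r → B, (∀ i, c i = 0 ∨ d (c i) < m) → (∀ i k, c i * a k = c k * a i) →
        ∀ i, c i = 0) : False := by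
  classical
  have fW : ∀ k, Module.Finite C (W hd k) := PB1.W_finite hd
  have fm := fW m
  have fD := fW D
  have fWlt : ∀ k, Module.Finite C (Wlt hd k) := by
    intro k
    have := fW k
    have hle : Wlt hd k ≤ W hd k := by
      rintro x (rfl | hx)
      · exact (W hd k).zero_mem
      · exact hx.le
    exact Submodule.finiteDimensional_of_le hle
  have ft := fWlt N
  have fl := fWlt m
  let βm := Module.finBasis C (W hd m)
  let βD := Module.finBasis C (W hd D)
  let βt := Module.finBasis C (Wlt hd N)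
  let βl := Module.finBasis C (Wlt hd m)
  let bm : Fin _ → B := fun l => (βm l : B)
  let bD : Fin _ → B := fun l => (βD l : B)
  let bt : Fin _ → B := fun l => (βt l : B)
  let bl : Fin _ → B := fun l => (βl l : B)
  have hblI : LinearIndependent C bl :=
    βl.linearIndependent.map' (Submodule.subtype _) (Submodule.ker_subtype _)
  have hbtI : LinearIndependent C bt :=
    βt.linearIndependent.map' (Submodule.subtype _) (Submodule.ker_subtype _)
  -- points over `C`
  have hpt : ∀ τ (hτ' : τ ∈ 𝒱), ∃ z : Sig r _ _ _ → C, Eqs C ρ₀ bm bD bt n z ∧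
      (∀ x, ((Mat C r _ _ bm bl).map (MvPolynomial.eval z)).mulVec x = 0 → x = 0) ∧
      ∀ l, z (.inr (.inr (.inr (.inr l)))) = βt.repr ⟨τ, hτ τ hτ'⟩ l := by
    intro τ hτ'
    obtain ⟨a, x, z, q, ha, h1, h2, h3, hxz, hq, hinj⟩ := hdata τ hτ'
    let pt : Sig r _ _ _ → C := Sum.elim (fun c => βm.repr ⟨a c.1, ha c.1⟩ c.2)
      (Sum.elim (fun c => βD.repr ⟨x c.1, (hxz c.1).1⟩ c.2)
        (Sum.elim (fun c => βD.repr ⟨z c.1, (hxz c.1).2⟩ c.2)
          (Sum.elim (fun c => βD.repr ⟨q c.1.1 c.1.2, hq c.1.1 c.1.2⟩ c.2)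
            (fun l => βt.repr ⟨τ, hτ τ hτ'⟩ l))))
    have ha' : ∀ i, ea C bm pt i = 1 ⊗ₜ a i := by
      intro i
      have h := lc_eq_one_tmul (A := C) bm (fun l => βm.repr ⟨a i, ha i⟩ l)
      rw [sum_repr_coe] at h
      exact h
    have hx' : ∀ i, ex C bD pt i = 1 ⊗ₜ x i := by
      intro i
      have h := lc_eq_one_tmul (A := C) bD (fun l => βD.repr ⟨x i, (hxz i).1⟩ l)
      rw [sum_repr_coe] at h
      exact h
    have hz' : ∀ i, ez C bD pt i = 1 ⊗ₜ z i := by
      intro i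
      have h := lc_eq_one_tmul (A := C) bD (fun l => βD.repr ⟨z i, (hxz i).2⟩ l)
      rw [sum_repr_coe] at h
      exact h
    have hq' : ∀ i j, eqq C bD pt i j = 1 ⊗ₜ q i j := by
      intro i j
      have h := lc_eq_one_tmul (A := C) bD (fun l => βD.repr ⟨q i j, hq i j⟩ l)
      rw [sum_repr_coe] at h
      exact h
    have hr' : eρ C ρ₀ bt pt = 1 ⊗ₜ (ρ₀ + τ) := by
      have h := lc_eq_one_tmul (A := C) bt (fun l => βt.repr ⟨τ, hτ τ hτ'⟩ l)
      rw [sum_repr_coe] at h
      rw [TensorProduct.tmul_add, ← h]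
      rfl
    refine ⟨pt, ⟨fun j => ?_, fun i j => ?_, ?_⟩, ?_, fun l => rfl⟩
    · rw [F1, hr', hx', ha', Algebra.TensorProduct.tmul_mul_tmul, Algebra.TensorProduct.tmul_pow,
        h1, mul_one, one_pow, sub_self]
    · rw [F2, hr', hq', ha', ha', Algebra.TensorProduct.tmul_mul_tmul,
        Algebra.TensorProduct.tmul_pow, Algebra.TensorProduct.tmul_mul_tmul,
        h2, mul_one, one_pow, mul_one, sub_self]
    · rw [F3]
      simp only [hz', hx', Algebra.TensorProduct.tmul_mul_tmul, mul_one]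
      rw [← TensorProduct.tmul_sum, h3, ← Algebra.TensorProduct.one_def, sub_self]
    · intro y hy
      rw [← MvPolynomial.coe_aeval_eq_eval] at hy
      have hG := (mat_iff C bm bl pt y).1 hy
      have hc : ∀ i, cv C bl y i = 1 ⊗ₜ (∑ l, y (i, l) • bl l) := fun i =>
        lc_eq_one_tmul (A := C) bl (fun l => y (i, l))
      have hc0 := hinj (fun i => ∑ l, y (i, l) • bl l) (fun i => by
        have : (∑ l, y (i, l) • bl l) ∈ Wlt hd m :=
          Submodule.sum_mem _ fun l _ => Submodule.smul_mem _ _ (βl l).2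
        exact this) (fun i k => by
        have h4 := hG i k
        rw [GG, hc, hc, ha', ha', Algebra.TensorProduct.tmul_mul_tmul,
          Algebra.TensorProduct.tmul_mul_tmul, ← TensorProduct.tmul_sub] at h4
        have h5 := congrArg (TensorProduct.lid C B) h4
        rw [TensorProduct.lid_tmul, map_zero, mul_one, one_smul, sub_eq_zero] at h5
        exact h5)
      funext ⟨i, l⟩
      have h6 := Fintype.linearIndependent_iff.1 hblI (fun l => y (i, l)) (hc0 i) l
      exact h6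
  obtain ⟨H, hH1, hH2⟩ := exists_minor (Mat C r (Module.finrank C (W hd D))
    (Module.finrank C (Wlt hd N)) bm bl)
  let T : MvPolynomial (Sig r _ _ _) C → Fin _ → Set C := fun h j =>
    {c : C | ∃ z : Sig r _ _ _ → C, (∀ p ∈ IdE (r := r) C ρ₀ bm bD bt n,
      MvPolynomial.eval z p = 0) ∧ MvPolynomial.eval z h ≠ 0 ∧
        z (.inr (.inr (.inr (.inr j)))) = c}
  have hT : ∃ h ∈ H, ∃ j, (T h j).Infinite := by
    by_contra hcon
    push Not at hcon
    apply h𝒱
    have hfin : (⋃ h ∈ H, Set.pi Set.univ (T h)).Finite :=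
      H.finite_toSet.biUnion fun h hh => Set.Finite.pi fun j => hcon h hh j
    refine (hfin.image (fun v => ∑ l, v l • (βt l : B))).subset ?_
    intro τ hτ'
    obtain ⟨z, hz1, hz2, hz3⟩ := hpt τ hτ'
    obtain ⟨h, hh, hne⟩ := hH1 z hz2
    refine ⟨fun l => βt.repr ⟨τ, hτ τ hτ'⟩ l, ?_, ?_⟩
    · simp only [Set.mem_iUnion]
      refine ⟨h, hh, fun j _ => ⟨z, fun p hp => ?_, hne, hz3 j⟩⟩
      have := (Eqs_iff C ρ₀ bm bD bt n z).1 hz1 p hp
      rw [← MvPolynomial.coe_aeval_eq_eval]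
      exact this
    · exact sum_repr_coe _ βt ⟨τ, hτ τ hτ'⟩
  obtain ⟨h, hh, j, hj⟩ := hT
  obtain ⟨E, _, _, z, δ, hz, hzh, hδ⟩ := exists_generic (IdE (r := r) C ρ₀ bm bD bt n) h
    (.inr (.inr (.inr (.inr j)))) hj
  have hE0 : CharZero E := charZero_of_injective_algebraMap (algebraMap C E).injective
  obtain ⟨hdom, dE, hdE, hdE1, hdE2⟩ := pd_baseChange (E := E) hd
  obtain ⟨e1, e2, e3⟩ := (Eqs_iff C ρ₀ bm bD bt n z).2 hz
  have hMat : ∀ x, ((Mat C r _ _ bm bl).map (MvPolynomial.aeval z)).mulVec x = 0 → x = 0 :=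
    hH2 E z h hh hzh
  have hN : 1 ≤ N := by
    by_contra hcon
    have hN0 : N = 0 := by omega
    have h1 := (βt j).2
    have h2 : (βt j : B) = 0 := by
      rcases (mem_Wlt hd).1 h1 with h | h
      · exact h
      · omega
    exact (βt.ne_zero j) (Subtype.ext h2)
  have hτlt : ∀ p, lc (C := C) bt p = 0 ∨ dE (lc bt p) < N :=
    dE_lt hd hdE2 N bt (fun l => (mem_Wlt hd).1 (βt l).2)
  -- `ρ`
  have hρlt : eρ C ρ₀ bt z ∉ Wlt hdE N := by
    intro h1
    have h2 : lc (C := C) bt (fun l => z (.inr (.inr (.inr (.inr l))))) ∈ Wlt hdE N := hτlt _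
    have h3 := Submodule.sub_mem _ h1 h2
    rw [eρ, add_sub_cancel_right] at h3
    rcases (mem_Wlt hdE).1 h3 with h4 | h4
    · have := hdE1 ρ₀
      rw [h4, hdE.zero, hρ₀] at this
      omega
    · rw [hdE1, hρ₀] at h4
      omega
  rw [mem_Wlt, not_or, not_lt] at hρlt
  have hddρ : dd δ (eρ C ρ₀ bt z) = lc bt (fun l => δ (z (.inr (.inr (.inr (.inr l)))))) := by
    rw [eρ, map_add, dd_tmul, dd_lc, Derivation.map_one_eq_zero, TensorProduct.zero_tmul, zero_add]
  have hzero : dd δ (eρ C ρ₀ bt z) = 0 := by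
    refine t1_der hdE n hn (dd δ).toAddMonoidHom (fun x y => dd_mul δ x y) m r (eρ C ρ₀ bt z)
      hρlt.1 ?_ (ea C bm z) (ex C bD z) (ez C bD z) (eqq C bD z) ?_ ?_ ?_ ?_ ?_ ?_
    · rcases hτlt (fun l => δ (z (.inr (.inr (.inr (.inr l)))))) with h1 | h1
      · right
        change dd δ (eρ C ρ₀ bt z) = 0
        rw [hddρ, h1]
      · left
        change dE (dd δ (eρ C ρ₀ bt z)) < _
        rw [hddρ]
        exact h1.trans_le hρlt.2
    · intro i
      rw [hdE2]
      exact lc_mem _ _ _ fun l => (βm l).2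
    · by_contra hcon
      push Not at hcon
      have h1 : ∀ k, ex C bD z k = 0 := by
        intro k
        have h2 := e1 k
        rw [F1, hcon k, zero_pow (by omega), sub_zero] at h2
        exact (mul_eq_zero.1 h2).resolve_left hρlt.1
      have h3 := e3
      rw [F3] at h3
      simp only [h1, mul_zero, Finset.sum_const_zero, zero_sub, neg_eq_zero] at h3
      exact one_ne_zero h3
    · intro k
      exact sub_eq_zero.1 (e1 k)
    · intro i k
      exact sub_eq_zero.1 (e2 i k)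
    · exact sub_eq_zero.1 e3
    · intro c hc hck
      have hx : ∀ i, ∃ p : Fin _ → E, c i = lc bl p := by
        intro i
        rcases hc i with h1 | h1
        · exact ⟨0, by rw [h1]; simp [lc]⟩
        · have h2 : c i ∈ Submodule.span E ((fun b => (1 : E) ⊗ₜ[C] b) '' {b : B | d b ≤ m - 1}) := by
            rw [← hdE2]; omega
          exact exists_lc (Wlt hd m) βl _ (fun b (hb : d b ≤ m - 1) =>
            Or.inr (by omega)) (c i) h2
      choose p hp using hx
      have hcv : ∀ i, cv C bl (fun s => p s.1 s.2) i = c i := fun i => (hp i).symm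
      have h3 := hMat (fun s => p s.1 s.2) ((mat_iff C bm bl z _).2 (fun i k => by
        rw [GG, hcv, hcv, hck i k, sub_self]))
      intro i
      rw [hp i]
      have h4 : p i = 0 := by
        funext l
        exact congrFun h3 (i, l)
      rw [h4]
      simp [lc]
  rw [hddρ] at hzero
  exact hδ (congrFun (lc_injective bt hbtI _ hzero) j)

end T1Main

end Pool.Agent.Lib.MP_2f3286_ag.Pt
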