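import Pool.Agent.Lib.MP_2f3286_ag.Pt.Defs

/-!
# MP_2f3286_ag, campaign II, module T1MAIN, part 1: linear combinations with coefficients in an
algebra, coordinates, and the extension of a derivation
-/

open scoped TensorProduct

namespace Pool.Agent.Lib.MP_2f3286_ag.Pt

namespace T1Main

section lc

variable {C B A A' : Type*} [Field C] [CommRing B] [Algebra C B] [CommRing A] [Algebra C A]
  [CommRing A'] [Algebra C A']

/-- linear combination of elements of `B` with coefficients in `A` -/
noncomputable def lc {k : ℕ} (b : Fin k → B) (p : Fin k → A) : A ⊗[C] B := ∑ l, p l ⊗ₜ[C] b l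

/-- base change of the coefficients -/
noncomputable def mp (f : A →ₐ[C] A') : A ⊗[C] B →ₐ[C] A' ⊗[C] B :=
  Algebra.TensorProduct.map f (AlgHom.id C B)

theorem mp_tmul (f : A →ₐ[C] A') (a : A) (b : B) : mp f (a ⊗ₜ[C] b) = f a ⊗ₜ b := by
  simp [mp]

theorem mp_lc (f : A →ₐ[C] A') {k : ℕ} (b : Fin k → B) (p : Fin k → A) :
    mp f (lc b p) = lc b (fun l => f (p l)) := by
  simp [lc, mp_tmul]

theorem lc_eq_one_tmul {k : ℕ} (b : Fin k → B) (c : Fin k → C) :
    lc b (fun l => algebraMap C A (c l)) = (1 : A) ⊗ₜ[C] (∑ l, c l • b l) := by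
  rw [lc, TensorProduct.tmul_sum]
  refine Finset.sum_congr rfl fun l _ => ?_
  rw [TensorProduct.tmul_smul, TensorProduct.smul_tmul', Algebra.smul_def, mul_one]

theorem lc_eq_sum_smul {k : ℕ} (b : Fin k → B) (p : Fin k → A) :
    lc (C := C) b p = ∑ l, p l • ((1 : A) ⊗ₜ[C] b l) := by
  rw [lc]
  refine Finset.sum_congr rfl fun l _ => ?_
  rw [TensorProduct.smul_tmul', smul_eq_mul, mul_one]

/-- coordinates with respect to a basis of `B` -/
noncomputable def co (t : A ⊗[C] B) (i : Module.Basis.ofVectorSpaceIndex C B) : A :=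
  (Algebra.TensorProduct.basis A (Module.Basis.ofVectorSpace C B)).repr t i

theorem co_mp (f : A →ₐ[C] A') (t : A ⊗[C] B) (i) : co (mp f t) i = f (co t i) := by
  induction t using TensorProduct.induction_on with
  | zero => simp [co]
  | tmul a b =>
    rw [mp_tmul]
    simp [co]
  | add x y hx hy =>
    have h1 : co (x + y) i = co x i + co y i := by simp [co]
    have h2 : co (mp f x + mp f y) i = co (mp f x) i + co (mp f y) i := by simp [co]
    rw [map_add, h2, h1, hx, hy, map_add]

theorem eq_zero_iff (t : A ⊗[C] B) : t = 0 ↔ ∀ i, co t i = 0 := by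
  constructor
  · rintro rfl i
    simp [co]
  · intro h
    apply (Algebra.TensorProduct.basis A (Module.Basis.ofVectorSpace C B)).repr.injective
    ext i
    rw [map_zero]
    exact h i

theorem co_sum_smul {κ : Type*} [Fintype κ] (x : κ → A) (t : κ → A ⊗[C] B) (i) :
    co (∑ c, x c • t c) i = ∑ c, co (t c) i * x c := by
  simp only [co, map_sum, map_smul, Finsupp.coe_finsetSum, Finset.sum_apply, Finsupp.smul_apply,
    smul_eq_mul]
  exact Finset.sum_congr rfl fun c _ => mul_comm _ _

theorem lc_injective {k : ℕ} (b : Fin k → B) (hb : LinearIndependent C b) (p : Fin k → A)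
    (h : lc (C := C) b p = 0) : p = 0 := by
  classical
  obtain ⟨g, hg⟩ := LinearMap.exists_leftInverse_of_injective
    (Fintype.linearCombination C b) (by
      rw [LinearMap.ker_eq_bot]
      exact linearIndependent_iff_injective_fintypeLinearCombination.1 hb)
  have hgb : ∀ l, g (b l) = Pi.single l 1 := by
    intro l
    have := LinearMap.congr_fun hg (Pi.single l 1)
    simpa using this
  funext l
  have h1 := congrArg (fun t => TensorProduct.rid C A
    (LinearMap.lTensor A ((LinearMap.proj l : (Fin k → C) →ₗ[C] C) ∘ₗ g) t)) h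
  simp only [lc, map_sum, LinearMap.lTensor_tmul, LinearMap.comp_apply, hgb, LinearMap.proj_apply,
    TensorProduct.rid_tmul, map_zero] at h1
  rw [Finset.sum_eq_single l] at h1
  · simpa using h1
  · intro j _ hj
    simp [hj.symm]
  · simp

end lc

section field

variable {C B E : Type*} [Field C] [CommRing B] [Algebra C B] [Field E] [Algebra C E]

omit [Field E] [Algebra C E] in
theorem sum_repr_coe (U : Submodule C B) {k : ℕ} (β : Module.Basis (Fin k) C U) (u : U) :
    ∑ l, β.repr u l • (β l : B) = u := by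
  calc ∑ l, β.repr u l • (β l : B) = U.subtype (∑ l, β.repr u l • β l) := by
        rw [map_sum]; rfl
    _ = u := by rw [β.sum_repr]; rfl

theorem exists_lc (U : Submodule C B) {k : ℕ} (β : Module.Basis (Fin k) C U) (S : Set B)
    (hS : S ⊆ U) (t : E ⊗[C] B)
    (ht : t ∈ Submodule.span E ((fun b => (1 : E) ⊗ₜ[C] b) '' S)) :
    ∃ p : Fin k → E, t = lc (fun l => (β l : B)) p := by
  induction ht using Submodule.span_induction with
  | mem x hx =>
    obtain ⟨b, hb, rfl⟩ := hx
    obtain ⟨u, hu⟩ : ∃ u : U, (u : B) = b := ⟨⟨b, hS hb⟩, rfl⟩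
    refine ⟨fun l => algebraMap C E (β.repr u l), ?_⟩
    rw [lc_eq_one_tmul, sum_repr_coe, hu]
  | zero => exact ⟨0, by simp [lc]⟩
  | add x y _ _ hx hy =>
    obtain ⟨p, rfl⟩ := hx
    obtain ⟨p', rfl⟩ := hy
    exact ⟨p + p', by simp [lc, TensorProduct.add_tmul, Finset.sum_add_distrib]⟩
  | smul e x _ hx =>
    obtain ⟨p, rfl⟩ := hx
    refine ⟨e • p, ?_⟩
    rw [lc_eq_sum_smul, lc_eq_sum_smul, Finset.smul_sum]
    refine Finset.sum_congr rfl fun l _ => ?_
    rw [Pi.smul_apply, smul_assoc]

theorem lc_mem {k : ℕ} (b : Fin k → B) (p : Fin k → E) (S : Set B) (h : ∀ l, b l ∈ S) :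
    lc (C := C) b p ∈ Submodule.span E ((fun b => (1 : E) ⊗ₜ[C] b) '' S) := by
  rw [lc_eq_sum_smul]
  exact Submodule.sum_mem _ fun l _ => Submodule.smul_mem _ _
    (Submodule.subset_span ⟨b l, h l, rfl⟩)

/-- a derivation acting on the coefficients -/
noncomputable def dd (δ : Derivation C E E) : E ⊗[C] B →ₗ[C] E ⊗[C] B :=
  LinearMap.rTensor B (δ : E →ₗ[C] E)

theorem dd_tmul (δ : Derivation C E E) (e : E) (b : B) : dd δ (e ⊗ₜ[C] b) = δ e ⊗ₜ b := rfl

theorem dd_lc (δ : Derivation C E E) {k : ℕ} (b : Fin k → B) (p : Fin k → E) :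
    dd δ (lc (C := C) b p) = lc b (fun l => δ (p l)) := by
  rw [lc, map_sum]
  rfl

theorem dd_mul (δ : Derivation C E E) (x y : E ⊗[C] B) :
    dd δ (x * y) = x * dd δ y + y * dd δ x := by
  induction x using TensorProduct.induction_on with
  | zero => simp
  | add x x' hx hx' => rw [add_mul, map_add, map_add, hx, hx']; ring
  | tmul e b =>
    induction y using TensorProduct.induction_on with
    | zero => simp
    | add y y' hy hy' => rw [mul_add, map_add, map_add, hy, hy']; ring
    | tmul e' b' =>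
      rw [Algebra.TensorProduct.tmul_mul_tmul, dd_tmul, dd_tmul, dd_tmul,
        Algebra.TensorProduct.tmul_mul_tmul, Algebra.TensorProduct.tmul_mul_tmul, Derivation.leibniz,
        TensorProduct.add_tmul, mul_comm b' b, smul_eq_mul, smul_eq_mul]

end field

end T1Main

end Pool.Agent.Lib.MP_2f3286_ag.Pt
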